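import Pool.Agent.W_7d29a1_HS.Scale

/-!
MP_7d29a1_pr, TRACK H, part 4 (row 663), at one tilt `s`: the input (H3) of the tree lemma. The rate function `J μ s` is convex on the
whole line, so the splitting of the cost of a window needs no condition on the sums of the slopes: one block may be steep, its share in
the cost of the window is small. (Model: `W_7d29a1_X40.H3`, `H3b`.) (helper75)
-/

set_option autoImplicit false

namespace Pool.Agent.W_7d29a1_HX.X40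

open MeasureTheory ProbabilityTheory Filter Topology
open Pool.Agent.W_7d29a1_F Pool.Agent.W_7d29a1_h4g Pool.Agent.W_7d29a1_H
open Pool.Agent.W_7d29a1_HS
open Pool.Agent.W_1b8d5d_p (Rf)

variable {μ : Measure ℝ} [IsProbabilityMeasure μ] {s c C : ℝ} {n₀ : ℕ}

/-! ### The rate function for all slopes -/

/-- The rate function doubles and is comparable with its reflection, for all slopes. -/
theorem d2_all (h : In μ s c C n₀) : ∃ D : ℝ, 1 ≤ D ∧ ∀ x : ℝ, J μ s (2 * x) ≤ D * J μ s x ∧ J μ s (-x) ≤ D * J μ s x := by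
  obtain ⟨D, δ, hD, hδ, hs⟩ := h.sym
  obtain ⟨H, δ', hdir⟩ := h.dir
  obtain ⟨j, hj, hst⟩ := hdir.strict δ hδ
  refine ⟨max D (2 / j), hD.trans (le_max_left _ _), fun x => ?_⟩
  have hJ := h.rf.nn x
  rcases le_total |x| δ with h1 | h1
  · obtain ⟨h2, h3⟩ := hs x h1
    have h4 := mul_le_mul_of_nonneg_right (le_max_left D (2 / j)) hJ
    exact ⟨h2.trans h4, h3.trans h4⟩
  · have h2 := hst s (Set.mem_singleton s) x h1
    have h3 : 2 * |x| ≤ max D (2 / j) * J μ s x := by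
      calc 2 * |x| = 2 / j * (j * |x|) := by field_simp
        _ ≤ 2 / j * J μ s x := mul_le_mul_of_nonneg_left h2 (by positivity)
        _ ≤ max D (2 / j) * J μ s x := mul_le_mul_of_nonneg_right (le_max_right _ _) hJ
    constructor
    · have h4 := J_le_abs h.em h.nd s (2 * x)
      rw [abs_mul, abs_of_pos (by norm_num : (0 : ℝ) < 2)] at h4
      exact h4.trans h3
    · have h4 := J_le_abs h.em h.nd s (-x)
      rw [abs_neg] at h4
      have h5 := abs_nonneg x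
      linarith

omit [IsProbabilityMeasure μ] in
/-- Superlinearity, iterated. -/
theorem sup_iter75 (h : In μ s c C n₀) : ∃ ρ δ : ℝ, 0 < ρ ∧ ρ < 1 ∧ 0 < δ ∧ ∀ (k : ℕ) (x : ℝ), |x| ≤ δ →
    2 ^ k * J μ s (x / 2 ^ k) ≤ ρ ^ k * J μ s x := by
  obtain ⟨ρ, δ, hρ0, hρ1, hδ, hs⟩ := h.sup
  refine ⟨ρ, δ, hρ0, hρ1, hδ, fun k => ?_⟩
  induction k with
  | zero => intro x _; simp
  | succ k ih =>
    intro x hx
    have h1 : |x / 2 ^ k| ≤ δ := by
      rw [abs_div, abs_of_pos (by positivity : (0 : ℝ) < 2 ^ k)]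
      refine (div_le_self (abs_nonneg x) (one_le_pow₀ one_le_two)).trans hx
    have h2 := hs _ h1
    have e1 : x / 2 ^ (k + 1) = x / 2 ^ k / 2 := by rw [pow_succ]; field_simp
    have h3 := ih x hx
    rw [e1]
    calc (2 : ℝ) ^ (k + 1) * J μ s (x / 2 ^ k / 2) = 2 ^ k * (2 * J μ s (x / 2 ^ k / 2)) := by ring
      _ ≤ 2 ^ k * (ρ * J μ s (x / 2 ^ k)) := mul_le_mul_of_nonneg_left h2 (by positivity)
      _ = ρ * (2 ^ k * J μ s (x / 2 ^ k)) := by ring
      _ ≤ ρ * (ρ ^ k * J μ s x) := mul_le_mul_of_nonneg_left h3 hρ0.le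
      _ = ρ ^ (k + 1) * J μ s x := by ring

/-- The cost of one steep block, spread over `T` blocks, is small. -/
theorem spread75 (h : In μ s c C n₀) {ep : ℝ} (hep : 0 < ep) : ∃ T₀ : ℕ, 1 ≤ T₀ ∧ ∀ T : ℕ, T₀ ≤ T → ∀ x : ℝ, |x| ≤ 1 →
    T * J μ s (2 * (x / T)) ≤ ep * J μ s x := by
  obtain ⟨ρ, δ, hρ0, hρ1, hδ, hit⟩ := sup_iter75 h
  obtain ⟨k, hk⟩ := exists_pow_lt_of_lt_one (by positivity : 0 < ep / 2) hρ1
  obtain ⟨δ₁, hδ₁⟩ : ∃ δ₁ : ℝ, δ₁ = min δ 1 := ⟨_, rfl⟩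
  have hd0 : 0 < δ₁ := by rw [hδ₁]; exact lt_min hδ one_pos
  have hd1 : δ₁ ≤ 1 := by rw [hδ₁]; exact min_le_right _ _
  have hd2 : δ₁ ≤ δ := by rw [hδ₁]; exact min_le_left _ _
  obtain ⟨T₁, hT₁⟩ := exists_nat_ge (2 * 2 ^ k / δ₁)
  refine ⟨max T₁ 1, le_max_right _ _, fun T hT x hx => ?_⟩
  have hT1 : 1 ≤ T := (le_max_right _ _).trans hT
  have hT0 : (0 : ℝ) < T := by exact_mod_cast hT1
  have hTT : 2 * 2 ^ k / δ₁ ≤ T := hT₁.trans (by exact_mod_cast (le_max_left _ _).trans hT)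
  have hJ := h.rf.nn x
  obtain ⟨t, ht⟩ : ∃ t : ℝ, t = 2 * 2 ^ k / (δ₁ * T) := ⟨_, rfl⟩
  have ht0 : 0 ≤ t := by rw [ht]; positivity
  have ht1 : t ≤ 1 := by
    rw [ht, div_le_one (by positivity)]
    rw [div_le_iff₀ hd0] at hTT
    linarith
  have e1 : 2 * (x / T) = t * (δ₁ * x / 2 ^ k) := by
    rw [ht]
    field_simp
  have h1 := h.rf.mul_le ht0 ht1 (δ₁ * x / 2 ^ k)
  have h2 := hit k (δ₁ * x) (by
    rw [abs_mul, abs_of_pos hd0]
    have := mul_le_mul_of_nonneg_left hx hd0.le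
    linarith)
  have h3 := h.rf.mul_le hd0.le hd1 x
  have h4 : (2 : ℝ) ^ k * J μ s (δ₁ * x / 2 ^ k) ≤ ρ ^ k * (δ₁ * J μ s x) :=
    h2.trans (mul_le_mul_of_nonneg_left h3 (by positivity))
  rw [e1]
  calc (T : ℝ) * J μ s (t * (δ₁ * x / 2 ^ k)) ≤ T * (t * J μ s (δ₁ * x / 2 ^ k)) := mul_le_mul_of_nonneg_left h1 hT0.le
    _ = 2 / δ₁ * (2 ^ k * J μ s (δ₁ * x / 2 ^ k)) := by rw [ht]; field_simp
    _ ≤ 2 / δ₁ * (ρ ^ k * (δ₁ * J μ s x)) := mul_le_mul_of_nonneg_left h4 (by positivity)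
    _ = 2 * ρ ^ k * J μ s x := by field_simp
    _ ≤ ep * J μ s x := mul_le_mul_of_nonneg_right (by linarith) hJ

/-! ### The splitting of the cost of a window -/

/-- Jensen with total weight at most one. -/
theorem J_sum_le {G : ℝ → ℝ} (hG : Rf G) {ι : Type*} (S : Finset ι) (v : ι → ℝ) {T : ℕ} (hT : 0 < T)
    (hs : S.card ≤ T) : T * G ((∑ i ∈ S, v i) / T) ≤ ∑ i ∈ S, G (v i) := by
  have hT0 : (0 : ℝ) < T := by exact_mod_cast hT
  rcases S.eq_empty_or_nonempty with h | h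
  · subst h
    simp [hG.zero]
  have hc : (0 : ℝ) < S.card := by exact_mod_cast h.card_pos
  have h1 : G ((∑ i ∈ S, v i) / S.card) ≤ (∑ i ∈ S, G (v i)) / S.card := by
    have h2 := hG.conv.map_sum_le (t := S) (w := fun _ => (1 : ℝ) / S.card) (p := v)
      (fun i _ => by positivity) (by rw [Finset.sum_const, nsmul_eq_mul]; field_simp)
      (fun i _ => Set.mem_univ _)
    simp only [smul_eq_mul] at h2
    rw [← Finset.mul_sum, ← Finset.mul_sum] at h2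
    rw [div_eq_inv_mul, div_eq_inv_mul, ← one_div]
    exact h2
  have hle : (S.card : ℝ) / T ≤ 1 := by
    rw [div_le_one hT0]
    exact_mod_cast hs
  have h3 := hG.mul_le (t := (S.card : ℝ) / T) (by positivity) hle ((∑ i ∈ S, v i) / S.card)
  have e1 : (S.card : ℝ) / T * ((∑ i ∈ S, v i) / S.card) = (∑ i ∈ S, v i) / T := by field_simp
  rw [e1] at h3
  calc (T : ℝ) * G ((∑ i ∈ S, v i) / T) ≤ T * ((S.card : ℝ) / T * G ((∑ i ∈ S, v i) / S.card)) :=
        mul_le_mul_of_nonneg_left h3 hT0.le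
    _ = S.card * G ((∑ i ∈ S, v i) / S.card) := by field_simp
    _ ≤ S.card * ((∑ i ∈ S, G (v i)) / S.card) := mul_le_mul_of_nonneg_left h1 hc.le
    _ = ∑ i ∈ S, G (v i) := by field_simp

/-- The cost of a window of `T` blocks, split into one block and the others. -/
theorem h3 {G : ℝ → ℝ} (hG : Rf G) {D q : ℝ} (hD : 0 ≤ D) (hG2 : ∀ x, G (2 * x) ≤ D * G x) {T : ℕ} (hT : 0 < T)
    (S : Finset ℕ) (v : ℕ → ℝ) {r : ℕ} (hr : r ∈ S) (hs : S.card ≤ T)
    (hq : T * G (2 * (v r / T)) ≤ q * G (v r)) :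
    T * G ((∑ i ∈ S, v i) / T) ≤ q / 2 * G (v r) + D / 2 * ∑ i ∈ S.erase r, G (v i) := by
  have hT0 : (0 : ℝ) < T := by exact_mod_cast hT
  have hall : (∑ i ∈ S, v i) = v r + ∑ i ∈ S.erase r, v i := (Finset.add_sum_erase S _ hr).symm
  have hcard : (S.erase r).card ≤ T := (Finset.card_le_card (Finset.erase_subset r S)).trans hs
  have h1 := J_sum_le hG (S.erase r) v hT hcard
  have h2 : G ((∑ i ∈ S, v i) / T) ≤
      1 / 2 * G (2 * (v r / T)) + 1 / 2 * G (2 * ((∑ i ∈ S.erase r, v i) / T)) := by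
    have h3 := hG.conv.2 (Set.mem_univ (2 * (v r / T))) (Set.mem_univ (2 * ((∑ i ∈ S.erase r, v i) / T)))
      (by norm_num : (0 : ℝ) ≤ 1 / 2) (by norm_num : (0 : ℝ) ≤ 1 / 2) (by norm_num)
    simp only [smul_eq_mul] at h3
    have e1 : 1 / 2 * (2 * (v r / T)) + 1 / 2 * (2 * ((∑ i ∈ S.erase r, v i) / T)) = (∑ i ∈ S, v i) / T := by
      rw [hall]
      ring
    rwa [e1] at h3
  have h4 := hG2 ((∑ i ∈ S.erase r, v i) / T)
  calc (T : ℝ) * G ((∑ i ∈ S, v i) / T)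
      ≤ T * (1 / 2 * G (2 * (v r / T)) + 1 / 2 * (D * G ((∑ i ∈ S.erase r, v i) / T))) :=
        mul_le_mul_of_nonneg_left (h2.trans (by linarith)) hT0.le
    _ = 1 / 2 * (T * G (2 * (v r / T))) + D / 2 * (T * G ((∑ i ∈ S.erase r, v i) / T)) := by ring
    _ ≤ 1 / 2 * (q * G (v r)) + D / 2 * ∑ i ∈ S.erase r, G (v i) :=
        add_le_add (mul_le_mul_of_nonneg_left hq (by norm_num)) (mul_le_mul_of_nonneg_left h1 (by positivity))
    _ = _ := by ring

/-- **(H3) for the tree.** The share of one child in the cost of a window of `T` children is at most `ep` for large `T`, up to `C₃`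
times the costs of the other children, `C₃` independent of `T`. -/
theorem hJ (h : In μ s c C n₀) : ∃ C₃ : ℝ, 1 ≤ C₃ ∧ ∀ ep : ℝ, 0 < ep → ∃ T₀ : ℕ, ∀ T : ℕ, T₀ ≤ T → ∀ v : ℕ → ℝ,
    (∀ r < T, |v r| ≤ 1) → ∀ r < T, T * J μ s ((∑ i ∈ Finset.range T, v i) / T) ≤
      ep * J μ s (v r) + C₃ * ∑ i ∈ (Finset.range T).erase r, J μ s (v i) := by
  obtain ⟨D, hD1, hD⟩ := d2_all h
  refine ⟨D, hD1, fun ep hep => ?_⟩
  obtain ⟨T₀, hT₀, hsp⟩ := spread75 h (ep := 2 * ep) (by positivity)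
  refine ⟨T₀, fun T hT v hv r hr => ?_⟩
  have h1 := h3 h.rf (D := D) (q := 2 * ep) (by linarith) (fun x => (hD x).1) (T := T) (by omega) (Finset.range T) v
    (Finset.mem_range.2 hr) (Finset.card_range T).le (hsp T hT (v r) (hv r hr))
  have h2 : 0 ≤ ∑ i ∈ (Finset.range T).erase r, J μ s (v i) := Finset.sum_nonneg fun i _ => h.rf.nn _
  have e1 : 2 * ep / 2 = ep := by ring
  rw [e1] at h1
  have h3 : D / 2 * ∑ i ∈ (Finset.range T).erase r, J μ s (v i) ≤ D * ∑ i ∈ (Finset.range T).erase r, J μ s (v i) :=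
    mul_le_mul_of_nonneg_right (by linarith) h2
  linarith

end Pool.Agent.W_7d29a1_HX.X40
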