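import Pool.Agent.W_7d29a1_HX.X40_LamA
import Pool.Agent.W_7d29a1_HX.X40_Mom

/-!
MP_7d29a1_pr, TRACK H, part 4 (row 663), at one tilt `s`, (E3): exponential moments of the luck of a cell of the width of the cone, for
ALL displacements, relative to a small multiple of the rate `m J(v)`. (Model: `W_7d29a1_X40.Lam`.) (helper75)
-/

set_option autoImplicit false

namespace Pool.Agent.W_7d29a1_HX.X40

open MeasureTheory ProbabilityTheory Filter Topology
open Pool.Agent.W_7d29a1_F Pool.Agent.W_7d29a1_h4g Pool.Agent.W_7d29a1_H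
open Pool.Agent.W_7d29a1_L (Mh kap Bx mem_Bx Mh_nonneg le_Mh Sub_Mh)
open Pool.Agent.W_7d29a1_HS Pool.Agent.W_7d29a1_G20

variable {μ : Measure ℝ} [IsProbabilityMeasure μ] {s c C : ℝ} {n₀ : ℕ}

/-- The constants of one class. -/
theorem class_int (h : In μ s c C n₀) : ∃ (b : ℕ) (G : ℝ), 1 ≤ b ∧ 1 ≤ G ∧ ∃ n₁ : ℕ, ∀ r : ℕ, n₁ ≤ r →
    0 < ⌊wd μ s r⌋₊ ∧ ∀ K : ℕ, 1 ≤ K → ∀ (M : ℕ) (x₀ : ℤ),
      Real.exp K * ∫ η, qc μ s ⌊wd μ s r⌋₊ (K * r) (K * md μ s r) (1 / (C * EE μ s r)) (b * K) (2 * K + 1) M x₀ η ∂(law μ) ≤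
        G * (1 / 2) ^ K := by
  obtain ⟨ρ, A, hρ0, hρ1, hA, n1, hn1⟩ := Mom_of h
  have hg := one_le_two_div hρ0 hρ1
  obtain ⟨A1, hA1⟩ : ∃ A1 : ℝ, A1 = A * (2 / (1 - ρ)) := ⟨_, rfl⟩
  have hA11 : 1 ≤ A1 := by rw [hA1]; nlinarith
  have hpos : 0 < 1 / (4 * Real.exp 1 * A1) := by positivity
  obtain ⟨b, hb⟩ := exists_pow_lt_of_lt_one hpos hρ1
  refine ⟨b + 1, 3 * (2 / (1 - ρ)), by omega, by linarith, n1, fun r hr => ?_⟩
  obtain ⟨hw0, hM⟩ := hn1 r hr
  refine ⟨hw0, fun K hK M x₀ => ?_⟩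
  have hE1 := one_le_EE (μ := μ) (s := s) r
  have hC1 := h.C1
  have hCE : 1 ≤ C * EE μ s r := by nlinarith
  have hθ0 : 0 < 1 / (C * EE μ s r) := by positivity
  have hθ1 : 1 / (C * EE μ s r) ≤ 1 := by rw [div_le_one (by linarith)]; exact hCE
  have h1 := Bk_iter h.em hθ0 hθ1 hw0 (d := md μ s r) (h.md_nonneg r) (h.md_le_nat r) hA hρ0 hρ1 hM hK
  rw [← hA1] at h1
  have h2 := qc_int h.em hw0 ((K : ℤ) * md μ s r) (θ := 1 / (C * EE μ s r)) hθ0.le hρ0 hρ1 (Q := A1 ^ K)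
    (by positivity) h1 ((b + 1) * K) (2 * K + 1) M x₀
  have h3 : ρ ^ ((b + 1) * K) ≤ (1 / (4 * Real.exp 1 * A1)) ^ K := by
    rw [pow_mul]
    refine pow_le_pow_left₀ (pow_nonneg hρ0 _) ?_ K
    refine le_trans ?_ hb.le
    exact pow_le_pow_of_le_one hρ0 hρ1.le (Nat.le_succ b)
  have h4 : Real.exp K * (A1 ^ K * ρ ^ ((b + 1) * K)) ≤ (1 / 4) ^ K := by
    have e1 : Real.exp K = Real.exp 1 ^ K := by rw [← Real.exp_nat_mul, mul_one]
    calc Real.exp K * (A1 ^ K * ρ ^ ((b + 1) * K)) ≤ Real.exp 1 ^ K * (A1 ^ K * (1 / (4 * Real.exp 1 * A1)) ^ K) := by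
          rw [e1]
          exact mul_le_mul_of_nonneg_left (mul_le_mul_of_nonneg_left h3 (by positivity)) (by positivity)
      _ = (Real.exp 1 * (A1 * (1 / (4 * Real.exp 1 * A1)))) ^ K := by rw [mul_pow, mul_pow]
      _ = (1 / 4) ^ K := by
          congr 1
          have : Real.exp 1 ≠ 0 := (Real.exp_pos 1).ne'
          have : A1 ≠ 0 := by linarith
          field_simp
  have hK1 : (1 : ℝ) ≤ K := by exact_mod_cast hK
  have hK2 : (K : ℝ) ≤ 2 ^ K := by exact_mod_cast (Nat.lt_two_pow_self (n := K)).le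
  have h5 : (K : ℝ) * (1 / 4) ^ K ≤ (1 / 2) ^ K := by
    have e1 : ((1 : ℝ) / 2) ^ K = 2 ^ K * (1 / 4) ^ K := by rw [← mul_pow]; norm_num
    rw [e1]
    exact mul_le_mul_of_nonneg_right hK2 (by positivity)
  have hG0 : 0 ≤ 2 / (1 - ρ) := by linarith
  calc Real.exp K * ∫ η, qc μ s ⌊wd μ s r⌋₊ (K * r) (K * md μ s r) (1 / (C * EE μ s r)) ((b + 1) * K) (2 * K + 1) M x₀ η ∂(law μ)
      ≤ Real.exp K * (((2 * K + 1 : ℕ) : ℝ) * (A1 ^ K * ρ ^ ((b + 1) * K) * (2 / (1 - ρ)))) :=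
        mul_le_mul_of_nonneg_left h2 (Real.exp_pos _).le
    _ = ((2 * K + 1 : ℕ) : ℝ) * (2 / (1 - ρ)) * (Real.exp K * (A1 ^ K * ρ ^ ((b + 1) * K))) := by ring
    _ ≤ ((2 * K + 1 : ℕ) : ℝ) * (2 / (1 - ρ)) * (1 / 4) ^ K := mul_le_mul_of_nonneg_left h4 (by positivity)
    _ ≤ (3 * K) * (2 / (1 - ρ)) * (1 / 4) ^ K := by
        refine mul_le_mul_of_nonneg_right (mul_le_mul_of_nonneg_right ?_ hG0) (by positivity)
        push_cast
        linarith
    _ = 3 * (2 / (1 - ρ)) * (K * (1 / 4) ^ K) := by ring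
    _ ≤ 3 * (2 / (1 - ρ)) * (1 / 2) ^ K := mul_le_mul_of_nonneg_left h5 (by linarith)

omit [IsProbabilityMeasure μ] in
/-- The distance of a far displacement from the centre, in cells. -/
theorem cell_dist75 {m r i b w : ℕ} {y : ℤ} {v : ℝ} (hmi : 2 ^ i * r = m) (hm : 0 < m)
    (hv : v = |(y : ℝ) / m - sl μ s|) (hb1 : 1 ≤ b) (hw0 : 0 < w) (hw : (w : ℝ) ≤ wd μ s r)
    (hbig : 3 * b * wd μ s r * 2 ^ i ≤ v * m) :
    (((b * 2 ^ i : ℕ) : ℤ) + 1) * (w : ℤ) ≤ |y - ((2 ^ i : ℕ) * md μ s r : ℤ)| := by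
  have hm0 : (0 : ℝ) < m := by exact_mod_cast hm
  have hmiR : (2 : ℝ) ^ i * r = m := by exact_mod_cast hmi
  have hwR : (1 : ℝ) ≤ w := by exact_mod_cast hw0
  have hb1R : (1 : ℝ) ≤ b := by exact_mod_cast hb1
  have hp1 : (1 : ℝ) ≤ 2 ^ i := one_le_pow₀ (by norm_num)
  obtain ⟨P, hP⟩ : ∃ P : ℝ, P = 2 ^ i := ⟨_, rfl⟩
  rw [← hP] at hp1 hmiR hbig
  have hP0 : 0 < P := by linarith
  have hcen : |sl μ s * m - P * (md μ s r : ℝ)| ≤ P := by
    have e1 := md_le (μ := μ) (s := s) r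
    have e2 := lt_md (μ := μ) (s := s) r
    have e3 : sl μ s * m - P * (md μ s r : ℝ) = P * (sl μ s * r - md μ s r) := by
      rw [← hmiR]
      ring
    rw [e3, abs_mul, abs_of_pos hP0, abs_of_nonneg (by linarith)]
    have e4 : P * (sl μ s * r - md μ s r) ≤ P * 1 := mul_le_mul_of_nonneg_left (by linarith) hP0.le
    linarith
  have e1 : v * m - P ≤ ((|y - ((2 ^ i : ℕ) * md μ s r : ℤ)| : ℤ) : ℝ) := by
    have e0 : v * m = |(y : ℝ) - sl μ s * m| := by
      rw [hv, ← abs_of_pos hm0, ← abs_mul, abs_of_pos hm0]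
      congr 1
      field_simp
    have e2 : |(y : ℝ) - sl μ s * m| ≤ |(y : ℝ) - P * (md μ s r : ℝ)| + |sl μ s * m - P * (md μ s r : ℝ)| := by
      have e3 : (y : ℝ) - sl μ s * m = ((y : ℝ) - P * (md μ s r : ℝ)) - (sl μ s * m - P * (md μ s r : ℝ)) := by ring
      rw [e3]
      exact abs_sub _ _
    have e4 : ((|y - ((2 ^ i : ℕ) * md μ s r : ℤ)| : ℤ) : ℝ) = |(y : ℝ) - P * (md μ s r : ℝ)| := by
      push_cast
      rw [← hP]
    rw [e0, e4]
    linarith
  have e2 : (((((b * 2 ^ i : ℕ) : ℤ) + 1) * (w : ℤ) : ℤ) : ℝ) ≤ v * m - P := by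
    push_cast
    rw [← hP]
    have e3 : 1 ≤ b * P := by nlinarith
    have e4 : P ≤ b * P * w := by
      have e5 : P * 1 ≤ P * (b * w) := mul_le_mul_of_nonneg_left (by nlinarith) hP0.le
      linarith
    have e5 : ((b : ℝ) * P + 1) * w ≤ (2 * (b * P)) * w := mul_le_mul_of_nonneg_right (by linarith) (by linarith)
    have e6 : (3 * (b * P)) * (w : ℝ) ≤ (3 * (b * P)) * wd μ s r := mul_le_mul_of_nonneg_left hw (by positivity)
    have e7 : (3 * (b * P)) * wd μ s r = 3 * b * wd μ s r * P := by ring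
    linarith
  exact_mod_cast e2.trans e1

/-- The rate in the unit of the class. -/
theorem cost75 (h : In μ s c C n₀) {D : ℝ} (hD1 : 1 ≤ D)
    (hD : ∀ x : ℝ, J μ s (2 * x) ≤ D * J μ s x ∧ J μ s (-x) ≤ D * J μ s x) {q m r i x₁ : ℕ} {x : ℝ} (hr : 1 ≤ r)
    (hmi : 2 ^ i * r = m) (hx1 : |x| ≤ 1) (hi : |x| ≤ 2 ^ q * vA 1 μ s r ∨ r = 2 ^ x₁) :
    m * J μ s x ≤ (D ^ (q + 2) + 2 ^ x₁) * (2 ^ i * EE μ s r) := by
  have hmiR : (2 : ℝ) ^ i * r = m := by exact_mod_cast hmi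
  have hr0 : (0 : ℝ) < r := by exact_mod_cast hr
  have hE1 := one_le_EE (μ := μ) (s := s) r
  have hDq : 0 ≤ D ^ (q + 2) := by positivity
  have hx0 : (0 : ℝ) ≤ 2 ^ x₁ := by positivity
  have hm0 : (0 : ℝ) ≤ m := Nat.cast_nonneg m
  rcases hi with h1 | h1
  · have h2 := J_vA_le h hD1 hD q r h1
    calc (m : ℝ) * J μ s x ≤ m * (D ^ (q + 2) * (EE μ s r / r)) := mul_le_mul_of_nonneg_left h2 hm0
      _ = D ^ (q + 2) * (2 ^ i * EE μ s r) := by rw [← hmiR]; field_simp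
      _ ≤ (D ^ (q + 2) + 2 ^ x₁) * (2 ^ i * EE μ s r) := mul_le_mul_of_nonneg_right (by linarith) (by positivity)
  · have h4 : J μ s x ≤ 1 := (J_le_abs h.em h.nd s x).trans hx1
    have h3 : (r : ℝ) = 2 ^ x₁ := by rw [h1]; push_cast; rfl
    calc (m : ℝ) * J μ s x ≤ m * 1 := mul_le_mul_of_nonneg_left h4 hm0
      _ = 2 ^ x₁ * (2 ^ i * 1) := by rw [← hmiR, h3]; ring
      _ ≤ 2 ^ x₁ * (2 ^ i * EE μ s r) := mul_le_mul_of_nonneg_left (mul_le_mul_of_nonneg_left hE1 (by positivity)) hx0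
      _ ≤ (D ^ (q + 2) + 2 ^ x₁) * (2 ^ i * EE μ s r) := mul_le_mul_of_nonneg_right (by linarith) (by positivity)

/-- **(E3)** Exponential moments of the luck of a cell relative to a small multiple of the rate. -/
theorem lam_exp (h : In μ s c C n₀) :
    ∃ c₁ A : ℝ, 0 < c₁ ∧ 1 ≤ A ∧ ∃ x₁ : ℕ, ∀ x, x₁ ≤ x → ∀ (z : ℝ) (I : Finset ℤ),
      (∀ i ∈ I, z < i ∧ (i : ℝ) ≤ z + wd μ s (2 ^ x)) →
      ∫ η, Real.exp (Lm μ s c₁ (2 ^ x) I η / (C * EE μ s (2 ^ x))) ∂(law μ) ≤ A := by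
  obtain ⟨D, hD1, hD⟩ := d2_all h
  obtain ⟨b, G, hb1, hG1, n1, hn1⟩ := class_int h
  obtain ⟨x₁, hx₁⟩ : ∃ x₁ : ℕ, x₁ = max n1 n₀ + 1 := ⟨_, rfl⟩
  obtain ⟨q, hq⟩ : ∃ q : ℕ, q = 6 * b := ⟨_, rfl⟩
  have hqb : (6 * b : ℝ) ≤ 2 ^ q := by
    have : 6 * b ≤ 2 ^ q := by rw [hq]; exact Nat.lt_two_pow_self.le
    exact_mod_cast this
  obtain ⟨Q, hQ⟩ : ∃ Q : ℝ, Q = D ^ (q + 2) + 2 ^ x₁ := ⟨_, rfl⟩
  have hDq : 1 ≤ D ^ (q + 2) := one_le_pow₀ hD1
  have hQ1 : 1 ≤ Q := by
    rw [hQ]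
    have : (0 : ℝ) ≤ 2 ^ x₁ := by positivity
    linarith
  have hC1 := h.C1
  have hC0 : 0 < C := by linarith
  have hres : 1 ≤ Real.exp 1 * C + 2 * G := by
    have h1 : 0 < Real.exp 1 * C := by positivity
    linarith
  refine ⟨C / Q, Real.exp 1 * C + 2 * G, by positivity, hres, x₁, fun x hx z I hI => ?_⟩
  obtain ⟨m, hm⟩ : ∃ m : ℕ, m = 2 ^ x := ⟨_, rfl⟩
  rw [← hm] at hI ⊢
  have hpow : ∀ k, x₁ ≤ k → n1 ≤ 2 ^ k ∧ n₀ ≤ 2 ^ k := by
    intro k hk
    have : k < 2 ^ k := Nat.lt_two_pow_self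
    omega
  have hmp : 0 < m := by rw [hm]; positivity
  have hm0 : (0 : ℝ) < m := by exact_mod_cast hmp
  have hEm1 := one_le_EE (μ := μ) (s := s) m
  have hEm : 0 < C * EE μ s m := by positivity
  -- the classes
  obtain ⟨r, hr⟩ : ∃ r : ℕ → ℕ, r = fun i => 2 ^ (x - i) := ⟨_, rfl⟩
  obtain ⟨F, hF⟩ : ∃ F : ℕ → Env → ℝ, F = fun i η => Real.exp ((2 ^ i : ℕ) : ℝ) *
      qc μ s ⌊wd μ s (r i)⌋₊ (2 ^ i * r i) ((2 ^ i : ℕ) * md μ s (r i)) (1 / (C * EE μ s (r i))) (b * 2 ^ i) (2 * 2 ^ i + 1)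
        (m + 1) ⌊z⌋ η := ⟨_, rfl⟩
  obtain ⟨U, hU⟩ : ∃ U : Env → ℝ, U = fun η =>
      Real.exp 1 * Real.exp (Mh μ s (sl μ s) 0 (wd μ s m) z (4 * m) η / (C * EE μ s m)) +
        ∑ i ∈ Finset.Icc 1 (x - x₁), F i η := ⟨_, rfl⟩
  have hri : ∀ i ∈ Finset.Icc 1 (x - x₁), n1 ≤ r i ∧ 1 ≤ r i ∧ 2 ^ i * r i = m := by
    intro i hi
    rw [Finset.mem_Icc] at hi
    refine ⟨?_, ?_, ?_⟩
    · rw [hr]; exact (hpow (x - i) (by omega)).1
    · rw [hr]
      exact Nat.one_le_two_pow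
    · rw [hr, hm]
      show 2 ^ i * 2 ^ (x - i) = 2 ^ x
      rw [← pow_add]
      congr 1
      omega
  have hF0 : ∀ i ∈ Finset.Icc 1 (x - x₁), ∀ η, 0 ≤ F i η := by
    intro i hi η
    rw [hF]
    obtain ⟨h1, h2, h3⟩ := hri i hi
    exact mul_nonneg (Real.exp_pos _).le (qc_nonneg (hn1 (r i) h1).1 _ _ _ _ _ _)
  have hFi : ∀ i ∈ Finset.Icc 1 (x - x₁), Integrable (F i) (law μ) := by
    intro i hi
    rw [hF]
    obtain ⟨h1, h2, h3⟩ := hri i hi
    have hE1 := one_le_EE (μ := μ) (s := s) (r i)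
    exact (qc_integrable h.em (hn1 (r i) h1).1 _ (by positivity) _ _ _ _).const_mul _
  have hFint : ∀ i ∈ Finset.Icc 1 (x - x₁), ∫ η, F i η ∂(law μ) ≤ G * (1 / 2) ^ i := by
    intro i hi
    obtain ⟨h1, h2, h3⟩ := hri i hi
    have h4 := (hn1 (r i) h1).2 (2 ^ i) Nat.one_le_two_pow (m + 1) ⌊z⌋
    rw [hF]
    simp only
    rw [integral_const_mul]
    refine h4.trans (mul_le_mul_of_nonneg_left ?_ (by linarith))
    exact pow_le_pow_of_le_one (by norm_num) (by norm_num) Nat.lt_two_pow_self.le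
  have hMS : Sub fun η => Mh μ s (sl μ s) 0 (wd μ s m) z (4 * m) η := Sub_Mh
  have hMI : Integrable (fun η => Real.exp (Mh μ s (sl μ s) 0 (wd μ s m) z (4 * m) η / (C * EE μ s m))) (law μ) := by
    have e3 := (hMS.const_mul (1 / (C * EE μ s m))).exp_int h.em
    refine (congrArg (fun f => Integrable f (law μ)) (funext fun η => ?_)).mp e3
    show Real.exp (1 / (C * EE μ s m) * Mh μ s (sl μ s) 0 (wd μ s m) z (4 * m) η) = _
    congr 1
    ring
  have hUI : Integrable U (law μ) := by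
    rw [hU]
    exact (hMI.const_mul _).add (integrable_finsetSum _ hFi)
  have hLI : Integrable (fun η => Real.exp (Lm μ s (C / Q) m I η / (C * EE μ s m))) (law μ) := by
    have e3 := ((Sub_Lm (μ := μ) (s := s) (C / Q) m I).const_mul (1 / (C * EE μ s m))).exp_int h.em
    refine (congrArg (fun f => Integrable f (law μ)) (funext fun η => ?_)).mp e3
    show Real.exp (1 / (C * EE μ s m) * Lm μ s (C / Q) m I η) = _
    congr 1
    ring
  -- the pointwise bound
  have hpt : ∀ η, Real.exp (Lm μ s (C / Q) m I η / (C * EE μ s m)) ≤ U η := by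
    intro η
    have hSF : 0 ≤ ∑ i ∈ Finset.Icc 1 (x - x₁), F i η := Finset.sum_nonneg fun i hi => hF0 i hi η
    have hM0 : 0 ≤ Mh μ s (sl μ s) 0 (wd μ s m) z (4 * m) η := Mh_nonneg η
    have hM1 : 1 ≤ Real.exp (Mh μ s (sl μ s) 0 (wd μ s m) z (4 * m) η / (C * EE μ s m)) :=
      Real.one_le_exp (div_nonneg hM0 hEm.le)
    have he1 : 1 ≤ Real.exp 1 := Real.one_le_exp (by norm_num)
    have hU1 : 1 ≤ U η := by
      rw [hU]
      simp only
      have h1 := one_le_mul_of_one_le_of_one_le he1 hM1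
      linarith only [h1, hSF]
    have hlog : 0 ≤ Real.log (U η) := Real.log_nonneg hU1
    have key : Lm μ s (C / Q) m I η ≤ C * EE μ s m * Real.log (U η) := by
      refine Lm_le (mul_nonneg hEm.le hlog) fun a ha y hy0 hy1 => ?_
      obtain ⟨ha0, ha1⟩ := hI a ha
      obtain ⟨t, ht⟩ : ∃ t : ℝ, t = -X μ s η (0, a) m y + C / Q * (m * J μ s ((y : ℝ) / m - sl μ s)) := ⟨_, rfl⟩
      rw [← ht]
      suffices hs : Real.exp (t / (C * EE μ s m)) ≤ U η by
        have h1 := (Real.le_log_iff_exp_le (by linarith)).2 hs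
        rwa [div_le_iff₀ hEm, mul_comm] at h1
      have hyR0 : (0 : ℝ) ≤ y := by exact_mod_cast hy0
      have hyR1 : (y : ℝ) ≤ m := by exact_mod_cast hy1
      obtain ⟨x', hx'⟩ : ∃ x' : ℝ, x' = (y : ℝ) / m - sl μ s := ⟨_, rfl⟩
      have hs0 := h.sl_pos
      have hs1 := h.sl_lt
      have hym0 : 0 ≤ (y : ℝ) / m := by positivity
      have hym1 : (y : ℝ) / m ≤ 1 := by rw [div_le_one hm0]; exact hyR1
      have hx1 : |x'| ≤ 1 := by
        rw [hx', abs_le]
        constructor <;> linarith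
      rw [← hx'] at ht
      obtain ⟨v, hv⟩ : ∃ v : ℝ, v = |x'| := ⟨_, rfl⟩
      have hv0 : 0 ≤ v := by rw [hv]; exact abs_nonneg _
      have hJv0 : 0 ≤ J μ s x' := h.rf.nn x'
      classical
      obtain ⟨i, hi⟩ : ∃ i, (v ≤ 2 ^ q * vA 1 μ s (r i) ∨ x - x₁ ≤ i) ∧
          ∀ j, j < i → ¬ (v ≤ 2 ^ q * vA 1 μ s (r j) ∨ x - x₁ ≤ j) := by
        have hex : ∃ i, v ≤ 2 ^ q * vA 1 μ s (r i) ∨ x - x₁ ≤ i := ⟨x - x₁, Or.inr le_rfl⟩
        exact ⟨Nat.find hex, Nat.find_spec hex, fun j hj => Nat.find_min hex hj⟩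
      obtain ⟨hi1, hi2⟩ := hi
      have hix : i ≤ x - x₁ := by
        by_contra hcon
        push Not at hcon
        exact hi2 (x - x₁) hcon (Or.inr le_rfl)
      have hmi : 2 ^ i * r i = m := by
        rw [hr, hm]
        show 2 ^ i * 2 ^ (x - i) = 2 ^ x
        rw [← pow_add]
        congr 1
        omega
      have hmiR : (2 : ℝ) ^ i * r i = m := by exact_mod_cast hmi
      have hEr1 := one_le_EE (μ := μ) (s := s) (r i)
      have hErm : EE μ s (r i) ≤ EE μ s m := by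
        refine EE_mono ?_
        rw [← hmi]
        exact Nat.le_mul_of_pos_left _ (by positivity)
      -- the rate in the unit of the class
      have hrp : 1 ≤ r i := by rw [hr]; exact Nat.one_le_two_pow
      have hcost : m * J μ s x' ≤ Q * (2 ^ i * EE μ s (r i)) := by
        rw [hQ]
        refine cost75 h hD1 hD hrp hmi hx1 ?_
        rcases hi1 with h1 | h1
        · exact Or.inl (by rw [← hv]; exact h1)
        · right
          have h2 : x - i = x₁ := by omega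
          rw [hr]
          simp only [h2]
      have hcost' : C / Q * (m * J μ s x') ≤ C * EE μ s (r i) * 2 ^ i := by
        calc C / Q * (m * J μ s x') ≤ C / Q * (Q * (2 ^ i * EE μ s (r i))) :=
              mul_le_mul_of_nonneg_left hcost (by positivity)
          _ = C * EE μ s (r i) * 2 ^ i := by field_simp
      rcases Nat.eq_zero_or_pos i with h0 | h0
      · -- the cone
        have hri0 : r i = m := by rw [h0, pow_zero, one_mul] at hmi; rw [h0]; exact hmi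
        rw [hri0, h0, pow_zero, mul_one] at hcost'
        have hX : -X μ s η (0, a) m y ≤ Mh μ s (sl μ s) 0 (wd μ s m) z (4 * m) η := by
          have h1 := neg_X_le_V (μ := μ) (s := s) η (0, a) hy0 hy1
          refine h1.trans ?_
          have hbx : (((0, a), m) : (ℕ × ℤ) × ℕ) ∈ Bx (sl μ s) (wd μ s m) z (4 * m) := by
            rw [mem_Bx hs0.le hs1.le]
            refine ⟨?_, ?_, ?_⟩
            · show 0 + m ≤ 4 * m
              omega
            · show z < (a : ℝ) - sl μ s * ((0 : ℕ) : ℝ)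
              push_cast
              linarith
            · show (a : ℝ) - sl μ s * ((0 : ℕ) : ℝ) ≤ z + wd μ s m
              push_cast
              linarith
          have h2 := le_Mh (μ := μ) (s := s) (h := 0) η hbx
          refine le_trans (le_of_eq ?_) h2
          show V μ s η (0, a) m = V μ (s + 0) η (((0 : ℕ) : ℤ), a) m + m * kap μ s (sl μ s) 0
          unfold kap
          simp
        have ht2 : t / (C * EE μ s m) ≤ 1 + Mh μ s (sl μ s) 0 (wd μ s m) z (4 * m) η / (C * EE μ s m) := by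
          have e1 : 1 + Mh μ s (sl μ s) 0 (wd μ s m) z (4 * m) η / (C * EE μ s m) =
              (C * EE μ s m + Mh μ s (sl μ s) 0 (wd μ s m) z (4 * m) η) / (C * EE μ s m) := by field_simp
          rw [e1]
          refine div_le_div_of_nonneg_right ?_ hEm.le
          rw [ht]
          linarith
        refine (Real.exp_le_exp.2 ht2).trans ?_
        rw [Real.exp_add, hU]
        simp only
        linarith
      · -- far away
        have hiI : i ∈ Finset.Icc 1 (x - x₁) := Finset.mem_Icc.2 ⟨h0, hix⟩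
        obtain ⟨hr1, hr2, -⟩ := hri i hiI
        have hw0 := (hn1 (r i) hr1).1
        have hEr : 0 < C * EE μ s (r i) := by positivity
        rcases le_total t 0 with ht0 | ht0
        · refine le_trans ?_ hU1
          rw [← Real.exp_zero]
          exact Real.exp_le_exp.2 (div_nonpos_of_nonpos_of_nonneg ht0 hEm.le)
        have h1 : t / (C * EE μ s m) ≤ t / (C * EE μ s (r i)) :=
          div_le_div_of_nonneg_left ht0 hEr (mul_le_mul_of_nonneg_left hErm hC0.le)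
        refine (Real.exp_le_exp.2 h1).trans ?_
        have hWp := W_pos (μ := μ) (s := s) η (0, a) hy0 hy1
        have h2 : Real.exp (t / (C * EE μ s (r i))) ≤ Real.exp ((2 ^ i : ℕ) : ℝ) * W μ s η (0, a) m y ^ (1 / (C * EE μ s (r i))) := by
          have e1 : W μ s η (0, a) m y ^ (1 / (C * EE μ s (r i))) = Real.exp (-X μ s η (0, a) m y / (C * EE μ s (r i))) := by
            rw [Real.rpow_def_of_pos hWp]
            congr 1
            unfold X
            ring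
          rw [e1, ← Real.exp_add]
          refine Real.exp_le_exp.2 ?_
          have e2 : ((2 ^ i : ℕ) : ℝ) + -X μ s η (0, a) m y / (C * EE μ s (r i)) =
              (C * EE μ s (r i) * 2 ^ i + -X μ s η (0, a) m y) / (C * EE μ s (r i)) := by
            push_cast
            field_simp
          rw [e2]
          refine div_le_div_of_nonneg_right ?_ hEr.le
          rw [ht]
          linarith
        refine h2.trans ?_
        -- the distance
        have hwd0 : 0 ≤ wd μ s (r i) := h.wd_nonneg (r i)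
        have hfl : (⌊wd μ s (r i)⌋₊ : ℝ) ≤ wd μ s (r i) := Nat.floor_le hwd0
        have hfl2 : wd μ s (r i) < ⌊wd μ s (r i)⌋₊ + 1 := Nat.lt_floor_add_one _
        obtain ⟨w, hw⟩ : ∃ w : ℕ, w = ⌊wd μ s (r i)⌋₊ := ⟨_, rfl⟩
        rw [← hw] at hfl hfl2 hw0
        have hwR : (1 : ℝ) ≤ w := by exact_mod_cast hw0
        have hprev := hi2 (i - 1) (by omega)
        push Not at hprev
        have hvbig : 3 * b * wd μ s (r i) * 2 ^ i ≤ v * m := by
          have e1 : r (i - 1) = 2 * r i := by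
            rw [hr]
            show 2 ^ (x - (i - 1)) = 2 * 2 ^ (x - i)
            rw [← pow_succ']
            congr 1
            omega
          have e2 := vA_half h hr2
          rw [← e1] at e2
          have e4 : 3 * b * vA 1 μ s (r i) ≤ v := by
            have e5 : 6 * b * vA 1 μ s (r (i - 1)) ≤ 2 ^ q * vA 1 μ s (r (i - 1)) :=
              mul_le_mul_of_nonneg_right hqb (h.vA_nonneg _)
            have e6 : 3 * b * vA 1 μ s (r i) ≤ 3 * b * (2 * vA 1 μ s (r (i - 1))) :=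
              mul_le_mul_of_nonneg_left e2 (by positivity)
            linarith [hprev.1]
          calc 3 * b * wd μ s (r i) * 2 ^ i = (3 * b * vA 1 μ s (r i)) * m := by
                unfold wd
                rw [← hmiR]
                ring
            _ ≤ v * m := mul_le_mul_of_nonneg_right e4 hm0.le
        have hdist := cell_dist75 (μ := μ) (s := s) hmi hmp (by rw [hv, hx']) hb1 hw0 hfl hvbig
        have hstart : a < ⌊z⌋ + ((2 * 2 ^ i + 1 : ℕ) : ℤ) * (w : ℤ) := by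
          have e1 : wd μ s m ≤ 2 ^ i * wd μ s (r i) := by rw [← hmi]; exact wd_pow h hr2 i
          have e2 : z < ⌊z⌋ + 1 := Int.lt_floor_add_one z
          have e3 : (a : ℝ) < ((⌊z⌋ + ((2 * 2 ^ i + 1 : ℕ) : ℤ) * (w : ℤ) : ℤ) : ℝ) := by
            push_cast
            have e4 : (2 : ℝ) ^ i * wd μ s (r i) ≤ 2 ^ i * (2 * w) :=
              mul_le_mul_of_nonneg_left (by linarith only [hfl2, hwR]) (by positivity)
            have e5 : (2 * (2 : ℝ) ^ i + 1) * w = 2 ^ i * (2 * w) + w := by ring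
            rw [e5]
            linarith only [e1, e2, e4, ha1, hwR]
          exact_mod_cast e3
        have hcm : ((2 ^ i : ℕ) : ℤ) * md μ s (r i) ≤ m := by
          have e1 := h.md_le_nat (r i)
          have e2 : ((2 ^ i : ℕ) : ℤ) * md μ s (r i) ≤ ((2 ^ i : ℕ) : ℤ) * (r i : ℤ) :=
            mul_le_mul_of_nonneg_left e1 (Int.natCast_nonneg _)
          have e3 : ((2 ^ i : ℕ) : ℤ) * (r i : ℤ) = m := by exact_mod_cast hmi
          linarith only [e2, e3]
        have h3 := W_le_qc (μ := μ) (s := s) (w := w) (m := m) hw0 (D₀ := ((2 ^ i : ℕ) * md μ s (r i) : ℤ))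
          (mul_nonneg (Int.natCast_nonneg _) (h.md_nonneg _)) hcm (θ := 1 / (C * EE μ s (r i))) (by positivity)
          (b := b * 2 ^ i) (N := 2 * 2 ^ i + 1) (M := m + 1) le_rfl (x₀ := ⌊z⌋) (x := a) (y := y)
          (Int.floor_le_iff.2 (by linarith only [ha0])) hstart hy0 hy1 hdist η
        have h4 : Real.exp ((2 ^ i : ℕ) : ℝ) * W μ s η (0, a) m y ^ (1 / (C * EE μ s (r i))) ≤ F i η := by
          rw [hF]
          simp only
          rw [hmi, ← hw]
          exact mul_le_mul_of_nonneg_left h3 (Real.exp_pos _).le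
        refine h4.trans ?_
        have h5 := Finset.single_le_sum (f := fun j => F j η) (s := Finset.Icc 1 (x - x₁)) (fun j hj => hF0 j hj η) hiI
        rw [hU]
        simp only at h5 ⊢
        have h6 : 0 ≤ Real.exp 1 * Real.exp (Mh μ s (sl μ s) 0 (wd μ s m) z (4 * m) η / (C * EE μ s m)) := by positivity
        linarith only [h5, h6]
    have h1 : Lm μ s (C / Q) m I η / (C * EE μ s m) ≤ Real.log (U η) := by
      rw [div_le_iff₀ hEm, mul_comm]
      exact key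
    calc Real.exp (Lm μ s (C / Q) m I η / (C * EE μ s m)) ≤ Real.exp (Real.log (U η)) := Real.exp_le_exp.2 h1
      _ = U η := Real.exp_log (by linarith)
  refine (integral_mono hLI hUI hpt).trans ?_
  have hlk : ∫ η, Real.exp (Mh μ s (sl μ s) 0 (wd μ s m) z (4 * m) η / (C * EE μ s m)) ∂(law μ) ≤ C := by
    refine h.luck m (by rw [hm]; exact (hpow x hx).2) 0 z ?_
    rw [abs_zero, zero_mul]
    have := h.c0
    positivity
  have hsum : ∑ i ∈ Finset.Icc 1 (x - x₁), ∫ η, F i η ∂(law μ) ≤ 2 * G := by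
    refine (Finset.sum_le_sum hFint).trans ?_
    rw [← Finset.mul_sum]
    have h1 : ∑ i ∈ Finset.Icc 1 (x - x₁), ((1 : ℝ) / 2) ^ i ≤ ∑ i ∈ Finset.range (x - x₁ + 1), ((1 : ℝ) / 2) ^ i :=
      Finset.sum_le_sum_of_subset_of_nonneg (fun i hi => Finset.mem_range.2 (by rw [Finset.mem_Icc] at hi; omega))
        fun i _ _ => by positivity
    have h2 := sum_geometric_two_le (x - x₁ + 1)
    nlinarith
  rw [hU]
  simp only
  rw [integral_add (hMI.const_mul _) (integrable_finsetSum _ hFi), integral_const_mul, integral_finsetSum _ hFi]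
  have := mul_le_mul_of_nonneg_left hlk (Real.exp_pos 1).le
  linarith

/-- The tail of the luck of a cell. -/
theorem Lm_tail (hμ : Pool.Agent.W_7d29a1_h47.EM μ) {c₁ Y A : ℝ} (hY : 0 < Y) {m : ℕ} {I : Finset ℤ}
    (hA : ∫ η, Real.exp (Lm μ s c₁ m I η / Y) ∂(law μ) ≤ A) (u : ℝ) :
    (law μ).real {η | u * Y ≤ Lm μ s c₁ m I η} ≤ A * Real.exp (-u) := by
  have hLI : Integrable (fun η => Real.exp (Lm μ s c₁ m I η / Y)) (law μ) := by
    have e3 := ((Sub_Lm (μ := μ) (s := s) c₁ m I).const_mul (1 / Y)).exp_int hμ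
    refine (congrArg (fun f => Integrable f (law μ)) (funext fun η => ?_)).mp e3
    show Real.exp (1 / Y * Lm μ s c₁ m I η) = _
    congr 1
    ring
  have h1 := mul_meas_ge_le_integral_of_nonneg (μ := law μ) (f := fun η => Real.exp (Lm μ s c₁ m I η / Y))
    (Filter.Eventually.of_forall fun η => (Real.exp_pos _).le) hLI (Real.exp u)
  have h2 : {η | u * Y ≤ Lm μ s c₁ m I η} ⊆ {η | Real.exp u ≤ Real.exp (Lm μ s c₁ m I η / Y)} := by
    intro η hη
    refine Real.exp_le_exp.2 ?_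
    rw [le_div_iff₀ hY]
    exact hη
  have h3 := (mul_le_mul_of_nonneg_left (measureReal_mono (μ := law μ) h2 (measure_ne_top _ _))
    (Real.exp_pos u).le).trans (h1.trans hA)
  rw [Real.exp_neg, ← div_eq_mul_inv, le_div_iff₀ (Real.exp_pos _), mul_comm]
  exact h3

end Pool.Agent.W_7d29a1_HX.X40
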