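import Pool.Agent.W_7d29a1_HX.XA_Defs

/-!
TRACK H, part 4 (MP_7d29a1_pr): STORM X at one tilt `s` (model: `W_7d29a1_XA.Forms`), the assembly: the forms of (NL) and (ES)
on single slabs. (helper51)
-/

set_option autoImplicit false

namespace Pool.Agent.W_7d29a1_HX.XA

open MeasureTheory ProbabilityTheory Filter Topology Finset
open Pool.Agent.W_7d29a1_F Pool.Agent.W_7d29a1_h4g Pool.Agent.W_7d29a1_H Pool.Agent.W_7d29a1_HS
open Pool.Agent.W_7d29a1_X42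
open Pool.Agent.W_7d29a1_HX.XG
open Pool.Agent.W_7d29a1_X50 hiding St
open Pool.Agent.W_7d29a1_f21 (lw splice)

noncomputable section

variable {μ : Measure ℝ} {s : ℝ}

lemma slab_eq (i k : ℕ) : slab i k = rows ((k * 2 ^ i : ℕ) : ℤ) (((k * 2 ^ i : ℕ) : ℤ) + (2 ^ i : ℕ)) := by
  unfold slab
  congr 1
  push_cast
  ring

/-- (NL) for one pair of slabs in the middle of `[0, N]`. -/
def PairNL (μ : Measure ℝ) (s : ℝ) : Prop :=
  ∀ K : ℝ, ∃ c : ℝ, 0 < c ∧ ∃ j0 : ℕ, ∀ J1 : ℕ, ∃ i0 : ℕ, ∀ i N a : ℕ, i0 ≤ i →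
    2 ^ (i + j0) ≤ N → N ≤ 2 ^ (i + J1) → N ≤ 4 * a → 4 * (a + 2 * 2 ^ i) ≤ 3 * N → GG μ s N i ≤ K →
    c * EE μ s (2 ^ i) ^ 2 ≤ mix μ (rows (a : ℤ) (a + (2 ^ i : ℕ)))
      (rows ((a : ℤ) + (2 ^ i : ℕ)) (a + 2 * (2 ^ i : ℕ))) (Fn μ s N)

theorem XNL_of_pairs (h : PairNL μ s) : XNL μ s := by
  intro K
  obtain ⟨c, hc, j0, h1⟩ := h K
  refine ⟨c / 8, by positivity, j0 + 4, fun J1 => ?_⟩
  obtain ⟨i0, h2⟩ := h1 (J1 + 1)
  refine ⟨i0, fun j i N hj hji hiJ hN1 hN2 hG => ?_⟩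
  obtain ⟨P, hP⟩ : ∃ P : ℕ, P = 8 * 2 ^ i := ⟨_, rfl⟩
  have hi1 : 1 ≤ 2 ^ i := Nat.one_le_two_pow
  have hP8 : 8 ≤ P := by omega
  obtain ⟨t, ht⟩ : ∃ t : ℕ, t = N / P := ⟨_, rfl⟩
  have ht1 : P * t ≤ N := by rw [ht]; exact Nat.mul_div_le N P
  have ht2 : N < P * (t + 1) := by
    rw [ht, mul_add, mul_one]
    have := Nat.div_add_mod N P
    have := Nat.mod_lt N (show 0 < P by omega)
    omega
  have hNbig : 2 * P ≤ N := by
    have e1 : 2 ^ (i + (j0 + 4)) ≤ 2 ^ (j + J1) := Nat.pow_le_pow_right (by norm_num) hiJ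
    have e2 : 2 ^ (i + (j0 + 4)) = 2 ^ j0 * (2 * (8 * 2 ^ i)) := by
      rw [pow_add, pow_add]; ring
    have e3 : 1 ≤ 2 ^ j0 := Nat.one_le_two_pow
    rw [e2, ← hP] at e1
    nlinarith
  have ht3 : 2 ≤ t := by
    by_contra hcon
    have : t + 1 ≤ 2 := by omega
    have : P * (t + 1) ≤ P * 2 := Nat.mul_le_mul_left _ this
    omega
  have hNu : N ≤ 2 ^ (i + (J1 + 1)) := by
    refine hN2.trans ?_
    rw [← pow_succ']
    exact Nat.pow_le_pow_right (by norm_num) (by omega)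
  have hNl : 2 ^ (i + j0) ≤ N := by
    refine le_trans (Nat.pow_le_pow_right (by norm_num) ?_) hN1.le
    omega
  have hterm : ∀ k ∈ Icc (t + 1) (3 * t - 1), c * EE μ s (2 ^ i) ^ 2 ≤
      mix μ (slab i (2 * k)) (slab i (2 * k + 1)) (Fn μ s N) := by
    intro k hk
    rw [mem_Icc] at hk
    have g1 : N ≤ 4 * (2 * k * 2 ^ i) := by
      have : P * (t + 1) ≤ P * k := Nat.mul_le_mul_left _ hk.1
      have e : 4 * (2 * k * 2 ^ i) = P * k := by rw [hP]; ring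
      omega
    have g2 : 4 * (2 * k * 2 ^ i + 2 * 2 ^ i) ≤ 3 * N := by
      have : P * (k + 1) ≤ P * (3 * t) := Nat.mul_le_mul_left _ (by omega)
      have e : 4 * (2 * k * 2 ^ i + 2 * 2 ^ i) = P * (k + 1) := by rw [hP]; ring
      have e2 : P * (3 * t) = 3 * (P * t) := by ring
      omega
    have g3 := h2 i N (2 * k * 2 ^ i) (hj.trans hji) hNl hNu g1 g2 hG
    rw [slab_eq, slab_eq]
    have e1 : (((2 * k + 1) * 2 ^ i : ℕ) : ℤ) = ((2 * k * 2 ^ i : ℕ) : ℤ) + (2 ^ i : ℕ) := by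
      push_cast; ring
    rw [e1]
    have e2 : ((2 * k * 2 ^ i : ℕ) : ℤ) + (2 ^ i : ℕ) + (2 ^ i : ℕ) = ((2 * k * 2 ^ i : ℕ) : ℤ) + 2 * (2 ^ i : ℕ) := by
      ring
    rw [e2]
    exact g3
  have hsub : Icc (t + 1) (3 * t - 1) ⊆ range (N + 1) := by
    intro k hk
    rw [mem_Icc] at hk
    rw [mem_range]
    have : 8 * t ≤ P * t := Nat.mul_le_mul_right _ hP8
    omega
  have hsum : ∑ k ∈ Icc (t + 1) (3 * t - 1), c * EE μ s (2 ^ i) ^ 2 ≤ MM μ s N i :=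
    (Finset.sum_le_sum hterm).trans
      (Finset.sum_le_sum_of_subset_of_nonneg hsub fun k _ _ => mix_nonneg _ _ _)
  rw [Finset.sum_const, Nat.card_Icc, nsmul_eq_mul] at hsum
  refine le_trans ?_ hsum
  unfold aa
  have hcard : (N : ℝ) ≤ ((3 * t - 1 + 1 - (t + 1) : ℕ) : ℝ) * (8 * 2 ^ i) := by
    have : N ≤ (3 * t - 1 + 1 - (t + 1)) * P := by
      have e : (t + 1) ≤ 3 * t - 1 + 1 - (t + 1) := by omega
      have := Nat.mul_le_mul_right P e
      have e2 : (t + 1) * P = P * (t + 1) := by ring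
      omega
    have h3 : ((N : ℕ) : ℝ) ≤ (((3 * t - 1 + 1 - (t + 1)) * P : ℕ) : ℝ) := by exact_mod_cast this
    rw [Nat.cast_mul] at h3
    refine h3.trans (le_of_eq ?_)
    rw [hP]
    push_cast
    ring
  have hE : 0 ≤ c * EE μ s (2 ^ i) ^ 2 := by positivity
  have h2i : (0 : ℝ) < 2 ^ i := by positivity
  calc c / 8 * N * (EE μ s (2 ^ i) ^ 2 / 2 ^ i) = N / (8 * 2 ^ i) * (c * EE μ s (2 ^ i) ^ 2) := by
        field_simp
    _ ≤ ((3 * t - 1 + 1 - (t + 1) : ℕ) : ℝ) * (c * EE μ s (2 ^ i) ^ 2) := by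
        apply mul_le_mul_of_nonneg_right _ hE
        rw [div_le_iff₀ (by positivity)]
        exact hcard

variable [IsProbabilityMeasure μ]

/-- The complete slabs and one more slab at the end. -/
theorem DD_le (hEM : Pool.Agent.W_7d29a1_h47.EM μ) (N j : ℕ) :
    DD μ s N j ≤ ∑ k ∈ range (N / 2 ^ j), ev μ (slab j k) (Fn μ s N) +
      ev μ (rows ((N : ℤ) - (2 ^ j : ℕ)) N) (Fn μ s N) := by
  obtain ⟨q, hq⟩ : ∃ q : ℕ, q = N / 2 ^ j := ⟨_, rfl⟩
  have hp : 0 < 2 ^ j := by positivity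
  have h1 : q * 2 ^ j ≤ N := by rw [hq]; exact Nat.div_mul_le_self N _
  have h2 : N < (q + 1) * 2 ^ j := by
    rw [hq, add_mul, one_mul]
    have := Nat.div_add_mod N (2 ^ j)
    have := Nat.mod_lt N hp
    have e : 2 ^ j * (N / 2 ^ j) = N / 2 ^ j * 2 ^ j := by ring
    omega
  rw [← hq]
  have hqN : q + 1 ≤ N + 1 := by
    have : q * 1 ≤ q * 2 ^ j := Nat.mul_le_mul_left _ hp
    omega
  have h3 : DD μ s N j = ∑ k ∈ range (q + 1), ev μ (slab j k) (Fn μ s N) := by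
    unfold DD
    refine (Finset.sum_subset (Finset.range_subset_range.2 hqN) fun k _ hk => ?_).symm
    rw [mem_range, not_lt] at hk
    refine ev_beyond ?_
    have := Nat.mul_le_mul_right (2 ^ j) hk
    omega
  rw [h3, Finset.sum_range_succ]
  refine add_le_add le_rfl ?_
  -- the last slab
  have hres : ev μ (slab j q) (Fn μ s N) = ev μ (slab j q ∩ rows 0 N) (Fn μ s N) := by
    have hdis : Disjoint (slab j q ∩ rows 0 N) (slab j q \ rows 0 N) := by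
      rw [Set.disjoint_left]
      intro p hp1 hp2
      exact hp2.2 hp1.2
    have hun : (slab j q ∩ rows 0 N) ∪ (slab j q \ rows 0 N) = slab j q := Set.inter_union_sdiff _ _
    have hz : ev μ (slab j q \ rows 0 N) (Fn μ s N) = 0 := by
      refine ev_of_not_dep (Fn_dep N) ?_
      rw [Set.disjoint_left]
      intro p hp1 hp2
      exact hp2.2 hp1
    apply le_antisymm
    · have := ev_union (memLp_Fn (s := s) hEM N) hdis
      rw [hun, hz] at this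
      have := mix_nonneg (μ := μ) (slab j q ∩ rows 0 N) (slab j q \ rows 0 N) (Fn μ s N)
      linarith
    · exact ev_mono (measurable_Fn N) (memLp_Fn hEM N) Set.inter_subset_left
  rw [hres]
  refine ev_mono (measurable_Fn N) (memLp_Fn hEM N) ?_
  intro p hp
  unfold slab rows at *
  simp only [Set.mem_inter_iff, Set.mem_ofPred_eq] at hp ⊢
  refine ⟨?_, hp.2.2⟩
  have h4 : ((q * 2 ^ j : ℕ) : ℤ) < p.1 := hp.1.1
  have h5 : (N : ℤ) < (((q + 1) * 2 ^ j : ℕ) : ℤ) := by exact_mod_cast h2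
  have h6 : (((q + 1) * 2 ^ j : ℕ) : ℤ) = ((q * 2 ^ j : ℕ) : ℤ) + (2 ^ j : ℕ) := by push_cast; ring
  omega

/-- The Jensen reduction of helper50 in the form of `ev`. -/
theorem ev_le_jen (hEM : Pool.Agent.W_7d29a1_h47.EM μ) (a m k : ℕ) :
    ev μ (rows (a : ℤ) (a + m)) (Fn μ s (a + m + k)) ≤ 2 * Pool.Agent.W_7d29a1_X50.St μ s a m k + 2 * Lk μ s a m k := by
  refine le_trans (le_of_eq ?_) (jen_prod (s := s) hEM a m k)
  have hF := memLp_Fn (μ := μ) (s := s) hEM (a + m + k)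
  have m1 : MemLp (fun w : Env × Env => Fn μ s (a + m + k) (splice (rows (a : ℤ) (a + m)) w.2 w.1) -
      Fn μ s (a + m + k) w.1) 2 ((lw Pt μ).prod (lw Pt μ)) :=
    (memLp_res hF _).sub (memLp_fst hF)
  have hm : AEStronglyMeasurable (fun w : Env × Env =>
      max (Fn μ s (a + m + k) (splice (rows (a : ℤ) (a + m)) w.2 w.1) - Fn μ s (a + m + k) w.1) 0 ^ 2)
      ((lw Pt μ).prod (lw Pt μ)) :=
    (m1.aestronglyMeasurable.sup (aestronglyMeasurable_const (b := (0 : ℝ)))).pow 2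
  rw [ev_eq_pos hF]
  have h2 := Pool.Agent.W_7d29a1_f21.mp_integral (F := fun w : Env × Env =>
    max (Fn μ s (a + m + k) (splice (rows (a : ℤ) (a + m)) w.2 w.1) - Fn μ s (a + m + k) w.1) 0 ^ 2)
    (mp_swap (μ := μ) (rows (a : ℤ) (a + m))) hm
  rw [← h2]
  refine integral_congr_ae (Filter.Eventually.of_forall fun w => ?_)
  simp only
  rw [splice_splice_back]
  rfl

end

end Pool.Agent.W_7d29a1_HX.XA
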