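import Pool.Agent.W_7d29a1_HS.Scale
import Pool.Agent.W_7d29a1_HS.Lucky

/-!
TRACK H, part 4 (MP_7d29a1_pr): STORM X at one tilt `s` (model: `W_7d29a1_XG.Cross`), (NL): crossing a distance of the order
of the width of the scale `m` in a time of the order `d`, `d` much smaller than `m`, is expensive (input: (SL)). Both
directions. (helper5)
-/

set_option autoImplicit false

namespace Pool.Agent.W_7d29a1_HX.XG

open MeasureTheory ProbabilityTheory Filter Topology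
open Pool.Agent.W_7d29a1_F Pool.Agent.W_7d29a1_h4g Pool.Agent.W_7d29a1_H Pool.Agent.W_7d29a1_HS
open Pool.Agent.W_7d29a1_L (Mh T kap Bx mem_Bx Mh_nonneg le_Mh Sub_Mh Mh_dep T_sh exp_T integral_exp_Mh_sh)

variable {μ : Measure ℝ} {s : ℝ} {c C : ℝ} {n₀ : ℕ}

private lemma W_le_T {h : ℝ} (η : Env) (a : Pt) (n : ℕ) (y : ℤ) :
    W μ s η a n y ≤ Real.exp (T μ s (sl μ s) h η a n - h * ((y : ℝ) - sl μ s * n)) := by
  by_cases hy : 0 ≤ y ∧ y ≤ n
  · have h1 := exp_T (μ := μ) (s := s) (v := sl μ s) (h := h) η a n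
    have h2 : W μ s η a n y * Real.exp (h * ((y : ℝ) - sl μ s * n)) ≤ Real.exp (T μ s (sl μ s) h η a n) := by
      rw [h1]
      exact Finset.single_le_sum (f := fun y : ℤ => W μ s η a n y * Real.exp (h * ((y : ℝ) - sl μ s * n)))
        (fun y _ => mul_nonneg (W_nonneg _ _ _ _) (Real.exp_nonneg _)) (Finset.mem_Icc.2 hy)
    rw [Real.exp_sub, le_div_iff₀ (Real.exp_pos _)]
    exact h2
  · rw [W_eq_zero η a hy]
    exact (Real.exp_pos _).le

/-- The tilted lucks of the boxes of the scale `d` around the site `a` are at most `b`. -/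
def XC (μ : Measure ℝ) (s h : ℝ) (d K : ℕ) (b : ℝ) (a : Pt) : Set Env :=
  {η | ∀ k ∈ Finset.range (2 * K + 1),
    Mh μ s (sl μ s) h (wd μ s d) (((k : ℝ) - (K + 1)) * wd μ s d) (4 * d) (sh a η) ≤ b}

theorem XC_meas (h : ℝ) (d K : ℕ) (b : ℝ) (a : Pt) : MeasurableSet (XC μ s h d K b a) := by
  unfold XC
  have h1 : {η : Env | ∀ k ∈ Finset.range (2 * K + 1),
      Mh μ s (sl μ s) h (wd μ s d) (((k : ℝ) - (K + 1)) * wd μ s d) (4 * d) (sh a η) ≤ b} =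
      ⋂ k ∈ Finset.range (2 * K + 1), {η : Env |
        Mh μ s (sl μ s) h (wd μ s d) (((k : ℝ) - (K + 1)) * wd μ s d) (4 * d) (sh a η) ≤ b} := by
    ext η
    simp only [Set.mem_ofPred_eq, Set.mem_iInter]
  rw [h1]
  exact Finset.measurableSet_biInter _ fun k _ =>
    measurableSet_le (Sub_Mh.comp_sh a).1 measurable_const

theorem XC_dep [IsProbabilityMeasure μ] (hI : In μ s c C n₀) (h : ℝ) (d K : ℕ) (b : ℝ) (a : Pt) {η η' : Env}
    (hη : ∀ p ∈ rows a.1 (a.1 + 4 * d), η p = η' p) : η ∈ XC μ s h d K b a ↔ η' ∈ XC μ s h d K b a := by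
  have h1 : ∀ k : ℕ, Mh μ s (sl μ s) h (wd μ s d) (((k : ℝ) - (K + 1)) * wd μ s d) (4 * d) (sh a η) =
      Mh μ s (sl μ s) h (wd μ s d) (((k : ℝ) - (K + 1)) * wd μ s d) (4 * d) (sh a η') := by
    intro k
    refine Mh_dep (μ := μ) (s := s) (h := h) hI.sl_pos.le hI.sl_lt.le fun p hp => ?_
    show η (p + a) = η' (p + a)
    refine hη _ ⟨?_, ?_⟩
    · have := hp.1
      show a.1 < p.1 + a.1
      omega
    · have := hp.2
      show p.1 + a.1 ≤ a.1 + 4 * d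
      push_cast at this
      omega
  unfold XC
  simp only [Set.mem_ofPred_eq, h1]

theorem XC_use [IsProbabilityMeasure μ] (hI : In μ s c C n₀) {h : ℝ} {d K : ℕ} {b : ℝ} {a : Pt} {η : Env} (hη : η ∈ XC μ s h d K b a) (hw : 0 < wd μ s d)
    {p : Pt} {j : ℕ} (h1 : a.1 ≤ p.1) (h2 : p.1 + j ≤ a.1 + 4 * d)
    (h3 : |((p.2 : ℝ) - a.2) - sl μ s * ((p.1 : ℝ) - a.1)| ≤ K * wd μ s d) (y : ℤ) :
    W μ s η p j y ≤ Real.exp (b - h * ((y : ℝ) - sl μ s * j)) := by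
  obtain ⟨r, hr⟩ : ∃ r : ℝ, r = ((p.2 : ℝ) - a.2) - sl μ s * ((p.1 : ℝ) - a.1) := ⟨_, rfl⟩
  obtain ⟨w, hw'⟩ : ∃ w : ℝ, w = wd μ s d := ⟨_, rfl⟩
  rw [← hr, ← hw'] at h3
  rw [← hw'] at hw
  obtain ⟨t, ht⟩ : ∃ t : ℕ, (t : ℤ) = p.1 - a.1 := ⟨(p.1 - a.1).toNat, Int.toNat_of_nonneg (by omega)⟩
  obtain ⟨x, hx⟩ : ∃ x : ℤ, x = p.2 - a.2 := ⟨_, rfl⟩
  have hrr : r = (x : ℝ) - sl μ s * t := by
    have : (t : ℝ) = (p.1 : ℝ) - a.1 := by exact_mod_cast ht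
    rw [hr, hx, this]
    push_cast
    ring
  -- the box
  obtain ⟨u, hu⟩ : ∃ u : ℤ, u = ⌈r / w⌉ := ⟨_, rfl⟩
  have hu1 : r / w ≤ u := by rw [hu]; exact Int.le_ceil _
  have hu2 : (u : ℝ) < r / w + 1 := by rw [hu]; exact Int.ceil_lt_add_one _
  have ha := abs_le.1 h3
  have hr1 : -(K : ℝ) ≤ r / w := by rw [le_div_iff₀ hw]; linarith [ha.1]
  have hr2 : r / w ≤ K := by rw [div_le_iff₀ hw]; exact ha.2
  have hu3 : -(K : ℤ) ≤ u := by
    have : (-(K : ℤ) : ℝ) ≤ u := by push_cast; linarith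
    exact_mod_cast this
  have hu4 : u ≤ K := by
    rw [hu, Int.ceil_le]
    push_cast
    exact hr2
  obtain ⟨k, hk⟩ : ∃ k : ℕ, (k : ℤ) = u + K := ⟨(u + K).toNat, Int.toNat_of_nonneg (by omega)⟩
  have hkR : (k : ℝ) = u + K := by exact_mod_cast hk
  have hkr : k ∈ Finset.range (2 * K + 1) := by
    rw [Finset.mem_range]
    omega
  have hq : (((t, x) : ℕ × ℤ), j) ∈ Bx (sl μ s) (wd μ s d) (((k : ℝ) - (K + 1)) * wd μ s d) (4 * d) := by
    rw [mem_Bx hI.sl_pos.le hI.sl_lt.le]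
    rw [← hw']
    refine ⟨?_, ?_, ?_⟩
    · show t + j ≤ 4 * d
      omega
    · show ((k : ℝ) - (K + 1)) * w < (x : ℝ) - sl μ s * (t : ℝ)
      rw [← hrr, hkR]
      have h4 : ((u : ℝ) - 1) * w < r := by
        rw [← lt_div_iff₀ hw]
        linarith
      linarith
    · show (x : ℝ) - sl μ s * (t : ℝ) ≤ ((k : ℝ) - (K + 1)) * w + w
      rw [← hrr, hkR]
      have h4 : r ≤ (u : ℝ) * w := by
        rw [← div_le_iff₀ hw]
        exact hu1
      linarith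
  have h4 := le_Mh (μ := μ) (s := s) (v := sl μ s) (h := h) (sh a η) hq
  rw [T_sh] at h4
  have h5 : (((t : ℤ), x) : Pt) + a = p := by
    ext
    · show (t : ℤ) + a.1 = p.1
      omega
    · show x + a.2 = p.2
      omega
  simp only at h4
  rw [h5] at h4
  have h6 := hη k hkr
  refine (W_le_T (h := h) η p j y).trans (Real.exp_le_exp.2 ?_)
  linarith

variable [IsProbabilityMeasure μ]

theorem XC_prob (h : In μ s c C n₀) {d : ℕ} (hd : n₀ ≤ d) {t : ℝ} (ht : |t| * wd μ s d ≤ c * EE μ s d) (K : ℕ) (b : ℝ) (a : Pt) :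
    (law μ).real (XC μ s t d K b a)ᶜ ≤ (2 * K + 1) * (C * Real.exp (-(b / (C * EE μ s d)))) := by
  have hE := EE_pos (μ := μ) (s := s) d
  have hC0 : 0 < C := lt_of_lt_of_le one_pos h.C1
  have hCE : 0 < C * EE μ s d := by positivity
  have h1 : (XC μ s t d K b a)ᶜ ⊆ ⋃ k ∈ Finset.range (2 * K + 1), {η : Env | b <
      Mh μ s (sl μ s) t (wd μ s d) (((k : ℝ) - (K + 1)) * wd μ s d) (4 * d) (sh a η)} := by
    intro η hη
    by_contra hcon
    refine hη fun k hk => ?_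
    by_contra h2
    exact hcon (Set.mem_biUnion hk (not_le.1 h2))
  refine (measureReal_mono h1 (measure_ne_top _ _)).trans ?_
  refine (measureReal_biUnion_finset_le _ _).trans ?_
  have h2 : ∀ k ∈ Finset.range (2 * K + 1), (law μ).real {η : Env | b <
      Mh μ s (sl μ s) t (wd μ s d) (((k : ℝ) - (K + 1)) * wd μ s d) (4 * d) (sh a η)} ≤
      C * Real.exp (-(b / (C * EE μ s d))) := by
    intro k _
    obtain ⟨z, hz⟩ : ∃ z : ℝ, z = ((k : ℝ) - (K + 1)) * wd μ s d := ⟨_, rfl⟩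
    rw [← hz]
    have h3 := h.luck d hd t z ht
    have h4 := integral_exp_Mh_sh (μ := μ) (s := s) (v := sl μ s) (h := t) (w := wd μ s d) (z := z) (n := 4 * d)
      (1 / (C * EE μ s d)) a
    have h5 : ∀ x : ℝ, 1 / (C * EE μ s d) * x = x / (C * EE μ s d) := fun x => by ring
    simp only [h5] at h4
    have hS : Sub fun η => Mh μ s (sl μ s) t (wd μ s d) z (4 * d) (sh a η) / (C * EE μ s d) := by
      have := ((Sub_Mh (μ := μ) (s := s) (v := sl μ s) (h := t) (w := wd μ s d) (z := z) (n := 4 * d)).comp_sh a).const_mul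
        (1 / (C * EE μ s d))
      refine (congrArg Pool.Agent.W_7d29a1_F.Sub (funext fun η => ?_)).mp this
      ring
    have h6 := mul_meas_ge_le_integral_of_nonneg (μ := law μ)
      (f := fun η => Real.exp (Mh μ s (sl μ s) t (wd μ s d) z (4 * d) (sh a η) / (C * EE μ s d)))
      (Filter.Eventually.of_forall fun η => (Real.exp_pos _).le) (hS.exp_int h.em) (Real.exp (b / (C * EE μ s d)))
    rw [h4] at h6
    have h7 : (law μ).real {η : Env | b < Mh μ s (sl μ s) t (wd μ s d) z (4 * d) (sh a η)} ≤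
        (law μ).real {η : Env | Real.exp (b / (C * EE μ s d)) ≤
          Real.exp (Mh μ s (sl μ s) t (wd μ s d) z (4 * d) (sh a η) / (C * EE μ s d))} := by
      refine measureReal_mono (fun η hη => ?_) (measure_ne_top _ _)
      rw [Set.mem_ofPred_eq] at hη ⊢
      exact Real.exp_le_exp.2 (div_le_div_of_nonneg_right hη.le hCE.le)
    refine h7.trans ?_
    rw [Real.exp_neg, ← div_eq_mul_inv, le_div_iff₀ (Real.exp_pos _), mul_comm]
    exact h6.trans h3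
  refine (Finset.sum_le_card_nsmul _ _ _ h2).trans (le_of_eq ?_)
  rw [Finset.card_range, nsmul_eq_mul]
  push_cast
  ring

/-- (E4): from one event of the scale `d`, the paths from the strip around `a` which cross a fixed part of the width of the
scale `m` have the weight at most `exp (- Q E_m)`. The direction of the crossing is the sign `g`. -/
theorem cross_sg (h : In μ s c C n₀) {g : ℝ} (hg : |g| = 1)
    (hsl : ∀ B : ℝ, ∃ J n₁ : ℕ, ∀ m d : ℕ, n₁ ≤ d → 2 ^ J * d ≤ m → B * EE μ s m * wd μ s d ≤ EE μ s d * wd μ s m)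
    (Q : ℝ) (K : ℕ) {θ ε : ℝ} (hθ : 0 < θ) (hε : 0 < ε) :
    ∃ (b : ℝ) (J n₁ : ℕ), ∀ m d : ℕ, n₁ ≤ d → 2 ^ J * d ≤ m → 0 < wd μ s d ∧ ∀ a : Pt,
      (law μ).real (XC μ s (g * (c * EE μ s d / wd μ s d)) d K (b * EE μ s d) a)ᶜ ≤ ε ∧
      ∀ η ∈ XC μ s (g * (c * EE μ s d / wd μ s d)) d K (b * EE μ s d) a, ∀ (p : Pt) (j : ℕ) (y : ℤ), a.1 ≤ p.1 →
        p.1 + j ≤ a.1 + 4 * d → |((p.2 : ℝ) - a.2) - sl μ s * ((p.1 : ℝ) - a.1)| ≤ K * wd μ s d →
        θ * wd μ s m ≤ g * ((y : ℝ) - sl μ s * j) → W μ s η p j y ≤ Real.exp (-(Q * EE μ s m)) := by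
  have hc0 := h.c0
  have hC0 : 0 < C := lt_of_lt_of_le one_pos h.C1
  -- the level of the luck
  obtain ⟨b, hb0, hb⟩ : ∃ b : ℝ, 0 < b ∧ (2 * K + 1) * (C * Real.exp (-(b / C))) ≤ ε := by
    have h1 : Tendsto (fun b : ℝ => (2 * K + 1 : ℝ) * (C * Real.exp (-(b / C)))) atTop (𝓝 ((2 * K + 1) * (C * 0))) := by
      refine Tendsto.const_mul _ (Tendsto.const_mul _ ?_)
      exact Real.tendsto_exp_neg_atTop_nhds_zero.comp (tendsto_id.atTop_div_const hC0)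
    rw [mul_zero, mul_zero] at h1
    obtain ⟨b, hb1, hb2⟩ := ((h1.eventually (gt_mem_nhds hε)).and (eventually_gt_atTop 0)).exists
    exact ⟨b, hb2, hb1.le⟩
  obtain ⟨c', hc', n₂, hw⟩ := wd_ge h
  obtain ⟨J₁, n₃, hsc⟩ := scale_a h b
  obtain ⟨J₂, n₄, hS⟩ := hsl ((|Q| + 1) / (c * θ))
  refine ⟨b, max J₁ J₂, max (max n₀ n₂) (max (max n₃ n₄) 1), fun m d hd hdm => ?_⟩
  have hd0 : n₀ ≤ d := le_trans (by simp) hd
  have hd2 : n₂ ≤ d := le_trans (by simp) hd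
  have hd3 : n₃ ≤ d := le_trans (by simp) hd
  have hd4 : n₄ ≤ d := le_trans (by simp) hd
  have hd1 : 1 ≤ d := le_trans (by simp) hd
  have hEd := EE_pos (μ := μ) (s := s) d
  have hEm := EE_pos (μ := μ) (s := s) m
  have hw0 : 0 < wd μ s d := lt_of_lt_of_le (by positivity) (hw d hd2)
  have hp1 : 2 ^ J₁ * d ≤ m := le_trans (Nat.mul_le_mul_right d (Nat.pow_le_pow_right (by norm_num) (le_max_left _ _))) hdm
  have hp2 : 2 ^ J₂ * d ≤ m := le_trans (Nat.mul_le_mul_right d (Nat.pow_le_pow_right (by norm_num) (le_max_right _ _))) hdm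
  have hmd : d ≤ m := le_trans (Nat.le_mul_of_pos_left d (by positivity)) hp1
  have hbE : b * EE μ s d ≤ EE μ s m := hsc d m (hd3.trans hmd) hp1
  have hSr := hS m d hd4 hp2
  refine ⟨hw0, fun a => ⟨?_, ?_⟩⟩
  · refine (XC_prob h hd0 ?_ K _ a).trans ?_
    · rw [abs_mul, hg, one_mul, abs_of_nonneg (by positivity), div_mul_cancel₀ _ hw0.ne']
    · rw [show b * EE μ s d / (C * EE μ s d) = b / C by field_simp]
      exact hb
  · intro η hη p j y h1 h2 h3 h4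
    refine (XC_use h hη hw0 h1 h2 h3 y).trans (Real.exp_le_exp.2 ?_)
    have h5 : (|Q| + 1) * EE μ s m ≤ c * EE μ s d / wd μ s d * (θ * wd μ s m) := by
      rw [div_mul_eq_mul_div, le_div_iff₀ hw0]
      have h6 : (|Q| + 1) / (c * θ) * EE μ s m * wd μ s d = ((|Q| + 1) * EE μ s m * wd μ s d) / (c * θ) := by ring
      rw [h6, div_le_iff₀ (by positivity)] at hSr
      linarith
    have h6 : c * EE μ s d / wd μ s d * (θ * wd μ s m) ≤ c * EE μ s d / wd μ s d * (g * ((y : ℝ) - sl μ s * j)) :=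
      mul_le_mul_of_nonneg_left (by linarith) (by positivity)
    have h7 := mul_le_mul_of_nonneg_right (le_abs_self Q) hEm.le
    have h8 : g * (c * EE μ s d / wd μ s d) * ((y : ℝ) - sl μ s * j) =
        c * EE μ s d / wd μ s d * (g * ((y : ℝ) - sl μ s * j)) := by ring
    rw [h8]
    linarith

/-- (E4), crossings to the right. -/
theorem cross (h : In μ s c C n₀)
    (hsl : ∀ B : ℝ, ∃ J n₁ : ℕ, ∀ m d : ℕ, n₁ ≤ d → 2 ^ J * d ≤ m → B * EE μ s m * wd μ s d ≤ EE μ s d * wd μ s m)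
    (Q : ℝ) (K : ℕ) {θ ε : ℝ} (hθ : 0 < θ) (hε : 0 < ε) :
    ∃ (b : ℝ) (J n₁ : ℕ), ∀ m d : ℕ, n₁ ≤ d → 2 ^ J * d ≤ m → 0 < wd μ s d ∧ ∀ a : Pt,
      (law μ).real (XC μ s (c * EE μ s d / wd μ s d) d K (b * EE μ s d) a)ᶜ ≤ ε ∧
      ∀ η ∈ XC μ s (c * EE μ s d / wd μ s d) d K (b * EE μ s d) a, ∀ (p : Pt) (j : ℕ) (y : ℤ), a.1 ≤ p.1 →
        p.1 + j ≤ a.1 + 4 * d → |((p.2 : ℝ) - a.2) - sl μ s * ((p.1 : ℝ) - a.1)| ≤ K * wd μ s d →
        θ * wd μ s m ≤ (y : ℝ) - sl μ s * j → W μ s η p j y ≤ Real.exp (-(Q * EE μ s m)) := by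
  have h1 := cross_sg h (g := 1) abs_one hsl Q K hθ hε
  simp only [one_mul] at h1
  exact h1

/-- (E4), crossings to the left. -/
theorem cross_neg (h : In μ s c C n₀)
    (hsl : ∀ B : ℝ, ∃ J n₁ : ℕ, ∀ m d : ℕ, n₁ ≤ d → 2 ^ J * d ≤ m → B * EE μ s m * wd μ s d ≤ EE μ s d * wd μ s m)
    (Q : ℝ) (K : ℕ) {θ ε : ℝ} (hθ : 0 < θ) (hε : 0 < ε) :
    ∃ (b : ℝ) (J n₁ : ℕ), ∀ m d : ℕ, n₁ ≤ d → 2 ^ J * d ≤ m → 0 < wd μ s d ∧ ∀ a : Pt,
      (law μ).real (XC μ s (-(c * EE μ s d / wd μ s d)) d K (b * EE μ s d) a)ᶜ ≤ ε ∧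
      ∀ η ∈ XC μ s (-(c * EE μ s d / wd μ s d)) d K (b * EE μ s d) a, ∀ (p : Pt) (j : ℕ) (y : ℤ), a.1 ≤ p.1 →
        p.1 + j ≤ a.1 + 4 * d → |((p.2 : ℝ) - a.2) - sl μ s * ((p.1 : ℝ) - a.1)| ≤ K * wd μ s d →
        θ * wd μ s m ≤ sl μ s * j - y → W μ s η p j y ≤ Real.exp (-(Q * EE μ s m)) := by
  have h1 := cross_sg h (g := -1) (by simp) hsl Q K hθ hε
  simp only [neg_one_mul, neg_sub] at h1
  exact h1

end Pool.Agent.W_7d29a1_HX.XG
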