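import Pool.Agent.W_7d29a1_HX.X50_MomX

/-!
MP_7d29a1_pr, TRACK H, part 4, block X7 (model: `W_7d29a1_X53.StLk`): the two parts `St`, `Lk` of the Jensen reduction of one slab
from the positive part of the cost of the slab and from the luck `(c φ - X)^+`, both at the place of the polymer, at one tilt.
-/

set_option autoImplicit false

namespace Pool.Agent.W_7d29a1_HX.X53

open MeasureTheory ProbabilityTheory Filter Topology Finset
open Pool.Agent.W_7d29a1_F Pool.Agent.W_7d29a1_h4g Pool.Agent.W_7d29a1_H Pool.Agent.W_7d29a1_HS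
open Pool.Agent.W_7d29a1_X50 (Pr Gn hh mem_Pr integrable_Gn_mul Gn_nonneg Gn_sum)
open Pool.Agent.W_7d29a1_HX.X50

noncomputable section

variable {μ : Measure ℝ} [IsProbabilityMeasure μ] {s c C : ℝ} {n₀ : ℕ}

theorem int_lin {Om : Type*} [MeasurableSpace Om] {P : Measure Om} [IsProbabilityMeasure P] {f g : Om → ℝ}
    (hf : Integrable f P) (hg : Integrable g P) (x y z : ℝ) :
    ∫ η, (x + y * f η + z * g η) ∂P = x + y * ∫ η, f η ∂P + z * ∫ η, g η ∂P := by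
  have h1 : Integrable (fun η => x + y * f η) P := (integrable_const x).add (hf.const_mul y)
  rw [integral_add h1 (hg.const_mul z), integral_add (integrable_const x) (hf.const_mul y), integral_const_mul,
    integral_const_mul, integral_const, probReal_univ, one_smul]

/-- The mean positive part of the cost, squared, at the place of the polymer. -/
def XP (μ : Measure ℝ) (s : ℝ) (a m k : ℕ) : ℝ :=
  ∫ η, ∑ q ∈ Pr a m, Gn μ s η a m k q * (max (X μ s η ((a : ℤ), q.1) m q.2) 0) ^ 2 ∂(law μ)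

/-- The mean luck `(c φ - X)^+`, squared, at the place of the polymer. -/
def LP (μ : Measure ℝ) (s c : ℝ) (a m k : ℕ) : ℝ :=
  ∫ η, ∑ q ∈ Pr a m, Gn μ s η a m k q *
    (max (c * (m * J μ s (((q.2 : ℝ) - sl μ s * m) / m)) - X μ s η ((a : ℤ), q.1) m q.2) 0) ^ 2 ∂(law μ)

theorem integrable_XP (hμ : Pool.Agent.W_7d29a1_h47.EM μ) (a m k : ℕ) :
    Integrable (fun η => ∑ q ∈ Pr a m, Gn μ s η a m k q * (max (X μ s η ((a : ℤ), q.1) m q.2) 0) ^ 2) (law μ) :=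
  integrable_finsetSum _ fun _ hq => integrable_Gn_mul hq
    (((Sub_X _ (mem_Pr.1 hq).2.1 (mem_Pr.1 hq).2.2).max (Sub.const 0)).sq_integrable hμ)

theorem integrable_LP (hμ : Pool.Agent.W_7d29a1_h47.EM μ) (c : ℝ) (a m k : ℕ) :
    Integrable (fun η => ∑ q ∈ Pr a m, Gn μ s η a m k q *
      (max (c * (m * J μ s (((q.2 : ℝ) - sl μ s * m) / m)) - X μ s η ((a : ℤ), q.1) m q.2) 0) ^ 2) (law μ) :=
  integrable_finsetSum _ fun _ hq => integrable_Gn_mul hq
    ((((Sub.const _).sub (Sub_X _ (mem_Pr.1 hq).2.1 (mem_Pr.1 hq).2.2)).max (Sub.const 0)).sq_integrable hμ)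

omit [IsProbabilityMeasure μ] in
theorem XP_nonneg (a m k : ℕ) : 0 ≤ XP μ s a m k :=
  integral_nonneg fun η => sum_nonneg fun q _ => mul_nonneg (Gn_nonneg η a m k q) (sq_nonneg _)

omit [IsProbabilityMeasure μ] in
theorem LP_nonneg (c : ℝ) (a m k : ℕ) : 0 ≤ LP μ s c a m k :=
  integral_nonneg fun η => sum_nonneg fun q _ => mul_nonneg (Gn_nonneg η a m k q) (sq_nonneg _)

/-- The luck of the slab. -/
theorem Lk_le (hμ : Pool.Agent.W_7d29a1_h47.EM μ) (hnd : Pool.Agent.W_7d29a1_h47.Nondeg μ) {c' : ℝ} (hc' : 0 ≤ c') {m : ℕ} (_hm : 1 ≤ m) (a k : ℕ) :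
    Pool.Agent.W_7d29a1_X50.Lk μ s a m k ≤ LP μ s c' a m k := by
  unfold Pool.Agent.W_7d29a1_X50.Lk LP
  refine integral_mono (integrable_finsetSum _ fun q hq => integrable_Gn_mul hq
    (((Sub_X _ (mem_Pr.1 hq).2.1 (mem_Pr.1 hq).2.2).neg.max (Sub.const 0)).sq_integrable hμ))
    (integrable_LP hμ c' a m k) fun η => ?_
  refine sum_le_sum fun q hq => mul_le_mul_of_nonneg_left ?_ (Gn_nonneg η a m k q)
  refine pow_le_pow_left₀ (le_max_right _ _) (max_le_max ?_ le_rfl) 2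
  have h1 := mul_nonneg hc' (price_nonneg hμ hnd s m q.2)
  linarith

/-- The cost of a fresh slab at the place of the polymer. -/
theorem St_le (h : In μ s c C n₀) {c' : ℝ} (hc' : 0 < c') : ∃ K : ℝ, 0 ≤ K ∧ ∀ a m k : ℕ, 1 ≤ m →
    Pool.Agent.W_7d29a1_X50.St μ s a m k ≤ K * (EE μ s m ^ 2 + XP μ s a m k + LP μ s c' a m k) := by
  obtain ⟨K, hK, hhh⟩ := hh_le h
  refine ⟨K * (2 + 4 / c' ^ 2), by positivity, fun a m k hm => ?_⟩
  have hE := EE_pos (μ := μ) (s := s) m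
  have hpt : ∀ η : Env, ∑ q ∈ Pr a m, Gn μ s η a m k q * hh μ s m q.2 ≤
      K * (2 * EE μ s m ^ 2) + K * (4 / c' ^ 2) *
        (∑ q ∈ Pr a m, Gn μ s η a m k q * (max (X μ s η ((a : ℤ), q.1) m q.2) 0) ^ 2) +
        K * (4 / c' ^ 2) * ∑ q ∈ Pr a m, Gn μ s η a m k q *
          (max (c' * (m * J μ s (((q.2 : ℝ) - sl μ s * m) / m)) - X μ s η ((a : ℤ), q.1) m q.2) 0) ^ 2 := by
    intro η
    have hone := Gn_sum (μ := μ) (s := s) η a m k
    have e1 : K * (2 * EE μ s m ^ 2) = ∑ q ∈ Pr a m, Gn μ s η a m k q * (K * (2 * EE μ s m ^ 2)) := by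
      rw [← sum_mul, hone, one_mul]
    rw [e1, mul_sum, mul_sum, ← sum_add_distrib, ← sum_add_distrib]
    refine sum_le_sum fun q hq => ?_
    have hG := Gn_nonneg (μ := μ) (s := s) η a m k q
    have hp := price_nonneg h.em h.nd s m q.2
    have h1 := hhh m hm q.2 (mem_Pr.1 hq).2.1 (mem_Pr.1 hq).2.2
    obtain ⟨Q, hQ⟩ : ∃ Q : ℝ, Q = m * J μ s (((q.2 : ℝ) - sl μ s * m) / m) := ⟨_, rfl⟩
    rw [← hQ] at hp h1 ⊢
    obtain ⟨x, hx⟩ : ∃ x : ℝ, x = X μ s η ((a : ℤ), q.1) m q.2 := ⟨_, rfl⟩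
    rw [← hx]
    have h2 : c' * Q ≤ max x 0 + max (c' * Q - x) 0 := by
      have := le_max_left x 0
      have := le_max_left (c' * Q - x) 0
      linarith
    have h3 : Q ^ 2 ≤ 2 / c' ^ 2 * (max x 0 ^ 2 + max (c' * Q - x) 0 ^ 2) := by
      have h4 : (c' * Q) ^ 2 ≤ (max x 0 + max (c' * Q - x) 0) ^ 2 :=
        pow_le_pow_left₀ (mul_nonneg hc'.le hp) h2 2
      have h5 : (max x 0 + max (c' * Q - x) 0) ^ 2 ≤ 2 * (max x 0 ^ 2 + max (c' * Q - x) 0 ^ 2) := by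
        nlinarith [sq_nonneg (max x 0 - max (c' * Q - x) 0)]
      have h6 : c' ^ 2 * Q ^ 2 ≤ 2 * (max x 0 ^ 2 + max (c' * Q - x) 0 ^ 2) := by
        rw [← mul_pow]
        exact h4.trans h5
      rw [div_mul_eq_mul_div, le_div_iff₀ (by positivity)]
      linarith
    have h7 : (EE μ s m + Q) ^ 2 ≤ 2 * EE μ s m ^ 2 + 4 / c' ^ 2 * (max x 0 ^ 2 + max (c' * Q - x) 0 ^ 2) := by
      have h8 : (EE μ s m + Q) ^ 2 ≤ 2 * EE μ s m ^ 2 + 2 * Q ^ 2 := by
        nlinarith [sq_nonneg (EE μ s m - Q)]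
      refine h8.trans ?_
      have h9 : 2 * Q ^ 2 ≤ 2 * (2 / c' ^ 2 * (max x 0 ^ 2 + max (c' * Q - x) 0 ^ 2)) := by linarith
      refine (add_le_add le_rfl h9).trans (le_of_eq ?_)
      ring
    have h10 : hh μ s m q.2 ≤ K * (2 * EE μ s m ^ 2 + 4 / c' ^ 2 * (max x 0 ^ 2 + max (c' * Q - x) 0 ^ 2)) :=
      h1.trans (mul_le_mul_of_nonneg_left h7 hK.le)
    refine (mul_le_mul_of_nonneg_left h10 hG).trans (le_of_eq ?_)
    ring
  have iX := integrable_XP (s := s) h.em a m k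
  have iL := integrable_LP (s := s) h.em c' a m k
  have iH : Integrable (fun η => ∑ q ∈ Pr a m, Gn μ s η a m k q * hh μ s m q.2) (law μ) :=
    integrable_finsetSum _ fun q hq => integrable_Gn_mul hq (integrable_const _)
  have h1 := integral_mono (μ := law μ) iH
    (((integrable_const (K * (2 * EE μ s m ^ 2))).add (iX.const_mul (K * (4 / c' ^ 2)))).add
      (iL.const_mul (K * (4 / c' ^ 2)))) hpt
  have h1' := int_lin iX iL (K * (2 * EE μ s m ^ 2)) (K * (4 / c' ^ 2)) (K * (4 / c' ^ 2))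
  have hX := XP_nonneg (μ := μ) (s := s) a m k
  have hL := LP_nonneg (μ := μ) (s := s) c' a m k
  have h2 : Pool.Agent.W_7d29a1_X50.St μ s a m k ≤ K * (2 * EE μ s m ^ 2) + K * (4 / c' ^ 2) * XP μ s a m k + K * (4 / c' ^ 2) * LP μ s c' a m k :=
    h1.trans (le_of_eq h1')
  have h3 : 0 ≤ K * (4 / c' ^ 2) * EE μ s m ^ 2 := by positivity
  have h4 : 0 ≤ K * 2 * XP μ s a m k := by positivity
  have h5 : 0 ≤ K * 2 * LP μ s c' a m k := by positivity
  calc Pool.Agent.W_7d29a1_X50.St μ s a m k ≤ K * (2 * EE μ s m ^ 2) + K * (4 / c' ^ 2) * XP μ s a m k + K * (4 / c' ^ 2) * LP μ s c' a m k := h2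
    _ ≤ K * (2 + 4 / c' ^ 2) * (EE μ s m ^ 2 + XP μ s a m k + LP μ s c' a m k) := by
        have e : K * (2 + 4 / c' ^ 2) * (EE μ s m ^ 2 + XP μ s a m k + LP μ s c' a m k) =
          K * (2 * EE μ s m ^ 2) + K * (4 / c' ^ 2) * XP μ s a m k + K * (4 / c' ^ 2) * LP μ s c' a m k +
          (K * (4 / c' ^ 2) * EE μ s m ^ 2 + K * 2 * XP μ s a m k + K * 2 * LP μ s c' a m k) := by ring
        rw [e]
        linarith

end

end Pool.Agent.W_7d29a1_HX.X53
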