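import Pool.Agent.W_7d29a1_HX.XA_Forms
import Pool.Agent.W_7d29a1_HS.SubHalf4

/-!
TRACK H, part 4 (MP_7d29a1_pr): STORM X at one tilt `s` (model: `W_7d29a1_XA.Full`), the assembly: (XES) from the bound on the
complete slabs. The second moment of the free energy is a hypothesis `M2 μ s` (proved in `XA_Leaves`). (helper51)
-/

set_option autoImplicit false

namespace Pool.Agent.W_7d29a1_HX.XA

open MeasureTheory ProbabilityTheory Filter Topology Finset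
open Pool.Agent.W_7d29a1_F Pool.Agent.W_7d29a1_h4g Pool.Agent.W_7d29a1_H Pool.Agent.W_7d29a1_HS
open Pool.Agent.W_7d29a1_X42
open Pool.Agent.W_7d29a1_HX.XG
open Pool.Agent.W_7d29a1_X50 hiding St
open Pool.Agent.W_7d29a1_f21 (lw splice)

noncomputable section

variable {μ : Measure ℝ} {s : ℝ}

/-- The bound on the complete slabs of the level `j` (section 5 of row 643). -/
def ESF (μ : Measure ℝ) (s : ℝ) : Prop :=
  ∃ C : ℝ, ∀ J1 : ℕ, ∃ i0 : ℕ, ∀ j N : ℕ, i0 ≤ j → 2 ^ (j + J1) < N → N ≤ 2 * 2 ^ (j + J1) →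
    ∑ k ∈ range (N / 2 ^ j), (Pool.Agent.W_7d29a1_X50.St μ s (k * 2 ^ j) (2 ^ j) (N - (k + 1) * 2 ^ j) +
      Lk μ s (k * 2 ^ j) (2 ^ j) (N - (k + 1) * 2 ^ j)) ≤ C * N * aa μ s j

/-- The second moment of the free energy. -/
def M2 (μ : Measure ℝ) (s : ℝ) : Prop :=
  ∃ A : ℝ, ∀ n : ℕ, 1 ≤ n → ∫ η, |V μ s η 0 n| ^ 2 ∂(law μ) ≤ A * EE μ s n ^ 2

variable [IsProbabilityMeasure μ] {c C : ℝ} {n₀ : ℕ}

/-- Every conditional variance is at most the square of the unit of the whole polymer. -/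
theorem ev_le_EE (h : In μ s c C n₀) (hM : M2 μ s) : ∃ A : ℝ, 0 ≤ A ∧ ∀ N : ℕ, 1 ≤ N → ∀ S : Set Pt,
    ev μ S (Fn μ s N) ≤ A * EE μ s N ^ 2 := by
  obtain ⟨A, hA⟩ := hM
  refine ⟨max A 0, le_max_right _ _, fun N hN S => ?_⟩
  have h1 := ev_eq (memLp_Fn (μ := μ) (s := s) h.em N) S
  have h2 : 0 ≤ qF μ S (Fn μ s N) := by
    rw [qF_eq (measurable_Fn N) (memLp_Fn h.em N)]
    exact integral_nonneg fun g => sq_nonneg _
  have h3 : ∫ g, Fn μ s N g ^ 2 ∂(lw Pt μ) ≤ A * EE μ s N ^ 2 := by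
    refine le_trans (le_of_eq ?_) (hA N hN)
    refine integral_congr_ae (Eventually.of_forall fun g => ?_)
    show V μ s g 0 N ^ 2 = |V μ s g 0 N| ^ 2
    rw [sq_abs]
  have h4 : A * EE μ s N ^ 2 ≤ max A 0 * EE μ s N ^ 2 := mul_le_mul_of_nonneg_right (le_max_left _ _) (sq_nonneg _)
  linarith

/-- `a_n ≤ A a_m`. -/
theorem aa_mono (h : In μ s c C n₀) : ∃ A : ℝ, 0 < A ∧ ∃ j₀ : ℕ, ∀ j N : ℕ, j₀ ≤ j → 2 ^ j ≤ N →
    EE μ s N ^ 2 ≤ A * (N * aa μ s j) := by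
  obtain ⟨A, hA, n₁, hn1, h1⟩ := sub_half h
  refine ⟨A, hA, n₁, fun j N hj hN => ?_⟩
  have h2 : n₁ ≤ 2 ^ j := hj.trans Nat.lt_two_pow_self.le
  have h3 := h1 (2 ^ j) N h2 hN
  refine h3.trans (le_of_eq ?_)
  unfold aa
  push_cast
  ring

/-- (XES) from the complete slabs: the conditional variances themselves. -/
theorem XES_of_ev (h : In μ s c C n₀) (hM : M2 μ s)
    (hF : ∃ B : ℝ, ∀ J1 : ℕ, ∃ i0 : ℕ, ∀ j N : ℕ, i0 ≤ j → 2 ^ (j + J1) < N → N ≤ 2 * 2 ^ (j + J1) →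
      ∑ k ∈ range (N / 2 ^ j), ev μ (slab j k) (Fn μ s N) ≤ B * N * aa μ s j) : XES μ s := by
  obtain ⟨B, hB⟩ := hF
  obtain ⟨A, hA, h1⟩ := ev_le_EE h hM
  obtain ⟨A', hA', j₀, h2⟩ := aa_mono h
  intro e he
  refine ⟨B + A * A', 0, fun J1 _ => ?_⟩
  obtain ⟨i0, hi0⟩ := hB J1
  refine ⟨max i0 j₀, fun j N hj hN1 hN2 => ?_⟩
  have hj1 : i0 ≤ j := (le_max_left _ _).trans hj
  have hj2 : j₀ ≤ j := (le_max_right _ _).trans hj
  have hN : 2 ^ j ≤ N := (Nat.pow_le_pow_right (by norm_num) (Nat.le_add_right _ _)).trans hN1.le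
  have hN0 : 1 ≤ N := Nat.one_le_two_pow.trans hN
  have h3 := hi0 j N hj1 hN1 hN2
  have h4 := DD_le (μ := μ) (s := s) h.em N j
  have h5 := h1 N hN0 (rows ((N : ℤ) - (2 ^ j : ℕ)) N)
  have h6 := mul_le_mul_of_nonneg_left (h2 j N hj2 hN) hA
  have h7 : 0 ≤ e * N * ∑ i ∈ Icc j (j + J1), aa μ s i :=
    mul_nonneg (by positivity) (Finset.sum_nonneg fun i _ => (aa_pos i).le)
  have h8 : (B + A * A') * N * aa μ s j = B * N * aa μ s j + A * (A' * (N * aa μ s j)) := by ring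
  rw [h8]
  linarith

/-- (XES) from `ESF`. -/
theorem XES_of_ESF (h : In μ s c C n₀) (hM : M2 μ s) (hF : ESF μ s) : XES μ s := by
  refine XES_of_ev h hM ?_
  obtain ⟨B, hB⟩ := hF
  refine ⟨2 * B, fun J1 => ?_⟩
  obtain ⟨i0, hi0⟩ := hB J1
  refine ⟨i0, fun j N hj hN1 hN2 => ?_⟩
  have h1 : ∀ k ∈ range (N / 2 ^ j), ev μ (slab j k) (Fn μ s N) ≤
      2 * (Pool.Agent.W_7d29a1_X50.St μ s (k * 2 ^ j) (2 ^ j) (N - (k + 1) * 2 ^ j) + Lk μ s (k * 2 ^ j) (2 ^ j) (N - (k + 1) * 2 ^ j)) := by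
    intro k hk
    rw [mem_range] at hk
    have h2 : (k + 1) * 2 ^ j ≤ N :=
      (Nat.mul_le_mul_right _ hk).trans (Nat.div_mul_le_self N _)
    have h3 : k * 2 ^ j + 2 ^ j + (N - (k + 1) * 2 ^ j) = N := by
      have : (k + 1) * 2 ^ j = k * 2 ^ j + 2 ^ j := by ring
      omega
    have h4 := ev_le_jen (μ := μ) (s := s) h.em (k * 2 ^ j) (2 ^ j) (N - (k + 1) * 2 ^ j)
    rw [h3] at h4
    rw [slab_eq]
    linarith
  refine (Finset.sum_le_sum h1).trans ?_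
  rw [← Finset.mul_sum]
  have := hi0 j N hj hN1 hN2
  nlinarith

end

end Pool.Agent.W_7d29a1_HX.XA
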