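import Pool.Agent.W_7d29a1_HX.XA_Small
import Pool.Agent.W_7d29a1_HS.Mom
import Pool.Agent.W_7d29a1_HX.XT_ESF
import Pool.Agent.W_7d29a1_HX.X72_I3
import Pool.Agent.W_7d29a1_HX.X97_Roots
import Pool.Agent.W_7d29a1_HX.X_NRE89
import Pool.Agent.W_7d29a1_HX.XG_NLg

/-!
TRACK H, part 4 (MP_7d29a1_pr): STORM X at one tilt `s` (model: `W_7d29a1_XA.Leaves`), the assembly: (ES) and (NL) from the input
structure, and POWER SUPERCONCENTRATION AT THE TILT `s`. (helper51)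
-/

set_option autoImplicit false

namespace Pool.Agent.W_7d29a1_HX.XA

open MeasureTheory ProbabilityTheory Filter Topology
open Pool.Agent.W_7d29a1_F Pool.Agent.W_7d29a1_h4g Pool.Agent.W_7d29a1_H Pool.Agent.W_7d29a1_HS

variable {μ : Measure ℝ} {s : ℝ} [IsProbabilityMeasure μ] {c C : ℝ} {n₀ : ℕ}

/-- (ES) on the complete slabs. -/
theorem esf_all (h : In μ s c C n₀) : ESF μ s := by
  obtain ⟨c', Cl, i₁, hc', hCl, hL⟩ := Pool.Agent.W_7d29a1_HX.X72.I3 h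
  obtain ⟨Cr, hCr, n₂, hR⟩ := Pool.Agent.W_7d29a1_HX.X97.roots_pos h
  exact Pool.Agent.W_7d29a1_HX.XT.esf_wire h hc' hCl (fun i N hi hN _ => hL i N hi hN) hCr hR (Ce := 6) (by norm_num)
    Pool.Agent.W_7d29a1_HX.X.hE_of

/-- The second moment of the free energy. -/
theorem m2_all (h : In μ s c C n₀) : M2 μ s := by
  obtain ⟨A, hA⟩ := moments h 2
  exact ⟨A, fun n hn => (hA n hn).2⟩

/-- (ES). -/
theorem xes_all (h : In μ s c C n₀) : XES μ s := XES_of_ESF h (m2_all h) (esf_all h)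

/-- (NL). -/
theorem xnl_all (h : In μ s c C n₀) : XNL μ s := Pool.Agent.W_7d29a1_HX.XG.xNL h

/-- **Power superconcentration at the tilt `s`.** -/
theorem super_tilt (h : In μ s c C n₀) :
    ∃ D e : ℝ, 0 < D ∧ 0 < e ∧ ∀ n : ℕ, 1 ≤ n → EE μ s n ^ 2 ≤ D * (n : ℝ) ^ (1 - e) :=
  EE_power h (xnl_all h) (xes_all h)

/-- **Power superconcentration at the tilt `s`**, at two scales. -/
theorem super_tilt_two (h : In μ s c C n₀) :
    ∃ (D e : ℝ) (n₁ : ℕ), 0 < D ∧ 0 < e ∧ e ≤ 1 ∧ 1 ≤ n₁ ∧ ∀ m n : ℕ, n₁ ≤ m → m ≤ n →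
      EE μ s n ^ 2 ≤ D * ((n : ℝ) / m) ^ (1 - e) * EE μ s m ^ 2 :=
  EE_power_two h (xnl_all h) (xes_all h)

end Pool.Agent.W_7d29a1_HX.XA
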