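import Pool.Agent.W_7d29a1_HX.X50_Unl
import Pool.Agent.W_7d29a1_X50.Jen

/-!
MP_7d29a1_pr, TRACK H, part 4, block X7 (model: `W_7d29a1_X50.MomX`): moments of the cost of every pair of end points at one tilt,
from `unlucky_all`. The price of the pair is `m J ((y - sl m) / m)`.
-/

set_option autoImplicit false

namespace Pool.Agent.W_7d29a1_HX.X50

open MeasureTheory ProbabilityTheory Filter Topology
open Pool.Agent.W_7d29a1_F Pool.Agent.W_7d29a1_h4g Pool.Agent.W_7d29a1_H Pool.Agent.W_7d29a1_HS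
open Pool.Agent.W_7d29a1_X50 (hh)
open Pool.Agent.W_7d29a1_SR (pow_moment_of_tail)

/-- Stretched exponentials are below powers. -/
theorem exp_le_pow {a g : ℝ} (ha : 0 < a) (hg : 0 < g) (q : ℕ) : ∃ K : ℝ, 0 < K ∧ ∀ u : ℝ, 1 ≤ u →
    Real.exp (-(a * u ^ g)) ≤ K / u ^ q := by
  obtain ⟨m, hm⟩ := exists_nat_ge ((q : ℝ) / g)
  refine ⟨m.factorial / a ^ m, by positivity, fun u hu => ?_⟩
  have hu0 : 0 < u := by linarith
  have hx0 : 0 < a * u ^ g := by positivity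
  have h1 := Real.pow_div_factorial_le_exp (a * u ^ g) hx0.le m
  have hf : (0 : ℝ) < m.factorial := by exact_mod_cast m.factorial_pos
  have h2 : Real.exp (-(a * u ^ g)) ≤ m.factorial / (a * u ^ g) ^ m := by
    rw [Real.exp_neg, inv_le_comm₀ (Real.exp_pos _) (by positivity), inv_div]
    exact h1
  have h3 : u ^ q ≤ (u ^ g) ^ m := by
    rw [← Real.rpow_natCast (u ^ g) m, ← Real.rpow_mul hu0.le, ← Real.rpow_natCast u q]
    refine Real.rpow_le_rpow_of_exponent_le hu ?_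
    rw [div_le_iff₀ hg] at hm
    linarith
  have h4 : (m.factorial : ℝ) / (a * u ^ g) ^ m ≤ m.factorial / a ^ m / u ^ q := by
    rw [mul_pow, div_div]
    exact div_le_div_of_nonneg_left hf.le (by positivity) (mul_le_mul_of_nonneg_left h3 (by positivity))
  exact h2.trans h4

variable {μ : Measure ℝ} [IsProbabilityMeasure μ] {s c C : ℝ} {n₀ : ℕ}

theorem price_nonneg (hμ : Pool.Agent.W_7d29a1_h47.EM μ) (hnd : Pool.Agent.W_7d29a1_h47.Nondeg μ) (s : ℝ) (m : ℕ) (y : ℤ) :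
    0 ≤ m * J μ s (((y : ℝ) - sl μ s * m) / m) :=
  mul_nonneg (Nat.cast_nonneg m) (J_nonneg hμ hnd s _)

/-- (ES2), every moment: the excess of the cost over a multiple of the unit and the price. -/
theorem excess_pow (h : In μ s c C n₀) : ∃ C₁ : ℝ, 0 < C₁ ∧ ∀ q : ℕ, 1 ≤ q → ∃ K : ℝ, 0 < K ∧
    ∀ m : ℕ, 1 ≤ m → ∀ y : ℤ, 0 ≤ y → y ≤ m →
      ∫ η, (max (X μ s η 0 m y - C₁ * (EE μ s m + m * J μ s (((y : ℝ) - sl μ s * m) / m))) 0) ^ q ∂(law μ) ≤ K * EE μ s m ^ q := by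
  obtain ⟨C₁, A, a, g, hC₁, hA, ha, hg, hg1, hU⟩ := unlucky_all h
  refine ⟨C₁, hC₁, fun q hq => ?_⟩
  obtain ⟨K₀, hK₀, hK⟩ := exp_le_pow ha hg (q + 1)
  refine ⟨q * (1 + A * K₀), by positivity, fun m hm y hy0 hy1 => ?_⟩
  have hE := EE_pos (μ := μ) (s := s) m
  obtain ⟨P, hP⟩ : ∃ P : ℝ, P = C₁ * (EE μ s m + m * J μ s (((y : ℝ) - sl μ s * m) / m)) := ⟨_, rfl⟩
  rw [← hP]
  have hS : Sub fun η : Env => max (X μ s η 0 m y - P) 0 := ((Sub_X _ hy0 hy1).sub (Sub.const P)).max (Sub.const 0)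
  have h1 := pow_moment_of_tail (P := law μ) (Y := fun η => max (X μ s η 0 m y - P) 0 / EE μ s m)
    (hS.1.div_const _) (fun η => div_nonneg (le_max_right _ _) hE.le) q hq (A := A * K₀) (by positivity) (fun u hu => by
      have h2 := hU m hm y hy0 hy1 u (by linarith)
      rw [← hP] at h2
      refine le_trans (measureReal_mono (fun η hη => ?_) (measure_ne_top _ _)) (h2.trans ?_)
      · rw [Set.mem_ofPred_eq, le_div_iff₀ hE] at hη
        rw [Set.mem_ofPred_eq]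
        have h3 : 0 < u * EE μ s m := mul_pos (by linarith) hE
        rcases le_max_iff.1 hη with h4 | h4
        · linarith
        · linarith
      · have h5 := mul_le_mul_of_nonneg_left (hK u hu) hA.le
        calc A * Real.exp (-(a * u ^ g)) ≤ A * (K₀ / u ^ (q + 1)) := h5
          _ = A * K₀ / u ^ (q + 1) := by ring)
  have h2 : ∀ η, (max (X μ s η 0 m y - P) 0) ^ q = EE μ s m ^ q * (max (X μ s η 0 m y - P) 0 / EE μ s m) ^ q := fun η => by
    rw [div_pow]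
    field_simp
  simp only [h2]
  rw [integral_const_mul]
  calc EE μ s m ^ q * ∫ η, (max (X μ s η 0 m y - P) 0 / EE μ s m) ^ q ∂(law μ) ≤ EE μ s m ^ q * (q * (1 + A * K₀)) :=
        mul_le_mul_of_nonneg_left h1 (by positivity)
    _ = q * (1 + A * K₀) * EE μ s m ^ q := by ring

/-- (ES2). -/
theorem excess_sq (h : In μ s c C n₀) : ∃ C₁ K : ℝ, 0 < C₁ ∧ 0 < K ∧
    ∀ m : ℕ, 1 ≤ m → ∀ y : ℤ, 0 ≤ y → y ≤ m →
      ∫ η, (max (X μ s η 0 m y - C₁ * (EE μ s m + m * J μ s (((y : ℝ) - sl μ s * m) / m))) 0) ^ 2 ∂(law μ) ≤ K * EE μ s m ^ 2 := by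
  obtain ⟨C₁, hC₁, hq⟩ := excess_pow h
  obtain ⟨K, hK, h1⟩ := hq 2 (by norm_num)
  exact ⟨C₁, K, hC₁, hK, h1⟩

/-- (ES1) = (I1): the second moment of the positive part of the cost. -/
theorem hh_le (h : In μ s c C n₀) : ∃ K : ℝ, 0 < K ∧ ∀ m : ℕ, 1 ≤ m → ∀ y : ℤ, 0 ≤ y → y ≤ m →
    hh μ s m y ≤ K * (EE μ s m + m * J μ s (((y : ℝ) - sl μ s * m) / m)) ^ 2 := by
  obtain ⟨C₁, K, hC₁, hK, h1⟩ := excess_sq h
  refine ⟨2 * K + 2 * C₁ ^ 2, by positivity, fun m hm y hy0 hy1 => ?_⟩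
  have hE := EE_pos (μ := μ) (s := s) m
  have hp := price_nonneg h.em h.nd s m y
  obtain ⟨Q, hQ⟩ : ∃ Q : ℝ, Q = m * J μ s (((y : ℝ) - sl μ s * m) / m) := ⟨_, rfl⟩
  rw [← hQ] at hp ⊢
  have h2 := h1 m hm y hy0 hy1
  rw [← hQ] at h2
  have hS : Sub fun η : Env => max (X μ s η 0 m y - C₁ * (EE μ s m + Q)) 0 :=
    ((Sub_X _ hy0 hy1).sub (Sub.const _)).max (Sub.const 0)
  have hS2 : Sub fun η : Env => max (X μ s η 0 m y) 0 := (Sub_X _ hy0 hy1).max (Sub.const 0)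
  have h3 : ∀ η, (max (X μ s η 0 m y) 0) ^ 2 ≤ 2 * (max (X μ s η 0 m y - C₁ * (EE μ s m + Q)) 0) ^ 2 +
      2 * (C₁ * (EE μ s m + Q)) ^ 2 := by
    intro η
    have h4 : max (X μ s η 0 m y) 0 ≤ max (X μ s η 0 m y - C₁ * (EE μ s m + Q)) 0 + C₁ * (EE μ s m + Q) := by
      refine max_le ?_ ?_
      · have := le_max_left (X μ s η 0 m y - C₁ * (EE μ s m + Q)) 0
        linarith
      · have := le_max_right (X μ s η 0 m y - C₁ * (EE μ s m + Q)) 0
        positivity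
    have h5 := pow_le_pow_left₀ (le_max_right _ _) h4 2
    nlinarith [sq_nonneg (max (X μ s η 0 m y - C₁ * (EE μ s m + Q)) 0 - C₁ * (EE μ s m + Q))]
  have h6 : hh μ s m y ≤ ∫ η, (2 * (max (X μ s η 0 m y - C₁ * (EE μ s m + Q)) 0) ^ 2 +
      2 * (C₁ * (EE μ s m + Q)) ^ 2) ∂(law μ) := by
    unfold hh
    exact integral_mono (hS2.sq_integrable h.em) (((hS.sq_integrable h.em).const_mul 2).add (integrable_const _)) h3
  rw [integral_add ((hS.sq_integrable h.em).const_mul 2) (integrable_const _), integral_const_mul, integral_const,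
    probReal_univ, one_smul] at h6
  have h7 : EE μ s m ^ 2 ≤ (EE μ s m + Q) ^ 2 := pow_le_pow_left₀ hE.le (by linarith) 2
  have h8 : K * EE μ s m ^ 2 ≤ K * (EE μ s m + Q) ^ 2 := mul_le_mul_of_nonneg_left h7 hK.le
  calc hh μ s m y ≤ 2 * (K * EE μ s m ^ 2) + 2 * (C₁ * (EE μ s m + Q)) ^ 2 := by linarith
    _ ≤ 2 * (K * (EE μ s m + Q) ^ 2) + 2 * (C₁ * (EE μ s m + Q)) ^ 2 := by linarith
    _ = (2 * K + 2 * C₁ ^ 2) * (EE μ s m + Q) ^ 2 := by ring

end Pool.Agent.W_7d29a1_HX.X50
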