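import Pool.Agent.W_7d29a1_HS.Scale
import Pool.Agent.W_7d29a1_L78.RowA

/-!
TRACK H, part 4 (MP_7d29a1_pr): STORM X at one tilt `s` (model: `W_7d29a1_XG.Good`), the outside input of (NL): the free energy compared with the glued
functional, in which the rows of the two slabs are removed. (helper5)
-/

set_option autoImplicit false

namespace Pool.Agent.W_7d29a1_HX.XG

open MeasureTheory ProbabilityTheory Filter Topology
open Pool.Agent.W_7d29a1_F Pool.Agent.W_7d29a1_h4g Pool.Agent.W_7d29a1_H Pool.Agent.W_7d29a1_HS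
open Pool.Agent.W_7d29a1_L78 (Sub_Xp integral_Xp)

noncomputable section

variable {μ : Measure ℝ} {s : ℝ} {c C : ℝ} {n₀ : ℕ}

/-- The partition function of the polymers of the duration `a + l + r` with the rows `(a, a + l]` removed. -/
def glue (μ : Measure ℝ) (s : ℝ) (η : Env) (a l r : ℕ) : ℝ :=
  ∑ x ∈ Finset.Icc (0 : ℤ) a, W μ s η 0 a x * Real.exp (V μ s η ((a : ℤ) + l, x + md μ s l) r)

/-- The environment with the rows `(a, a + l]` removed. -/
def gm (μ : Measure ℝ) (s : ℝ) (a l : ℕ) (η : Env) : Env := fun p => η (if p.1 ≤ (a : ℤ) then p else (p.1 + l, p.2 + md μ s l))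

/-- `- E V_n`. -/
def bb (μ : Measure ℝ) (s : ℝ) (n : ℕ) : ℝ := -∫ η, V μ s η 0 n ∂(law μ)

/-- The weights of the glued functional. -/
def gw (μ : Measure ℝ) (s : ℝ) (η : Env) (a l r : ℕ) (x : ℤ) : ℝ :=
  W μ s η 0 a x * Real.exp (V μ s η ((a : ℤ) + l, x + md μ s l) r)

theorem gw_nonneg (η : Env) (a l r : ℕ) (x : ℤ) : 0 ≤ gw μ s η a l r x :=
  mul_nonneg (W_nonneg _ _ _ _) (Real.exp_pos _).le

theorem glue_eq (η : Env) (a l r : ℕ) : glue μ s η a l r = ∑ x ∈ Finset.Icc (0 : ℤ) a, gw μ s η a l r x := rfl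

theorem glue_pos (η : Env) (a l r : ℕ) : 0 < glue μ s η a l r := by
  rw [glue_eq]
  refine lt_of_lt_of_le (mul_pos (W_pos (μ := μ) (s := s) η 0 le_rfl (Int.natCast_nonneg a)) (Real.exp_pos _))
    (Finset.single_le_sum (f := fun x => gw μ s η a l r x) (fun x _ => gw_nonneg η a l r x)
      (Finset.mem_Icc.2 ⟨le_rfl, Int.natCast_nonneg a⟩))

theorem gw_le (η : Env) (a l r : ℕ) {x : ℤ} (hx : x ∈ Finset.Icc (0 : ℤ) a) :
    gw μ s η a l r x / glue μ s η a l r ≤ 1 := by
  rw [div_le_one (glue_pos η a l r), glue_eq]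
  exact Finset.single_le_sum (f := fun x => gw μ s η a l r x) (fun x _ => gw_nonneg η a l r x) hx

/-- The glued functional is the free energy of the glued environment. -/
theorem exp_V_gm (η : Env) (a l r : ℕ) : Real.exp (V μ s (gm μ s a l η) 0 (a + r)) = glue μ s η a l r := by
  rw [exp_V_add, glue]
  refine Finset.sum_congr rfl fun x _ => ?_
  have h1 : W μ s (gm μ s a l η) 0 a x = W μ s η 0 a x := by
    refine W_dep_rows (μ := μ) (s := s) 0 a x fun p hp => ?_
    have h2 : p.1 ≤ (a : ℤ) := by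
      have := hp.2
      simpa using this
    show η (if p.1 ≤ (a : ℤ) then p else (p.1 + l, p.2 + md μ s l)) = η p
    rw [if_pos h2]
  have h2 : V μ s (gm μ s a l η) ((0 : Pt).1 + (a : ℤ), (0 : Pt).2 + x) r =
      V μ s (sh ((l : ℤ), md μ s l) η) ((0 : Pt).1 + (a : ℤ), (0 : Pt).2 + x) r := by
    refine V_dep_rows (μ := μ) (s := s) _ r fun p hp => ?_
    have h3 : ¬p.1 ≤ (a : ℤ) := by
      have := hp.1
      simpa using this
    show η (if p.1 ≤ (a : ℤ) then p else (p.1 + l, p.2 + md μ s l)) = η (p + ((l : ℤ), md μ s l))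
    rw [if_neg h3]
    rfl
  rw [h1, h2, V_sh]
  congr 3
  ext
  · show (0 : ℤ) + a + l = a + l
    ring
  · show (0 : ℤ) + x + md μ s l = x + md μ s l
    ring

theorem log_glue (η : Env) (a l r : ℕ) : Real.log (glue μ s η a l r) = V μ s (gm μ s a l η) 0 (a + r) := by
  rw [← exp_V_gm, Real.log_exp]

theorem measurable_gw (a l r : ℕ) (x : ℤ) : Measurable fun η => gw μ s η a l r x :=
  (measurable_W 0 a x).mul (Real.measurable_exp.comp (measurable_V _ r))

theorem measurable_glue (a l r : ℕ) : Measurable fun η => glue μ s η a l r :=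
  Finset.measurable_sum _ fun x _ => measurable_gw a l r x

variable [IsProbabilityMeasure μ]

omit [IsProbabilityMeasure μ] in
theorem gm_inj (a l : ℕ) : Function.Injective (fun p : Pt => if p.1 ≤ (a : ℤ) then p else (p.1 + l, p.2 + md μ s l)) := by
  intro p q h
  simp only at h
  by_cases hp : p.1 ≤ (a : ℤ)
  · by_cases hq : q.1 ≤ (a : ℤ)
    · rwa [if_pos hp, if_pos hq] at h
    · rw [if_pos hp, if_neg hq] at h
      have h1 : p.1 = q.1 + l := congrArg Prod.fst h
      omega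
  · by_cases hq : q.1 ≤ (a : ℤ)
    · rw [if_neg hp, if_pos hq] at h
      have h1 : p.1 + l = q.1 := congrArg Prod.fst h
      omega
    · rw [if_neg hp, if_neg hq] at h
      have h1 : p.1 + l = q.1 + l := congrArg Prod.fst h
      have h2 : p.2 + md μ s l = q.2 + md μ s l := congrArg Prod.snd h
      exact Prod.ext (by omega) (by omega)

theorem mp_gm (a l : ℕ) : MeasurePreserving (gm μ s a l) (law μ) (law μ) :=
  mp_reindex (μ := μ) (fun p : Pt => if p.1 ≤ (a : ℤ) then p else (p.1 + l, p.2 + md μ s l)) (gm_inj a l)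

/-- The law of the glued functional. -/
theorem integral_glue {f : ℝ → ℝ} (hf : Measurable f) (a l r : ℕ) :
    ∫ η, f (Real.log (glue μ s η a l r)) ∂(law μ) = ∫ η, f (V μ s η 0 (a + r)) ∂(law μ) := by
  simp only [log_glue]
  exact Pool.Agent.W_7d29a1_f21.mp_integral (mp_gm (μ := μ) a l)
    (F := fun η : Env => f (V μ s η 0 (a + r))) (hf.comp (measurable_V 0 (a + r))).aestronglyMeasurable

omit [IsProbabilityMeasure μ] in
theorem Sub_glue (a l r : ℕ) : Sub fun η => Real.log (glue μ s η a l r) := by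
  classical
  obtain ⟨hm, F, D, hD, hF⟩ := Sub_V (μ := μ) (s := s) 0 (a + r)
  refine ⟨(measurable_glue a l r).log, F.image fun p : Pt => if p.1 ≤ (a : ℤ) then p else (p.1 + l, p.2 + md μ s l), D, hD,
    fun η => ?_⟩
  rw [Finset.sum_image fun p _ q _ h => gm_inj a l h]
  show |Real.log (glue μ s η a l r)| ≤ _
  rw [log_glue]
  exact hF (gm μ s a l η)

/-- (G1) -/
theorem mean_glue (a l r : ℕ) :
    ∫ η, Real.log (glue μ s η a l r) ∂(law μ) = -bb μ s (a + r) := by
  have h := integral_glue (μ := μ) (s := s) (f := fun x => x) measurable_id a l r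
  rw [bb, neg_neg]
  exact h

/-- The free energy of all rows is at least the glued functional minus the mean cost of the straight crossing of the
removed slab, with weights which do not depend on it. -/
theorem glue_jensen (hI : In μ s c C n₀) (η : Env) (a l r : ℕ) :
    Real.log (glue μ s η a l r) - V μ s η 0 (a + (l + r)) ≤
      ∑ x ∈ Finset.Icc (0 : ℤ) a, gw μ s η a l r x / glue μ s η a l r * max (X μ s η ((a : ℤ), x) l (md μ s l)) 0 := by
  obtain ⟨S, hS⟩ : ∃ S : ℝ, S = glue μ s η a l r := ⟨_, rfl⟩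
  have hS0 : 0 < S := hS ▸ glue_pos η a l r
  obtain ⟨g, hg⟩ : ∃ g : ℤ → ℝ, g = fun x => gw μ s η a l r x := ⟨_, rfl⟩
  have hg0 : ∀ x, 0 ≤ g x := fun x => by rw [hg]; exact gw_nonneg η a l r x
  have hgS : ∑ x ∈ Finset.Icc (0 : ℤ) a, g x = S := by rw [hg, hS]; rfl
  obtain ⟨u, hu⟩ : ∃ u : ℤ → ℝ, u = fun x => max (X μ s η ((a : ℤ), x) l (md μ s l)) 0 := ⟨_, rfl⟩
  obtain ⟨M, hM⟩ : ∃ M : ℝ, M = ∑ x ∈ Finset.Icc (0 : ℤ) a, g x / S * u x := ⟨_, rfl⟩
  have hMS : ∑ x ∈ Finset.Icc (0 : ℤ) a, g x * u x = M * S := by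
    rw [hM, Finset.sum_mul]
    refine Finset.sum_congr rfl fun x _ => ?_
    field_simp
  have h1 : S * Real.exp (-M) ≤ Real.exp (V μ s η 0 (a + (l + r))) := by
    rw [exp_V_add]
    have h2 : ∀ x ∈ Finset.Icc (0 : ℤ) a, Real.exp (-M) * (g x * (1 + M - u x)) ≤
        W μ s η 0 a x * Real.exp (V μ s η ((0 : Pt).1 + (a : ℤ), (0 : Pt).2 + x) (l + r)) := by
      intro x _
      have h3 : Real.exp (-M) * (1 + M - u x) ≤ Real.exp (-u x) := by
        have h4 := Real.add_one_le_exp (M - u x)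
        have h5 : Real.exp (-u x) = Real.exp (-M) * Real.exp (M - u x) := by
          rw [← Real.exp_add]
          congr 1
          ring
        rw [h5]
        exact mul_le_mul_of_nonneg_left (by linarith) (Real.exp_pos _).le
      have h6 : Real.exp (-u x) * Real.exp (V μ s η ((a : ℤ) + l, x + md μ s l) r) ≤
          Real.exp (V μ s η ((0 : Pt).1 + (a : ℤ), (0 : Pt).2 + x) (l + r)) := by
        rw [← Real.exp_add, Real.exp_le_exp]
        have h7 := V_add_ge (μ := μ) (s := s) η ((0 : Pt).1 + (a : ℤ), (0 : Pt).2 + x) l r (hI.md_nonneg l) (hI.md_le_nat l)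
        have h8 : (((0 : Pt).1 + (a : ℤ), (0 : Pt).2 + x) : Pt) = ((a : ℤ), x) := by
          ext
          · show (0 : ℤ) + a = a
            ring
          · show (0 : ℤ) + x = x
            ring
        rw [h8] at h7 ⊢
        have h9 : X μ s η ((a : ℤ), x) l (md μ s l) ≤ u x := by rw [hu]; exact le_max_left _ _
        simp only at h7 ⊢
        linarith
      calc Real.exp (-M) * (g x * (1 + M - u x)) = g x * (Real.exp (-M) * (1 + M - u x)) := by ring
        _ ≤ g x * Real.exp (-u x) := mul_le_mul_of_nonneg_left h3 (hg0 x)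
        _ = W μ s η 0 a x * (Real.exp (-u x) * Real.exp (V μ s η ((a : ℤ) + l, x + md μ s l) r)) := by
            rw [hg]
            show W μ s η 0 a x * Real.exp (V μ s η ((a : ℤ) + l, x + md μ s l) r) * Real.exp (-u x) = _
            ring
        _ ≤ _ := mul_le_mul_of_nonneg_left h6 (W_nonneg _ _ _ _)
    refine le_trans (le_of_eq ?_) (Finset.sum_le_sum h2)
    rw [← Finset.mul_sum]
    have h3 : ∑ x ∈ Finset.Icc (0 : ℤ) a, g x * (1 + M - u x) = S := by
      have h4 : ∀ x, g x * (1 + M - u x) = (1 + M) * g x - g x * u x := fun x => by ring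
      simp only [h4]
      rw [Finset.sum_sub_distrib, ← Finset.mul_sum, hgS, hMS]
      ring
    rw [h3]
    ring
  have h2 := Real.log_le_log (mul_pos hS0 (Real.exp_pos _)) h1
  rw [Real.log_mul hS0.ne' (Real.exp_pos _).ne', Real.log_exp, Real.log_exp] at h2
  have h3 : M = ∑ x ∈ Finset.Icc (0 : ℤ) a, gw μ s η a l r x / glue μ s η a l r *
      max (X μ s η ((a : ℤ), x) l (md μ s l)) 0 := by
    rw [hM, hg, hS, hu]
  rw [← h3, ← hS]
  linarith

/-- The integral of the weighted mean cost of the slab. -/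
theorem slab_mean (hI : In μ s c C n₀) (a l r : ℕ) :
    Integrable (fun η => ∑ x ∈ Finset.Icc (0 : ℤ) a, gw μ s η a l r x / glue μ s η a l r *
      max (X μ s η ((a : ℤ), x) l (md μ s l)) 0) (law μ) ∧
    ∫ η, ∑ x ∈ Finset.Icc (0 : ℤ) a, gw μ s η a l r x / glue μ s η a l r *
      max (X μ s η ((a : ℤ), x) l (md μ s l)) 0 ∂(law μ) = ep μ s l (md μ s l) := by
  obtain ⟨q, hq⟩ : ∃ q : ℤ → Env → ℝ, q = fun x η => gw μ s η a l r x / glue μ s η a l r := ⟨_, rfl⟩
  have hqm : ∀ x, Measurable (q x) := fun x => by rw [hq]; exact (measurable_gw a l r x).div (measurable_glue a l r)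
  have hq0 : ∀ x η, 0 ≤ q x η := fun x η => by
    rw [hq]
    exact div_nonneg (gw_nonneg η a l r x) (glue_pos η a l r).le
  have hqS : ∀ x ∈ Finset.Icc (0 : ℤ) a, Sub (q x) := fun x hx => Pool.Agent.W_7d29a1_h60.Sub_bdd (hqm x) fun η => by
    rw [abs_of_nonneg (hq0 x η), hq]
    exact gw_le η a l r hx
  have hqd : ∀ x, DependsOn (q x) (rows 0 a ∪ rows ((a : ℤ) + l) ((a : ℤ) + l + r)) := by
    intro x η η' h
    have h1 : ∀ y : ℤ, gw μ s η a l r y = gw μ s η' a l r y := by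
      intro y
      unfold gw
      have h2 : W μ s η 0 a y = W μ s η' 0 a y := W_dep_rows (μ := μ) (s := s) 0 a y fun p hp => h p (Or.inl (by
        have h3 : rows (0 : Pt).1 ((0 : Pt).1 + a) ⊆ rows 0 a := rows_mono le_rfl (by
          show (0 : ℤ) + a ≤ a
          omega)
        exact h3 hp))
      have h3 : V μ s η ((a : ℤ) + l, y + md μ s l) r = V μ s η' ((a : ℤ) + l, y + md μ s l) r :=
        V_dep_rows (μ := μ) (s := s) _ r fun p hp => h p (Or.inr hp)
      rw [h2, h3]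
    rw [hq]
    show gw μ s η a l r x / glue μ s η a l r = gw μ s η' a l r x / glue μ s η' a l r
    rw [glue_eq, glue_eq, h1 x]
    simp only [h1]
  have hXd : ∀ x : ℤ, DependsOn (fun η : Env => max (X μ s η ((a : ℤ), x) l (md μ s l)) 0) (rows a ((a : ℤ) + l)) := by
    intro x η η' h
    have h1 : X μ s η ((a : ℤ), x) l (md μ s l) = X μ s η' ((a : ℤ), x) l (md μ s l) :=
      X_dep_rows (μ := μ) (s := s) ((a : ℤ), x) l (md μ s l) h
    show max (X μ s η ((a : ℤ), x) l (md μ s l)) 0 = max (X μ s η' ((a : ℤ), x) l (md μ s l)) 0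
    rw [h1]
  have hdis : Disjoint (rows 0 a ∪ rows ((a : ℤ) + l) ((a : ℤ) + l + r)) (rows a ((a : ℤ) + l)) :=
    Set.disjoint_union_left.2 ⟨rows_disj le_rfl, (rows_disj le_rfl).symm⟩
  have hXS : ∀ x : ℤ, Sub fun η : Env => max (X μ s η ((a : ℤ), x) l (md μ s l)) 0 := fun x =>
    Sub_Xp _ (hI.md_nonneg l) (hI.md_le_nat l)
  have hint : ∀ x ∈ Finset.Icc (0 : ℤ) a, Integrable (fun η => q x η * max (X μ s η ((a : ℤ), x) l (md μ s l)) 0) (law μ) :=
    fun x hx => Sub.mul_integrable hI.em (hqS x hx) (hXS x)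
  have he : (fun η => ∑ x ∈ Finset.Icc (0 : ℤ) a, gw μ s η a l r x / glue μ s η a l r *
      max (X μ s η ((a : ℤ), x) l (md μ s l)) 0) = fun η => ∑ x ∈ Finset.Icc (0 : ℤ) a, q x η *
        max (X μ s η ((a : ℤ), x) l (md μ s l)) 0 := by rw [hq]
  rw [he]
  refine ⟨integrable_finsetSum _ hint, ?_⟩
  rw [integral_finsetSum _ hint]
  have h1 : ∀ x ∈ Finset.Icc (0 : ℤ) a, ∫ η, q x η * max (X μ s η ((a : ℤ), x) l (md μ s l)) 0 ∂(law μ) =
      (∫ η, q x η ∂(law μ)) * ep μ s l (md μ s l) := by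
    intro x _
    rw [integral_indep (hqm x) (hXS x).1 (hqd x) (hXd x) hdis, integral_Xp]
    rfl
  rw [Finset.sum_congr rfl h1, ← Finset.sum_mul, ← integral_finsetSum _ fun x hx => (hqS x hx).integrable hI.em]
  have h2 : ∀ η, ∑ x ∈ Finset.Icc (0 : ℤ) a, q x η = 1 := fun η => by
    rw [hq]
    show ∑ x ∈ Finset.Icc (0 : ℤ) a, gw μ s η a l r x / glue μ s η a l r = 1
    rw [← Finset.sum_div, ← glue_eq, div_self (glue_pos η a l r).ne']
  simp only [h2]
  simp

/-- (G2) -/
theorem below_glue (hI : In μ s c C n₀) (a l r : ℕ) :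
    ∫ η, max (Real.log (glue μ s η a l r) - V μ s η 0 (a + (l + r))) 0 ∂(law μ) ≤ ep μ s l (md μ s l) := by
  obtain ⟨hi, hv⟩ := slab_mean (μ := μ) hI a l r
  rw [← hv]
  refine integral_mono ((((Sub_glue a l r).sub (Sub_V 0 _)).max (Sub.const 0)).integrable hI.em) hi fun η => ?_
  refine max_le (glue_jensen hI η a l r) (Finset.sum_nonneg fun x _ => ?_)
  exact mul_nonneg (div_nonneg (gw_nonneg η a l r x) (glue_pos η a l r).le) (le_max_right _ _)

/-- (G3) -/
theorem above_glue (hI : In μ s c C n₀) (a l r : ℕ) :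
    ∫ η, max (V μ s η 0 (a + (l + r)) - Real.log (glue μ s η a l r)) 0 ∂(law μ) ≤
      bb μ s (a + r) - bb μ s (a + (l + r)) + ep μ s l (md μ s l) := by
  have h1 := below_glue (μ := μ) hI a l r
  have h2 : ∀ η : Env, max (V μ s η 0 (a + (l + r)) - Real.log (glue μ s η a l r)) 0 =
      (V μ s η 0 (a + (l + r)) - Real.log (glue μ s η a l r)) +
        max (Real.log (glue μ s η a l r) - V μ s η 0 (a + (l + r))) 0 := by
    intro η
    rcases le_total (Real.log (glue μ s η a l r)) (V μ s η 0 (a + (l + r))) with h | h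
    · rw [max_eq_left (by linarith), max_eq_right (by linarith), add_zero]
    · rw [max_eq_right (by linarith), max_eq_left (by linarith)]
      ring
  simp only [h2]
  have i1 : Integrable (fun η => V μ s η 0 (a + (l + r)) - Real.log (glue μ s η a l r)) (law μ) :=
    ((Sub_V 0 _).sub (Sub_glue a l r)).integrable hI.em
  have i2 : Integrable (fun η => max (Real.log (glue μ s η a l r) - V μ s η 0 (a + (l + r))) 0) (law μ) :=
    (((Sub_glue a l r).sub (Sub_V 0 _)).max (Sub.const 0)).integrable hI.em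
  rw [integral_add i1 i2, integral_sub ((Sub_V 0 _).integrable hI.em) ((Sub_glue a l r).integrable hI.em), mean_glue]
  unfold bb at h1 ⊢
  linarith

/-- The free energy is rarely much larger than the glued functional. -/
theorem above_prob (hI : In μ s c C n₀) (a l r : ℕ) {Y : ℝ} (hY : 0 < Y) :
    (law μ).real {η | Real.log (glue μ s η a l r) + Y ≤ V μ s η 0 (a + (l + r))} ≤
      (bb μ s (a + r) - bb μ s (a + (l + r)) + ep μ s l (md μ s l)) / Y := by
  have h1 := above_glue (μ := μ) hI a l r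
  have i1 : Integrable (fun η => max (V μ s η 0 (a + (l + r)) - Real.log (glue μ s η a l r)) 0) (law μ) :=
    (((Sub_V 0 _).sub (Sub_glue a l r)).max (Sub.const 0)).integrable hI.em
  have h2 := mul_meas_ge_le_integral_of_nonneg (μ := law μ)
    (f := fun η => max (V μ s η 0 (a + (l + r)) - Real.log (glue μ s η a l r)) 0)
    (Filter.Eventually.of_forall fun η => le_max_right _ _) i1 Y
  rw [le_div_iff₀ hY, mul_comm]
  refine le_trans ?_ (h2.trans h1)
  refine mul_le_mul_of_nonneg_left (measureReal_mono (fun η hη => ?_) (measure_ne_top _ _)) hY.le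
  rw [Set.mem_ofPred_eq] at hη ⊢
  exact le_trans (by linarith) (le_max_left _ _)

/-- The glued functional is rarely much larger than the free energy. -/
theorem below_prob (hI : In μ s c C n₀) (a l r : ℕ) {Y : ℝ} (hY : 0 < Y) :
    (law μ).real {η | V μ s η 0 (a + (l + r)) + Y ≤ Real.log (glue μ s η a l r)} ≤ ep μ s l (md μ s l) / Y := by
  have h1 := below_glue (μ := μ) hI a l r
  have i1 : Integrable (fun η => max (Real.log (glue μ s η a l r) - V μ s η 0 (a + (l + r))) 0) (law μ) :=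
    (((Sub_glue a l r).sub (Sub_V 0 _)).max (Sub.const 0)).integrable hI.em
  have h2 := mul_meas_ge_le_integral_of_nonneg (μ := law μ)
    (f := fun η => max (Real.log (glue μ s η a l r) - V μ s η 0 (a + (l + r))) 0)
    (Filter.Eventually.of_forall fun η => le_max_right _ _) i1 Y
  rw [le_div_iff₀ hY, mul_comm]
  refine le_trans ?_ (h2.trans h1)
  refine mul_le_mul_of_nonneg_left (measureReal_mono (fun η hη => ?_) (measure_ne_top _ _)) hY.le
  rw [Set.mem_ofPred_eq] at hη ⊢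
  exact le_trans (by linarith) (le_max_left _ _)

omit [IsProbabilityMeasure μ] in
/-- (G4) A site which carries the glued functional up to a logarithm. -/
theorem glue_site (η : Env) (a l r : ℕ) : ∃ x ∈ Finset.Icc (0 : ℤ) a,
    Real.log (glue μ s η a l r) - Real.log (a + 1) ≤ -X μ s η 0 a x + V μ s η ((a : ℤ) + l, x + md μ s l) r := by
  obtain ⟨x, hx, hmax⟩ := Finset.exists_max_image (Finset.Icc (0 : ℤ) a) (fun x => gw μ s η a l r x)
    ⟨0, Finset.mem_Icc.2 ⟨le_rfl, Int.natCast_nonneg a⟩⟩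
  refine ⟨x, hx, ?_⟩
  have h1 : glue μ s η a l r ≤ (a + 1) * gw μ s η a l r x := by
    rw [glue_eq]
    refine (Finset.sum_le_card_nsmul _ _ _ hmax).trans (le_of_eq ?_)
    rw [Int.card_Icc, nsmul_eq_mul]
    congr 1
    rw [sub_zero]
    have : ((a : ℤ) + 1).toNat = a + 1 := by omega
    rw [this]
    push_cast
    ring
  have ha : (0 : ℝ) < a + 1 := by positivity
  rw [Finset.mem_Icc] at hx
  have h2 : 0 < W μ s η 0 a x := W_pos η 0 hx.1 hx.2
  have h3 := Real.log_le_log (glue_pos η a l r) h1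
  unfold gw at h3
  rw [Real.log_mul ha.ne' (mul_pos h2 (Real.exp_pos _)).ne', Real.log_mul h2.ne' (Real.exp_pos _).ne', Real.log_exp] at h3
  unfold X
  linarith

/-! ### The choice of the total duration -/

theorem bb_nonneg (hI : In μ s c C n₀) (n : ℕ) : 0 ≤ bb μ s n := by
  have := integral_V_nonpos hI.em s n
  unfold bb
  linarith

theorem bb_le (hI : In μ s c C n₀) (n : ℕ) : bb μ s n ≤ EE μ s n := by
  obtain ⟨hz0, hzn⟩ := zs_mem (μ := μ) (s := s) n
  have h1 : bb μ s n ≤ ep μ s n (zs μ s n) := by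
    unfold bb ep
    rw [← integral_neg]
    refine integral_mono ((Sub_V 0 n).neg.integrable hI.em) ((Sub_Xp 0 hz0 hzn).integrable hI.em) fun η => ?_
    have h2 := neg_X_le_V (μ := μ) (s := s) η 0 hz0 hzn
    exact le_trans (by linarith) (le_max_left _ _)
  have h2 := le_EE (μ := μ) (s := s) (le_refl n)
  rw [ep_zs] at h1
  linarith

theorem bb_add (hI : In μ s c C n₀) (m n : ℕ) : bb μ s (m + n) ≤ bb μ s m + bb μ s n := by
  unfold bb
  rw [integral_V_eq hI.em, integral_V_eq hI.em, integral_V_eq hI.em]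
  have h := Pool.Agent.W_7d29a1_h47.a_add_le hI.em (s / 2) m n
  push_cast
  linarith

theorem bb_sum (hI : In μ s c C n₀) {N₀ l : ℕ} (hl : 1 ≤ l) (hlN : l ≤ N₀) :
    ∑ N ∈ Finset.Ioc N₀ (2 * N₀), max (bb μ s (N - l) - bb μ s N) 0 ≤ 3 * N₀ * EE μ s l := by
  have hN : (0 : ℝ) ≤ N₀ := Nat.cast_nonneg _
  have h1 : ∀ N ∈ Finset.Ioc N₀ (2 * N₀), max (bb μ s (N - l) - bb μ s N) 0 ≤ bb μ s (N - l) - bb μ s N + bb μ s l := by
    intro N hN
    rw [Finset.mem_Ioc] at hN
    have h2 := bb_add hI (N - l) l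
    rw [Nat.sub_add_cancel (by omega)] at h2
    exact max_le (by linarith [bb_nonneg hI (μ := μ) l]) (by linarith)
  refine (Finset.sum_le_sum h1).trans ?_
  rw [Finset.sum_add_distrib, Finset.sum_const, Nat.card_Ioc, nsmul_eq_mul, Finset.sum_sub_distrib]
  have h2 : ∑ N ∈ Finset.Ioc N₀ (2 * N₀), bb μ s (N - l) = ∑ M ∈ Finset.Ioc (N₀ - l) (2 * N₀ - l), bb μ s M := by
    refine Finset.sum_nbij' (fun N => N - l) (fun M => M + l) ?_ ?_ ?_ ?_ ?_
    · intro N hN
      rw [Finset.mem_Ioc] at hN ⊢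
      omega
    · intro M hM
      rw [Finset.mem_Ioc] at hM ⊢
      omega
    · intro N hN
      rw [Finset.mem_Ioc] at hN
      show N - l + l = N
      omega
    · intro M _
      show M + l - l = M
      omega
    · intro N _
      rfl
  have h3 : ∑ M ∈ Finset.Ioc (N₀ - l) (2 * N₀ - l), bb μ s M ≤
      ∑ M ∈ Finset.Ioc N₀ (2 * N₀), bb μ s M + ∑ M ∈ Finset.Ioc (N₀ - l) N₀, bb μ s M := by
    rw [← Finset.sum_union (Finset.disjoint_left.2 fun M h4 h5 => by
      rw [Finset.mem_Ioc] at h4 h5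
      omega)]
    refine Finset.sum_le_sum_of_subset_of_nonneg (fun M hM => ?_) fun M _ _ => bb_nonneg hI M
    rw [Finset.mem_union, Finset.mem_Ioc, Finset.mem_Ioc]
    rw [Finset.mem_Ioc] at hM
    omega
  have h4 : ∑ M ∈ Finset.Ioc (N₀ - l) N₀, bb μ s M ≤ l * EE μ s N₀ := by
    refine (Finset.sum_le_card_nsmul _ _ (EE μ s N₀) fun M hM => ?_).trans (le_of_eq ?_)
    · rw [Finset.mem_Ioc] at hM
      exact (bb_le hI M).trans (EE_mono hM.2)
    · rw [Nat.card_Ioc, nsmul_eq_mul]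
      congr 2
      omega
  have h5 := scale_b hI hl hlN
  have h6 : bb μ s l ≤ EE μ s l := bb_le hI l
  have h7 : ((2 * N₀ - N₀ : ℕ) : ℝ) = N₀ := by
    rw [show 2 * N₀ - N₀ = N₀ by omega]
  rw [h2, h7]
  nlinarith [mul_le_mul_of_nonneg_left h6 hN]

/-- (G5) One total duration which is good for a weighted family of durations. -/
theorem pick (hI : In μ s c C n₀) {ι : Type*} (I : Finset ι) (α : ι → ℝ) (l : ι → ℕ)
    (hα : ∀ i ∈ I, 0 ≤ α i) {N₀ : ℕ} (hN : 1 ≤ N₀) (hl : ∀ i ∈ I, 1 ≤ l i ∧ l i ≤ N₀) :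
    ∃ N : ℕ, N₀ < N ∧ N ≤ 2 * N₀ ∧
      ∑ i ∈ I, α i * (max (bb μ s (N - l i) - bb μ s N) 0 / EE μ s (l i)) ≤ 3 * ∑ i ∈ I, α i := by
  by_contra hcon
  push Not at hcon
  have hN0 : (0 : ℝ) < N₀ := by exact_mod_cast hN
  have h1 : ∑ N ∈ Finset.Ioc N₀ (2 * N₀), (3 * ∑ i ∈ I, α i) < ∑ N ∈ Finset.Ioc N₀ (2 * N₀),
      ∑ i ∈ I, α i * (max (bb μ s (N - l i) - bb μ s N) 0 / EE μ s (l i)) := by
    refine Finset.sum_lt_sum_of_nonempty ⟨2 * N₀, Finset.mem_Ioc.2 ⟨by omega, le_rfl⟩⟩ fun N hN => ?_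
    rw [Finset.mem_Ioc] at hN
    exact hcon N hN.1 hN.2
  rw [Finset.sum_comm, Finset.sum_const, Nat.card_Ioc, nsmul_eq_mul, show 2 * N₀ - N₀ = N₀ by omega] at h1
  have h2 : ∑ i ∈ I, ∑ N ∈ Finset.Ioc N₀ (2 * N₀), α i * (max (bb μ s (N - l i) - bb μ s N) 0 / EE μ s (l i)) ≤
      ∑ i ∈ I, α i * (3 * N₀) := by
    refine Finset.sum_le_sum fun i hi => ?_
    rw [← Finset.mul_sum, ← Finset.sum_div]
    refine mul_le_mul_of_nonneg_left ?_ (hα i hi)
    rw [div_le_iff₀ (EE_pos (μ := μ) (s := s) _)]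
    exact bb_sum hI (hl i hi).1 (hl i hi).2
  rw [← Finset.sum_mul] at h2
  linarith

/-- (A3) of the assembly: dyadic form. -/
theorem XGood_of (hI : In μ s c C n₀) (J : ℕ) (α : ℕ → ℝ) (hα : ∀ i, i < J → 0 ≤ α i) :
    ∃ N : ℕ, 2 ^ J < N ∧ N ≤ 2 * 2 ^ J ∧
      ∑ i ∈ Finset.range J, α i * (max (bb μ s (N - 2 * 2 ^ i) - bb μ s N) 0 / EE μ s (2 ^ i)) ≤
        6 * ∑ i ∈ Finset.range J, α i := by
  obtain ⟨N, h1, h2, h3⟩ := pick (μ := μ) hI (Finset.range J) α (fun i => 2 * 2 ^ i)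
    (fun i hi => hα i (Finset.mem_range.1 hi)) (N₀ := 2 ^ J) Nat.one_le_two_pow fun i hi => by
      rw [Finset.mem_range] at hi
      refine ⟨by have := Nat.one_le_two_pow (n := i); omega, ?_⟩
      rw [← pow_succ']
      exact Nat.pow_le_pow_right (by norm_num) hi
  refine ⟨N, h1, h2, ?_⟩
  have h4 : ∑ i ∈ Finset.range J, α i * (max (bb μ s (N - 2 * 2 ^ i) - bb μ s N) 0 / EE μ s (2 ^ i)) ≤
      ∑ i ∈ Finset.range J, 2 * (α i * (max (bb μ s (N - 2 * 2 ^ i) - bb μ s N) 0 / EE μ s (2 * 2 ^ i))) := by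
    refine Finset.sum_le_sum fun i hi => ?_
    have h5 := hα i (Finset.mem_range.1 hi)
    have h6 := EE_mul hI.em s (2 ^ i) one_le_two
    push_cast at h6
    have h7 := EE_pos (μ := μ) (s := s) (2 ^ i)
    have h8 := EE_pos (μ := μ) (s := s) (2 * 2 ^ i)
    have h9 : (0 : ℝ) ≤ max (bb μ s (N - 2 * 2 ^ i) - bb μ s N) 0 := le_max_right _ _
    have h10 : max (bb μ s (N - 2 * 2 ^ i) - bb μ s N) 0 / EE μ s (2 ^ i) ≤
        2 * (max (bb μ s (N - 2 * 2 ^ i) - bb μ s N) 0 / EE μ s (2 * 2 ^ i)) := by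
      rw [← mul_div_assoc, div_le_div_iff₀ h7 h8]
      nlinarith
    have h11 := mul_le_mul_of_nonneg_left h10 h5
    linarith
  rw [← Finset.mul_sum] at h4
  linarith

end

end Pool.Agent.W_7d29a1_HX.XG
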