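import Pool.Agent.W_7d29a1_HS.Scale

/-!
MP_7d29a1_pr, TRACK H, part 4 (row 663), section (SUB), at the tilt `s`: the unit of a long block grows by a power less than the
length. It is the field `half` of `In` (exponent `1 / 2`). (helper35)
-/

set_option autoImplicit false

namespace Pool.Agent.W_7d29a1_HX.X

open MeasureTheory ProbabilityTheory Filter Topology
open Pool.Agent.W_7d29a1_F Pool.Agent.W_7d29a1_h4g
open Pool.Agent.W_7d29a1_H (EE EE_pos EE_mono gg)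
open Pool.Agent.W_7d29a1_HS

variable {μ : Measure ℝ} [IsProbabilityMeasure μ] {s c C : ℝ} {n₀ : ℕ}

/-- (SUB) with the exponent `1 / 2`. -/
theorem sub_half (h : In μ s c C n₀) : ∃ B : ℝ, 1 ≤ B ∧ ∃ n₁ : ℕ, 1 ≤ n₁ ∧ ∀ m n : ℕ, n₁ ≤ m → m ≤ n →
    EE μ s n ≤ B * ((n : ℝ) / m) ^ (1 / 2 : ℝ) * EE μ s m := by
  obtain ⟨K, x₀, hK⟩ := h.half
  have hB1 : (1 : ℝ) ≤ 2 ^ |K| := Real.one_le_rpow one_le_two (abs_nonneg K)
  refine ⟨2 * 2 ^ |K|, by linarith, 2 ^ x₀, Nat.one_le_two_pow, fun m n hm hmn => ?_⟩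
  have hm1 : 1 ≤ m := Nat.one_le_two_pow.trans hm
  have hm0 : (0 : ℝ) < m := by exact_mod_cast hm1
  have hEm := EE_pos (μ := μ) (s := s) m
  obtain ⟨x, hx⟩ : ∃ x, x = Nat.log 2 m := ⟨_, rfl⟩
  have hx1 : 2 ^ x ≤ m := by rw [hx]; exact Nat.pow_log_le_self 2 (by omega)
  have hx2 : m < 2 ^ (x + 1) := by rw [hx]; exact Nat.lt_pow_succ_log_self one_lt_two m
  have hx0 : x₀ ≤ x := by
    by_contra hcon
    have h1 : 2 ^ (x + 1) ≤ 2 ^ x₀ := Nat.pow_le_pow_right (by norm_num) (by omega)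
    omega
  have hnm : n / m ≠ 0 := by
    have := Nat.div_pos hmn hm1
    omega
  obtain ⟨k, hk⟩ : ∃ k, k = Nat.log 2 (n / m) := ⟨_, rfl⟩
  have h1 : 2 ^ k ≤ n / m := by rw [hk]; exact Nat.pow_log_le_self _ hnm
  have h2 : n / m < 2 ^ (k + 1) := by rw [hk]; exact Nat.lt_pow_succ_log_self one_lt_two _
  have h3 : 2 ^ k * m ≤ n := (Nat.le_div_iff_mul_le hm1).1 h1
  have h4 : n < 2 ^ (k + 1) * m := (Nat.div_lt_iff_lt_mul hm1).1 h2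
  have h5 : n ≤ 2 ^ (x + (k + 2)) := by
    have h6 : 2 ^ (k + 1) * m ≤ 2 ^ (k + 1) * 2 ^ (x + 1) := Nat.mul_le_mul_left _ hx2.le
    have h7 : 2 ^ (k + 1) * 2 ^ (x + 1) = 2 ^ (x + (k + 2)) := by rw [← pow_add]; congr 1; omega
    omega
  have hE1 : EE μ s n ≤ EE μ s (2 ^ (x + (k + 2))) := EE_mono h5
  have hE2 : EE μ s (2 ^ x) ≤ EE μ s m := EE_mono hx1
  have e1 : ∀ y : ℕ, (2 : ℝ) ^ gg μ s y = EE μ s (2 ^ y) := fun y => by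
    unfold gg
    exact Real.rpow_logb (by norm_num) (by norm_num) (EE_pos _)
  have h8 := Real.rpow_le_rpow_of_exponent_le (x := (2 : ℝ)) (by norm_num) (hK x (k + 2) hx0)
  rw [e1, Real.rpow_add two_pos, Real.rpow_add two_pos, e1] at h8
  have h9 : (2 : ℝ) ^ (((k + 2 : ℕ) : ℝ) / 2) = 2 * ((2 : ℝ) ^ k) ^ (1 / 2 : ℝ) := by
    rw [← Real.rpow_natCast 2 k, ← Real.rpow_mul two_pos.le]
    have e2 : ((k + 2 : ℕ) : ℝ) / 2 = 1 + (k : ℝ) * (1 / 2) := by push_cast; ring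
    rw [e2, Real.rpow_add two_pos, Real.rpow_one]
  have h10 : ((2 : ℝ) ^ k) ^ (1 / 2 : ℝ) ≤ ((n : ℝ) / m) ^ (1 / 2 : ℝ) := by
    refine Real.rpow_le_rpow (by positivity) ?_ (by norm_num)
    rw [le_div_iff₀ hm0]
    exact_mod_cast h3
  have h11 : (2 : ℝ) ^ K ≤ 2 ^ |K| := Real.rpow_le_rpow_of_exponent_le (by norm_num) (le_abs_self K)
  have h12 : 0 ≤ ((2 : ℝ) ^ k) ^ (1 / 2 : ℝ) := Real.rpow_nonneg (by positivity) _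
  have h13 : 0 ≤ ((n : ℝ) / m) ^ (1 / 2 : ℝ) := Real.rpow_nonneg (by positivity) _
  rw [h9] at h8
  calc EE μ s n ≤ EE μ s (2 ^ (x + (k + 2))) := hE1
    _ ≤ EE μ s (2 ^ x) * (2 * ((2 : ℝ) ^ k) ^ (1 / 2 : ℝ)) * 2 ^ K := h8
    _ ≤ EE μ s m * (2 * ((n : ℝ) / m) ^ (1 / 2 : ℝ)) * 2 ^ |K| := by
        refine mul_le_mul ?_ h11 (Real.rpow_nonneg two_pos.le _) (by positivity)
        exact mul_le_mul hE2 (by linarith) (by linarith) hEm.le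
    _ = 2 * 2 ^ |K| * ((n : ℝ) / m) ^ (1 / 2 : ℝ) * EE μ s m := by ring

/-- (SUB), power form. -/
theorem sub_pow (h : In μ s c C n₀) : ∃ B θ : ℝ, 1 ≤ B ∧ 0 < θ ∧ θ < 1 ∧ ∃ n₁ : ℕ, ∀ m n : ℕ, n₁ ≤ m → m ≤ n →
    EE μ s n ≤ B * ((n : ℝ) / m) ^ (1 - θ) * EE μ s m := by
  obtain ⟨B, hB, n₁, -, h1⟩ := sub_half h
  refine ⟨B, 1 / 2, hB, by norm_num, by norm_num, n₁, fun m n hm hmn => ?_⟩
  have e : (1 : ℝ) - 1 / 2 = 1 / 2 := by norm_num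
  rw [e]
  exact h1 m n hm hmn

/-- (SUB): the unit grows slower than the length. -/
theorem sub_eps (h : In μ s c C n₀) {ε : ℝ} (hε : 0 < ε) : ∃ j₀ : ℕ, ∀ j : ℕ, j₀ ≤ j → ∃ n₁ : ℕ, ∀ n, n₁ ≤ n →
    EE μ s (2 ^ j * n) ≤ ε * 2 ^ j * EE μ s n := by
  obtain ⟨B, hB, n₁, hn₁, h1⟩ := sub_half h
  obtain ⟨j₀, hj₀⟩ := pow_unbounded_of_one_lt ((B / ε) ^ 2) (one_lt_two (α := ℝ))
  refine ⟨j₀, fun j hj => ⟨n₁, fun n hn => ?_⟩⟩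
  have hn1 : 1 ≤ n := hn₁.trans hn
  have hn0 : (0 : ℝ) < n := by exact_mod_cast hn1
  have h2j : 1 ≤ 2 ^ j := Nat.one_le_two_pow
  have h2 := h1 n (2 ^ j * n) hn (Nat.le_mul_of_pos_left n (by omega))
  have e : (((2 ^ j * n : ℕ) : ℝ)) / n = 2 ^ j := by
    push_cast
    field_simp
  rw [e] at h2
  refine h2.trans (mul_le_mul_of_nonneg_right ?_ (EE_pos _).le)
  have hp : (0 : ℝ) < 2 ^ j := by positivity
  have h3 : (B / ε) ^ 2 ≤ (2 : ℝ) ^ j := hj₀.le.trans (pow_le_pow_right₀ one_le_two hj)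
  have h4 : B / ε ≤ ((2 : ℝ) ^ j) ^ (1 / 2 : ℝ) := by
    have h5 := Real.rpow_le_rpow (by positivity) h3 (show (0 : ℝ) ≤ 1 / 2 by norm_num)
    rwa [← Real.rpow_natCast, ← Real.rpow_mul (by positivity), show ((2 : ℕ) : ℝ) * (1 / 2) = 1 by norm_num,
      Real.rpow_one] at h5
  have h6 : ((2 : ℝ) ^ j) ^ (1 / 2 : ℝ) * ((2 : ℝ) ^ j) ^ (1 / 2 : ℝ) = 2 ^ j := by
    rw [← Real.rpow_add hp]
    norm_num
  have h7 : B ≤ ε * ((2 : ℝ) ^ j) ^ (1 / 2 : ℝ) := by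
    rw [div_le_iff₀ hε] at h4
    linarith
  have h8 : 0 ≤ ((2 : ℝ) ^ j) ^ (1 / 2 : ℝ) := Real.rpow_nonneg hp.le _
  calc B * ((2 : ℝ) ^ j) ^ (1 / 2 : ℝ) ≤ ε * ((2 : ℝ) ^ j) ^ (1 / 2 : ℝ) * ((2 : ℝ) ^ j) ^ (1 / 2 : ℝ) :=
        mul_le_mul_of_nonneg_right h7 h8
    _ = ε * (((2 : ℝ) ^ j) ^ (1 / 2 : ℝ) * ((2 : ℝ) ^ j) ^ (1 / 2 : ℝ)) := by ring
    _ = ε * 2 ^ j := by rw [h6]

/-- (SUB) in octaves. -/
theorem sub_gg (h : In μ s c C n₀) (q : ℕ) : ∃ L : ℕ, 1 ≤ L ∧ ∃ x₀ : ℕ, ∀ x, x₀ ≤ x →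
    gg μ s (x + L) ≤ gg μ s x + L - q := by
  obtain ⟨j₀, hj₀⟩ := sub_eps h (ε := (2 : ℝ) ^ (-(q : ℝ))) (Real.rpow_pos_of_pos two_pos _)
  obtain ⟨n1, hn1⟩ := hj₀ (j₀ + 1) (Nat.le_succ _)
  refine ⟨j₀ + 1, by omega, n1, fun x hx => ?_⟩
  have h1 := hn1 (2 ^ x) (hx.trans Nat.lt_two_pow_self.le)
  have hE := EE_pos (μ := μ) (s := s) (2 ^ x)
  have h2 : (2 : ℕ) ^ (j₀ + 1) * 2 ^ x = 2 ^ (x + (j₀ + 1)) := by rw [← pow_add]; congr 1; omega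
  rw [h2] at h1
  unfold gg
  have h3 := Real.logb_le_logb_of_le one_lt_two (EE_pos (μ := μ) (s := s) (2 ^ (x + (j₀ + 1)))) h1
  refine h3.trans (le_of_eq ?_)
  rw [Real.logb_mul (by positivity) hE.ne', Real.logb_mul (by positivity) (by positivity), Real.logb_rpow two_pos (by norm_num),
    ← Real.rpow_natCast, Real.logb_rpow two_pos (by norm_num)]
  ring

end Pool.Agent.W_7d29a1_HX.X
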