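import Pool.Agent.W_7d29a1_HL.SepDet
import Pool.Agent.W_7d29a1_X68.Touch

/-!
TRACK H, part 4 (model X20/Both, author helper20), one tilt. Section (NL), the deterministic part with fixed points only: two switches (TP2) at two lines.
`T` is a set of sites in the rows `(r0, r0 + k0]` to the left of the line `l'`, `T'` a set of sites in the rows
`(r0 + k0, r0 + k0 + k1]` to the right of the line `l`. Four environments `η11, η10, η01, η00`; `η10` agrees with `η11` off `T'`,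
`η01` off `T`. The paths which use both sets are bounded by ratios which do not see `T` and `T'`, all between fixed points.
(helper20)
-/

set_option autoImplicit false

namespace Pool.Agent.W_7d29a1_HX.X20

open MeasureTheory ProbabilityTheory Filter Topology
open Pool.Agent.W_7d29a1_F Pool.Agent.W_7d29a1_h95g Pool.Agent.W_7d29a1_HL

noncomputable section

variable {μ : Measure ℝ} {s : ℝ} [IsProbabilityMeasure μ]

/-- The sites at the line and to the right of it. -/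
def Rw (l : ℤ → ℤ) : Set Pt := {p | l p.1 ≤ p.2}

/-- If the first step is forbidden, there is no path. -/
theorem Zr_dead {R : Set Pt} {η : Env} {a : Pt} (h : ∀ y : ℤ, y ≤ 1 → ((a.1 + 1, a.2 + y) : Pt) ∉ R) (n : ℕ) (y : ℤ) :
    Zr R η a (n + 1) y = 0 := by
  induction n generalizing y with
  | zero =>
    rw [Pool.Agent.W_7d29a1_X68.Zr_succ68]
    by_cases hy : y ≤ 1
    · have h1 := h y hy
      rw [Set.indicator_of_notMem, zero_mul]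
      simpa using h1
    · rw [Pool.Agent.W_7d29a1_X68.Zr_zero68, Pool.Agent.W_7d29a1_X68.Zr_zero68, if_neg (by omega), if_neg (by omega), add_zero, mul_zero]
  | succ n ih =>
    rw [Pool.Agent.W_7d29a1_X68.Zr_succ68, ih, ih, add_zero, mul_zero]

/-- The switching at the start: `z` on the line in the row `t + k`, the other path comes from the row `t`. -/
theorem WR_switch2 (R : Set Pt) (η : Env) (t x : ℤ) (k k2 : ℕ) (z y1 y : ℤ) (hk : 1 ≤ k) (hy : y1 ≤ y)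
    (hR : ∀ u : ℤ, ((t + k, u) : Pt) ∈ R → z ≤ u) :
    WR μ s R η (t + k, z) k2 (y - z) * WR μ s R η (t, x) (k + k2) (y1 - x) ≤
      WR μ s R η (t + k, z) k2 (y1 - z) * WR μ s R η (t, x) (k + k2) (y - x) := by
  rw [WR_add' R η t x k k2 y1 (A := x) (B := x + k) le_rfl le_rfl,
    WR_add' R η t x k k2 y (A := x) (B := x + k) le_rfl le_rfl, Finset.mul_sum, Finset.mul_sum]
  refine Finset.sum_le_sum fun u _ => ?_
  have h0 : 0 ≤ WR μ s R η (t, x) k (u - x) := WR_nonneg _ _ _ _ _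
  by_cases hu : ((t + k, u) : Pt) ∈ R
  · have h1 := WR_tp2 (μ := μ) (s := s) R η (t + k) z u k2 y1 y (hR u hu) hy
    have h2 := mul_le_mul_of_nonneg_left h1 h0
    calc _ = _ := by ring
      _ ≤ _ := h2
      _ = _ := by ring
  · have h1 : WR μ s R η (t, x) k (u - x) = 0 := by
      refine WR_last_off η (t, x) hk ?_
      have : x + (u - x) = u := by ring
      simpa [this] using hu
    rw [h1, zero_mul, zero_mul, mul_zero, mul_zero]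

open Classical in
/-- The last passage at the line `l'` after the row `r0`, for the paths which end to the right of it. -/
theorem W_last {l' : ℤ → ℤ} (hl' : ∀ t, l' t ≤ l' (t + 1)) (T : Set Pt) (η : Env) (r0 k0 : ℕ)
    (hT : ∀ p ∈ T, (r0 : ℤ) < p.1 ∧ p.2 < l' p.1) {u : ℤ} (hu : l' ((r0 + k0 : ℕ) : ℤ) < u) :
    W μ s η ((0 : ℤ), (0 : ℤ)) (r0 + k0) u ≤ WR μ s Tᶜ η ((0 : ℤ), (0 : ℤ)) (r0 + k0) u +
      ∑ i ∈ Finset.range k0, W μ s η ((0 : ℤ), (0 : ℤ)) (r0 + (i + 1)) (l' ((r0 : ℤ) + ((i : ℤ) + 1))) *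
        WR μ s (Rw l') η ((r0 : ℤ) + ((i : ℤ) + 1), l' ((r0 : ℤ) + ((i : ℤ) + 1))) (k0 - (i + 1))
          (u - l' ((r0 : ℤ) + ((i : ℤ) + 1))) := by
  obtain ⟨S, hS⟩ : ∃ S : Set Pt, S = {p | (r0 : ℤ) < p.1 ∧ p.2 ≤ l' p.1} := ⟨_, rfl⟩
  have e0 := Pool.Agent.W_7d29a1_X68.WR_last (μ := μ) (s := s) Set.univ S η ((0 : ℤ), (0 : ℤ)) (r0 + k0) u
  have h1 : WR μ s (Set.univ \ S) η ((0 : ℤ), (0 : ℤ)) (r0 + k0) u ≤ WR μ s Tᶜ η ((0 : ℤ), (0 : ℤ)) (r0 + k0) u := by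
    have hsub : Set.univ \ S ⊆ Tᶜ := by
      intro p hp hpT
      apply hp.2
      rw [hS]
      exact ⟨(hT p hpT).1, (hT p hpT).2.le⟩
    exact WR_mono' hsub η _ _ _
  have hdead : ∀ (k : ℕ) (x : ℤ), ((0 + ((k : ℤ) + 1), 0 + x) : Pt) ∈ S → x ≠ l' ((k : ℤ) + 1) → k < r0 + k0 →
      WR μ s (Set.univ \ S) η (0 + ((k : ℤ) + 1), 0 + x) (r0 + k0 - (k + 1)) (u - x) = 0 := by
    intro k x hx hne hk
    rw [hS] at hx
    have hx1 : (r0 : ℤ) < 0 + ((k : ℤ) + 1) := hx.1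
    have hx2 : 0 + x ≤ l' (0 + ((k : ℤ) + 1)) := hx.2
    rw [zero_add, zero_add] at hx2
    have hlt : x < l' ((k : ℤ) + 1) := lt_of_le_of_ne hx2 hne
    rw [WR_zero']
    obtain hk0 | ⟨j, hj⟩ : r0 + k0 - (k + 1) = 0 ∨ ∃ j, r0 + k0 - (k + 1) = j + 1 := by
      rcases Nat.eq_zero_or_pos (r0 + k0 - (k + 1)) with h | h
      · exact Or.inl h
      · exact Or.inr ⟨r0 + k0 - (k + 1) - 1, by omega⟩
    · rw [hk0, Pool.Agent.W_7d29a1_X68.Zr_zero68, if_neg, mul_zero]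
      intro h
      have e1 : ((r0 + k0 : ℕ) : ℤ) = (k : ℤ) + 1 := by omega
      rw [e1] at hu
      omega
    · rw [hj, Zr_dead, mul_zero]
      intro y hy hmem
      apply hmem.2
      rw [hS]
      refine ⟨?_, ?_⟩
      · show (r0 : ℤ) < 0 + ((k : ℤ) + 1) + 1
        omega
      · show 0 + x + y ≤ l' (0 + ((k : ℤ) + 1) + 1)
        have := hl' ((k : ℤ) + 1)
        rw [zero_add, zero_add]
        omega
  have hterm : ∀ k ∈ Finset.range (r0 + k0), (∑ x ∈ Finset.Icc (0 : ℤ) ((k : ℤ) + 1),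
      if ((((0 : ℤ), (0 : ℤ)) : Pt).1 + ((k : ℤ) + 1), (((0 : ℤ), (0 : ℤ)) : Pt).2 + x) ∈ S then
        WR μ s Set.univ η ((0 : ℤ), (0 : ℤ)) (k + 1) x *
          WR μ s (Set.univ \ S) η ((((0 : ℤ), (0 : ℤ)) : Pt).1 + ((k : ℤ) + 1), (((0 : ℤ), (0 : ℤ)) : Pt).2 + x)
            (r0 + k0 - (k + 1)) (u - x) else 0) ≤
      if r0 ≤ k then W μ s η ((0 : ℤ), (0 : ℤ)) (k + 1) (l' ((k : ℤ) + 1)) *
        WR μ s (Rw l') η ((k : ℤ) + 1, l' ((k : ℤ) + 1)) (r0 + k0 - (k + 1)) (u - l' ((k : ℤ) + 1)) else 0 := by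
    intro k hk
    rw [Finset.mem_range] at hk
    by_cases hrk : r0 ≤ k
    · rw [if_pos hrk]
      have h2 : ∀ x ∈ Finset.Icc (0 : ℤ) ((k : ℤ) + 1), (if ((((0 : ℤ), (0 : ℤ)) : Pt).1 + ((k : ℤ) + 1),
          (((0 : ℤ), (0 : ℤ)) : Pt).2 + x) ∈ S then
        WR μ s Set.univ η ((0 : ℤ), (0 : ℤ)) (k + 1) x *
          WR μ s (Set.univ \ S) η ((((0 : ℤ), (0 : ℤ)) : Pt).1 + ((k : ℤ) + 1), (((0 : ℤ), (0 : ℤ)) : Pt).2 + x)
            (r0 + k0 - (k + 1)) (u - x) else 0) ≤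
          if x = l' ((k : ℤ) + 1) then W μ s η ((0 : ℤ), (0 : ℤ)) (k + 1) (l' ((k : ℤ) + 1)) *
        WR μ s (Rw l') η ((k : ℤ) + 1, l' ((k : ℤ) + 1)) (r0 + k0 - (k + 1)) (u - l' ((k : ℤ) + 1)) else 0 := by
        intro x _
        split_ifs with hc hx hx
        · rw [← hx]
          refine mul_le_mul le_rfl ?_ (WR_nonneg _ _ _ _ _) (WR_nonneg _ _ _ _ _)
          simp only [zero_add]
          rw [WR_congr' (R := Set.univ \ S) (R' := {p | l' p.1 < p.2}) η _ _ _ ?_]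
          · refine WR_mono' (fun p hp => ?_) η _ _ _
            have h5 : l' p.1 < p.2 := hp
            show l' p.1 ≤ p.2
            exact h5.le
          · intro p hp1 _
            have hp2 : (k : ℤ) + 1 < p.1 := hp1
            rw [hS]
            constructor
            · intro hp
              by_contra hcon
              apply hp.2
              refine ⟨by omega, ?_⟩
              have h6 : ¬ (l' p.1 < p.2) := hcon
              omega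
            · intro hp
              refine ⟨trivial, fun hq => ?_⟩
              have h6 : l' p.1 < p.2 := hp
              have h7 : p.2 ≤ l' p.1 := hq.2
              omega
        · exact (mul_eq_zero_of_right _ (hdead k x hc hx hk)).le
        · exact mul_nonneg (W_nonneg _ _ _ _) (WR_nonneg _ _ _ _ _)
        · exact le_rfl
      refine (Finset.sum_le_sum h2).trans ?_
      rw [Finset.sum_ite_eq']
      split_ifs
      · exact le_rfl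
      · exact mul_nonneg (W_nonneg _ _ _ _) (WR_nonneg _ _ _ _ _)
    · rw [if_neg hrk]
      refine (Finset.sum_eq_zero fun x _ => ?_).le
      rw [if_neg]
      intro h
      rw [hS] at h
      have h5 : (r0 : ℤ) < 0 + ((k : ℤ) + 1) := h.1
      omega
  have hsum : (∑ k ∈ Finset.range (r0 + k0), if r0 ≤ k then W μ s η ((0 : ℤ), (0 : ℤ)) (k + 1) (l' ((k : ℤ) + 1)) *
        WR μ s (Rw l') η ((k : ℤ) + 1, l' ((k : ℤ) + 1)) (r0 + k0 - (k + 1)) (u - l' ((k : ℤ) + 1)) else 0) =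
      ∑ i ∈ Finset.range k0, W μ s η ((0 : ℤ), (0 : ℤ)) (r0 + (i + 1)) (l' ((r0 : ℤ) + ((i : ℤ) + 1))) *
        WR μ s (Rw l') η ((r0 : ℤ) + ((i : ℤ) + 1), l' ((r0 : ℤ) + ((i : ℤ) + 1))) (k0 - (i + 1))
          (u - l' ((r0 : ℤ) + ((i : ℤ) + 1))) := by
    rw [Finset.sum_range_add]
    rw [Finset.sum_eq_zero, zero_add]
    · refine Finset.sum_congr rfl fun i _ => ?_
      rw [if_pos (Nat.le_add_right _ _)]
      have e1 : ((r0 + i : ℕ) : ℤ) + 1 = (r0 : ℤ) + ((i : ℤ) + 1) := by push_cast; ring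
      have e2 : r0 + k0 - (r0 + i + 1) = k0 - (i + 1) := by omega
      rw [e1, e2, add_assoc]
    · intro k hk
      rw [Finset.mem_range] at hk
      rw [if_neg (by omega)]
  have e1 : W μ s η ((0 : ℤ), (0 : ℤ)) (r0 + k0) u = WR μ s Set.univ η ((0 : ℤ), (0 : ℤ)) (r0 + k0) u := rfl
  rw [e1, e0, ← hsum]
  exact add_le_add h1 (Finset.sum_le_sum hterm)

/-- Shift of the summation: the total weight from `(t, x)` in absolute positions. -/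
theorem exp_V_abs (η : Env) (t x : ℤ) (m n : ℕ) {A B : ℤ} (hA : A ≤ x) (hB : x + m ≤ B) :
    Real.exp (V μ s η (t, x) (m + n)) =
      ∑ u ∈ Finset.Icc A B, W μ s η (t, x) m (u - x) * Real.exp (V μ s η (t + m, u) n) := by
  rw [exp_V_add]
  have h1 : ∑ u ∈ Finset.Icc A B, W μ s η (t, x) m (u - x) * Real.exp (V μ s η (t + m, u) n) =
      ∑ u ∈ Finset.Icc x (x + m), W μ s η (t, x) m (u - x) * Real.exp (V μ s η (t + m, u) n) := by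
    symm
    refine Finset.sum_subset (Finset.Icc_subset_Icc hA hB) fun u _ hu => ?_
    rw [W_eq_zero η (t, x) (n := m) (y := u - x), zero_mul]
    intro h
    apply hu
    rw [Finset.mem_Icc]
    omega
  rw [h1]
  have h2 : Finset.Icc x (x + m) = (Finset.Icc (0 : ℤ) m).map (addRightEmbedding x) := by
    rw [Finset.map_add_right_Icc, zero_add, add_comm]
  rw [h2, Finset.sum_map]
  refine Finset.sum_congr rfl fun k _ => ?_
  simp only [addRightEmbedding_apply, add_sub_cancel_right]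
  rw [add_comm k x]

/-- The future of the row `rm`: the paths from a site on the left of the line which avoid `T'`, and one switched term. -/
theorem fut {l : ℤ → ℤ} (hl : ∀ t, l t ≤ l (t + 1)) (T' : Set Pt) (η : Env) (rm : ℤ) (k1 k2 q : ℕ) (hk1 : k1 ≤ q)
    (hk2 : k1 ≤ k2) (hT' : ∀ p ∈ T', rm < p.1 ∧ p.1 ≤ rm + k1 ∧ l p.1 < p.2) {xm y1 x1 y2 : ℤ} (hy1 : y1 ≤ l rm) (hxy : xm < y1)
    (hxy2 : x1 ≤ y2) (hP1 : 0 < WR μ s (Lw l) η (rm, y1) k2 (y2 - y1)) (hP2 : 0 < WR μ s (Lw l) η (rm, xm) k2 (x1 - xm))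
    {u : ℤ} (hu : u ≤ xm) :
    Real.exp (V μ s η (rm, u) q) ≤ (∑ y ∈ Finset.Icc (0 : ℤ) q, WR μ s T'ᶜ η (rm, u) q y) +
      k1 * Real.exp (V μ s η (rm, y1) q) * (WR μ s (Lw l) η (rm, xm) k2 (y2 - xm) /
        (WR μ s (Lw l) η (rm, y1) k2 (y2 - y1) * WR μ s (Lw l) η (rm, xm) k2 (x1 - xm))) *
          WR μ s (Lw l) η (rm, u) k2 (x1 - u) := by
  obtain ⟨P1, hP1'⟩ : ∃ P : ℝ, P = WR μ s (Lw l) η (rm, y1) k2 (y2 - y1) := ⟨_, rfl⟩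
  obtain ⟨P2, hP2'⟩ : ∃ P : ℝ, P = WR μ s (Lw l) η (rm, xm) k2 (x1 - xm) := ⟨_, rfl⟩
  rw [← hP1'] at hP1
  rw [← hP2'] at hP2
  rw [← hP1', ← hP2']
  have h0 := V_exit (μ := μ) (s := s) hl T' η (rm, u) (show u < l rm by omega) q k1 hk1 (fun p hp => (hT' p hp).2)
  refine h0.trans (add_le_add le_rfl ?_)
  -- the second move
  have h2 : WR μ s (Lw l) η (rm, u) k2 (y2 - u) * P2 ≤
      WR μ s (Lw l) η (rm, u) k2 (x1 - u) * WR μ s (Lw l) η (rm, xm) k2 (y2 - xm) := by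
    rw [hP2']
    exact WR_tp2 (μ := μ) (s := s) (Lw l) η rm u xm k2 x1 y2 hu hxy2
  have hterm : ∀ i ∈ Finset.range k1, WR μ s (Lw l) η (rm, u) (i + 1) (l (rm + (i + 1)) - u) *
      Real.exp (V μ s η (rm + (i + 1), l (rm + (i + 1))) (q - (i + 1))) ≤
      Real.exp (V μ s η (rm, y1) q) * (WR μ s (Lw l) η (rm, u) k2 (y2 - u) / P1) := by
    intro i hi
    rw [Finset.mem_range] at hi
    obtain ⟨j, hj⟩ : ∃ j : ℕ, k2 = (i + 1) + j := ⟨k2 - (i + 1), by omega⟩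
    have h3 := WR_switch (μ := μ) (s := s) (Lw l) η rm u y1 (i + 1) j (l (rm + (i + 1))) y2 (by omega) (by omega) (fun v hv => by
      have h4 : v ≤ l (rm + ((i + 1 : ℕ) : ℤ)) := hv
      push_cast at h4
      exact h4)
    rw [← hj, ← hP1'] at h3
    have h5 : WR μ s (Lw l) η (rm, y1) (i + 1) (l (rm + (i + 1)) - y1) *
        Real.exp (V μ s η (rm + (i + 1), l (rm + (i + 1))) (q - (i + 1))) ≤ Real.exp (V μ s η (rm, y1) q) := by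
      have h6 := W_expV_le (μ := μ) (s := s) η rm y1 (i + 1) (q - (i + 1)) (l (rm + (i + 1)))
      have h7 : i + 1 + (q - (i + 1)) = q := by omega
      rw [h7] at h6
      refine le_trans (mul_le_mul_of_nonneg_right (WR_le_W _ _ _ _ _) (Real.exp_pos _).le) ?_
      push_cast at h6
      exact h6
    have hE0 : 0 ≤ Real.exp (V μ s η (rm + (i + 1), l (rm + (i + 1))) (q - (i + 1))) := (Real.exp_pos _).le
    rw [mul_div_assoc', le_div_iff₀ hP1]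
    calc _ = (WR μ s (Lw l) η (rm, u) (i + 1) (l (rm + (i + 1)) - u) * P1) *
        Real.exp (V μ s η (rm + (i + 1), l (rm + (i + 1))) (q - (i + 1))) := by ring
      _ ≤ (WR μ s (Lw l) η (rm, u) k2 (y2 - u) * WR μ s (Lw l) η (rm, y1) (i + 1) (l (rm + (i + 1)) - y1)) *
        Real.exp (V μ s η (rm + (i + 1), l (rm + (i + 1))) (q - (i + 1))) := mul_le_mul_of_nonneg_right h3 hE0
      _ = WR μ s (Lw l) η (rm, u) k2 (y2 - u) * (WR μ s (Lw l) η (rm, y1) (i + 1) (l (rm + (i + 1)) - y1) *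
        Real.exp (V μ s η (rm + (i + 1), l (rm + (i + 1))) (q - (i + 1)))) := by ring
      _ ≤ WR μ s (Lw l) η (rm, u) k2 (y2 - u) * Real.exp (V μ s η (rm, y1) q) :=
        mul_le_mul_of_nonneg_left h5 (WR_nonneg _ _ _ _ _)
      _ = _ := by ring
  refine (Finset.sum_le_sum hterm).trans ?_
  rw [Finset.sum_const, Finset.card_range, nsmul_eq_mul]
  have h3 : WR μ s (Lw l) η (rm, u) k2 (y2 - u) / P1 ≤
      WR μ s (Lw l) η (rm, xm) k2 (y2 - xm) / (P1 * P2) * WR μ s (Lw l) η (rm, u) k2 (x1 - u) := by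
    rw [div_mul_eq_mul_div, div_le_div_iff₀ hP1 (mul_pos hP1 hP2)]
    calc _ = (WR μ s (Lw l) η (rm, u) k2 (y2 - u) * P2) * P1 := by ring
      _ ≤ (WR μ s (Lw l) η (rm, u) k2 (x1 - u) * WR μ s (Lw l) η (rm, xm) k2 (y2 - xm)) * P1 :=
        mul_le_mul_of_nonneg_right h2 hP1.le
      _ = _ := by ring
  calc _ = (k1 * Real.exp (V μ s η (rm, y1) q)) * (WR μ s (Lw l) η (rm, u) k2 (y2 - u) / P1) := by ring
    _ ≤ (k1 * Real.exp (V μ s η (rm, y1) q)) *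
      (WR μ s (Lw l) η (rm, xm) k2 (y2 - xm) / (P1 * P2) * WR μ s (Lw l) η (rm, u) k2 (x1 - u)) :=
      mul_le_mul_of_nonneg_left h3 (mul_nonneg (Nat.cast_nonneg _) (Real.exp_pos _).le)
    _ = _ := by ring

/-- The past of the row `rm = r0 + k0`: the paths to a site on the right of the line which avoid `T`, and one switched term. -/
theorem past {l' : ℤ → ℤ} (hl' : ∀ t, l' t ≤ l' (t + 1)) (T : Set Pt) (η : Env) (r0 k0 : ℕ)
    (hT : ∀ p ∈ T, (r0 : ℤ) < p.1 ∧ p.2 < l' p.1) {x0 y0 y1 xm : ℤ} (hy0 : y0 ≤ x0) (hy1 : y1 ≤ xm)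
    (hxm : l' ((r0 + k0 : ℕ) : ℤ) ≤ xm) (hP3 : 0 < WR μ s (Rw l') η ((r0 : ℤ), y0) k0 (y1 - y0))
    (hP4 : 0 < WR μ s (Rw l') η ((r0 : ℤ), x0) k0 (xm - x0)) {u : ℤ} (hu : xm < u) :
    W μ s η ((0 : ℤ), (0 : ℤ)) (r0 + k0) u ≤ WR μ s Tᶜ η ((0 : ℤ), (0 : ℤ)) (r0 + k0) u +
      k0 * W μ s η ((0 : ℤ), (0 : ℤ)) (r0 + k0) y1 * (WR μ s (Rw l') η ((r0 : ℤ), y0) k0 (xm - y0) /
        (WR μ s (Rw l') η ((r0 : ℤ), y0) k0 (y1 - y0) * WR μ s (Rw l') η ((r0 : ℤ), x0) k0 (xm - x0))) *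
          WR μ s (Rw l') η ((r0 : ℤ), x0) k0 (u - x0) := by
  obtain ⟨P3, hP3'⟩ : ∃ P : ℝ, P = WR μ s (Rw l') η ((r0 : ℤ), y0) k0 (y1 - y0) := ⟨_, rfl⟩
  obtain ⟨P4, hP4'⟩ : ∃ P : ℝ, P = WR μ s (Rw l') η ((r0 : ℤ), x0) k0 (xm - x0) := ⟨_, rfl⟩
  rw [← hP3'] at hP3
  rw [← hP4'] at hP4
  rw [← hP3', ← hP4']
  refine (W_last hl' T η r0 k0 hT (lt_of_le_of_lt hxm hu)).trans (add_le_add le_rfl ?_)
  have h2 : WR μ s (Rw l') η ((r0 : ℤ), y0) k0 (u - y0) * P4 ≤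
      WR μ s (Rw l') η ((r0 : ℤ), y0) k0 (xm - y0) * WR μ s (Rw l') η ((r0 : ℤ), x0) k0 (u - x0) := by
    rw [hP4']
    exact WR_tp2 (μ := μ) (s := s) (Rw l') η (r0 : ℤ) y0 x0 k0 xm u hy0 hu.le
  have hterm : ∀ i ∈ Finset.range k0, W μ s η ((0 : ℤ), (0 : ℤ)) (r0 + (i + 1)) (l' ((r0 : ℤ) + ((i : ℤ) + 1))) *
        WR μ s (Rw l') η ((r0 : ℤ) + ((i : ℤ) + 1), l' ((r0 : ℤ) + ((i : ℤ) + 1))) (k0 - (i + 1))
          (u - l' ((r0 : ℤ) + ((i : ℤ) + 1))) ≤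
      W μ s η ((0 : ℤ), (0 : ℤ)) (r0 + k0) y1 * (WR μ s (Rw l') η ((r0 : ℤ), y0) k0 (u - y0) / P3) := by
    intro i hi
    rw [Finset.mem_range] at hi
    obtain ⟨j, hj⟩ : ∃ j : ℕ, k0 = (i + 1) + j := ⟨k0 - (i + 1), by omega⟩
    obtain ⟨z, hz⟩ : ∃ z : ℤ, z = l' ((r0 : ℤ) + ((i : ℤ) + 1)) := ⟨_, rfl⟩
    rw [← hz]
    have h3 := WR_switch2 (μ := μ) (s := s) (Rw l') η (r0 : ℤ) y0 (i + 1) j z y1 u (by omega) (by omega) (fun v hv => by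
      have h4 : l' ((r0 : ℤ) + ((i + 1 : ℕ) : ℤ)) ≤ v := hv
      push_cast at h4
      rw [hz]
      exact h4)
    rw [← hj, ← hP3'] at h3
    push_cast at h3
    have hj' : k0 - (i + 1) = j := by omega
    rw [hj']
    have h5 : W μ s η ((0 : ℤ), (0 : ℤ)) (r0 + (i + 1)) z *
        WR μ s (Rw l') η ((r0 : ℤ) + ((i : ℤ) + 1), z) j (y1 - z) ≤ W μ s η ((0 : ℤ), (0 : ℤ)) (r0 + k0) y1 := by
      have h6 := W_mul_le (μ := μ) (s := s) η ((0 : ℤ), (0 : ℤ)) (r0 + (i + 1)) j z (y1 - z)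
      have e1 : r0 + (i + 1) + j = r0 + k0 := by omega
      have e2 : z + (y1 - z) = y1 := by ring
      rw [e1, e2] at h6
      refine le_trans (mul_le_mul_of_nonneg_left (WR_le_W _ _ _ _ _) (W_nonneg _ _ _ _)) ?_
      simp only [zero_add] at h6
      push_cast at h6
      exact h6
    rw [mul_div_assoc', le_div_iff₀ hP3]
    calc _ = W μ s η ((0 : ℤ), (0 : ℤ)) (r0 + (i + 1)) z *
          (WR μ s (Rw l') η ((r0 : ℤ) + ((i : ℤ) + 1), z) j (u - z) * P3) := by ring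
      _ ≤ W μ s η ((0 : ℤ), (0 : ℤ)) (r0 + (i + 1)) z *
          (WR μ s (Rw l') η ((r0 : ℤ) + ((i : ℤ) + 1), z) j (y1 - z) * WR μ s (Rw l') η ((r0 : ℤ), y0) k0 (u - y0)) :=
        mul_le_mul_of_nonneg_left h3 (W_nonneg _ _ _ _)
      _ = (W μ s η ((0 : ℤ), (0 : ℤ)) (r0 + (i + 1)) z *
          WR μ s (Rw l') η ((r0 : ℤ) + ((i : ℤ) + 1), z) j (y1 - z)) * WR μ s (Rw l') η ((r0 : ℤ), y0) k0 (u - y0) := by ring
      _ ≤ W μ s η ((0 : ℤ), (0 : ℤ)) (r0 + k0) y1 * WR μ s (Rw l') η ((r0 : ℤ), y0) k0 (u - y0) :=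
        mul_le_mul_of_nonneg_right h5 (WR_nonneg _ _ _ _ _)
  refine (Finset.sum_le_sum hterm).trans ?_
  rw [Finset.sum_const, Finset.card_range, nsmul_eq_mul]
  have h3 : WR μ s (Rw l') η ((r0 : ℤ), y0) k0 (u - y0) / P3 ≤
      WR μ s (Rw l') η ((r0 : ℤ), y0) k0 (xm - y0) / (P3 * P4) * WR μ s (Rw l') η ((r0 : ℤ), x0) k0 (u - x0) := by
    rw [div_mul_eq_mul_div, div_le_div_iff₀ hP3 (mul_pos hP3 hP4)]
    calc _ = (WR μ s (Rw l') η ((r0 : ℤ), y0) k0 (u - y0) * P4) * P3 := by ring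
      _ ≤ (WR μ s (Rw l') η ((r0 : ℤ), y0) k0 (xm - y0) * WR μ s (Rw l') η ((r0 : ℤ), x0) k0 (u - x0)) * P3 :=
        mul_le_mul_of_nonneg_right h2 hP3.le
      _ = _ := by ring
  calc _ = (k0 * W μ s η ((0 : ℤ), (0 : ℤ)) (r0 + k0) y1) * (WR μ s (Rw l') η ((r0 : ℤ), y0) k0 (u - y0) / P3) := by ring
    _ ≤ (k0 * W μ s η ((0 : ℤ), (0 : ℤ)) (r0 + k0) y1) *
      (WR μ s (Rw l') η ((r0 : ℤ), y0) k0 (xm - y0) / (P3 * P4) * WR μ s (Rw l') η ((r0 : ℤ), x0) k0 (u - x0)) :=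
      mul_le_mul_of_nonneg_left h3 (mul_nonneg (Nat.cast_nonneg _) (W_nonneg _ _ _ _))
    _ = _ := by ring

theorem expV_congr {η η' : Env} {a : Pt} {n : ℕ} (h : ∀ p : Pt, a.1 < p.1 → p.1 ≤ a.1 + n → η p = η' p) :
    Real.exp (V μ s η a n) = Real.exp (V μ s η' a n) := by
  rw [← Pool.Agent.W_7d29a1_X68.TW_univ, ← Pool.Agent.W_7d29a1_X68.TW_univ]
  exact Pool.Agent.W_7d29a1_X68.TW_cong fun p h1 h2 => ⟨Iff.rfl, fun _ => h p h1 h2⟩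

theorem W_congr {η η' : Env} {a : Pt} {n : ℕ} (h : ∀ p : Pt, a.1 < p.1 → p.1 ≤ a.1 + n → η p = η' p) (y : ℤ) :
    W μ s η a n y = W μ s η' a n y :=
  Pool.Agent.W_7d29a1_X68.WR_cong (R := Set.univ) (R' := Set.univ) (fun p h1 h2 => ⟨Iff.rfl, fun _ => h p h1 h2⟩) y

theorem WR_congr {R : Set Pt} {η η' : Env} {a : Pt} {n : ℕ}
    (h : ∀ p : Pt, a.1 < p.1 → p.1 ≤ a.1 + n → p ∈ R → η p = η' p) (y : ℤ) :
    WR μ s R η a n y = WR μ s R η' a n y :=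
  Pool.Agent.W_7d29a1_X68.WR_cong (fun p h1 h2 => ⟨Iff.rfl, fun h3 => h p h1 h2 h3⟩) y

/-- THE DETERMINISTIC PART OF (NL): two sets of sites between fixed points. -/
theorem both_det {l l' : ℤ → ℤ} (hl : ∀ t, l t ≤ l (t + 1)) (hl' : ∀ t, l' t ≤ l' (t + 1)) (T T' : Set Pt)
    (g11 g10 g01 g00 : Env) (h10 : ∀ p, p ∉ T' → g10 p = g11 p) (h01 : ∀ p, p ∉ T → g01 p = g11 p)
    (h0a : ∀ p, p ∉ T' → g00 p = g01 p) (r0 k0 k1 q : ℕ) (hq : k1 ≤ q)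
    (hT : ∀ p ∈ T, (r0 : ℤ) < p.1 ∧ p.1 ≤ ((r0 + k0 : ℕ) : ℤ) ∧ p.2 < l' p.1)
    (hT' : ∀ p ∈ T', ((r0 + k0 : ℕ) : ℤ) < p.1 ∧ p.1 ≤ ((r0 + k0 : ℕ) : ℤ) + k1 ∧ l p.1 < p.2)
    {x0 z0 xm z1 y1 x1 y2 : ℤ} (hx0 : 0 ≤ x0 ∧ x0 ≤ r0) (hz0 : z0 ≤ x0) (hz1 : z1 ≤ xm)
    (hxm : l' ((r0 + k0 : ℕ) : ℤ) ≤ xm) (hy1 : y1 ≤ l ((r0 + k0 : ℕ) : ℤ)) (hxy : xm < y1) (hxy2 : x1 ≤ y2)
    (hP1 : 0 < WR μ s (Lw l) g00 (((r0 + k0 : ℕ) : ℤ), y1) k1 (y2 - y1))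
    (hP2 : 0 < WR μ s (Lw l) g00 (((r0 + k0 : ℕ) : ℤ), xm) k1 (x1 - xm))
    (hP3 : 0 < WR μ s (Rw l') g00 ((r0 : ℤ), z0) k0 (z1 - z0))
    (hP4 : 0 < WR μ s (Rw l') g00 ((r0 : ℤ), x0) k0 (xm - x0)) :
    Real.exp (V μ s g11 ((0 : ℤ), (0 : ℤ)) (r0 + k0 + q)) ≤
      Real.exp (V μ s g10 ((0 : ℤ), (0 : ℤ)) (r0 + k0 + q)) + Real.exp (V μ s g01 ((0 : ℤ), (0 : ℤ)) (r0 + k0 + q)) +
      k1 * Real.exp (V μ s g01 (((r0 + k0 : ℕ) : ℤ), y1) q) *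
        (WR μ s (Lw l) g00 (((r0 + k0 : ℕ) : ℤ), xm) k1 (y2 - xm) /
          (WR μ s (Lw l) g00 (((r0 + k0 : ℕ) : ℤ), y1) k1 (y2 - y1) *
            WR μ s (Lw l) g00 (((r0 + k0 : ℕ) : ℤ), xm) k1 (x1 - xm))) *
          W μ s g10 ((0 : ℤ), (0 : ℤ)) (r0 + k0 + k1) x1 +
      k0 * W μ s g10 ((0 : ℤ), (0 : ℤ)) (r0 + k0) z1 *
        (WR μ s (Rw l') g00 ((r0 : ℤ), z0) k0 (xm - z0) /
          (WR μ s (Rw l') g00 ((r0 : ℤ), z0) k0 (z1 - z0) * WR μ s (Rw l') g00 ((r0 : ℤ), x0) k0 (xm - x0))) *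
          Real.exp (V μ s g01 ((r0 : ℤ), x0) (k0 + q)) := by
  obtain ⟨rm, hrm⟩ : ∃ rm : ℤ, rm = ((r0 + k0 : ℕ) : ℤ) := ⟨_, rfl⟩
  rw [← hrm] at hT hT' hxm hy1 hP1 hP2 ⊢
  have hrm' : rm = (r0 : ℤ) + k0 := by rw [hrm]; push_cast; ring
  -- which environments agree where
  have a1 : ∀ p : Pt, rm < p.1 → g11 p = g01 p := fun p hp => (h01 p fun h => by
    have := (hT p h).2.1
    omega).symm
  have a2 : ∀ p : Pt, p.1 ≤ rm → g11 p = g10 p := fun p hp => (h10 p fun h => by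
    have := (hT' p h).1
    omega).symm
  have a3 : ∀ p : Pt, p ∈ Lw l → g11 p = g10 p := fun p hp => (h10 p fun h => by
    have h1 := (hT' p h).2.2
    have h2 : p.2 ≤ l p.1 := hp
    omega).symm
  have a4 : ∀ p : Pt, p ∈ Rw l' → g11 p = g01 p := fun p hp => (h01 p fun h => by
    have h1 := (hT p h).2.2
    have h2 : l' p.1 ≤ p.2 := hp
    omega).symm
  have a5 : ∀ p : Pt, rm < p.1 → p ∈ Lw l → g11 p = g00 p := fun p hp1 hp => by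
    rw [h0a p fun h => ?_, a1 p hp1]
    have h1 := (hT' p h).2.2
    have h2 : p.2 ≤ l p.1 := hp
    omega
  have a6 : ∀ p : Pt, p.1 ≤ rm → p ∈ Rw l' → g11 p = g00 p := fun p hp1 hp => by
    rw [h0a p fun h => ?_, a4 p hp]
    have h1 := (hT' p h).1
    omega
  have e1 : ∀ x y : ℤ, WR μ s (Lw l) g00 (rm, x) k1 y = WR μ s (Lw l) g11 (rm, x) k1 y := fun x y =>
    (WR_congr (fun p h1 _ h3 => a5 p h1 h3) y).symm
  have e2 : ∀ x y : ℤ, WR μ s (Rw l') g00 ((r0 : ℤ), x) k0 y = WR μ s (Rw l') g11 ((r0 : ℤ), x) k0 y := fun x y =>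
    (WR_congr (fun p _ h2 h3 => a6 p (by rw [hrm']; exact h2) h3) y).symm
  rw [e1, e1] at *
  rw [e1]
  rw [e2, e2] at *
  rw [e2]
  have e3 : Real.exp (V μ s g01 (rm, y1) q) = Real.exp (V μ s g11 (rm, y1) q) :=
    (expV_congr fun p h1 _ => a1 p h1).symm
  have e4 : W μ s g10 ((0 : ℤ), (0 : ℤ)) (r0 + k0) z1 = W μ s g11 ((0 : ℤ), (0 : ℤ)) (r0 + k0) z1 :=
    (W_congr (fun p _ h2 => a2 p (by
      have h3 : p.1 ≤ 0 + ((r0 + k0 : ℕ) : ℤ) := h2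
      omega)) z1).symm
  rw [e3, e4]
  obtain ⟨A, hA⟩ : ∃ A : ℤ → ℝ, A = fun u => W μ s g11 ((0 : ℤ), (0 : ℤ)) (r0 + k0) u := ⟨_, rfl⟩
  obtain ⟨f, hf⟩ : ∃ f : ℤ → ℝ, f = fun u => Real.exp (V μ s g11 (rm, u) q) := ⟨_, rfl⟩
  have hA0 : ∀ u, 0 ≤ A u := fun u => by rw [hA]; exact W_nonneg _ _ _ _
  have hf0 : ∀ u, 0 ≤ f u := fun u => by rw [hf]; exact (Real.exp_pos _).le
  obtain ⟨K1, hK1⟩ : ∃ K1 : ℝ, K1 = k1 * Real.exp (V μ s g11 (rm, y1) q) * (WR μ s (Lw l) g11 (rm, xm) k1 (y2 - xm) /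
        (WR μ s (Lw l) g11 (rm, y1) k1 (y2 - y1) * WR μ s (Lw l) g11 (rm, xm) k1 (x1 - xm))) := ⟨_, rfl⟩
  obtain ⟨K2, hK2⟩ : ∃ K2 : ℝ, K2 = k0 * W μ s g11 ((0 : ℤ), (0 : ℤ)) (r0 + k0) z1 *
      (WR μ s (Rw l') g11 ((r0 : ℤ), z0) k0 (xm - z0) /
        (WR μ s (Rw l') g11 ((r0 : ℤ), z0) k0 (z1 - z0) * WR μ s (Rw l') g11 ((r0 : ℤ), x0) k0 (xm - x0))) := ⟨_, rfl⟩
  rw [← hK1, ← hK2]
  have hK10 : 0 ≤ K1 := by
    rw [hK1]
    exact mul_nonneg (mul_nonneg (Nat.cast_nonneg _) (Real.exp_pos _).le)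
      (div_nonneg (WR_nonneg _ _ _ _ _) (mul_nonneg (WR_nonneg _ _ _ _ _) (WR_nonneg _ _ _ _ _)))
  have hK20 : 0 ≤ K2 := by
    rw [hK2]
    exact mul_nonneg (mul_nonneg (Nat.cast_nonneg _) (W_nonneg _ _ _ _))
      (div_nonneg (WR_nonneg _ _ _ _ _) (mul_nonneg (WR_nonneg _ _ _ _ _) (WR_nonneg _ _ _ _ _)))
  obtain ⟨gT, hgT⟩ : ∃ gT : ℤ → ℝ, gT = fun u => ∑ y ∈ Finset.Icc (0 : ℤ) q, WR μ s T'ᶜ g11 (rm, u) q y := ⟨_, rfl⟩
  obtain ⟨AT, hAT⟩ : ∃ AT : ℤ → ℝ, AT = fun u => WR μ s Tᶜ g11 ((0 : ℤ), (0 : ℤ)) (r0 + k0) u := ⟨_, rfl⟩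
  have hgT0 : ∀ u, 0 ≤ gT u := fun u => by rw [hgT]; exact Finset.sum_nonneg fun y _ => WR_nonneg _ _ _ _ _
  have hAT0 : ∀ u, 0 ≤ AT u := fun u => by rw [hAT]; exact WR_nonneg _ _ _ _ _
  -- the two bounds
  have hF : ∀ u ≤ xm, f u ≤ gT u + K1 * WR μ s (Lw l) g11 (rm, u) k1 (x1 - u) := by
    intro u hu
    rw [hf, hgT, hK1]
    exact fut (μ := μ) (s := s) hl T' g11 rm k1 k1 q hq le_rfl hT' hy1 hxy hxy2 hP1 hP2 hu
  have hP : ∀ u, xm < u → A u ≤ AT u + K2 * WR μ s (Rw l') g11 ((r0 : ℤ), x0) k0 (u - x0) := by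
    intro u hu
    rw [hA, hAT, hK2]
    exact past (μ := μ) (s := s) hl' T g11 r0 k0 (fun p hp => ⟨(hT p hp).1, (hT p hp).2.2⟩) hz0 hz1 (by rw [← hrm]; exact hxm) hP3 hP4 hu
  have e0 : Real.exp (V μ s g11 ((0 : ℤ), (0 : ℤ)) (r0 + k0 + q)) =
      ∑ u ∈ Finset.Icc (0 : ℤ) ((r0 + k0 : ℕ) : ℤ), A u * f u := by
    rw [exp_V_add, hA, hf]
    refine Finset.sum_congr rfl fun u _ => ?_
    simp only [zero_add, hrm]
  -- the four sums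
  have s1 : ∑ u ∈ Finset.Icc (0 : ℤ) ((r0 + k0 : ℕ) : ℤ), A u * gT u ≤
      Real.exp (V μ s g10 ((0 : ℤ), (0 : ℤ)) (r0 + k0 + q)) := by
    rw [exp_V_add]
    refine Finset.sum_le_sum fun u _ => ?_
    have b1 : A u = W μ s g10 ((0 : ℤ), (0 : ℤ)) (r0 + k0) u := by
      rw [hA]
      exact W_congr (fun p _ h2 => a2 p (by
        have h3 : p.1 ≤ 0 + ((r0 + k0 : ℕ) : ℤ) := h2
        omega)) u
    have b2 : gT u ≤ Real.exp (V μ s g10 (rm, u) q) := by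
      rw [hgT, ← Pool.Agent.W_7d29a1_X68.TW_univ (μ := μ) (s := s)]
      refine Finset.sum_le_sum fun y _ => ?_
      rw [WR_congr (R := T'ᶜ) (η := g11) (η' := g10) (fun p _ _ h3 => (h10 p h3).symm) y]
      exact WR_mono' (Set.subset_univ _) _ _ _ _
    rw [b1]
    refine mul_le_mul_of_nonneg_left (b2.trans (le_of_eq ?_)) (W_nonneg _ _ _ _)
    simp only [zero_add, hrm]
  have s2 : ∑ u ∈ Finset.Icc (0 : ℤ) ((r0 + k0 : ℕ) : ℤ), AT u * f u ≤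
      Real.exp (V μ s g01 ((0 : ℤ), (0 : ℤ)) (r0 + k0 + q)) := by
    rw [exp_V_add]
    refine Finset.sum_le_sum fun u _ => ?_
    have b1 : AT u ≤ W μ s g01 ((0 : ℤ), (0 : ℤ)) (r0 + k0) u := by
      rw [hAT]
      show WR μ s Tᶜ g11 ((0 : ℤ), (0 : ℤ)) (r0 + k0) u ≤ _
      rw [WR_congr (R := Tᶜ) (η := g11) (η' := g01) (fun p _ _ h3 => (h01 p h3).symm) u]
      exact WR_mono' (Set.subset_univ _) _ _ _ _
    have b2 : f u = Real.exp (V μ s g01 (rm, u) q) := by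
      rw [hf]
      exact expV_congr fun p h1 _ => a1 p h1
    rw [b2]
    refine (mul_le_mul_of_nonneg_right b1 (Real.exp_pos _).le).trans (le_of_eq ?_)
    simp only [zero_add, hrm]
  have s3 : ∑ u ∈ Finset.Icc (0 : ℤ) ((r0 + k0 : ℕ) : ℤ), A u * WR μ s (Lw l) g11 (rm, u) k1 (x1 - u) ≤
      W μ s g10 ((0 : ℤ), (0 : ℤ)) (r0 + k0 + k1) x1 := by
    rw [W_add]
    refine Finset.sum_le_sum fun u _ => ?_
    have b1 : A u = W μ s g10 ((0 : ℤ), (0 : ℤ)) (r0 + k0) u := by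
      rw [hA]
      exact W_congr (fun p _ h2 => a2 p (by
        have h3 : p.1 ≤ 0 + ((r0 + k0 : ℕ) : ℤ) := h2
        omega)) u
    rw [b1]
    refine mul_le_mul_of_nonneg_left ?_ (W_nonneg _ _ _ _)
    rw [WR_congr (η := g11) (η' := g10) (fun p _ _ h3 => a3 p h3) (x1 - u)]
    simp only [zero_add, ← hrm]
    exact WR_le_W _ _ _ _ _
  have s4 : ∑ u ∈ Finset.Icc (0 : ℤ) ((r0 + k0 : ℕ) : ℤ), WR μ s (Rw l') g11 ((r0 : ℤ), x0) k0 (u - x0) * f u ≤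
      Real.exp (V μ s g01 ((r0 : ℤ), x0) (k0 + q)) := by
    rw [exp_V_abs g01 (r0 : ℤ) x0 k0 q (A := 0) (B := ((r0 + k0 : ℕ) : ℤ)) hx0.1 (by push_cast; linarith [hx0.2])]
    refine Finset.sum_le_sum fun u _ => ?_
    have b2 : f u = Real.exp (V μ s g01 ((r0 : ℤ) + k0, u) q) := by
      rw [hf, ← hrm']
      exact expV_congr fun p h1 _ => a1 p h1
    rw [b2]
    refine mul_le_mul_of_nonneg_right ?_ (Real.exp_pos _).le
    rw [WR_congr (η := g11) (η' := g01) (fun p _ _ h3 => a4 p h3) (u - x0)]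
    exact WR_le_W _ _ _ _ _
  rw [e0, ← Finset.sum_filter_add_sum_filter_not (Finset.Icc (0 : ℤ) ((r0 + k0 : ℕ) : ℤ)) (fun u => u ≤ xm)]
  have t1 : ∑ u ∈ (Finset.Icc (0 : ℤ) ((r0 + k0 : ℕ) : ℤ)).filter (fun u => u ≤ xm), A u * f u ≤
      Real.exp (V μ s g10 ((0 : ℤ), (0 : ℤ)) (r0 + k0 + q)) + K1 * W μ s g10 ((0 : ℤ), (0 : ℤ)) (r0 + k0 + k1) x1 := by
    have c1 : ∀ u ∈ (Finset.Icc (0 : ℤ) ((r0 + k0 : ℕ) : ℤ)).filter (fun u => u ≤ xm), A u * f u ≤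
        A u * gT u + K1 * (A u * WR μ s (Lw l) g11 (rm, u) k1 (x1 - u)) := by
      intro u hu
      rw [Finset.mem_filter] at hu
      have := mul_le_mul_of_nonneg_left (hF u hu.2) (hA0 u)
      refine this.trans (le_of_eq ?_)
      ring
    refine (Finset.sum_le_sum c1).trans ?_
    rw [Finset.sum_add_distrib, ← Finset.mul_sum]
    refine add_le_add (le_trans ?_ s1) (mul_le_mul_of_nonneg_left (le_trans ?_ s3) hK10)
    · exact Finset.sum_le_sum_of_subset_of_nonneg (Finset.filter_subset _ _) fun u _ _ => mul_nonneg (hA0 u) (hgT0 u)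
    · exact Finset.sum_le_sum_of_subset_of_nonneg (Finset.filter_subset _ _) fun u _ _ =>
        mul_nonneg (hA0 u) (WR_nonneg _ _ _ _ _)
  have t2 : ∑ u ∈ (Finset.Icc (0 : ℤ) ((r0 + k0 : ℕ) : ℤ)).filter (fun u => ¬ u ≤ xm), A u * f u ≤
      Real.exp (V μ s g01 ((0 : ℤ), (0 : ℤ)) (r0 + k0 + q)) + K2 * Real.exp (V μ s g01 ((r0 : ℤ), x0) (k0 + q)) := by
    have c1 : ∀ u ∈ (Finset.Icc (0 : ℤ) ((r0 + k0 : ℕ) : ℤ)).filter (fun u => ¬ u ≤ xm), A u * f u ≤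
        AT u * f u + K2 * (WR μ s (Rw l') g11 ((r0 : ℤ), x0) k0 (u - x0) * f u) := by
      intro u hu
      rw [Finset.mem_filter] at hu
      have := mul_le_mul_of_nonneg_right (hP u (not_le.1 hu.2)) (hf0 u)
      refine this.trans (le_of_eq ?_)
      ring
    refine (Finset.sum_le_sum c1).trans ?_
    rw [Finset.sum_add_distrib, ← Finset.mul_sum]
    refine add_le_add (le_trans ?_ s2) (mul_le_mul_of_nonneg_left (le_trans ?_ s4) hK20)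
    · exact Finset.sum_le_sum_of_subset_of_nonneg (Finset.filter_subset _ _) fun u _ _ => mul_nonneg (hAT0 u) (hf0 u)
    · exact Finset.sum_le_sum_of_subset_of_nonneg (Finset.filter_subset _ _) fun u _ _ =>
        mul_nonneg (WR_nonneg _ _ _ _ _) (hf0 u)
  linarith

/-- LOG FORM: all prices in the state `g00`, between fixed points. `X` is the cost `- log W`. -/
theorem nl_det {l l' : ℤ → ℤ} (hl : ∀ t, l t ≤ l (t + 1)) (hl' : ∀ t, l' t ≤ l' (t + 1)) (T T' : Set Pt)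
    (g11 g10 g01 g00 : Env) (h10 : ∀ p, p ∉ T' → g10 p = g11 p) (h01 : ∀ p, p ∉ T → g01 p = g11 p)
    (h0a : ∀ p, p ∉ T' → g00 p = g01 p) (h0b : ∀ p, p ∉ T → g00 p = g10 p)
    (r0 k0 k1 q : ℕ) (hk0 : 1 ≤ k0) (hk1 : 1 ≤ k1)
    (hT : ∀ p ∈ T, (r0 : ℤ) < p.1 ∧ p.1 ≤ ((r0 + k0 : ℕ) : ℤ) ∧ p.2 < l' p.1)
    (hT' : ∀ p ∈ T', ((r0 + k0 : ℕ) : ℤ) < p.1 ∧ p.1 ≤ ((r0 + k0 : ℕ) : ℤ) + k1 ∧ l p.1 < p.2)
    {x0 z0 xm z1 y1 x1 y2 : ℤ} (hx0 : 0 ≤ x0 ∧ x0 ≤ r0)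
    (hz0 : z0 ≤ x0) (hz1 : z1 ≤ xm) (hy1' : 0 ≤ y1 ∧ y1 ≤ ((r0 + k0 : ℕ) : ℤ))
    (hxm : l' ((r0 + k0 : ℕ) : ℤ) ≤ xm) (hy1 : y1 ≤ l ((r0 + k0 : ℕ) : ℤ)) (hxy : xm < y1) (hxy2 : x1 ≤ y2)
    (hc1 : 0 ≤ y2 - xm ∧ y2 - xm ≤ k1) (hc0 : 0 ≤ xm - z0 ∧ xm - z0 ≤ k0)
    (hP1 : 0 < WR μ s (Lw l) g00 (((r0 + k0 : ℕ) : ℤ), y1) k1 (y2 - y1))
    (hP2 : 0 < WR μ s (Lw l) g00 (((r0 + k0 : ℕ) : ℤ), xm) k1 (x1 - xm))
    (hP3 : 0 < WR μ s (Rw l') g00 ((r0 : ℤ), z0) k0 (z1 - z0))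
    (hP4 : 0 < WR μ s (Rw l') g00 ((r0 : ℤ), x0) k0 (xm - x0)) {κ : ℝ}
    (hA : V μ s g00 ((0 : ℤ), (0 : ℤ)) (r0 + k0 + (k1 + q)) + κ + Real.log k1 +
      X μ s g00 ((0 : ℤ), (0 : ℤ)) (r0 + k0) y1 - V μ s g00 (((r0 + k0 + k1 : ℕ) : ℤ), x1) q -
      Real.log (WR μ s (Lw l) g00 (((r0 + k0 : ℕ) : ℤ), y1) k1 (y2 - y1)) -
      Real.log (WR μ s (Lw l) g00 (((r0 + k0 : ℕ) : ℤ), xm) k1 (x1 - xm)) ≤ X μ s g00 (((r0 + k0 : ℕ) : ℤ), xm) k1 (y2 - xm))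
    (hB : V μ s g00 ((0 : ℤ), (0 : ℤ)) (r0 + k0 + (k1 + q)) + κ + Real.log k0 +
      X μ s g00 ((0 : ℤ), (0 : ℤ)) r0 x0 - V μ s g00 (((r0 + k0 : ℕ) : ℤ), z1) (k1 + q) -
      Real.log (WR μ s (Rw l') g00 ((r0 : ℤ), z0) k0 (z1 - z0)) -
      Real.log (WR μ s (Rw l') g00 ((r0 : ℤ), x0) k0 (xm - x0)) ≤ X μ s g00 ((r0 : ℤ), z0) k0 (xm - z0))
    (hC : V μ s g00 ((0 : ℤ), (0 : ℤ)) (r0 + k0 + (k1 + q)) + κ ≤ V μ s g10 ((0 : ℤ), (0 : ℤ)) (r0 + k0 + (k1 + q)))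
    (hD : V μ s g00 ((0 : ℤ), (0 : ℤ)) (r0 + k0 + (k1 + q)) + κ ≤ V μ s g01 ((0 : ℤ), (0 : ℤ)) (r0 + k0 + (k1 + q))) :
    V μ s g11 ((0 : ℤ), (0 : ℤ)) (r0 + k0 + (k1 + q)) - V μ s g10 ((0 : ℤ), (0 : ℤ)) (r0 + k0 + (k1 + q)) -
      V μ s g01 ((0 : ℤ), (0 : ℤ)) (r0 + k0 + (k1 + q)) + V μ s g00 ((0 : ℤ), (0 : ℤ)) (r0 + k0 + (k1 + q)) ≤
      Real.log 4 - κ := by
  have h := both_det hl hl' T T' g11 g10 g01 g00 h10 h01 h0a r0 k0 k1 (k1 + q) (Nat.le_add_right _ _) hT hT' hx0 hz0 hz1 hxm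
    hy1 hxy hxy2 hP1 hP2 hP3 hP4
  obtain ⟨rm, hrm⟩ : ∃ rm : ℤ, rm = ((r0 + k0 : ℕ) : ℤ) := ⟨_, rfl⟩
  rw [← hrm] at h hA hB hT hT' hP1 hP2
  obtain ⟨P1, hP1'⟩ : ∃ P : ℝ, P = WR μ s (Lw l) g00 (rm, y1) k1 (y2 - y1) := ⟨_, rfl⟩
  obtain ⟨P2, hP2'⟩ : ∃ P : ℝ, P = WR μ s (Lw l) g00 (rm, xm) k1 (x1 - xm) := ⟨_, rfl⟩
  obtain ⟨P3, hP3'⟩ : ∃ P : ℝ, P = WR μ s (Rw l') g00 ((r0 : ℤ), z0) k0 (z1 - z0) := ⟨_, rfl⟩
  obtain ⟨P4, hP4'⟩ : ∃ P : ℝ, P = WR μ s (Rw l') g00 ((r0 : ℤ), x0) k0 (xm - x0) := ⟨_, rfl⟩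
  rw [← hP1', ← hP2'] at hA
  rw [← hP3', ← hP4'] at hB
  rw [← hP1'] at hP1
  rw [← hP2'] at hP2
  rw [← hP3'] at hP3
  rw [← hP4'] at hP4
  rw [← hP1', ← hP2', ← hP3', ← hP4'] at h
  obtain ⟨v00, hv00⟩ : ∃ v : ℝ, v = V μ s g00 ((0 : ℤ), (0 : ℤ)) (r0 + k0 + (k1 + q)) := ⟨_, rfl⟩
  obtain ⟨v10, hv10⟩ : ∃ v : ℝ, v = V μ s g10 ((0 : ℤ), (0 : ℤ)) (r0 + k0 + (k1 + q)) := ⟨_, rfl⟩
  obtain ⟨v01, hv01⟩ : ∃ v : ℝ, v = V μ s g01 ((0 : ℤ), (0 : ℤ)) (r0 + k0 + (k1 + q)) := ⟨_, rfl⟩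
  obtain ⟨v11, hv11⟩ : ∃ v : ℝ, v = V μ s g11 ((0 : ℤ), (0 : ℤ)) (r0 + k0 + (k1 + q)) := ⟨_, rfl⟩
  rw [← hv00] at hA hB hC hD
  rw [← hv10] at hC h
  rw [← hv01] at hD h
  rw [← hv11] at h
  rw [← hv00, ← hv10, ← hv01, ← hv11]
  -- the first fixed point factors
  have f1 : Real.exp (V μ s g01 (rm, y1) (k1 + q)) * Real.exp (-X μ s g00 ((0 : ℤ), (0 : ℤ)) (r0 + k0) y1) ≤ Real.exp v01 := by
    have e1 : Real.exp (-X μ s g00 ((0 : ℤ), (0 : ℤ)) (r0 + k0) y1) = W μ s g01 ((0 : ℤ), (0 : ℤ)) (r0 + k0) y1 := by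
      rw [X, neg_neg, Real.exp_log (W_pos _ _ hy1'.1 hy1'.2)]
      refine W_congr (fun p _ h2 => h0a p fun hp => ?_) y1
      have h3 : p.1 ≤ 0 + ((r0 + k0 : ℕ) : ℤ) := h2
      have := (hT' p hp).1
      omega
    rw [e1, mul_comm, hv01]
    have := W_expV_le (μ := μ) (s := s) g01 0 0 (r0 + k0) (k1 + q) y1
    simp only [sub_zero, zero_add, ← hrm] at this
    exact this
  have f2 : W μ s g10 ((0 : ℤ), (0 : ℤ)) (r0 + k0 + k1) x1 *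
      Real.exp (V μ s g00 (((r0 + k0 + k1 : ℕ) : ℤ), x1) q) ≤ Real.exp v10 := by
    have e1 : Real.exp (V μ s g00 (((r0 + k0 + k1 : ℕ) : ℤ), x1) q) = Real.exp (V μ s g10 (((r0 + k0 + k1 : ℕ) : ℤ), x1) q) := by
      refine expV_congr fun p h1 _ => h0b p fun hp => ?_
      have h3 : ((r0 + k0 + k1 : ℕ) : ℤ) < p.1 := h1
      have := (hT p hp).2.1
      push_cast at h3 hrm
      omega
    rw [e1, hv10]
    have := W_expV_le (μ := μ) (s := s) g10 0 0 (r0 + k0 + k1) q x1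
    simp only [sub_zero, zero_add] at this
    have e2 : r0 + k0 + k1 + q = r0 + k0 + (k1 + q) := by omega
    rw [e2] at this
    exact this
  have f3 : W μ s g10 ((0 : ℤ), (0 : ℤ)) (r0 + k0) z1 * Real.exp (V μ s g00 (rm, z1) (k1 + q)) ≤ Real.exp v10 := by
    have e1 : Real.exp (V μ s g00 (rm, z1) (k1 + q)) = Real.exp (V μ s g10 (rm, z1) (k1 + q)) := by
      refine expV_congr fun p h1 _ => h0b p fun hp => ?_
      have h3 : rm < p.1 := h1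
      have := (hT p hp).2.1
      omega
    rw [e1, hv10]
    have := W_expV_le (μ := μ) (s := s) g10 0 0 (r0 + k0) (k1 + q) z1
    simp only [sub_zero, zero_add, ← hrm] at this
    exact this
  have f4 : Real.exp (V μ s g01 ((r0 : ℤ), x0) (k0 + (k1 + q))) * Real.exp (-X μ s g00 ((0 : ℤ), (0 : ℤ)) r0 x0) ≤
      Real.exp v01 := by
    have e1 : Real.exp (-X μ s g00 ((0 : ℤ), (0 : ℤ)) r0 x0) = W μ s g01 ((0 : ℤ), (0 : ℤ)) r0 x0 := by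
      rw [X, neg_neg, Real.exp_log (W_pos _ _ hx0.1 hx0.2)]
      refine W_congr (fun p _ h2 => h0a p fun hp => ?_) x0
      have h3 : p.1 ≤ 0 + (r0 : ℤ) := h2
      have := (hT' p hp).1
      push_cast at hrm
      omega
    rw [e1, mul_comm, hv01]
    have := W_expV_le (μ := μ) (s := s) g01 0 0 r0 (k0 + (k1 + q)) x0
    simp only [sub_zero, zero_add] at this
    have e2 : r0 + (k0 + (k1 + q)) = r0 + k0 + (k1 + q) := by omega
    rw [e2] at this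
    exact this
  have g1 : WR μ s (Lw l) g00 (rm, xm) k1 (y2 - xm) ≤ Real.exp (-X μ s g00 (rm, xm) k1 (y2 - xm)) := by
    rw [X, neg_neg, Real.exp_log (W_pos _ _ hc1.1 hc1.2)]
    exact WR_le_W _ _ _ _ _
  have g2 : WR μ s (Rw l') g00 ((r0 : ℤ), z0) k0 (xm - z0) ≤ Real.exp (-X μ s g00 ((r0 : ℤ), z0) k0 (xm - z0)) := by
    rw [X, neg_neg, Real.exp_log (W_pos _ _ hc0.1 hc0.2)]
    exact WR_le_W _ _ _ _ _
  have hk0' : (0 : ℝ) < k0 := by exact_mod_cast hk0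
  have hk1' : (0 : ℝ) < k1 := by exact_mod_cast hk1
  have t1 : (k1 : ℝ) * Real.exp (V μ s g01 (rm, y1) (k1 + q)) * (WR μ s (Lw l) g00 (rm, xm) k1 (y2 - xm) / (P1 * P2)) *
      W μ s g10 ((0 : ℤ), (0 : ℤ)) (r0 + k0 + k1) x1 ≤ Real.exp (v10 + v01 - v00 - κ) := by
    obtain ⟨a, ha⟩ : ∃ a : ℝ, a = X μ s g00 ((0 : ℤ), (0 : ℤ)) (r0 + k0) y1 := ⟨_, rfl⟩
    obtain ⟨b, hb⟩ : ∃ b : ℝ, b = V μ s g00 (((r0 + k0 + k1 : ℕ) : ℤ), x1) q := ⟨_, rfl⟩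
    obtain ⟨x, hx⟩ : ∃ x : ℝ, x = X μ s g00 (rm, xm) k1 (y2 - xm) := ⟨_, rfl⟩
    rw [← ha] at f1 hA
    rw [← hb] at f2 hA
    rw [← hx] at g1 hA
    have j1 : Real.exp (V μ s g01 (rm, y1) (k1 + q)) ≤ Real.exp (v01 + a) := by
      rw [Real.exp_add]
      have := mul_le_mul_of_nonneg_right f1 (Real.exp_pos a).le
      rw [mul_assoc, ← Real.exp_add, neg_add_cancel, Real.exp_zero, mul_one] at this
      exact this
    have j2 : W μ s g10 ((0 : ℤ), (0 : ℤ)) (r0 + k0 + k1) x1 ≤ Real.exp (v10 - b) := by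
      rw [Real.exp_sub, le_div_iff₀ (Real.exp_pos b)]
      exact f2
    have j3 : WR μ s (Lw l) g00 (rm, xm) k1 (y2 - xm) / (P1 * P2) ≤ Real.exp (-x - Real.log P1 - Real.log P2) := by
      rw [Real.exp_sub, Real.exp_sub, Real.exp_log hP1, Real.exp_log hP2, div_div]
      exact div_le_div_of_nonneg_right g1 (mul_pos hP1 hP2).le
    calc _ ≤ (k1 : ℝ) * Real.exp (v01 + a) * Real.exp (-x - Real.log P1 - Real.log P2) * Real.exp (v10 - b) := by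
          have n0 : 0 ≤ WR μ s (Lw l) g00 (rm, xm) k1 (y2 - xm) / (P1 * P2) :=
            div_nonneg (WR_nonneg _ _ _ _ _) (mul_pos hP1 hP2).le
          exact mul_le_mul (mul_le_mul (mul_le_mul_of_nonneg_left j1 hk1'.le) j3 n0
            (mul_nonneg hk1'.le (Real.exp_pos _).le)) j2 (W_nonneg _ _ _ _)
            (mul_nonneg (mul_nonneg hk1'.le (Real.exp_pos _).le) (Real.exp_pos _).le)
      _ = Real.exp (Real.log k1 + (v01 + a) + (-x - Real.log P1 - Real.log P2) + (v10 - b)) := by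
          rw [Real.exp_add (Real.log k1 + (v01 + a) + (-x - Real.log P1 - Real.log P2)) (v10 - b),
            Real.exp_add (Real.log k1 + (v01 + a)) (-x - Real.log P1 - Real.log P2),
            Real.exp_add (Real.log k1) (v01 + a), Real.exp_log hk1']
      _ ≤ _ := Real.exp_le_exp.2 (by linarith)
  have t2 : (k0 : ℝ) * W μ s g10 ((0 : ℤ), (0 : ℤ)) (r0 + k0) z1 *
      (WR μ s (Rw l') g00 ((r0 : ℤ), z0) k0 (xm - z0) / (P3 * P4)) *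
      Real.exp (V μ s g01 ((r0 : ℤ), x0) (k0 + (k1 + q))) ≤ Real.exp (v10 + v01 - v00 - κ) := by
    obtain ⟨a, ha⟩ : ∃ a : ℝ, a = X μ s g00 ((0 : ℤ), (0 : ℤ)) r0 x0 := ⟨_, rfl⟩
    obtain ⟨b, hb⟩ : ∃ b : ℝ, b = V μ s g00 (rm, z1) (k1 + q) := ⟨_, rfl⟩
    obtain ⟨x, hx⟩ : ∃ x : ℝ, x = X μ s g00 ((r0 : ℤ), z0) k0 (xm - z0) := ⟨_, rfl⟩
    rw [← ha] at f4 hB
    rw [← hb] at f3 hB
    rw [← hx] at g2 hB
    have j1 : Real.exp (V μ s g01 ((r0 : ℤ), x0) (k0 + (k1 + q))) ≤ Real.exp (v01 + a) := by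
      rw [Real.exp_add]
      have := mul_le_mul_of_nonneg_right f4 (Real.exp_pos a).le
      rw [mul_assoc, ← Real.exp_add, neg_add_cancel, Real.exp_zero, mul_one] at this
      exact this
    have j2 : W μ s g10 ((0 : ℤ), (0 : ℤ)) (r0 + k0) z1 ≤ Real.exp (v10 - b) := by
      rw [Real.exp_sub, le_div_iff₀ (Real.exp_pos b)]
      exact f3
    have j3 : WR μ s (Rw l') g00 ((r0 : ℤ), z0) k0 (xm - z0) / (P3 * P4) ≤ Real.exp (-x - Real.log P3 - Real.log P4) := by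
      rw [Real.exp_sub, Real.exp_sub, Real.exp_log hP3, Real.exp_log hP4, div_div]
      exact div_le_div_of_nonneg_right g2 (mul_pos hP3 hP4).le
    calc _ ≤ (k0 : ℝ) * Real.exp (v10 - b) * Real.exp (-x - Real.log P3 - Real.log P4) * Real.exp (v01 + a) := by
          have n0 : 0 ≤ WR μ s (Rw l') g00 ((r0 : ℤ), z0) k0 (xm - z0) / (P3 * P4) :=
            div_nonneg (WR_nonneg _ _ _ _ _) (mul_pos hP3 hP4).le
          exact mul_le_mul (mul_le_mul (mul_le_mul_of_nonneg_left j2 hk0'.le) j3 n0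
            (mul_nonneg hk0'.le (Real.exp_pos _).le)) j1 (Real.exp_pos _).le
            (mul_nonneg (mul_nonneg hk0'.le (Real.exp_pos _).le) (Real.exp_pos _).le)
      _ = Real.exp (Real.log k0 + (v10 - b) + (-x - Real.log P3 - Real.log P4) + (v01 + a)) := by
          rw [Real.exp_add (Real.log k0 + (v10 - b) + (-x - Real.log P3 - Real.log P4)) (v01 + a),
            Real.exp_add (Real.log k0 + (v10 - b)) (-x - Real.log P3 - Real.log P4),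
            Real.exp_add (Real.log k0) (v10 - b), Real.exp_log hk0']
      _ ≤ _ := Real.exp_le_exp.2 (by linarith)
  have t3 : Real.exp v10 ≤ Real.exp (v10 + v01 - v00 - κ) := Real.exp_le_exp.2 (by linarith)
  have t4 : Real.exp v01 ≤ Real.exp (v10 + v01 - v00 - κ) := Real.exp_le_exp.2 (by linarith)
  have t5 : Real.exp v11 ≤ 4 * Real.exp (v10 + v01 - v00 - κ) := by
    refine h.trans ?_
    linarith
  have t6 : v11 ≤ Real.log 4 + (v10 + v01 - v00 - κ) := by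
    have := Real.log_le_log (Real.exp_pos _) t5
    rw [Real.log_exp, Real.log_mul (by norm_num) (Real.exp_pos _).ne', Real.log_exp] at this
    exact this
  linarith

end

end Pool.Agent.W_7d29a1_HX.X20
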