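import Pool.Agent.W_7d29a1_HX.X40_H3

/-!
MP_7d29a1_pr, TRACK H, part 4. (H3) in the form of the tree (`HX/XT_Node`): slopes `v - sl μ s` with `v` in `[0, 1]`. (helper76)
-/

set_option autoImplicit false

namespace Pool.Agent.W_7d29a1_HX.XT

open Finset MeasureTheory ProbabilityTheory
open Pool.Agent.W_7d29a1_F Pool.Agent.W_7d29a1_h4g Pool.Agent.W_7d29a1_H Pool.Agent.W_7d29a1_HS

variable {μ : Measure ℝ} [IsProbabilityMeasure μ] {s c C : ℝ} {n₀ : ℕ}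

/-- (H3) for the rate function. -/
theorem hJ_wire (h : In μ s c C n₀) : ∃ C₃ : ℝ, 1 ≤ C₃ ∧ ∀ ep : ℝ, 0 < ep → ∃ T₀ : ℕ, ∀ T : ℕ, T₀ ≤ T → ∀ v : ℕ → ℝ,
    (∀ r < T, -sl μ s ≤ v r ∧ v r ≤ 1 - sl μ s) → ∀ r < T,
      T * J μ s ((∑ q ∈ range T, v q) / T) ≤ ep * J μ s (v r) + C₃ * ∑ q ∈ (range T).erase r, J μ s (v q) := by
  obtain ⟨C₃, hC₃, hh⟩ := Pool.Agent.W_7d29a1_HX.X40.hJ h
  refine ⟨C₃, hC₃, fun ep hep => ?_⟩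
  obtain ⟨T₀, hT₀⟩ := hh ep hep
  refine ⟨T₀, fun T hT v hv r hr => hT₀ T hT v (fun q hq => ?_) r hr⟩
  have h0 := h.sl_pos
  have h1 := h.sl_lt
  obtain ⟨h2, h3⟩ := hv q hq
  rw [abs_le]
  constructor <;> linarith

end Pool.Agent.W_7d29a1_HX.XT
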