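import Pool.Agent.W_7d29a1_G.SecA3
import Pool.Agent.W_7d29a1_HX.X40_H3

/-!
MP_7d29a1_pr, TRACK H, part 4 (row 663), at one tilt `s`, (E3), first half: the scale facts, the sums over cells (`qc`) and the luck of a
cell (`Lm`). (Model: `W_7d29a1_X40.Lam`.) (helper75)
-/

set_option autoImplicit false

namespace Pool.Agent.W_7d29a1_HX.X40

open MeasureTheory ProbabilityTheory Filter Topology
open Pool.Agent.W_7d29a1_F Pool.Agent.W_7d29a1_h4g Pool.Agent.W_7d29a1_H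
open Pool.Agent.W_7d29a1_HS Pool.Agent.W_7d29a1_G20

variable {μ : Measure ℝ} [IsProbabilityMeasure μ] {s c C : ℝ} {n₀ : ℕ}

/-! ### The scale -/

/-- Doubling, iterated, for the two signs. -/
theorem J_le_pow2 (h : In μ s c C n₀) {D : ℝ} (hD1 : 1 ≤ D)
    (hD : ∀ x : ℝ, J μ s (2 * x) ≤ D * J μ s x ∧ J μ s (-x) ≤ D * J μ s x) (q : ℕ) {u v : ℝ}
    (huv : |u| ≤ 2 ^ q * |v|) : J μ s u ≤ D ^ (q + 1) * J μ s v := by
  have hD0 : 0 ≤ D := by linarith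
  have hit : ∀ (q : ℕ) (v : ℝ), J μ s (2 ^ q * v) ≤ D ^ q * J μ s v := by
    intro q
    induction q with
    | zero => intro v; simp
    | succ q ih =>
      intro v
      have e1 : (2 : ℝ) ^ (q + 1) * v = 2 * (2 ^ q * v) := by ring
      rw [e1]
      calc J μ s (2 * (2 ^ q * v)) ≤ D * J μ s (2 ^ q * v) := (hD _).1
        _ ≤ D * (D ^ q * J μ s v) := mul_le_mul_of_nonneg_left (ih v) hD0
        _ = D ^ (q + 1) * J μ s v := by ring
  have hJv := h.rf.nn v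
  have hDq : 1 ≤ D ^ q := one_le_pow₀ hD1
  rcases eq_or_ne v 0 with h0 | h0
  · subst h0
    rw [abs_zero, mul_zero] at huv
    have hu : u = 0 := abs_eq_zero.1 (le_antisymm huv (abs_nonneg u))
    rw [hu, h.rf.zero, mul_zero]
  have hp : (0 : ℝ) < 2 ^ q := by positivity
  obtain ⟨t, ht⟩ : ∃ t : ℝ, t = u / (2 ^ q * v) := ⟨_, rfl⟩
  have hut : u = t * (2 ^ q * v) := by
    rw [ht]
    field_simp
  have hta : |t| ≤ 1 := by
    rw [ht, abs_div, abs_mul, abs_of_pos hp, div_le_one (mul_pos hp (abs_pos.2 h0))]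
    exact huv
  have hJ2 := h.rf.nn (2 ^ q * v)
  have h2 := hit q v
  rcases le_total 0 t with h1 | h1
  · rw [abs_of_nonneg h1] at hta
    have h3 := h.rf.mul_le h1 hta (2 ^ q * v)
    rw [← hut] at h3
    calc J μ s u ≤ t * J μ s (2 ^ q * v) := h3
      _ ≤ 1 * J μ s (2 ^ q * v) := mul_le_mul_of_nonneg_right hta hJ2
      _ ≤ D ^ q * J μ s v := by rw [one_mul]; exact h2
      _ ≤ D ^ (q + 1) * J μ s v := mul_le_mul_of_nonneg_right (pow_le_pow_right₀ hD1 (Nat.le_succ q)) hJv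
  · rw [abs_of_nonpos h1] at hta
    have h3 := h.rf.mul_le (t := -t) (by linarith) hta (2 ^ q * v)
    have h4 := (hD (-t * (2 ^ q * v))).2
    have e1 : -(-t * (2 ^ q * v)) = u := by rw [hut]; ring
    rw [e1] at h4
    calc J μ s u ≤ D * J μ s (-t * (2 ^ q * v)) := h4
      _ ≤ D * (-t * J μ s (2 ^ q * v)) := mul_le_mul_of_nonneg_left h3 hD0
      _ ≤ D * (1 * J μ s (2 ^ q * v)) := mul_le_mul_of_nonneg_left (mul_le_mul_of_nonneg_right hta hJ2) hD0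
      _ ≤ D * (D ^ q * J μ s v) := by rw [one_mul]; exact mul_le_mul_of_nonneg_left h2 hD0
      _ = D ^ (q + 1) * J μ s v := by ring

theorem vA_half (h : In μ s c C n₀) {r : ℕ} (hr : 1 ≤ r) : vA 1 μ s r ≤ 2 * vA 1 μ s (2 * r) := by
  have hr0 : (0 : ℝ) < r := by exact_mod_cast hr
  have h1 : EE μ s r ≤ EE μ s (2 * r) := EE_mono (by omega)
  have h2 : 1 * EE μ s r / r ≤ 2 * (1 * EE μ s (2 * r) / ((2 * r : ℕ) : ℝ)) := by
    have e1 : 2 * (1 * EE μ s (2 * r) / ((2 * r : ℕ) : ℝ)) = EE μ s (2 * r) / r := by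
      push_cast
      field_simp
    rw [e1, one_mul]
    exact div_le_div_of_nonneg_right h1 hr0.le
  have h3 := (h.rf.wR_mono (lev_nonneg r) h2).trans (h.rf.wR_mul (lev_nonneg (2 * r)) one_le_two)
  have h4 := (h.rf.wL_mono (lev_nonneg r) h2).trans (h.rf.wL_mul (lev_nonneg (2 * r)) one_le_two)
  unfold vA vr vl
  linarith

theorem vA_mul_le (h : In μ s c C n₀) {r k : ℕ} (hr : 1 ≤ r) (hk : 1 ≤ k) : vA 1 μ s (k * r) ≤ vA 1 μ s r := by
  have hr0 : (0 : ℝ) < r := by exact_mod_cast hr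
  have hk0 : (0 : ℝ) < k := by exact_mod_cast hk
  have h1 := EE_mul h.em s r hk
  have h2 : 1 * EE μ s (k * r) / ((k * r : ℕ) : ℝ) ≤ 1 * EE μ s r / r := by
    rw [one_mul, one_mul, div_le_div_iff₀ (by positivity) hr0]
    push_cast
    calc EE μ s (k * r) * r ≤ (k * EE μ s r) * r := mul_le_mul_of_nonneg_right h1 hr0.le
      _ = EE μ s r * (k * r) := by ring
  have h3 := h.rf.wR_mono (lev_nonneg (k * r)) h2
  have h4 := h.rf.wL_mono (lev_nonneg (k * r)) h2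
  unfold vA vr vl
  linarith

theorem wd_pow (h : In μ s c C n₀) {r : ℕ} (hr : 1 ≤ r) (i : ℕ) : wd μ s (2 ^ i * r) ≤ 2 ^ i * wd μ s r := by
  have h1 := vA_mul_le h hr (Nat.one_le_two_pow (n := i))
  unfold wd
  push_cast
  calc (2 : ℝ) ^ i * r * vA 1 μ s (2 ^ i * r) ≤ 2 ^ i * r * vA 1 μ s r := mul_le_mul_of_nonneg_left h1 (by positivity)
    _ = 2 ^ i * (r * vA 1 μ s r) := by ring

/-- The rate function at the width, from above. -/
theorem J_vA_le (h : In μ s c C n₀) {D : ℝ} (hD1 : 1 ≤ D)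
    (hD : ∀ x : ℝ, J μ s (2 * x) ≤ D * J μ s x ∧ J μ s (-x) ≤ D * J μ s x) (q r : ℕ) {x : ℝ}
    (hx : |x| ≤ 2 ^ q * vA 1 μ s r) : J μ s x ≤ D ^ (q + 2) * (EE μ s r / r) := by
  have hr := h.vr_nonneg r
  have hl := h.vl_nonneg r
  rcases le_total (vl 1 μ s r) (vr 1 μ s r) with hlr | hlr
  · have h1 := J_le_pow2 h hD1 hD (q + 1) (u := x) (v := vr 1 μ s r) (by
      rw [abs_of_nonneg hr, pow_succ]
      refine hx.trans ?_
      have h2 : vA 1 μ s r ≤ 2 * vr 1 μ s r := by unfold vA; linarith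
      calc (2 : ℝ) ^ q * vA 1 μ s r ≤ 2 ^ q * (2 * vr 1 μ s r) := mul_le_mul_of_nonneg_left h2 (by positivity)
        _ = 2 ^ q * 2 * vr 1 μ s r := by ring)
    rwa [h.J_vr] at h1
  · have h1 := J_le_pow2 h hD1 hD (q + 1) (u := x) (v := -vl 1 μ s r) (by
      rw [abs_neg, abs_of_nonneg hl, pow_succ]
      refine hx.trans ?_
      have h2 : vA 1 μ s r ≤ 2 * vl 1 μ s r := by unfold vA; linarith
      calc (2 : ℝ) ^ q * vA 1 μ s r ≤ 2 ^ q * (2 * vl 1 μ s r) := mul_le_mul_of_nonneg_left h2 (by positivity)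
        _ = 2 ^ q * 2 * vl 1 μ s r := by ring)
    rwa [h.J_vl] at h1

/-! ### One class of displacements -/

/-- The sum over the cells of starts and the far cells of ends. -/
noncomputable def qc (μ : Measure ℝ) (s : ℝ) (w m : ℕ) (D₀ : ℤ) (θ : ℝ) (b N M : ℕ) (x₀ : ℤ) (η : Env) : ℝ :=
  ∑ a ∈ Finset.range N, ∑ k ∈ (Finset.Icc (-(M : ℤ)) M).filter (fun k => b ≤ k.natAbs),
    Bk μ s w m D₀ k (sh (0, x₀ + (a : ℕ) * w) η) ^ θ

theorem qc_integrable (hμ : Pool.Agent.W_7d29a1_h47.EM μ) {w m : ℕ} (hw : 0 < w) (D₀ : ℤ) {θ : ℝ} (hθ : 0 ≤ θ)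
    (b N M : ℕ) (x₀ : ℤ) : Integrable (qc μ s w m D₀ θ b N M x₀) (law μ) := by
  unfold qc
  refine integrable_finsetSum _ fun a _ => integrable_finsetSum _ fun k _ => ?_
  exact ((Bk_dom (μ := μ) (s := s) hw m D₀ k).comp_sh _).rpow_int hμ hθ

theorem qc_nonneg {w m : ℕ} (hw : 0 < w) (D₀ : ℤ) {θ : ℝ} (b N M : ℕ) (x₀ : ℤ) (η : Env) :
    0 ≤ qc μ s w m D₀ θ b N M x₀ η := by
  unfold qc
  exact Finset.sum_nonneg fun a _ => Finset.sum_nonneg fun k _ =>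
    Real.rpow_nonneg ((Bk_dom (μ := μ) (s := s) hw m D₀ k).nonneg _) _

theorem qc_int (hμ : Pool.Agent.W_7d29a1_h47.EM μ) {w m : ℕ} (hw : 0 < w) (D₀ : ℤ) {θ ρ Q : ℝ} (hθ : 0 ≤ θ)
    (hρ0 : 0 ≤ ρ) (hρ1 : ρ < 1) (hQ : 0 ≤ Q)
    (hB : ∀ k : ℤ, ∫ η, Bk μ s w m D₀ k η ^ θ ∂(law μ) ≤ Q * ρ ^ (2 * k.natAbs)) (b N M : ℕ) (x₀ : ℤ) :
    ∫ η, qc μ s w m D₀ θ b N M x₀ η ∂(law μ) ≤ N * (Q * ρ ^ b * (2 / (1 - ρ))) := by
  unfold qc
  have hI : ∀ (a : ℕ) (k : ℤ), Integrable (fun η => Bk μ s w m D₀ k (sh (0, x₀ + (a : ℕ) * w) η) ^ θ) (law μ) :=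
    fun a k => ((Bk_dom (μ := μ) (s := s) hw m D₀ k).comp_sh _).rpow_int hμ hθ
  rw [integral_finsetSum _ fun a _ => integrable_finsetSum _ fun k _ => hI a k]
  have h1 : ∀ a ∈ Finset.range N, ∫ η, ∑ k ∈ (Finset.Icc (-(M : ℤ)) M).filter (fun k => b ≤ k.natAbs),
      Bk μ s w m D₀ k (sh (0, x₀ + (a : ℕ) * w) η) ^ θ ∂(law μ) ≤ Q * ρ ^ b * (2 / (1 - ρ)) := by
    intro a _
    rw [integral_finsetSum _ fun k _ => hI a k]
    have h2 : ∀ k ∈ (Finset.Icc (-(M : ℤ)) M).filter (fun k => b ≤ k.natAbs),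
        ∫ η, Bk μ s w m D₀ k (sh (0, x₀ + (a : ℕ) * w) η) ^ θ ∂(law μ) ≤ Q * ρ ^ b * ρ ^ k.natAbs := by
      intro k hk
      have h3 := sh_integral (μ := μ) (g := fun η => Bk μ s w m D₀ k η ^ θ)
        ((Bk_dom (μ := μ) (s := s) hw m D₀ k).meas.pow_const θ) (0, x₀ + (a : ℕ) * w)
      rw [h3]
      refine (hB k).trans ?_
      rw [mul_assoc]
      refine mul_le_mul_of_nonneg_left ?_ hQ
      rw [two_mul, pow_add]
      exact mul_le_mul_of_nonneg_right (pow_le_pow_of_le_one hρ0 hρ1.le (Finset.mem_filter.1 hk).2) (pow_nonneg hρ0 _)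
    refine (Finset.sum_le_sum h2).trans ?_
    rw [← Finset.mul_sum]
    refine mul_le_mul_of_nonneg_left ?_ (mul_nonneg hQ (pow_nonneg hρ0 _))
    refine le_trans ?_ (geom_abs hρ0 hρ1 M)
    exact Finset.sum_le_sum_of_subset_of_nonneg (Finset.filter_subset _ _) fun k _ _ => pow_nonneg hρ0 _
  refine (Finset.sum_le_sum h1).trans ?_
  rw [Finset.sum_const, Finset.card_range, nsmul_eq_mul]

/-- Every weight of the class is one of the terms. -/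
theorem W_le_qc {w m : ℕ} (hw : 0 < w) {D₀ : ℤ} (hD0 : 0 ≤ D₀) (hD1 : D₀ ≤ m) {θ : ℝ} (hθ : 0 ≤ θ) {b N M : ℕ}
    (hM : m + 1 ≤ M) {x₀ x y : ℤ} (hx0 : x₀ ≤ x) (hx1 : x < x₀ + N * w) (hy0 : 0 ≤ y) (hy1 : y ≤ m)
    (hb : ((b : ℤ) + 1) * w ≤ |y - D₀|) (η : Env) :
    W μ s η (0, x) m y ^ θ ≤ qc μ s w m D₀ θ b N M x₀ η := by
  have hw' : (0 : ℤ) < w := by exact_mod_cast hw
  obtain ⟨u, hu⟩ : ∃ u : ℕ, (u : ℤ) = x - x₀ := ⟨(x - x₀).toNat, Int.toNat_of_nonneg (by omega)⟩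
  have hdm : w * (u / w) + u % w = u := Nat.div_add_mod u w
  have hmod : u % w < w := Nat.mod_lt _ hw
  obtain ⟨a, ha⟩ : ∃ a, a = u / w := ⟨_, rfl⟩
  obtain ⟨i, hi⟩ : ∃ i, i = u % w := ⟨_, rfl⟩
  rw [← ha, ← hi] at hdm
  rw [← hi] at hmod
  have hux : x = x₀ + (a : ℤ) * w + i := by
    have : ((w : ℤ) * a + i : ℤ) = u := by exact_mod_cast hdm
    linarith [mul_comm (w : ℤ) a]
  have haN : a < N := by
    rw [ha, Nat.div_lt_iff_lt_mul hw]
    have : (u : ℤ) < N * w := by rw [hu]; linarith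
    exact_mod_cast this
  obtain ⟨k, hk⟩ : ∃ k : ℤ, k = (y + i - D₀) / w := ⟨_, rfl⟩
  obtain ⟨l, hl⟩ : ∃ l : ℕ, (l : ℤ) = (y + i - D₀) % w :=
    ⟨((y + i - D₀) % w).toNat, Int.toNat_of_nonneg (Int.emod_nonneg _ hw'.ne')⟩
  have hlw : l < w := by
    have : (l : ℤ) < w := by rw [hl]; exact Int.emod_lt_of_pos _ hw'
    exact_mod_cast this
  have hkl : D₀ + k * w + l - i = y := by
    rw [hl, hk]
    have := Int.mul_ediv_add_emod (y + i - D₀) w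
    linarith [mul_comm ((y + i - D₀) / (w : ℤ)) (w : ℤ)]
  have hi' : (i : ℤ) < w := by exact_mod_cast hmod
  have hi0 : (0 : ℤ) ≤ i := Int.natCast_nonneg i
  have hl' : (l : ℤ) < w := by exact_mod_cast hlw
  have hl0 : (0 : ℤ) ≤ l := Int.natCast_nonneg l
  have hw1 : (1 : ℤ) ≤ w := by omega
  have hkM : -(M : ℤ) ≤ k ∧ k ≤ M := by
    have hM' : (m : ℤ) + 1 ≤ M := by exact_mod_cast hM
    have hMw : (M : ℤ) ≤ M * w := le_mul_of_one_le_right (Int.natCast_nonneg M) hw1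
    constructor
    · rw [hk, Int.le_ediv_iff_mul_le hw']
      linarith only [hMw, hM', hD1, hy0, hi0]
    · have : k < (M : ℤ) + 1 := by
        rw [hk, Int.ediv_lt_iff_lt_mul hw']
        linarith only [hMw, hM', hD0, hy1, hi']
      omega
  have hkb : b ≤ k.natAbs := by
    rcases le_total 0 (y - D₀) with h1 | h1
    · rw [abs_of_nonneg h1] at hb
      have h2 : (b : ℤ) ≤ k := by
        rw [hk, Int.le_ediv_iff_mul_le hw']
        linarith only [hb, hi0, hw']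
      omega
    · rw [abs_of_nonpos h1] at hb
      have h2 : k < -(b : ℤ) := by
        rw [hk, Int.ediv_lt_iff_lt_mul hw']
        linarith only [hb, hi']
      omega
  have h1 : W μ s η (0, x) m y ≤ Bk μ s w m D₀ k (sh (0, x₀ + (a : ℕ) * w) η) := by
    refine le_trans ?_ (le_Bk_sh (μ := μ) (s := s) m D₀ k η 0 (x₀ + (a : ℕ) * w) i hmod)
    have h2 := Finset.single_le_sum (f := fun l : ℕ => W μ s η (0, x₀ + (a : ℕ) * w + i) m (D₀ + k * w + l - i))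
      (fun j _ => W_nonneg (μ := μ) (s := s) η _ _ _) (Finset.mem_range.2 hlw)
    refine le_trans (le_of_eq ?_) h2
    show W μ s η (0, x) m y = W μ s η (0, x₀ + (a : ℕ) * w + i) m (D₀ + k * w + l - i)
    rw [hkl, hux]
  refine (Real.rpow_le_rpow (W_nonneg (μ := μ) (s := s) η _ _ _) h1 hθ).trans ?_
  unfold qc
  have h3 := Finset.single_le_sum (f := fun k : ℤ => Bk μ s w m D₀ k (sh (0, x₀ + (a : ℕ) * w) η) ^ θ)
    (s := (Finset.Icc (-(M : ℤ)) M).filter (fun k => b ≤ k.natAbs))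
    (fun j _ => Real.rpow_nonneg ((Bk_dom (μ := μ) (s := s) hw m D₀ j).nonneg _) _)
    (Finset.mem_filter.2 ⟨Finset.mem_Icc.2 hkM, hkb⟩)
  have h4 := Finset.single_le_sum (f := fun a : ℕ => ∑ k ∈ (Finset.Icc (-(M : ℤ)) M).filter (fun k => b ≤ k.natAbs),
    Bk μ s w m D₀ k (sh (0, x₀ + (a : ℕ) * w) η) ^ θ) (s := Finset.range N)
    (fun j _ => Finset.sum_nonneg fun k _ => Real.rpow_nonneg ((Bk_dom (μ := μ) (s := s) hw m D₀ k).nonneg _) _)
    (Finset.mem_range.2 haN)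
  exact h3.trans h4

/-! ### The luck of a cell -/

/-- The largest value of `- X + c₁ m J` over the starts `(0, x)`, `x ∈ I`, and all displacements of time `m`; at least `0`. -/
noncomputable def Lm (μ : Measure ℝ) (s c₁ : ℝ) (m : ℕ) (I : Finset ℤ) (η : Env) : ℝ :=
  (I ×ˢ Finset.Icc (0 : ℤ) m).fold max 0 fun q => -X μ s η (0, q.1) m q.2 + c₁ * (m * J μ s ((q.2 : ℝ) / m - sl μ s))

omit [IsProbabilityMeasure μ] in
theorem Lm_nonneg (c₁ : ℝ) (m : ℕ) (I : Finset ℤ) (η : Env) : 0 ≤ Lm μ s c₁ m I η := by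
  unfold Lm
  exact (Finset.le_fold_max 0).2 (Or.inl le_rfl)

omit [IsProbabilityMeasure μ] in
theorem le_Lm {c₁ : ℝ} {m : ℕ} {I : Finset ℤ} (η : Env) {x y : ℤ} (hx : x ∈ I) (h0 : 0 ≤ y) (h1 : y ≤ m) :
    -X μ s η (0, x) m y + c₁ * (m * J μ s ((y : ℝ) / m - sl μ s)) ≤ Lm μ s c₁ m I η := by
  unfold Lm
  exact (Finset.le_fold_max _).2 (Or.inr ⟨(x, y), Finset.mem_product.2 ⟨hx, Finset.mem_Icc.2 ⟨h0, h1⟩⟩, le_rfl⟩)

omit [IsProbabilityMeasure μ] in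
theorem Lm_le {c₁ : ℝ} {m : ℕ} {I : Finset ℤ} {η : Env} {L : ℝ} (hL : 0 ≤ L)
    (h : ∀ x ∈ I, ∀ y : ℤ, 0 ≤ y → y ≤ m → -X μ s η (0, x) m y + c₁ * (m * J μ s ((y : ℝ) / m - sl μ s)) ≤ L) :
    Lm μ s c₁ m I η ≤ L := by
  unfold Lm
  refine (Finset.fold_max_le L).2 ⟨hL, fun q hq => ?_⟩
  rw [Finset.mem_product, Finset.mem_Icc] at hq
  exact h q.1 hq.1 q.2 hq.2.1 hq.2.2

omit [IsProbabilityMeasure μ] in
theorem Sub_Lm (c₁ : ℝ) (m : ℕ) (I : Finset ℤ) : Sub fun η => Lm μ s c₁ m I η := by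
  unfold Lm
  have key : ∀ P : Finset (ℤ × ℤ), (∀ q ∈ P, 0 ≤ q.2 ∧ q.2 ≤ (m : ℤ)) →
      Sub fun η => P.fold max 0 fun q => -X μ s η (0, q.1) m q.2 + c₁ * (m * J μ s ((q.2 : ℝ) / m - sl μ s)) := by
    classical
    intro P
    induction P using Finset.induction_on with
    | empty => intro _; simpa using Sub.const 0
    | @insert q P hq ih =>
      intro hP
      have h1 := hP q (Finset.mem_insert_self q P)
      have h2 := ih fun p hp => hP p (Finset.mem_insert_of_mem hp)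
      have h3 : Sub fun η => -1 * X μ s η (0, q.1) m q.2 + c₁ * (m * J μ s ((q.2 : ℝ) / m - sl μ s)) :=
        ((Sub_X (μ := μ) (s := s) (0, q.1) h1.1 h1.2).const_mul (-1)).add (Sub.const _)
      have h4 := h3.max h2
      refine (congrArg Pool.Agent.W_7d29a1_F.Sub (funext fun η => ?_)).mp h4
      rw [Finset.fold_insert hq]
      congr 1
      ring
  exact key _ fun q hq => by
    rw [Finset.mem_product, Finset.mem_Icc] at hq
    exact hq.2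

omit [IsProbabilityMeasure μ] in
theorem Lm_dep (c₁ : ℝ) (m : ℕ) (I : Finset ℤ) : DependsOn (fun η : Env => Lm μ s c₁ m I η) (rows 0 m) := by
  intro η η' h
  show Lm μ s c₁ m I η = Lm μ s c₁ m I η'
  unfold Lm
  refine Finset.fold_congr fun q _ => ?_
  have h1 : X μ s η (0, q.1) m q.2 = X μ s η' (0, q.1) m q.2 :=
    (Pool.Agent.W_7d29a1_F.X_dep_rows (μ := μ) (s := s) (0, q.1) m q.2) fun p hp => h p (by simpa using hp)
  rw [h1]

omit [IsProbabilityMeasure μ] in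
/-- The starts `(t, x₀ + x)`. -/
theorem le_Lm_sh {c₁ : ℝ} {m : ℕ} {I : Finset ℤ} (η : Env) (t x₀ : ℤ) {x y : ℤ} (hx : x ∈ I) (h0 : 0 ≤ y) (h1 : y ≤ m) :
    -X μ s η (t, x₀ + x) m y + c₁ * (m * J μ s ((y : ℝ) / m - sl μ s)) ≤ Lm μ s c₁ m I (sh (t, x₀) η) := by
  have h2 := le_Lm (μ := μ) (s := s) (c₁ := c₁) (sh (t, x₀) η) hx h0 h1
  rw [X_sh] at h2
  have e : ((0, x) : Pt) + (t, x₀) = (t, x₀ + x) := Prod.ext (by simp) (by simp [add_comm])
  rwa [e] at h2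



end Pool.Agent.W_7d29a1_HX.X40
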