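import Pool.Agent.W_7d29a1_HS.Scale

/-!
MP_7d29a1_pr, TRACK H, part 4, block X7 (model: `W_7d29a1_X50.Pieces`): a displacement `(m, y)` of any slope is cut in `B` pieces at
the natural scale of the slope, each piece in the cone `c / 16` of `unlucky_exp`, with `B EE (m / B + 1) ≤ A (EE m + m J)`.
-/

set_option autoImplicit false

namespace Pool.Agent.W_7d29a1_HX.X50

open MeasureTheory ProbabilityTheory Filter Topology
open Pool.Agent.W_7d29a1_F Pool.Agent.W_7d29a1_h4g Pool.Agent.W_7d29a1_H Pool.Agent.W_7d29a1_HS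

/-- Doubling and comparison with the reflection of the rate function at `0`. -/
def Dj (μ : Measure ℝ) (s : ℝ) : Prop :=
  ∃ K v0 : ℝ, 0 < v0 ∧ ∀ v, |v| ≤ v0 → J μ s (2 * v) ≤ K * J μ s v ∧ J μ s (-v) ≤ K * J μ s v

variable {μ : Measure ℝ} [IsProbabilityMeasure μ] {s c C : ℝ} {n₀ : ℕ}

omit [IsProbabilityMeasure μ] in
theorem dj_of (h : In μ s c C n₀) : Dj μ s := by
  obtain ⟨D, δ, _, hδ, hs⟩ := h.sym
  exact ⟨D, δ, hδ, hs⟩

omit [IsProbabilityMeasure μ] in
/-- Away from `0` the rate function is at least linear. -/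
theorem J_away (h : In μ s c C n₀) {r : ℝ} (hr : 0 < r) : ∃ j : ℝ, 0 < j ∧ ∀ x : ℝ, r ≤ |x| → j * |x| ≤ J μ s x := by
  obtain ⟨H, δ, hD⟩ := h.dir
  obtain ⟨j, hj, h1⟩ := hD.strict r hr
  exact ⟨j, hj, fun x hx => h1 s (Set.mem_singleton s) x hx⟩

theorem J_ratio (h : In μ s c C n₀) {R : ℝ} (hR : 1 ≤ R) : ∃ K : ℝ, 0 < K ∧ ∀ u : ℝ,
    J μ s (R * u) ≤ K * J μ s u ∧ J μ s (-(R * u)) ≤ K * J μ s u := by
  obtain ⟨D, δ, hD, hδ, hs⟩ := h.sym
  have hD0 : 0 < D := by linarith
  have hR0 : 0 < R := by linarith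
  have hrf := h.rf
  obtain ⟨k, hk⟩ := pow_unbounded_of_one_lt R (one_lt_two (α := ℝ))
  have hp : (0 : ℝ) < 2 ^ k := by positivity
  have hit : ∀ (k : ℕ) (x : ℝ), 2 ^ k * |x| ≤ δ → J μ s (2 ^ k * x) ≤ D ^ k * J μ s x := by
    intro k
    induction k with
    | zero => intro x _; simp
    | succ k ih =>
      intro x hx
      have e0 : (2 : ℝ) ^ (k + 1) * |x| = 2 * (2 ^ k * |x|) := by ring
      have e1 : 0 ≤ (2 : ℝ) ^ k * |x| := by positivity
      have h1 : |(2 : ℝ) ^ k * x| ≤ δ := by
        rw [abs_mul, abs_of_pos (by positivity : (0 : ℝ) < 2 ^ k)]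
        linarith
      have h2 := (hs _ h1).1
      have h3 := ih x (by linarith)
      calc J μ s (2 ^ (k + 1) * x) = J μ s (2 * (2 ^ k * x)) := by congr 1; ring
        _ ≤ D * J μ s (2 ^ k * x) := h2
        _ ≤ D * (D ^ k * J μ s x) := mul_le_mul_of_nonneg_left h3 hD0.le
        _ = D ^ (k + 1) * J μ s x := by ring
  obtain ⟨u1, hu1⟩ : ∃ u1 : ℝ, u1 = δ / 2 ^ k := ⟨_, rfl⟩
  have hu10 : 0 < u1 := by rw [hu1]; positivity
  obtain ⟨j, hj, hJ⟩ := J_away h hu10
  refine ⟨D ^ (k + 1) + R / j, by positivity, fun u => ?_⟩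
  have hJu : 0 ≤ J μ s u := hrf.nn u
  rcases le_or_gt (2 ^ k * |u|) δ with h1 | h1
  · have h2 : J μ s (R * u) ≤ J μ s (2 ^ k * u) := by
      have e3 : R * u = (R / 2 ^ k) * (2 ^ k * u) := by field_simp
      have e4 : R / 2 ^ k ≤ 1 := by
        rw [div_le_one hp]
        exact hk.le
      have e5 := hrf.mul_le (t := R / 2 ^ k) (by positivity) e4 (2 ^ k * u)
      rw [← e3] at e5
      exact e5.trans (mul_le_of_le_one_left (hrf.nn _) e4)
    have h3 := hit k u h1
    have h4 : |R * u| ≤ δ := by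
      rw [abs_mul, abs_of_pos hR0]
      have := mul_le_mul_of_nonneg_right hk.le (abs_nonneg u)
      linarith
    have h5 := (hs _ h4).2
    have h6 : 0 ≤ R / j * J μ s u := by positivity
    have h7 : J μ s (R * u) ≤ D ^ k * J μ s u := h2.trans h3
    have h8 : D ^ k * J μ s u ≤ D ^ (k + 1) * J μ s u := by
      refine mul_le_mul_of_nonneg_right ?_ hJu
      exact pow_le_pow_right₀ hD (Nat.le_succ k)
    have h9 : D * J μ s (R * u) ≤ D ^ (k + 1) * J μ s u := by
      calc D * J μ s (R * u) ≤ D * (D ^ k * J μ s u) := mul_le_mul_of_nonneg_left h7 hD0.le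
        _ = D ^ (k + 1) * J μ s u := by ring
    have e : (D ^ (k + 1) + R / j) * J μ s u = D ^ (k + 1) * J μ s u + R / j * J μ s u := by ring
    rw [e]
    constructor <;> linarith
  · have h2 : u1 ≤ |u| := by
      rw [hu1, div_le_iff₀ hp]
      linarith
    have h3 := hJ u h2
    have h4 : R * |u| ≤ R / j * J μ s u := by
      rw [div_mul_eq_mul_div, le_div_iff₀ hj]
      calc R * |u| * j = R * (j * |u|) := by ring
        _ ≤ R * J μ s u := mul_le_mul_of_nonneg_left h3 hR0.le
    have h5 := J_le_abs h.em h.nd s (R * u)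
    have h6 := J_le_abs h.em h.nd s (-(R * u))
    rw [abs_neg] at h6
    rw [abs_mul, abs_of_pos hR0] at h5 h6
    have h7 : 0 ≤ D ^ (k + 1) * J μ s u := by positivity
    have e : (D ^ (k + 1) + R / j) * J μ s u = D ^ (k + 1) * J μ s u + R / j * J μ s u := by ring
    rw [e]
    constructor <;> linarith

/-- The number of pieces. -/
theorem exists_B (h : In μ s c C n₀) : ∃ A : ℝ, 0 < A ∧ ∀ m : ℕ, 1 ≤ m → ∀ u : ℝ,
    ∃ B : ℕ, 1 ≤ B ∧ B ≤ m ∧ B * EE μ s (m / B + 1) ≤ A * (EE μ s m + m * J μ s u) ∧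
      ∀ l : ℕ, 1 ≤ l → l * B < m + B → m < (l + 1) * B → l = 1 ∨ |u| ≤ c / 16 * vA 1 μ s l := by
  classical
  have hc0 := h.c0
  have hc1 := h.c1
  have hrf := h.rf
  have hR : 1 ≤ 32 / c := by
    rw [le_div_iff₀ hc0]
    linarith
  obtain ⟨K, hK, hJR⟩ := J_ratio h hR
  obtain ⟨u2, hu2⟩ : ∃ u2 : ℝ, u2 = c / 32 * vA 1 μ s 1 := ⟨_, rfl⟩
  have hv1 := h.vA_pos (n := 1) le_rfl
  have hu20 : 0 < u2 := by rw [hu2]; positivity
  obtain ⟨j, hj, hJ2⟩ := J_away h hu20
  have hE2 := EE_pos (μ := μ) (s := s) 2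
  refine ⟨2 + 8 * K + EE μ s 2 / (j * u2), by positivity, fun m hm u => ?_⟩
  obtain ⟨A, hA⟩ : ∃ A : ℝ, A = 2 + 8 * K + EE μ s 2 / (j * u2) := ⟨_, rfl⟩
  rw [← hA]
  have hJu : 0 ≤ J μ s u := hrf.nn u
  have hEm := EE_pos (μ := μ) (s := s) m
  have hmr : (1 : ℝ) ≤ m := by exact_mod_cast hm
  have hq2 : 0 < EE μ s 2 / (j * u2) := by positivity
  have hmJ : 0 ≤ m * J μ s u := by positivity
  have hA0 : 0 ≤ A := by rw [hA]; positivity
  have hEt : ∀ n : ℕ, EE μ s (2 * n) ≤ 2 * EE μ s n := fun n => by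
    have := EE_mul h.em s n (k := 2) (by norm_num)
    simpa using this
  by_cases hcase : |u| ≤ c / 32 * vA 1 μ s m
  · -- one piece
    refine ⟨1, le_rfl, hm, ?_, fun l _ h1 h2 => Or.inr ?_⟩
    · have h1 : EE μ s (m / 1 + 1) ≤ EE μ s (2 * m) := EE_mono (by omega)
      have h2 := hEt m
      have h3 : 2 * EE μ s m ≤ A * (EE μ s m + m * J μ s u) := by
        have : 2 * EE μ s m ≤ A * EE μ s m := mul_le_mul_of_nonneg_right (by rw [hA]; linarith) hEm.le
        have : 0 ≤ A * (m * J μ s u) := mul_nonneg hA0 hmJ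
        linarith
      push_cast
      linarith
    · have : l = m := by omega
      subst this
      have := h.vA_nonneg l
      nlinarith
  · rw [not_le] at hcase
    by_cases hex : ∃ n, 1 ≤ n ∧ n ≤ m ∧ |u| ≤ c / 32 * vA 1 μ s n
    · obtain ⟨n, hn1, hnm, hnu⟩ := hex
      obtain ⟨n', hn'⟩ : ∃ n', n' = Nat.findGreatest (fun n => 1 ≤ n ∧ |u| ≤ c / 32 * vA 1 μ s n) m := ⟨_, rfl⟩
      have hsp : 1 ≤ n' ∧ |u| ≤ c / 32 * vA 1 μ s n' := by
        rw [hn']
        exact Nat.findGreatest_spec (P := fun n => 1 ≤ n ∧ |u| ≤ c / 32 * vA 1 μ s n) hnm ⟨hn1, hnu⟩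
      have hle : n' ≤ m := by
        rw [hn']
        exact Nat.findGreatest_le m
      have hlt : n' < m := by
        rcases hle.eq_or_lt with h1 | h1
        · exfalso
          rw [h1] at hsp
          linarith [hsp.2]
        · exact h1
      have hgr : c / 32 * vA 1 μ s (n' + 1) < |u| := by
        have h1 := Nat.findGreatest_is_greatest (P := fun n => 1 ≤ n ∧ |u| ≤ c / 32 * vA 1 μ s n) (n := m) (k := n' + 1)
          (by rw [← hn']; omega) (by omega)
        by_contra hcon
        rw [not_lt] at hcon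
        exact h1 ⟨by omega, hcon⟩
      obtain ⟨B, hB⟩ : ∃ B, B = (m - 1) / n' + 1 := ⟨_, rfl⟩
      have hn'0 : 0 < n' := hsp.1
      have hd1 : (m - 1) / n' * n' ≤ m - 1 := Nat.div_mul_le_self _ _
      have hd2 : m - 1 < ((m - 1) / n' + 1) * n' := by
        have := Nat.lt_mul_div_succ (m - 1) hn'0
        rwa [mul_comm] at this
      have hB1 : 1 ≤ B := by
        rw [hB]
        exact Nat.le_add_left 1 _
      have hBn : B * n' + 1 ≤ m + n' := by
        rw [hB]
        have : ((m - 1) / n' + 1) * n' = (m - 1) / n' * n' + n' := by ring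
        omega
      have hmB : m ≤ B * n' := by
        rw [hB]
        omega
      have hBm : B ≤ m := by
        by_contra hcon
        rw [not_le] at hcon
        have h1 : (m + 1) * n' ≤ B * n' := Nat.mul_le_mul_right n' hcon
        have h2 : (m + 1) * n' = m * n' + n' := by ring
        have h3 : m * 1 ≤ m * n' := Nat.mul_le_mul_left m hn'0
        omega
      have hB2 : 2 ≤ B := by
        by_contra hcon
        have : B = 1 := by omega
        rw [this] at hmB
        omega
      have hn'r : (0 : ℝ) < n' := by exact_mod_cast hn'0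
      have hEn := EE_pos (μ := μ) (s := s) n'
      -- the bound of `B`
      have hmain : B * EE μ s (m / B + 1) * n' ≤ 4 * m * EE μ s n' := by
        have h1 : EE μ s (m / B + 1) ≤ 2 * EE μ s n' := by
          have h2 : m / B ≤ n' := by
            have : m / B ≤ B * n' / B := Nat.div_le_div_right hmB
            rw [Nat.mul_div_cancel_left _ (by omega : 0 < B)] at this
            exact this
          exact (EE_mono (by omega : m / B + 1 ≤ 2 * n')).trans (hEt n')
        have h2 : (B : ℝ) * n' ≤ 2 * m := by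
          have : B * n' ≤ 2 * m := by omega
          exact_mod_cast this
        calc B * EE μ s (m / B + 1) * n' = (B * n') * EE μ s (m / B + 1) := by ring
          _ ≤ (2 * m) * (2 * EE μ s n') := mul_le_mul h2 h1 (EE_pos _).le (by positivity)
          _ = 4 * m * EE μ s n' := by ring
      refine ⟨B, hB1, hBm, ?_, fun l hl1 hl2 hl3 => Or.inr ?_⟩
      · have h1 : vA 1 μ s (n' + 1) ≤ |32 / c * u| := by
          rw [abs_mul, abs_of_pos (by positivity : (0 : ℝ) < 32 / c)]
          have h2 := mul_le_mul_of_nonneg_left hgr.le (by positivity : (0 : ℝ) ≤ 32 / c)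
          have e1 : 32 / c * (c / 32 * vA 1 μ s (n' + 1)) = vA 1 μ s (n' + 1) := by field_simp
          rw [e1] at h2
          exact h2
        have h2 := h.lev_le_J (n' + 1) h1
        have h3 := (hJR u).1
        have h4 : EE μ s n' ≤ 2 * n' * (K * J μ s u) := by
          have h5 : EE μ s n' ≤ EE μ s (n' + 1) := EE_mono (by omega)
          have h6 := h2.trans h3
          rw [div_le_iff₀ (by positivity)] at h6
          push_cast at h6
          have h7 : K * J μ s u * ((n' : ℝ) + 1) ≤ 2 * n' * (K * J μ s u) := by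
            have h8 : (1 : ℝ) ≤ n' := by exact_mod_cast hn'0
            have h9 : 0 ≤ K * J μ s u := by positivity
            nlinarith
          linarith
        have h6 : B * EE μ s (m / B + 1) * n' ≤ (8 * K * (m * J μ s u)) * n' := by
          refine hmain.trans ?_
          calc 4 * m * EE μ s n' ≤ 4 * m * (2 * n' * (K * J μ s u)) := mul_le_mul_of_nonneg_left h4 (by positivity)
            _ = _ := by ring
        have h7 := le_of_mul_le_mul_right h6 hn'r
        have h8 : 8 * K * (m * J μ s u) ≤ A * (m * J μ s u) := mul_le_mul_of_nonneg_right (by rw [hA]; linarith) hmJ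
        have h9 : 0 ≤ A * EE μ s m := mul_nonneg hA0 hEm.le
        linarith
      · -- the cone at the scale `l`
        have hln : l ≤ n' := by
          by_contra hcon
          rw [not_le] at hcon
          have h1 : (n' + 1) * B ≤ l * B := Nat.mul_le_mul_right B hcon
          have h2 : (n' + 1) * B = B * n' + B := by ring
          omega
        have h1 := vA_le_two h hl1 hln
        have h2 := hsp.2
        have h3 := mul_le_mul_of_nonneg_left h1 (by positivity : (0 : ℝ) ≤ c / 32)
        linarith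
    · -- single steps
      push Not at hex
      have h1 := hex 1 le_rfl hm
      refine ⟨m, hm, le_rfl, ?_, fun l hl1 hl2 _ => Or.inl ?_⟩
      · have e1 : m / m + 1 = 2 := by rw [Nat.div_self (by omega)]
        rw [e1]
        rw [← hu2] at h1
        have h2 : j * u2 ≤ J μ s u := (mul_le_mul_of_nonneg_left h1.le hj.le).trans (hJ2 u h1.le)
        have h3 : m * EE μ s 2 ≤ EE μ s 2 / (j * u2) * (m * J μ s u) := by
          rw [div_mul_eq_mul_div, le_div_iff₀ (by positivity)]
          have := mul_le_mul_of_nonneg_left h2 (by positivity : (0 : ℝ) ≤ m * EE μ s 2)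
          linarith
        have h7 : EE μ s 2 / (j * u2) * (m * J μ s u) ≤ A * (m * J μ s u) :=
          mul_le_mul_of_nonneg_right (by rw [hA]; linarith) hmJ
        have h9 : 0 ≤ A * EE μ s m := mul_nonneg hA0 hEm.le
        linarith
      · by_contra hcon
        have : 2 ≤ l := by omega
        have : 2 * m ≤ l * m := Nat.mul_le_mul_right m this
        omega

end Pool.Agent.W_7d29a1_HX.X50
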