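import Pool.Agent.W_7d29a1_HX.X50_Pieces
import Pool.Agent.W_7d29a1_HS.Rec
import Pool.Agent.W_7d29a1_X50.SumT

/-!
MP_7d29a1_pr, TRACK H, part 4, block X7 (model: `W_7d29a1_X50.Unl`): the cost of EVERY pair of end points exceeds a multiple of
`EE m + m J` by `u EE m` with a stretched exponentially small probability, at one tilt.
-/

set_option autoImplicit false

namespace Pool.Agent.W_7d29a1_HX.X50

open MeasureTheory ProbabilityTheory Filter Topology
open Pool.Agent.W_7d29a1_F Pool.Agent.W_7d29a1_h4g Pool.Agent.W_7d29a1_H Pool.Agent.W_7d29a1_HS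
open Pool.Agent.W_7d29a1_X50 (sum_tail)

/-- The times of the cuts. -/
def tt (m B i : ℕ) : ℕ := i * m / B

/-- The position of the straight path at the time `t`. -/
def zz (y : ℤ) (m t : ℕ) : ℤ := y * t / m

theorem tt_zero (m B : ℕ) : tt m B 0 = 0 := by
  unfold tt
  simp

theorem tt_top {m B : ℕ} (hB : 1 ≤ B) : tt m B B = m := by
  unfold tt
  exact Nat.mul_div_cancel_left m hB

theorem tt_spec {m B : ℕ} (hB : 1 ≤ B) (i : ℕ) : tt m B i * B ≤ i * m ∧ i * m < (tt m B i + 1) * B := by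
  unfold tt
  refine ⟨Nat.div_mul_le_self _ _, ?_⟩
  have := Nat.lt_mul_div_succ (i * m) (show 0 < B by omega)
  rwa [mul_comm B] at this

theorem tt_mono {m B i : ℕ} : tt m B i ≤ tt m B (i + 1) := by
  unfold tt
  exact Nat.div_le_div_right (Nat.mul_le_mul_right m (Nat.le_succ i))

/-- The length of a piece. -/
theorem ll_spec {m B : ℕ} (hB : 1 ≤ B) (hBm : B ≤ m) (i : ℕ) : 1 ≤ tt m B (i + 1) - tt m B i ∧
    (tt m B (i + 1) - tt m B i) * B < m + B ∧ m < (tt m B (i + 1) - tt m B i + 1) * B := by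
  obtain ⟨h1, h2⟩ := tt_spec (m := m) hB i
  obtain ⟨h3, h4⟩ := tt_spec (m := m) hB (i + 1)
  have hm := tt_mono (m := m) (B := B) (i := i)
  obtain ⟨l, hl⟩ : ∃ l, tt m B (i + 1) = tt m B i + l := ⟨_, (Nat.add_sub_cancel' hm).symm⟩
  rw [hl] at h3 h4 ⊢
  rw [Nat.add_sub_cancel_left]
  have e1 : (i + 1) * m = i * m + m := by ring
  have e2 : (tt m B i + l) * B = tt m B i * B + l * B := by ring
  have e3 : (tt m B i + l + 1) * B = tt m B i * B + l * B + B := by ring
  have e4 : (tt m B i + 1) * B = tt m B i * B + B := by ring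
  have e5 : (l + 1) * B = l * B + B := by ring
  rw [e1, e2] at h3
  rw [e1, e3] at h4
  rw [e4] at h2
  have h5 : m < l * B + B := by omega
  refine ⟨?_, by omega, by rw [e5]; exact h5⟩
  by_contra hcon
  have : l = 0 := by omega
  subst this
  omega

theorem zz_zero (y : ℤ) (m : ℕ) : zz y m 0 = 0 := by
  unfold zz
  simp

theorem zz_top (y : ℤ) {m : ℕ} (hm : 1 ≤ m) : zz y m m = y := by
  unfold zz
  exact Int.mul_ediv_cancel y (by omega)

theorem zz_spec (y : ℤ) {m : ℕ} (hm : 1 ≤ m) (t : ℕ) : zz y m t * m ≤ y * t ∧ y * t < (zz y m t + 1) * m := by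
  unfold zz
  have hm0 : (0 : ℤ) < m := by exact_mod_cast hm
  exact ⟨Int.ediv_mul_le _ hm0.ne', Int.lt_ediv_add_one_mul_self _ hm0⟩

/-- The displacement of a piece. -/
theorem yy_spec {y : ℤ} {m : ℕ} (hm : 1 ≤ m) (h0 : 0 ≤ y) (h1 : y ≤ m) (t l : ℕ) :
    0 ≤ zz y m (t + l) - zz y m t ∧ zz y m (t + l) - zz y m t ≤ l ∧
      |((zz y m (t + l) - zz y m t : ℤ) : ℝ) - (y : ℝ) / m * l| ≤ 1 := by
  obtain ⟨a1, a2⟩ := zz_spec y hm t
  obtain ⟨b1, b2⟩ := zz_spec y hm (t + l)
  have hm0 : (0 : ℤ) < m := by exact_mod_cast hm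
  have hl0 : (0 : ℤ) ≤ l := Int.natCast_nonneg l
  push_cast at b1 b2
  obtain ⟨w, hw⟩ : ∃ w, w = zz y m (t + l) - zz y m t := ⟨_, rfl⟩
  rw [← hw]
  have c1 : w * m < y * l + m := by
    rw [hw]
    linarith
  have c2 : y * l - m < w * m := by
    rw [hw]
    linarith
  have hyl : 0 ≤ y * l := mul_nonneg h0 hl0
  have hyl2 : y * l ≤ m * l := mul_le_mul_of_nonneg_right h1 hl0
  refine ⟨?_, ?_, ?_⟩
  · by_contra hcon
    rw [not_le] at hcon
    have h3 : (w + 1) * m ≤ 0 * m := mul_le_mul_of_nonneg_right (by omega) hm0.le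
    have h4 : (w + 1) * m = w * m + m := by ring
    omega
  · by_contra hcon
    rw [not_le] at hcon
    have h3 : ((l : ℤ) + 1) * m ≤ w * m := mul_le_mul_of_nonneg_right (by omega) hm0.le
    have h4 : ((l : ℤ) + 1) * m = m * l + m := by ring
    omega
  · have hmr : (0 : ℝ) < m := by exact_mod_cast hm
    have d1 : (w : ℝ) * m < y * l + m := by exact_mod_cast c1
    have d2 : (y : ℝ) * l - m < w * m := by exact_mod_cast c2
    have e1 : ((w : ℝ) - (y : ℝ) / m * l) * m = w * m - y * l := by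
      field_simp
    rw [abs_le]
    constructor
    · have : -1 * (m : ℝ) ≤ ((w : ℝ) - (y : ℝ) / m * l) * m := by
        rw [e1]
        linarith
      exact le_of_mul_le_mul_right this hmr
    · have : ((w : ℝ) - (y : ℝ) / m * l) * m ≤ 1 * m := by
        rw [e1]
        linarith
      exact le_of_mul_le_mul_right this hmr

variable {μ : Measure ℝ} {s : ℝ}

/-- The chain. -/
theorem chain_le (η : Env) {y : ℤ} {m B : ℕ} (hm : 1 ≤ m) (h0 : 0 ≤ y) (h1 : y ≤ m) (k : ℕ) :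
    X μ s η 0 (tt m B k) (zz y m (tt m B k)) ≤ ∑ i ∈ Finset.range k,
      max (X μ s η ((tt m B i : ℤ), zz y m (tt m B i)) (tt m B (i + 1) - tt m B i)
        (zz y m (tt m B (i + 1)) - zz y m (tt m B i))) 0 := by
  induction k with
  | zero =>
    rw [tt_zero, zz_zero, Finset.sum_range_zero]
    refine le_of_eq ?_
    unfold X W WR
    simp [Zr]
  | succ k ih =>
    rw [Finset.sum_range_succ]
    have hmo := tt_mono (m := m) (B := B) (i := k)
    obtain ⟨l, hl⟩ : ∃ l, tt m B (k + 1) = tt m B k + l := ⟨_, (Nat.add_sub_cancel' hmo).symm⟩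
    have hz0 : 0 ≤ zz y m (tt m B k) ∧ zz y m (tt m B k) ≤ tt m B k := by
      have := yy_spec hm h0 h1 0 (tt m B k)
      rw [zz_zero, Nat.zero_add, sub_zero] at this
      exact ⟨this.1, this.2.1⟩
    have hy := yy_spec hm h0 h1 (tt m B k) l
    rw [hl, Nat.add_sub_cancel_left]
    have h2 := X_add_le (μ := μ) (s := s) η 0 hz0.1 hz0.2 hy.1 hy.2.1
    have e1 : zz y m (tt m B k) + (zz y m (tt m B k + l) - zz y m (tt m B k)) = zz y m (tt m B k + l) := by ring
    have e2 : ((0 : Pt).1 + (tt m B k : ℤ), (0 : Pt).2 + zz y m (tt m B k)) = ((tt m B k : ℤ), zz y m (tt m B k)) := by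
      simp
    rw [e1, e2] at h2
    exact h2.trans (add_le_add ih (le_max_left _ _))

variable [IsProbabilityMeasure μ] {c C : ℝ} {n₀ : ℕ}

theorem real_X (a : Pt) (l : ℕ) (y : ℤ) (r : ℝ) :
    (law μ).real {η | r ≤ max (X μ s η a l y) 0} = (law μ).real {η | r ≤ max (X μ s η 0 l y) 0} := by
  have hm : MeasurableSet {η : Env | r ≤ max (X μ s η 0 l y) 0} :=
    measurableSet_le measurable_const
      (((Real.measurable_log.comp (measurable_W (μ := μ) (s := s) 0 l y)).neg).max measurable_const)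
  have h := (mp_sh (μ := μ) a).measure_preimage hm.nullMeasurableSet
  have e1 : sh a ⁻¹' {η : Env | r ≤ max (X μ s η 0 l y) 0} = {η | r ≤ max (X μ s η a l y) 0} := by
    ext η
    simp only [Set.mem_preimage, Set.mem_ofPred_eq, X_sh, zero_add]
  rw [e1] at h
  unfold Measure.real
  rw [h]

/-- **(E2) UNLUCKY for every pair of end points.** -/
theorem unlucky_all (h : In μ s c C n₀) : ∃ C₁ A a g : ℝ, 0 < C₁ ∧ 0 < A ∧ 0 < a ∧ 0 < g ∧ g ≤ 1 ∧
    ∀ m : ℕ, 1 ≤ m → ∀ y : ℤ, 0 ≤ y → y ≤ m → ∀ u : ℝ, 0 ≤ u →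
    (law μ).real {η | C₁ * (EE μ s m + m * J μ s (((y : ℝ) - sl μ s * m) / m)) + u * EE μ s m ≤ X μ s η 0 m y} ≤
      A * Real.exp (-(a * u ^ g)) := by
  obtain ⟨A₀, hA₀, hB⟩ := exists_B h
  obtain ⟨A₁, a, g, hA₁, hA₁1, ha, hg, hg1, hU⟩ : ∃ A₁ a g : ℝ, 0 < A₁ ∧ 1 ≤ A₁ ∧ 0 < a ∧ 0 < g ∧ g ≤ 1 ∧
      ∀ n : ℕ, 1 ≤ n → ∀ y : ℤ, 0 ≤ y → y ≤ n → |(y : ℝ) - sl μ s * n| ≤ c / 16 * vA 1 μ s n * n + 1 → ∀ u : ℝ, 0 ≤ u →
      (law μ).real {η | u * EE μ s n ≤ X μ s η 0 n y} ≤ A₁ * Real.exp (-(a * u ^ g)) := by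
    obtain ⟨A₁, a, g, hA₁, ha, hg, hg1, hU⟩ := unlucky_exp h
    exact ⟨max A₁ 1, a, g, lt_max_of_lt_left hA₁, le_max_right _ _, ha, hg, hg1, fun n hn y hy0 hy1 hy u hu =>
      (hU n hn y hy0 hy1 hy u hu).trans (mul_le_mul_of_nonneg_right (le_max_left _ _) (Real.exp_pos _).le)⟩
  obtain ⟨C₁, A', hC₁, hA', hS⟩ := sum_tail hA₁.le ha hg hg1
  have hc0 := h.c0
  refine ⟨C₁ * A₀, A', a / 4 * (1 / (2 * C₁)) ^ g, g, by positivity, hA', by positivity, hg, hg1,
    fun m hm y hy0 hy1 u hu => ?_⟩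
  have hmr : (0 : ℝ) < m := by exact_mod_cast hm
  have hyr0 : (0 : ℝ) ≤ y := by exact_mod_cast hy0
  have hyr1 : (y : ℝ) ≤ m := by exact_mod_cast hy1
  -- the slope
  obtain ⟨v, hv⟩ : ∃ v : ℝ, v = ((y : ℝ) - sl μ s * m) / m := ⟨_, rfl⟩
  obtain ⟨B, hB1, hBm, hBE, hBl⟩ := hB m hm v
  obtain ⟨σ, hσ⟩ : ∃ σ : ℝ, σ = EE μ s (m / B + 1) := ⟨_, rfl⟩
  have hσ1 : 1 ≤ σ := by rw [hσ]; exact one_le_EE _
  have hσ0 : 0 < σ := by linarith
  have hσm : σ ≤ 2 * EE μ s m := by
    rw [hσ]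
    refine (EE_mono ?_).trans (by have := EE_mul h.em s m (k := 2) (by norm_num); simpa using this)
    have : m / B ≤ m := Nat.div_le_self _ _
    omega
  -- the pieces
  obtain ⟨Y, hY⟩ : ∃ Y : ℕ → Env → ℝ, Y = fun i η => max (X μ s η ((tt m B i : ℤ), zz y m (tt m B i))
    (tt m B (i + 1) - tt m B i) (zz y m (tt m B (i + 1)) - zz y m (tt m B i))) 0 := ⟨_, rfl⟩
  have hpiece : ∀ i, 0 ≤ zz y m (tt m B (i + 1)) - zz y m (tt m B i) ∧
      zz y m (tt m B (i + 1)) - zz y m (tt m B i) ≤ ((tt m B (i + 1) - tt m B i : ℕ) : ℤ) ∧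
      |((zz y m (tt m B (i + 1)) - zz y m (tt m B i) : ℤ) : ℝ) - (y : ℝ) / m * ((tt m B (i + 1) - tt m B i : ℕ) : ℝ)| ≤ 1 := by
    intro i
    have hmo := tt_mono (m := m) (B := B) (i := i)
    have := yy_spec hm hy0 hy1 (tt m B i) (tt m B (i + 1) - tt m B i)
    rw [Nat.add_sub_cancel' hmo] at this
    exact this
  have hYS : ∀ i, Sub (Y i) := fun i => by
    rw [hY]
    exact (Sub_X _ (hpiece i).1 (hpiece i).2.1).max (Sub.const 0)
  have hY0 : ∀ i η, 0 ≤ Y i η := fun i η => by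
    rw [hY]
    exact le_max_right _ _
  have hYdep : ∀ i, DependsOn (Y i) (rows (tt m B i) (tt m B (i + 1))) := by
    intro i η η' hη
    rw [hY]
    have hmo := tt_mono (m := m) (B := B) (i := i)
    have h1 : X μ s η ((tt m B i : ℤ), zz y m (tt m B i)) (tt m B (i + 1) - tt m B i)
        (zz y m (tt m B (i + 1)) - zz y m (tt m B i)) =
        X μ s η' ((tt m B i : ℤ), zz y m (tt m B i)) (tt m B (i + 1) - tt m B i)
        (zz y m (tt m B (i + 1)) - zz y m (tt m B i)) := by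
      refine X_dep (μ := μ) (s := s) _ _ _ fun p hp => hη p ⟨hp.1, ?_⟩
      have h2 := hp.2.1
      push_cast [Nat.cast_sub hmo] at h2
      linarith
    show max (X μ s η _ _ _) 0 = max (X μ s η' _ _ _) 0
    rw [h1]
  have hYt : ∀ i < B, ∀ t : ℝ, 0 ≤ t → (law μ).real {η | t ≤ Y i η / σ} ≤ A₁ * Real.exp (-(a * t ^ g)) := by
    intro i hiB t ht
    obtain ⟨l, hl⟩ : ∃ l, l = tt m B (i + 1) - tt m B i := ⟨_, rfl⟩
    obtain ⟨z, hz⟩ : ∃ z, z = zz y m (tt m B (i + 1)) - zz y m (tt m B i) := ⟨_, rfl⟩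
    obtain ⟨hp1, hp2, hp3⟩ := hpiece i
    obtain ⟨hl1, hl2, hl3⟩ := ll_spec hB1 hBm i
    rw [← hl] at hl1 hl2 hl3 hp2 hp3
    rw [← hz] at hp1 hp2 hp3
    have hlr : (0 : ℝ) < l := by exact_mod_cast hl1
    have hcone : |(z : ℝ) - sl μ s * l| ≤ c / 16 * vA 1 μ s l * l + 1 := by
      have hvA := h.vA_nonneg l
      rcases hBl l hl1 hl2 hl3 with h1 | h1
      · have hz0 : (0 : ℝ) ≤ z := by exact_mod_cast hp1
        have hz1 : (z : ℝ) ≤ 1 := by
          have : (z : ℝ) ≤ l := by exact_mod_cast hp2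
          rw [h1] at this
          simpa using this
        have h2 : 0 ≤ c / 16 * vA 1 μ s l * l := by positivity
        have h3 : (l : ℝ) = 1 := by rw [h1]; simp
        have hs0 := h.sl_pos
        have hs1 := h.sl_lt
        rw [abs_le]
        rw [h3] at h2 ⊢
        constructor <;> linarith
      · have h2 : (z : ℝ) - sl μ s * l = ((z : ℝ) - (y : ℝ) / m * l) + v * l := by
          rw [hv]
          field_simp
          ring
        have h3 : |v * l| = |v| * l := by rw [abs_mul, abs_of_pos hlr]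
        rw [h2]
        refine (abs_add_le _ _).trans ?_
        rw [h3]
        have h4 := mul_le_mul_of_nonneg_right h1 hlr.le
        linarith
    have h5 := hU l hl1 z hp1 hp2 hcone t ht
    rcases ht.eq_or_lt with ht0 | ht0
    · rw [← ht0, Real.zero_rpow hg.ne', mul_zero, neg_zero, Real.exp_zero, mul_one]
      exact measureReal_le_one.trans hA₁1
    · have h6 : {η | t ≤ Y i η / σ} ⊆ {η | t * EE μ s l ≤ max (X μ s η ((tt m B i : ℤ), zz y m (tt m B i)) l z) 0} := by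
        intro η hη
        rw [Set.mem_ofPred_eq, le_div_iff₀ hσ0] at hη
        rw [Set.mem_ofPred_eq]
        have h7 : EE μ s l ≤ σ := by
          rw [hσ]
          refine EE_mono ?_
          obtain ⟨l', hl'⟩ : ∃ l', l = l' + 1 := ⟨l - 1, by omega⟩
          have h8 : l' ≤ m / B := by
            rw [Nat.le_div_iff_mul_le (by omega)]
            rw [hl'] at hl2
            have : (l' + 1) * B = l' * B + B := by ring
            omega
          omega
        have h9 : Y i η = max (X μ s η ((tt m B i : ℤ), zz y m (tt m B i)) l z) 0 := by rw [hY, hl, hz]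
        rw [← h9]
        exact (mul_le_mul_of_nonneg_left h7 ht0.le).trans hη
      refine (measureReal_mono h6 (measure_ne_top _ _)).trans ?_
      rw [real_X]
      refine le_trans (measureReal_mono (fun η hη => ?_) (measure_ne_top _ _)) h5
      rw [Set.mem_ofPred_eq] at hη ⊢
      have h10 : 0 < t * EE μ s l := mul_pos ht0 (EE_pos _)
      rcases le_max_iff.1 hη with h11 | h11
      · exact h11
      · linarith
  -- independence
  have hind : ∀ f : ℝ → ℝ, Measurable f → ∫ η, ∏ i ∈ Finset.range B, f (Y i η / σ) ∂(law μ) =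
      ∏ i ∈ Finset.range B, ∫ η, f (Y i η / σ) ∂(law μ) := by
    intro f hf
    refine indep_prod (μ := μ) (Finset.range B) (fun i η => f (Y i η / σ)) (fun i => rows (tt m B i) (tt m B (i + 1)))
      (fun i _ => hf.comp ((hYS i).1.div_const σ)) (fun i _ η η' hη => ?_) (fun i _ j _ hij => ?_)
    · show f (Y i η / σ) = f (Y i η' / σ)
      rw [hYdep i hη]
    · rw [Set.disjoint_left]
      intro p hp hp2
      have hmono : Monotone (tt m B) := monotone_nat_of_le_succ fun i => tt_mono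
      rcases lt_or_gt_of_ne hij with h1 | h1
      · have h2 := hmono (show i + 1 ≤ j by omega)
        have h3 := hp.2
        have h4 := hp2.1
        have h5 : (tt m B (i + 1) : ℤ) ≤ tt m B j := by exact_mod_cast h2
        linarith
      · have h2 := hmono (show j + 1 ≤ i by omega)
        have h3 := hp.1
        have h4 := hp2.2
        have h5 : (tt m B (j + 1) : ℤ) ≤ tt m B i := by exact_mod_cast h2
        linarith
  have hfin := hS (P := law μ) B (fun i η => Y i η / σ) hB1 (fun i _ => (hYS i).1.div_const σ)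
    (fun i _ η => div_nonneg (hY0 i η) hσ0.le) (fun i _ ε => by
      have h1 := ((hYS i).const_mul (ε / σ)).exp_int h.em
      refine h1.congr (Eventually.of_forall fun η => ?_)
      show Real.exp (ε / σ * Y i η) = Real.exp (ε * (Y i η / σ))
      congr 1
      ring) hYt hind (u / (2 * C₁)) (by positivity)
  have hexp : -(a / 4 * (u / (2 * C₁)) ^ g) = -(a / 4 * (1 / (2 * C₁)) ^ g * u ^ g) := by
    have : u / (2 * C₁) = 1 / (2 * C₁) * u := by ring
    rw [this, Real.mul_rpow (by positivity) hu]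
    ring
  rw [hexp] at hfin
  refine le_trans (measureReal_mono (fun η hη => ?_) (measure_ne_top _ _)) hfin
  rw [Set.mem_ofPred_eq, ← hv] at hη
  rw [Set.mem_ofPred_eq, ← Finset.sum_div, le_div_iff₀ hσ0]
  have h1 := chain_le (μ := μ) (s := s) η (B := B) hm hy0 hy1 B
  rw [tt_top hB1, zz_top y hm] at h1
  have h2 : ∑ i ∈ Finset.range B, Y i η = ∑ i ∈ Finset.range B,
      max (X μ s η ((tt m B i : ℤ), zz y m (tt m B i)) (tt m B (i + 1) - tt m B i)
        (zz y m (tt m B (i + 1)) - zz y m (tt m B i))) 0 := by rw [hY]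
  rw [h2]
  refine le_trans ?_ h1
  refine le_trans ?_ hη
  rw [← hσ] at hBE
  have h3 : C₁ * (B * σ) ≤ C₁ * (A₀ * (EE μ s m + m * J μ s v)) := mul_le_mul_of_nonneg_left hBE hC₁.le
  have h4 : C₁ * (u / (2 * C₁)) * σ ≤ u * EE μ s m := by
    have e1 : C₁ * (u / (2 * C₁)) = u / 2 := by field_simp
    rw [e1]
    have := mul_le_mul_of_nonneg_left hσm (by positivity : 0 ≤ u / 2)
    linarith
  have e2 : C₁ * ((B : ℝ) + u / (2 * C₁)) * σ = C₁ * (B * σ) + C₁ * (u / (2 * C₁)) * σ := by ring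
  rw [e2]
  linarith

end Pool.Agent.W_7d29a1_HX.X50
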