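import Pool.Agent.W_7d29a1_HX.X72_Slab
import Pool.Agent.W_7d29a1_HS.Mom

/-!
STORM X, PA: the frequency of the bad slabs along the polymer.
-/

namespace Pool.Agent.W_7d29a1_HX.X72

open MeasureTheory ProbabilityTheory Filter Topology
open Pool.Agent.W_7d29a1_F Pool.Agent.W_7d29a1_h4g Pool.Agent.W_7d29a1_H Pool.Agent.W_7d29a1_HS
open Pool.Agent.W_7d29a1_L (Mh T Bx le_Mh mem_Bx Sub_Mh T_sh exp_T)
open Pool.Agent.W_7d29a1_X50 (Gn Pr Aw)
open scoped ENNReal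

noncomputable section

theorem pow_exp_small (B : ℝ) {κ : ℝ} (hκ : 0 < κ) : ∃ j₀ : ℕ, ∀ j : ℕ, j₀ ≤ j →
    B * (((j : ℝ) + 1) ^ 6 * Real.exp (-(κ * j))) ≤ 1 := by
  obtain ⟨j₀, hj₀⟩ := exists_nat_ge (|B| * (Real.exp κ * (Nat.factorial 7 : ℝ) / κ ^ 7))
  refine ⟨j₀, fun j hj => ?_⟩
  obtain ⟨x, hx⟩ : ∃ x : ℝ, x = (j : ℝ) + 1 := ⟨_, rfl⟩
  have hx0 : 0 < x := by rw [hx]; positivity
  have hjx : (j₀ : ℝ) ≤ x := by
    rw [hx]
    have : (j₀ : ℝ) ≤ j := by exact_mod_cast hj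
    linarith
  have h1 := Real.pow_div_factorial_le_exp (κ * x) (by positivity) 7
  have h2 : Real.exp (-(κ * j)) = Real.exp κ * (Real.exp (κ * x))⁻¹ := by
    rw [← Real.exp_neg, ← Real.exp_add]
    congr 1
    rw [hx]
    ring
  have hF : (0 : ℝ) < (Nat.factorial 7 : ℝ) := by positivity
  have h3 : (Real.exp (κ * x))⁻¹ ≤ (Nat.factorial 7 : ℝ) / (κ * x) ^ 7 := by
    rw [inv_le_comm₀ (Real.exp_pos _) (by positivity), inv_div]
    exact h1
  rw [← hx, h2]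
  have h4 : x ^ 6 * (Real.exp κ * (Real.exp (κ * x))⁻¹) ≤ Real.exp κ * (Nat.factorial 7 : ℝ) / κ ^ 7 / x := by
    calc x ^ 6 * (Real.exp κ * (Real.exp (κ * x))⁻¹) ≤ x ^ 6 * (Real.exp κ * ((Nat.factorial 7 : ℝ) / (κ * x) ^ 7)) := by
          gcongr
      _ = Real.exp κ * (Nat.factorial 7 : ℝ) / κ ^ 7 / x := by
          field_simp
  calc B * (x ^ 6 * (Real.exp κ * (Real.exp (κ * x))⁻¹)) ≤ |B| * (x ^ 6 * (Real.exp κ * (Real.exp (κ * x))⁻¹)) :=
        mul_le_mul_of_nonneg_right (le_abs_self B) (by positivity)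
    _ ≤ |B| * (Real.exp κ * (Nat.factorial 7 : ℝ) / κ ^ 7 / x) := mul_le_mul_of_nonneg_left h4 (abs_nonneg B)
    _ = |B| * (Real.exp κ * (Nat.factorial 7 : ℝ) / κ ^ 7) / x := by ring
    _ ≤ 1 := by
        rw [div_le_one hx0]
        linarith

variable {μ : Measure ℝ} [IsProbabilityMeasure μ] {s c C : ℝ} {n₀ : ℕ}

/-- THE FREQUENCY of the bad slabs. -/
theorem freq (h : In μ s c C n₀) {A c₁ : ℝ} (hA : 0 ≤ A) (hc₁ : 0 < c₁) : ∃ C₃ : ℝ, 0 ≤ C₃ ∧ ∃ n₁ : ℕ, ∀ m, n₁ ≤ m →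
    ∀ (j : ℕ) (b : Env → Pt → ℝ), (∀ a, Measurable fun η => b η a) → (∀ η a, b η a = 0 ∨ b η a = 1) →
      (∀ t x, DependsOn (fun η => b η (t, x)) (rows t (t + m))) →
      (∀ z t, ∫⁻ η, Sc μ s (wd μ s m) z t (fun a => ENNReal.ofReal (b η a)) ∂(law μ) ≤
        ENNReal.ofReal (A * Real.exp (-(c₁ * j)))) →
      ∀ o K l₀ : ℕ, o ≤ m → l₀ ≤ m → 1 ≤ K → ∫ η, CN μ s o m l₀ b K η ∂(law μ) ≤ C₃ * K / ((j : ℝ) + 1) ^ 4 := by
  have hC := h.C1
  have hC0 : 0 < C := by linarith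
  have hc := h.c0
  have hK1 : 1 ≤ KK c C := KK_ge hc hC
  obtain ⟨Q, hQ⟩ : ∃ Q, Q = KK c C := ⟨_, rfl⟩
  have hQ1 : 1 ≤ Q := by rw [hQ]; exact hK1
  have hlQ : 0 ≤ Real.log Q := Real.log_nonneg hQ1
  obtain ⟨nw, hnw⟩ := wd_lower h
  obtain ⟨nt, hnt⟩ := eventually_atTop.1 ((wd_tendsto h).eventually_ge_atTop 1)
  obtain ⟨A4, hA4⟩ := tail_V h 4
  obtain ⟨j1, hj1⟩ := pow_exp_small (Real.exp 1 * Q ^ 2 * Real.sqrt (6 * A)) (κ := c₁ / 2) (by positivity)
  obtain ⟨j2, hj2⟩ := pow_exp_small (Q ^ 3 * Real.sqrt (6 * A)) (κ := c₁ / 4) (by positivity)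
  obtain ⟨j3, hj3⟩ := exists_nat_ge (2 / (C * c₁))
  obtain ⟨j₀, hj₀⟩ : ∃ j₀ : ℕ, j₀ = max (max j1 j2) (max j3 1) := ⟨_, rfl⟩
  obtain ⟨C₃, hC₃⟩ : ∃ C₃ : ℝ, C₃ = max (8 * C * (Real.log Q + 1) + 6)
      (max (|A4| * (4 / (C * c₁)) ^ 4 + 1) (((j₀ : ℝ) + 1) ^ 4)) := ⟨_, rfl⟩
  have hC₃1 : 8 * C * (Real.log Q + 1) + 6 ≤ C₃ := by rw [hC₃]; exact le_max_left _ _
  have hC₃2 : |A4| * (4 / (C * c₁)) ^ 4 + 1 ≤ C₃ := by
    rw [hC₃]
    exact (le_max_left _ _).trans (le_max_right _ _)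
  have hC₃3 : ((j₀ : ℝ) + 1) ^ 4 ≤ C₃ := by
    rw [hC₃]
    exact (le_max_right _ _).trans (le_max_right _ _)
  have hC₃0 : 0 ≤ C₃ := le_trans (by positivity) hC₃3
  refine ⟨C₃, hC₃0, max (max n₀ nw) (max nt 1), fun m hm j b hbm hb hbd hp o K l₀ hs hl hK => ?_⟩
  have hm0 : n₀ ≤ m := le_trans ((le_max_left _ _).trans (le_max_left _ _)) hm
  have hmw : nw ≤ m := le_trans ((le_max_right _ _).trans (le_max_left _ _)) hm
  have hmt : nt ≤ m := le_trans ((le_max_left _ _).trans (le_max_right _ _)) hm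
  have hm1 : 1 ≤ m := le_trans ((le_max_right _ _).trans (le_max_right _ _)) hm
  have hmR : (0 : ℝ) < m := by exact_mod_cast hm1
  have hb0 : ∀ η a, 0 ≤ b η a := fun η a => by rcases hb η a with h | h <;> rw [h]; norm_num
  have hb1 : ∀ η a, b η a ≤ 1 := fun η a => by rcases hb η a with h | h <;> rw [h]; norm_num
  have hKR : (1 : ℝ) ≤ K := by exact_mod_cast hK
  have hx0 : (0 : ℝ) < ((j : ℝ) + 1) ^ 4 := by positivity
  have hGi : ∀ a k, Integrable (fun η => Gb μ s a m k b η) (law μ) := fun a k => by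
    refine Integrable.mono' (integrable_const (1 : ℝ)) (measurable_Gb _ _ _ hbm).aestronglyMeasurable
      (Eventually.of_forall fun η => ?_)
    rw [Real.norm_of_nonneg (Gb_nonneg _ _ _ hb0 η)]
    exact Gb_le_one _ _ _ hb1 η
  have hsum : ∫ η, CN μ s o m l₀ b K η ∂(law μ) = ∑ i ∈ Finset.range K,
      ∫ η, Gb μ s (o + i * m) m ((K - 1 - i) * m + l₀) b η ∂(law μ) := by
    have e1 : (fun η => CN μ s o m l₀ b K η) = fun η => ∑ i ∈ Finset.range K,
        Gb μ s (o + i * m) m ((K - 1 - i) * m + l₀) b η := funext fun η => CN_eq o m l₀ hb0 _ η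
    rw [e1, integral_finsetSum _ fun i _ => hGi _ _]
  have htriv : ∫ η, CN μ s o m l₀ b K η ∂(law μ) ≤ K := by
    rw [hsum]
    calc ∑ i ∈ Finset.range K, ∫ η, Gb μ s (o + i * m) m ((K - 1 - i) * m + l₀) b η ∂(law μ)
        ≤ ∑ _i ∈ Finset.range K, (1 : ℝ) := by
          refine Finset.sum_le_sum fun i _ => ?_
          calc ∫ η, Gb μ s (o + i * m) m ((K - 1 - i) * m + l₀) b η ∂(law μ) ≤ ∫ _, (1 : ℝ) ∂(law μ) :=
                integral_mono (hGi _ _) (integrable_const _) fun η => Gb_le_one _ _ _ hb1 η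
            _ = 1 := by simp
      _ = K := by simp
  -- the first values of `j`
  rcases lt_or_ge j j₀ with hj | hj
  · refine htriv.trans ?_
    rw [le_div_iff₀ hx0]
    have e1 : ((j : ℝ) + 1) ^ 4 ≤ C₃ := by
      refine le_trans ?_ hC₃3
      have : (j : ℝ) ≤ j₀ := by exact_mod_cast hj.le
      gcongr
    calc (K : ℝ) * ((j : ℝ) + 1) ^ 4 ≤ K * C₃ := mul_le_mul_of_nonneg_left e1 (by linarith)
      _ = C₃ * K := mul_comm _ _
  have hjj1 : j1 ≤ j := le_trans (by rw [hj₀]; exact (le_max_left _ _).trans (le_max_left _ _)) hj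
  have hjj2 : j2 ≤ j := le_trans (by rw [hj₀]; exact (le_max_right _ _).trans (le_max_left _ _)) hj
  have hjj3 : j3 ≤ j := le_trans (by rw [hj₀]; exact (le_max_left _ _).trans (le_max_right _ _)) hj
  have hjj4 : 1 ≤ j := le_trans (by rw [hj₀]; exact (le_max_right _ _).trans (le_max_right _ _)) hj
  have hjR : (1 : ℝ) ≤ j := by exact_mod_cast hjj4
  obtain ⟨r, hr⟩ : ∃ r : ℕ, r = (j + 1) ^ 4 := ⟨_, rfl⟩
  have hrR : (r : ℝ) = ((j : ℝ) + 1) ^ 4 := by rw [hr]; push_cast; ring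
  have hr1 : 1 ≤ r := by rw [hr]; exact Nat.one_le_pow _ _ (by omega)
  have hr0 : (0 : ℝ) < r := by exact_mod_cast (show 0 < r by omega)
  obtain ⟨P, hP⟩ : ∃ P : ℝ, P = 6 * r * (A * Real.exp (-(c₁ * j))) := ⟨_, rfl⟩
  have hP0 : 0 ≤ P := by rw [hP]; positivity
  -- the cells of the scale `n ≤ 3 r m`
  have hcell : ∀ n : ℕ, m ≤ n → n ≤ 3 * r * m → ∀ z t,
      ∫⁻ η, Sc μ s (wd μ s n) z t (fun a => ENNReal.ofReal (b η a)) ∂(law μ) ≤ ENNReal.ofReal P := by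
    intro n hn1 hn2 z t
    have e1 := hnw m n hmw hn1
    have e2 : (n : ℝ) ≤ 3 * r * m := by exact_mod_cast hn2
    have e3 : wd μ s n ≤ ((6 * r : ℕ) : ℝ) * wd μ s m := by
      push_cast
      have hwm : 0 < wd μ s m := lt_of_lt_of_le one_pos (hnt m hmt)
      have e4 : m * wd μ s n ≤ m * (6 * r * wd μ s m) := by nlinarith
      exact le_of_mul_le_mul_left e4 hmR
    have e5 := lint_cover (μ := μ) (s := s) (w := wd μ s n) (w' := wd μ s m) (lt_of_lt_of_le one_pos (hnt m hmt)) e3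
      (g := fun η a => ENNReal.ofReal (b η a)) (fun a => (hbm a).ennreal_ofReal) hp z t
    refine e5.trans (le_of_eq ?_)
    rw [hP]
    push_cast
    ring_nf
  have hsq : Real.sqrt P = Real.sqrt (6 * A) * (((j : ℝ) + 1) ^ 2 * Real.exp (-(c₁ / 2 * j))) := by
    rw [hP, hrR]
    have e1 : 6 * ((j : ℝ) + 1) ^ 4 * (A * Real.exp (-(c₁ * j))) =
        6 * A * (((j : ℝ) + 1) ^ 2 * Real.exp (-(c₁ / 2 * j))) ^ 2 := by
      rw [mul_pow, ← Real.exp_nat_mul]
      have : ((2 : ℕ) : ℝ) * -(c₁ / 2 * j) = -(c₁ * j) := by push_cast; ring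
      rw [this]
      ring
    rw [e1, Real.sqrt_mul (by positivity), Real.sqrt_sq (by positivity)]
  rcases le_or_gt r K with hrK | hrK
  · -- many windows
    obtain ⟨n, hn⟩ : ∃ n, n = r * m := ⟨_, rfl⟩
    have hmn : m ≤ n := by rw [hn]; exact Nat.le_mul_of_pos_left m (by omega)
    have hn0 : n₀ ≤ n := hm0.trans hmn
    have hwn : 1 ≤ wd μ s n := hnt n (hmt.trans hmn)
    obtain ⟨q, hq⟩ : ∃ q, q = K / r := ⟨_, rfl⟩
    obtain ⟨k, hk⟩ : ∃ k, k = K % r := ⟨_, rfl⟩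
    have hkr : k ≤ r := by rw [hk]; exact (Nat.mod_lt K (by omega)).le
    have hKq : K = k + q * r := by
      rw [hk, hq]
      have := Nat.mod_add_div K r
      rw [mul_comm (K / r) r]
      omega
    have hpr : ENNReal.ofReal (Real.exp 1 * KK c C ^ 2 * r) * ENNReal.ofReal P ^ (1 / 2 : ℝ) ≤ 1 := by
      rw [ENNReal.ofReal_rpow_of_nonneg hP0 (by norm_num), ← Real.sqrt_eq_rpow, ← ENNReal.ofReal_mul (by positivity),
        ← ENNReal.ofReal_one]
      refine ENNReal.ofReal_le_ofReal ?_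
      have e1 := hj1 j hjj1
      rw [hsq, ← hQ, hrR]
      calc Real.exp 1 * Q ^ 2 * ((j : ℝ) + 1) ^ 4 * (Real.sqrt (6 * A) * (((j : ℝ) + 1) ^ 2 * Real.exp (-(c₁ / 2 * j))))
          = Real.exp 1 * Q ^ 2 * Real.sqrt (6 * A) * (((j : ℝ) + 1) ^ 6 * Real.exp (-(c₁ / 2 * j))) := by ring
        _ ≤ 1 := e1
    have h1 := CN_mean h hn0 hwn (m := m) (p := ENNReal.ofReal P) hbm hb hbd (hcell n hmn (by
        rw [hn]
        nlinarith [Nat.zero_le (r * m)])) hr1 (by rw [hn]; omega) (by omega) hkr q (o := o) (l₀ := l₀) (by omega)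
        (by omega) hpr
    rw [← hKq, ← hQ] at h1
    obtain ⟨N, hN⟩ : ∃ N, N = o + (K * m + l₀) := ⟨_, rfl⟩
    rw [← hN] at h1
    have hnN : n ≤ N := by
      rw [hn, hN]
      have : r * m ≤ K * m := Nat.mul_le_mul_right m hrK
      omega
    have hN3 : N ≤ 3 * (K * m) := by
      rw [hN]
      have : m ≤ K * m := Nat.le_mul_of_pos_left m (by omega)
      omega
    have h2 := scale_b h (m := n) (n := N) (hm1.trans hmn) hnN
    have hnR : (n : ℝ) = r * m := by rw [hn]; push_cast; ring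
    have hNR : (N : ℝ) ≤ 3 * (K * m) := by exact_mod_cast hN3
    have hE : 1 ≤ EE μ s n := one_le_EE n
    have h3 : EE μ s N ≤ EE μ s n * (6 * (K / r)) := by
      have e1 : n * EE μ s N ≤ n * (EE μ s n * (6 * (K / r))) := by
        refine h2.trans ?_
        rw [hnR]
        have e2 : (r : ℝ) * m * (EE μ s n * (6 * (K / r))) = 6 * (K * m) * EE μ s n := by
          field_simp
        rw [e2]
        nlinarith
      exact le_of_mul_le_mul_left e1 (by rw [hnR]; positivity)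
    have h4 : (q : ℝ) ≤ K / r := by
      rw [le_div_iff₀ hr0]
      have : q * r ≤ K := by rw [hKq]; omega
      exact_mod_cast this
    have h5 : (1 : ℝ) ≤ K / r := by
      rw [le_div_iff₀ hr0, one_mul]
      exact_mod_cast hrK
    have h6 : EE μ s n * ∫ η, CN μ s o m l₀ b K η ∂(law μ) ≤
        EE μ s n * ((8 * C * (Real.log Q + 1) + 6) * (K / r)) := by
      refine h1.trans ?_
      have e1 : ((q : ℝ) + 3) * (Real.log Q + 1) ≤ 4 * (K / r) * (Real.log Q + 1) :=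
        mul_le_mul_of_nonneg_right (by linarith) (by linarith)
      have e2 : 2 * C * EE μ s n * (((q : ℝ) + 3) * (Real.log Q + 1)) ≤ 2 * C * EE μ s n * (4 * (K / r) * (Real.log Q + 1)) :=
        mul_le_mul_of_nonneg_left e1 (by positivity)
      nlinarith
    have h7 := le_of_mul_le_mul_left h6 (by linarith)
    refine h7.trans ?_
    rw [hrR, mul_div_assoc]
    refine mul_le_mul_of_nonneg_right hC₃1 (by positivity)
  · -- one window
    obtain ⟨N, hN⟩ : ∃ N, N = o + (K * m + l₀) := ⟨_, rfl⟩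
    have hmN : m ≤ N := by
      rw [hN]
      have : m ≤ K * m := Nat.le_mul_of_pos_left m (by omega)
      omega
    have hN3 : N ≤ 3 * r * m := by
      rw [hN]
      have e1 : m ≤ K * m := Nat.le_mul_of_pos_left m (by omega)
      have e2 : K * m ≤ r * m := Nat.mul_le_mul_right m hrK.le
      have e3 : 3 * r * m = 3 * (r * m) := by ring
      omega
    have hn0 : n₀ ≤ N := hm0.trans hmN
    have hwN : 1 ≤ wd μ s N := hnt N (hmt.trans hmN)
    obtain ⟨T, hT⟩ : ∃ T : ℝ, T = C * c₁ / 2 * j := ⟨_, rfl⟩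
    have hT1 : 1 ≤ T := by
      have e1 : (j3 : ℝ) ≤ j := by exact_mod_cast hjj3
      have e2 : 2 / (C * c₁) ≤ j := hj3.trans e1
      rw [div_le_iff₀ (by positivity)] at e2
      rw [hT]
      linarith
    have h1 : ∀ i ∈ Finset.range K, ∫ η, Gb μ s (o + i * m) m ((K - 1 - i) * m + l₀) b η ∂(law μ) ≤
        C₃ / ((j : ℝ) + 1) ^ 4 := by
      intro i hi
      rw [Finset.mem_range] at hi
      have e0 : o + i * m + m + ((K - 1 - i) * m + l₀) = N := by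
        obtain ⟨d, hd⟩ : ∃ d, K = i + 1 + d := ⟨K - (i + 1), by omega⟩
        have e2 : K - 1 - i = d := by omega
        rw [e2, hN, hd]
        ring
      have e1 := Gb_small h hn0 hwN e0 hP0 hbm hb hbd (hcell N hmN hN3) T
      refine e1.trans ?_
      have e2 : (law μ).real {η | V μ s η 0 N ≤ -(T * EE μ s N)} ≤ |A4| * (4 / (C * c₁)) ^ 4 / ((j : ℝ) + 1) ^ 4 := by
        refine (hA4 N (hm1.trans hmN) T hT1).trans ?_
        have e3 : A4 / T ^ 4 ≤ |A4| / T ^ 4 := div_le_div_of_nonneg_right (le_abs_self _) (by positivity)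
        refine e3.trans ?_
        rw [mul_div_assoc, ← div_pow]
        have e4 : |A4| / T ^ 4 = |A4| * (1 / T) ^ 4 := by rw [one_div, inv_pow]; rfl
        rw [e4]
        refine mul_le_mul_of_nonneg_left (pow_le_pow_left₀ (by positivity) ?_ 4) (abs_nonneg _)
        rw [hT, div_le_div_iff₀ (by positivity) (by positivity)]
        have e5 : 4 / (C * c₁) * (C * c₁ / 2 * j) = 2 * j := by
          field_simp
          ring
        rw [e5]
        linarith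
      have e3 : Real.exp (T / (2 * C)) * (KK c C ^ 3 * Real.sqrt P) ≤ 1 / ((j : ℝ) + 1) ^ 4 := by
        have e4 := hj2 j hjj2
        rw [le_div_iff₀ hx0, hsq, ← hQ]
        have e5 : Real.exp (T / (2 * C)) * Real.exp (-(c₁ / 2 * j)) = Real.exp (-(c₁ / 4 * j)) := by
          rw [← Real.exp_add]
          congr 1
          rw [hT]
          field_simp
          ring
        calc Real.exp (T / (2 * C)) * (Q ^ 3 * (Real.sqrt (6 * A) * (((j : ℝ) + 1) ^ 2 * Real.exp (-(c₁ / 2 * j))))) *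
              ((j : ℝ) + 1) ^ 4
            = Q ^ 3 * Real.sqrt (6 * A) * (((j : ℝ) + 1) ^ 6 * (Real.exp (T / (2 * C)) * Real.exp (-(c₁ / 2 * j)))) := by ring
          _ = Q ^ 3 * Real.sqrt (6 * A) * (((j : ℝ) + 1) ^ 6 * Real.exp (-(c₁ / 4 * j))) := by rw [e5]
          _ ≤ 1 := e4
      calc (law μ).real {η | V μ s η 0 N ≤ -(T * EE μ s N)} + Real.exp (T / (2 * C)) * (KK c C ^ 3 * Real.sqrt P)
          ≤ |A4| * (4 / (C * c₁)) ^ 4 / ((j : ℝ) + 1) ^ 4 + 1 / ((j : ℝ) + 1) ^ 4 := add_le_add e2 e3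
        _ = (|A4| * (4 / (C * c₁)) ^ 4 + 1) / ((j : ℝ) + 1) ^ 4 := by ring
        _ ≤ C₃ / ((j : ℝ) + 1) ^ 4 := div_le_div_of_nonneg_right hC₃2 hx0.le
    rw [hsum]
    refine (Finset.sum_le_sum h1).trans (le_of_eq ?_)
    rw [Finset.sum_const, Finset.card_range, nsmul_eq_mul]
    ring

end

end Pool.Agent.W_7d29a1_HX.X72
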