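import Pool.Agent.W_7d29a1_HX.X72_Rec
import Pool.Agent.W_7d29a1_X50.Jen

/-!
STORM X, PA: the rewards against the Gibbs mean of the number of bad slabs (Jensen along the polymer).
-/

namespace Pool.Agent.W_7d29a1_HX.X72

open MeasureTheory ProbabilityTheory Filter Topology
open Pool.Agent.W_7d29a1_F Pool.Agent.W_7d29a1_h4g Pool.Agent.W_7d29a1_H Pool.Agent.W_7d29a1_HS
open Pool.Agent.W_7d29a1_L (Mh T Bx le_Mh mem_Bx Sub_Mh T_sh exp_T)
open Pool.Agent.W_7d29a1_X50 (Gn Pr Aw)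
open scoped ENNReal

noncomputable section

variable {μ : Measure ℝ} {s : ℝ}

/-! ### Real pieces -/

/-- One piece of the polymer, real values. -/
def PR (μ : Measure ℝ) (s : ℝ) (l : ℕ) (g : Pt → ℝ) (η : Env) (a : Pt) : ℝ :=
  ∑ y ∈ Finset.Icc (0 : ℤ) l, W μ s η a l y * g (a.1 + l, a.2 + y)

theorem PR_zero (g : Pt → ℝ) (η : Env) (a : Pt) : PR μ s 0 g η a = g a := by
  unfold PR
  have h1 : Finset.Icc (0 : ℤ) ((0 : ℕ) : ℤ) = {0} := by simp
  rw [h1, Finset.sum_singleton]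
  have h2 : W μ s η a 0 0 = 1 := by
    unfold W WR
    simp [Zr]
  rw [h2]
  simp

theorem PR_nonneg {l : ℕ} {g : Pt → ℝ} (hg : ∀ b, 0 ≤ g b) (η : Env) (a : Pt) : 0 ≤ PR μ s l g η a :=
  Finset.sum_nonneg fun _ _ => mul_nonneg (W_nonneg _ _ _ _) (hg _)

theorem Pe_ofReal {l : ℕ} {g : Pt → ℝ} (η : Env) (a : Pt) (hg : ∀ b, 0 ≤ g b) :
    Pe μ s l (fun b => ENNReal.ofReal (g b)) η a = ENNReal.ofReal (PR μ s l g η a) := by
  unfold Pe PR
  rw [ENNReal.ofReal_sum_of_nonneg fun y _ => mul_nonneg (W_nonneg _ _ _ _) (hg _)]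
  exact Finset.sum_congr rfl fun y _ => by rw [ENNReal.ofReal_mul (W_nonneg _ _ _ _)]

theorem PR_add {m l : ℕ} {g : Pt → ℝ} (η : Env) (a : Pt) (hg : ∀ b, 0 ≤ g b) :
    PR μ s (m + l) g η a = PR μ s m (PR μ s l g η) η a := by
  have h1 := Pe_add (μ := μ) (s := s) m l (fun b => ENNReal.ofReal (g b)) η a
  have h2 : Pe μ s l (fun b => ENNReal.ofReal (g b)) η = fun b => ENNReal.ofReal (PR μ s l g η b) :=
    funext fun b => Pe_ofReal η b hg
  rw [h2, Pe_ofReal η a hg, Pe_ofReal η a (fun b => PR_nonneg hg η b)] at h1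
  exact (ENNReal.ofReal_eq_ofReal_iff (PR_nonneg hg η a) (PR_nonneg (fun b => PR_nonneg hg η b) η a)).1 h1

theorem PR_add_fun (l : ℕ) (g g' : Pt → ℝ) (η : Env) (a : Pt) :
    PR μ s l (fun b => g b + g' b) η a = PR μ s l g η a + PR μ s l g' η a := by
  unfold PR
  rw [← Finset.sum_add_distrib]
  exact Finset.sum_congr rfl fun y _ => by rw [mul_add]

theorem PR_sum_fun {ι : Type*} (o : Finset ι) (l : ℕ) (g : ι → Pt → ℝ) (η : Env) (a : Pt) :
    PR μ s l (fun b => ∑ i ∈ o, g i b) η a = ∑ i ∈ o, PR μ s l (g i) η a := by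
  unfold PR
  rw [Finset.sum_comm]
  exact Finset.sum_congr rfl fun y _ => by rw [Finset.mul_sum]

theorem PR_mul_fun (l : ℕ) (r : ℝ) (g : Pt → ℝ) (η : Env) (a : Pt) :
    PR μ s l (fun b => r * g b) η a = r * PR μ s l g η a := by
  unfold PR
  rw [Finset.mul_sum]
  exact Finset.sum_congr rfl fun y _ => by ring

theorem PR_le {l : ℕ} {g g' : Pt → ℝ} (η : Env) (a : Pt) (h : ∀ b, g b ≤ g' b) : PR μ s l g η a ≤ PR μ s l g' η a :=
  Finset.sum_le_sum fun _ _ => mul_le_mul_of_nonneg_left (h _) (W_nonneg _ _ _ _)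

theorem PR_V (l k : ℕ) (η : Env) (a : Pt) :
    PR μ s l (fun b => Real.exp (V μ s η b k)) η a = Real.exp (V μ s η a (l + k)) := by
  rw [exp_V_add η a l k]
  rfl

/-- Jensen for one piece, with the Gibbs weights. -/
theorem PR_jensen (l k : ℕ) (N : Pt → ℝ) (η : Env) (a : Pt) :
    Real.exp (V μ s η a (l + k)) *
      Real.exp (PR μ s l (fun b => Real.exp (V μ s η b k) * N b) η a / Real.exp (V μ s η a (l + k))) ≤
      PR μ s l (fun b => Real.exp (V μ s η b k) * Real.exp (N b)) η a := by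
  obtain ⟨Z, hZ⟩ : ∃ Z, Z = Real.exp (V μ s η a (l + k)) := ⟨_, rfl⟩
  have hZ0 : 0 < Z := by rw [hZ]; exact Real.exp_pos _
  have hZs : ∑ y ∈ Finset.Icc (0 : ℤ) l, W μ s η a l y * Real.exp (V μ s η (a.1 + l, a.2 + y) k) / Z = 1 := by
    rw [← Finset.sum_div, ← exp_V_add η a l k, ← hZ, div_self hZ0.ne']
  have h1 := convexOn_exp.map_sum_le (t := Finset.Icc (0 : ℤ) l)
    (w := fun y => W μ s η a l y * Real.exp (V μ s η (a.1 + l, a.2 + y) k) / Z) (p := fun y => N (a.1 + l, a.2 + y))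
    (fun y _ => div_nonneg (mul_nonneg (W_nonneg _ _ _ _) (Real.exp_pos _).le) hZ0.le) hZs (fun y _ => Set.mem_univ _)
  simp only [smul_eq_mul] at h1
  rw [← hZ]
  unfold PR
  have e1 : (∑ y ∈ Finset.Icc (0 : ℤ) l, W μ s η a l y * (Real.exp (V μ s η (a.1 + l, a.2 + y) k) * N (a.1 + l, a.2 + y))) / Z =
      ∑ y ∈ Finset.Icc (0 : ℤ) l, W μ s η a l y * Real.exp (V μ s η (a.1 + l, a.2 + y) k) / Z * N (a.1 + l, a.2 + y) := by
    rw [Finset.sum_div]
    exact Finset.sum_congr rfl fun y _ => by ring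
  rw [e1]
  calc Z * Real.exp (∑ y ∈ Finset.Icc (0 : ℤ) l, W μ s η a l y * Real.exp (V μ s η (a.1 + l, a.2 + y) k) / Z *
        N (a.1 + l, a.2 + y))
      ≤ Z * ∑ y ∈ Finset.Icc (0 : ℤ) l, W μ s η a l y * Real.exp (V μ s η (a.1 + l, a.2 + y) k) / Z *
        Real.exp (N (a.1 + l, a.2 + y)) := mul_le_mul_of_nonneg_left h1 hZ0.le
    _ = _ := by
        rw [Finset.mul_sum]
        refine Finset.sum_congr rfl fun y _ => ?_
        field_simp

/-- The total weight of the bad slabs: `k` slabs of the duration `m`, then `l₀`. -/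
def Mk (μ : Measure ℝ) (s : ℝ) (m l₀ : ℕ) (b : Env → Pt → ℝ) : ℕ → Env → Pt → ℝ
  | 0 => fun _ _ => 0
  | k + 1 => fun η a => b η a * Real.exp (V μ s η a ((k + 1) * m + l₀)) + PR μ s m (Mk μ s m l₀ b k η) η a

theorem Mk_eq (m l₀ : ℕ) {b : Env → Pt → ℝ} (hb : ∀ η a, 0 ≤ b η a) (k : ℕ) (η : Env) (a : Pt) :
    Mk μ s m l₀ b k η a = ∑ i ∈ Finset.range k,
      PR μ s (i * m) (fun p => b η p * Real.exp (V μ s η p ((k - i) * m + l₀))) η a := by
  induction k generalizing a with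
  | zero => rfl
  | succ k ih =>
    have h1 : Mk μ s m l₀ b (k + 1) η a = b η a * Real.exp (V μ s η a ((k + 1) * m + l₀)) +
        PR μ s m (Mk μ s m l₀ b k η) η a := rfl
    have h2 : Mk μ s m l₀ b k η = fun a => ∑ i ∈ Finset.range k,
        PR μ s (i * m) (fun p => b η p * Real.exp (V μ s η p ((k - i) * m + l₀))) η a := funext fun a => ih a
    rw [h1, h2, PR_sum_fun, Finset.sum_range_succ', add_comm]
    congr 1
    · refine Finset.sum_congr rfl fun i _ => ?_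
      rw [← PR_add η a (fun p => mul_nonneg (hb _ _) (Real.exp_pos _).le)]
      have e1 : k + 1 - (i + 1) = k - i := by omega
      rw [e1]
      congr 1
      ring
    · rw [Nat.zero_mul, PR_zero, Nat.sub_zero]

/-- JENSEN along the polymer. -/
theorem Re_ge {m l₀ : ℕ} {b : Env → Pt → ℝ} (hb : ∀ η a, b η a = 0 ∨ b η a = 1) {ρ : ℝ} (hρ : 0 ≤ ρ) (k : ℕ) (η : Env)
    (a : Pt) :
    ENNReal.ofReal (Real.exp (V μ s η a (k * m + l₀)) *
      Real.exp (Real.log (1 + ρ) * Mk μ s m l₀ b k η a / Real.exp (V μ s η a (k * m + l₀)))) ≤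
      Re μ s m (ENNReal.ofReal ρ) (fun η a => ENNReal.ofReal (b η a)) (fun η a => ENNReal.ofReal (Real.exp (V μ s η a l₀)))
        k η a := by
  induction k generalizing a with
  | zero =>
    refine le_of_eq ?_
    show ENNReal.ofReal (Real.exp (V μ s η a (0 * m + l₀)) *
      Real.exp (Real.log (1 + ρ) * 0 / Real.exp (V μ s η a (0 * m + l₀)))) = ENNReal.ofReal (Real.exp (V μ s η a l₀))
    simp
  | succ k ih =>
    obtain ⟨L, hL⟩ : ∃ L, L = Real.log (1 + ρ) := ⟨_, rfl⟩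
    have hL1 : Real.exp L = 1 + ρ := by rw [hL, Real.exp_log (by linarith)]
    rw [← hL] at ih ⊢
    have e0 : (k + 1) * m + l₀ = m + (k * m + l₀) := by ring
    obtain ⟨n, hn⟩ : ∃ n, n = k * m + l₀ := ⟨_, rfl⟩
    have h1 : Re μ s m (ENNReal.ofReal ρ) (fun η a => ENNReal.ofReal (b η a))
        (fun η a => ENNReal.ofReal (Real.exp (V μ s η a l₀))) (k + 1) η a =
        (1 + ENNReal.ofReal ρ * ENNReal.ofReal (b η a)) * Pe μ s m (Re μ s m (ENNReal.ofReal ρ)
          (fun η a => ENNReal.ofReal (b η a)) (fun η a => ENNReal.ofReal (Real.exp (V μ s η a l₀))) k η) η a := rfl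
    have h2 : Mk μ s m l₀ b (k + 1) η a = b η a * Real.exp (V μ s η a ((k + 1) * m + l₀)) +
        PR μ s m (Mk μ s m l₀ b k η) η a := rfl
    rw [h1, h2, e0]
    rw [← hn] at ih ⊢
    have h3 : ENNReal.ofReal (PR μ s m (fun p => Real.exp (V μ s η p n) *
        Real.exp (L * Mk μ s m l₀ b k η p / Real.exp (V μ s η p n))) η a) ≤ Pe μ s m (Re μ s m (ENNReal.ofReal ρ)
          (fun η a => ENNReal.ofReal (b η a)) (fun η a => ENNReal.ofReal (Real.exp (V μ s η a l₀))) k η) η a := by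
      rw [← Pe_ofReal η a (fun p => (mul_pos (Real.exp_pos _) (Real.exp_pos _)).le)]
      unfold Pe
      exact Finset.sum_le_sum fun y _ => mul_le_mul' le_rfl (ih _)
    have h4 := PR_jensen (μ := μ) (s := s) m n (fun p => L * Mk μ s m l₀ b k η p / Real.exp (V μ s η p n)) η a
    have e5 : (fun p => Real.exp (V μ s η p n) * (L * Mk μ s m l₀ b k η p / Real.exp (V μ s η p n))) =
        fun p => L * Mk μ s m l₀ b k η p := by
      funext p
      have := (Real.exp_pos (V μ s η p n)).ne'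
      field_simp
    rw [e5, PR_mul_fun] at h4
    have h6 : (1 + ENNReal.ofReal ρ * ENNReal.ofReal (b η a)) = ENNReal.ofReal (Real.exp (L * b η a)) := by
      rcases hb η a with h | h
      · rw [h]
        simp
      · rw [h, mul_one, hL1, ENNReal.ofReal_one, mul_one, ENNReal.ofReal_add one_pos.le hρ, ENNReal.ofReal_one]
    rw [h6]
    refine le_trans ?_ (mul_le_mul' le_rfl ((ENNReal.ofReal_le_ofReal h4).trans h3))
    rw [← ENNReal.ofReal_mul (Real.exp_pos _).le]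
    refine ENNReal.ofReal_le_ofReal (le_of_eq ?_)
    obtain ⟨Z, hZ⟩ : ∃ Z, Z = Real.exp (V μ s η a (m + n)) := ⟨_, rfl⟩
    have hZ0 : Z ≠ 0 := by rw [hZ]; exact (Real.exp_pos _).ne'
    rw [← hZ]
    have e7 : L * (b η a * Z + PR μ s m (Mk μ s m l₀ b k η) η a) / Z = L * b η a + L * PR μ s m (Mk μ s m l₀ b k η) η a / Z := by
      field_simp
    rw [e7, Real.exp_add]
    ring

end

end Pool.Agent.W_7d29a1_HX.X72
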