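import Pool.Agent.W_7d29a1_L.LsA1
import Pool.Agent.W_7d29a1_F.CoreB2
import Pool.Agent.W_7d29a1_H.HDefs

/-!
STORM X (MP_7d29a1_pr, `d = 1`, power superconcentration), PA: rare boxes along the polymer. Tools in `ℝ≥0∞`:
independence, fractional powers of sums, the maxima over the cells and one piece of the polymer.
-/

namespace Pool.Agent.W_7d29a1_HX.X72

open MeasureTheory ProbabilityTheory Filter Topology
open Pool.Agent.W_7d29a1_F Pool.Agent.W_7d29a1_H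
open Pool.Agent.W_7d29a1_L (Mh T Bx le_Mh mem_Bx Sub_Mh T_sh exp_T)
open scoped ENNReal

noncomputable section

variable {μ : Measure ℝ} [IsProbabilityMeasure μ] {s : ℝ}

/-- Independence for `∫⁻`. -/
theorem lint_indep {f g : Env → ℝ≥0∞} (A : Set Pt) (hf : Measurable f) (hg : Measurable g)
    (hfA : DependsOn f A) (hgA : DependsOn g Aᶜ) :
    ∫⁻ η, f η * g η ∂(law μ) = (∫⁻ η, f η ∂(law μ)) * ∫⁻ η, g η ∂(law μ) := by
  have h1 : MeasurePreserving (fun w : Env × Env => Pool.Agent.W_7d29a1_f21.splice A w.1 w.2)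
      ((law μ).prod (law μ)) (law μ) := Pool.Agent.W_7d29a1_f21.mp_splice (μ := μ) A
  have h2 : ∫⁻ η, f η * g η ∂(law μ) = ∫⁻ w, f w.1 * g w.2 ∂((law μ).prod (law μ)) := by
    rw [← h1.lintegral_comp (f := fun η => f η * g η) (hf.mul hg)]
    refine lintegral_congr fun w => ?_
    have e1 : f (Pool.Agent.W_7d29a1_f21.splice A w.1 w.2) = f w.1 :=
      hfA fun p hp => Pool.Agent.W_7d29a1_f21.splice_mem _ _ hp
    have e2 : g (Pool.Agent.W_7d29a1_f21.splice A w.1 w.2) = g w.2 :=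
      hgA fun p hp => Pool.Agent.W_7d29a1_f21.splice_not_mem _ _ hp
    rw [e1, e2]
  rw [h2, lintegral_prod_mul hf.aemeasurable hg.aemeasurable]

theorem rpow_sum_le {ι : Type*} (o : Finset ι) (f : ι → ℝ≥0∞) {θ : ℝ} (h0 : 0 < θ) (h1 : θ ≤ 1) :
    (∑ i ∈ o, f i) ^ θ ≤ ∑ i ∈ o, f i ^ θ := by
  classical
  induction o using Finset.induction_on with
  | empty => simp [ENNReal.zero_rpow_of_pos h0]
  | insert a o ha ih =>
    rw [Finset.sum_insert ha, Finset.sum_insert ha]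
    exact (ENNReal.rpow_add_le_add_rpow _ _ h0.le h1).trans (add_le_add le_rfl ih)

/-- The invariance of the law for `∫⁻`. -/
theorem lint_sh (a : Pt) {f : Env → ℝ≥0∞} (hf : Measurable f) : ∫⁻ η, f (sh a η) ∂(law μ) = ∫⁻ η, f η ∂(law μ) :=
  (mp_sh (μ := μ) a).lintegral_comp hf

omit [IsProbabilityMeasure μ] in
/-- Cauchy-Schwarz with an indicator. -/
theorem lint_ind {φ : Env → ℝ≥0∞} {f : Env → ℝ≥0∞} (hφ : Measurable φ) (hf : Measurable f) {θ : ℝ}
    (h1 : ∀ η, φ η = 0 ∨ φ η = 1) {p B : ℝ≥0∞} (hp : ∫⁻ η, φ η ∂(law μ) ≤ p)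
    (hB : ∫⁻ η, f η ^ (2 * θ) ∂(law μ) ≤ B) :
    ∫⁻ η, φ η * f η ^ θ ∂(law μ) ≤ p ^ (1 / 2 : ℝ) * B ^ (1 / 2 : ℝ) := by
  have hc : Real.HolderConjugate 2 2 := by
    rw [Real.holderConjugate_iff]
    norm_num
  have h2 := ENNReal.lintegral_mul_le_Lp_mul_Lq (law μ) hc (f := φ) (g := fun η => f η ^ θ) hφ.aemeasurable
    (hf.pow_const θ).aemeasurable
  have e1 : ∀ η, φ η ^ (2 : ℝ) = φ η := fun η => by
    rcases h1 η with h | h
    · rw [h, ENNReal.zero_rpow_of_pos (by norm_num)]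
    · rw [h, ENNReal.one_rpow]
  have e2 : ∀ η, (f η ^ θ) ^ (2 : ℝ) = f η ^ (2 * θ) := fun η => by
    rw [← ENNReal.rpow_mul, mul_comm]
  simp only [e1, e2, Pi.mul_apply] at h2
  refine h2.trans (mul_le_mul' ?_ ?_)
  · exact ENNReal.rpow_le_rpow hp (by norm_num)
  · exact ENNReal.rpow_le_rpow hB (by norm_num)

/-- The sites of the row `t` with the relative positions `(z, z + w]`. -/
def Cl (μ : Measure ℝ) (s w z : ℝ) (t : ℤ) : Finset ℤ :=
  (Finset.Icc ⌊z + sl μ s * t⌋ ⌈z + w + sl μ s * t⌉).filter fun x => z < (x : ℝ) - sl μ s * t ∧ (x : ℝ) - sl μ s * t ≤ z + w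

omit [IsProbabilityMeasure μ] in
theorem mem_Cl {w z : ℝ} {t x : ℤ} : x ∈ Cl μ s w z t ↔ z < (x : ℝ) - sl μ s * t ∧ (x : ℝ) - sl μ s * t ≤ z + w := by
  unfold Cl
  rw [Finset.mem_filter, Finset.mem_Icc]
  constructor
  · exact fun h => h.2
  · rintro ⟨h1, h2⟩
    refine ⟨⟨?_, ?_⟩, h1, h2⟩
    · have h3 : ((⌊z + sl μ s * t⌋ : ℤ) : ℝ) ≤ x := (Int.floor_le _).trans (by linarith)
      exact_mod_cast h3
    · have h3 : (x : ℝ) ≤ ((⌈z + w + sl μ s * t⌉ : ℤ) : ℝ) := le_trans (by linarith) (Int.le_ceil _)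
      exact_mod_cast h3

/-- The largest value of `g` in the cell. -/
def Sc (μ : Measure ℝ) (s w z : ℝ) (t : ℤ) (g : Pt → ℝ≥0∞) : ℝ≥0∞ := (Cl μ s w z t).sup fun x => g (t, x)

/-- One piece of the polymer, of duration `l`, followed by `g`. -/
def Pe (μ : Measure ℝ) (s : ℝ) (l : ℕ) (g : Pt → ℝ≥0∞) (η : Env) (a : Pt) : ℝ≥0∞ :=
  ∑ y ∈ Finset.Icc (0 : ℤ) l, ENNReal.ofReal (W μ s η a l y) * g (a.1 + l, a.2 + y)

/-- The largest weight from a site of the cell to the cell number `j` (time `l`). -/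
def Uj (μ : Measure ℝ) (s : ℝ) (w z : ℝ) (t : ℤ) (l : ℕ) (j : ℤ) (η : Env) : ℝ≥0∞ :=
  (Cl μ s w z t).sup fun x => ∑ y ∈ (Finset.Icc (0 : ℤ) l).filter (fun y => x + y ∈ Cl μ s w (z + j * w) (t + l)),
    ENNReal.ofReal (W μ s η (t, x) l y)

/-- The numbers of the cells which can be reached. -/
def Js (l : ℕ) : Finset ℤ := Finset.Icc (-((l : ℤ) + 2)) ((l : ℤ) + 2)

omit [IsProbabilityMeasure μ] in
theorem exists_cell (hs0 : 0 ≤ sl μ s) (hs1 : sl μ s ≤ 1) {w z : ℝ} (hw : 1 ≤ w) {t x : ℤ} {l : ℕ} {y : ℤ} (hx : x ∈ Cl μ s w z t)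
    (hy : y ∈ Finset.Icc (0 : ℤ) l) : ∃ j ∈ Js l, x + y ∈ Cl μ s w (z + j * w) (t + l) := by
  rw [mem_Cl] at hx
  rw [Finset.mem_Icc] at hy
  have hw0 : 0 < w := by linarith
  have hy0 : (0 : ℝ) ≤ y := by exact_mod_cast hy.1
  have hy1 : (y : ℝ) ≤ l := by exact_mod_cast hy.2
  obtain ⟨r, hr⟩ : ∃ r : ℝ, r = ((x : ℝ) - sl μ s * t - z + (y - sl μ s * l)) / w := ⟨_, rfl⟩
  have hrw : r * w = (x : ℝ) - sl μ s * t - z + (y - sl μ s * l) := by rw [hr]; field_simp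
  have h1 : ((⌈r⌉ : ℤ) : ℝ) < r + 1 := Int.ceil_lt_add_one r
  have h2 : r ≤ ((⌈r⌉ : ℤ) : ℝ) := Int.le_ceil r
  refine ⟨⌈r⌉ - 1, ?_, ?_⟩
  · unfold Js
    rw [Finset.mem_Icc]
    have hl : (0 : ℝ) ≤ l := Nat.cast_nonneg l
    have hsl0 : 0 ≤ sl μ s * l := mul_nonneg hs0 hl
    have hsl1 : sl μ s * l ≤ l := mul_le_of_le_one_left hl hs1
    have h3 : r ≤ l + 1 := by
      rw [hr, div_le_iff₀ hw0]
      nlinarith
    have h4 : -(l : ℝ) ≤ r := by
      rw [hr, le_div_iff₀ hw0]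
      nlinarith
    constructor
    · have h5 : ((-((l : ℤ) + 2) : ℤ) : ℝ) ≤ ((⌈r⌉ - 1 : ℤ) : ℝ) := by
        push_cast
        linarith
      exact_mod_cast h5
    · have h5 : ((⌈r⌉ - 1 : ℤ) : ℝ) ≤ (((l : ℤ) + 2 : ℤ) : ℝ) := by
        push_cast
        linarith
      exact_mod_cast h5
  · rw [mem_Cl]
    push_cast
    constructor
    · nlinarith
    · nlinarith

omit [IsProbabilityMeasure μ] in
/-- One piece: from the cell to the cells. -/
theorem Sc_Pe_le (hs0 : 0 ≤ sl μ s) (hs1 : sl μ s ≤ 1) {w z : ℝ} (hw : 1 ≤ w) (t : ℤ) (l : ℕ) (g : Pt → ℝ≥0∞) (η : Env) :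
    Sc μ s w z t (Pe μ s l g η) ≤ ∑ j ∈ Js l, Uj μ s w z t l j η * Sc μ s w (z + j * w) (t + l) g := by
  unfold Sc
  refine Finset.sup_le fun x hx => ?_
  unfold Pe
  have h1 : ∀ y ∈ Finset.Icc (0 : ℤ) l, ENNReal.ofReal (W μ s η (t, x) l y) * g (t + l, x + y) ≤
      ∑ j ∈ Js l, if x + y ∈ Cl μ s w (z + j * w) (t + l) then
        ENNReal.ofReal (W μ s η (t, x) l y) * (Cl μ s w (z + j * w) (t + l)).sup (fun x => g (t + l, x)) else 0 := by
    intro y hy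
    obtain ⟨j, hj, hc⟩ := exists_cell hs0 hs1 hw hx hy
    refine le_trans ?_ (Finset.single_le_sum (f := fun j : ℤ => if x + y ∈ Cl μ s w (z + j * w) (t + l) then
        ENNReal.ofReal (W μ s η (t, x) l y) * (Cl μ s w (z + j * w) (t + l)).sup (fun x => g (t + l, x)) else 0)
        (fun _ _ => bot_le) hj)
    rw [if_pos hc]
    exact mul_le_mul' le_rfl (Finset.le_sup (f := fun x => g (t + l, x)) hc)
  refine (Finset.sum_le_sum h1).trans ?_
  rw [Finset.sum_comm]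
  refine Finset.sum_le_sum fun j _ => ?_
  rw [← Finset.sum_filter, ← Finset.sum_mul]
  refine mul_le_mul' ?_ le_rfl
  exact Finset.le_sup (f := fun x => ∑ y ∈ (Finset.Icc (0 : ℤ) l).filter (fun y => x + y ∈ Cl μ s w (z + j * w) (t + l)),
    ENNReal.ofReal (W μ s η (t, x) l y)) hx

omit [IsProbabilityMeasure μ] in
/-- The weight to the cell number `j`, by the tilted luck of the box. -/
theorem Uj_le (hs0 : 0 ≤ sl μ s) (hs1 : sl μ s ≤ 1) {w z hh : ℝ} (hh0 : 0 ≤ hh) (t : ℤ) {l N : ℕ} (hl : l ≤ N) (j : ℤ) (η : Env) :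
    Uj μ s w z t l j η ≤ ENNReal.ofReal (Real.exp
      (Mh μ s (sl μ s) (if 0 ≤ j then hh else -hh) w (z + sl μ s * t) N (sh (t, 0) η) - hh * ((|(j : ℝ)| - 1) * w))) := by
  unfold Uj
  refine Finset.sup_le fun x hx => ?_
  rw [← ENNReal.ofReal_sum_of_nonneg fun y _ => W_nonneg _ _ _ _]
  refine ENNReal.ofReal_le_ofReal ?_
  obtain ⟨τ, hτ⟩ : ∃ τ : ℝ, τ = if 0 ≤ j then hh else -hh := ⟨_, rfl⟩
  rw [← hτ]
  have hx' := mem_Cl.1 hx
  have h1 : T μ s (sl μ s) τ η (t, x) l ≤ Mh μ s (sl μ s) τ w (z + sl μ s * t) N (sh (t, 0) η) := by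
    have h2 := le_Mh (μ := μ) (s := s) (v := sl μ s) (h := τ) (w := w) (z := z + sl μ s * t) (n := N) (sh (t, 0) η)
      (q := ((0, x), l)) ((mem_Bx hs0 hs1).2 ⟨by dsimp only; omega, by
        push_cast
        linarith [hx'.1], by
        push_cast
        linarith [hx'.2]⟩)
    rw [T_sh] at h2
    simpa using h2
  rw [sub_eq_add_neg, Real.exp_add]
  calc ∑ y ∈ (Finset.Icc (0 : ℤ) l).filter (fun y => x + y ∈ Cl μ s w (z + j * w) (t + l)), W μ s η (t, x) l y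
      ≤ ∑ y ∈ (Finset.Icc (0 : ℤ) l).filter (fun y => x + y ∈ Cl μ s w (z + j * w) (t + l)),
        (W μ s η (t, x) l y * Real.exp (τ * ((y : ℝ) - sl μ s * l))) * Real.exp (-(hh * ((|(j : ℝ)| - 1) * w))) := by
        refine Finset.sum_le_sum fun y hy => ?_
        rw [mul_assoc, ← Real.exp_add]
        refine le_mul_of_one_le_right (W_nonneg _ _ _ _) (Real.one_le_exp ?_)
        have hy' := mem_Cl.1 (Finset.mem_filter.1 hy).2
        push_cast at hy'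
        rw [hτ]
        split_ifs with hj
        · have hj' : (0 : ℝ) ≤ j := by exact_mod_cast hj
          rw [abs_of_nonneg hj']
          have h3 : ((j : ℝ) - 1) * w ≤ y - sl μ s * l := by linarith [hy'.1, hx'.2]
          nlinarith [mul_le_mul_of_nonneg_left h3 hh0]
        · have hj' : (j : ℝ) < 0 := by exact_mod_cast (not_le.1 hj)
          rw [abs_of_neg hj']
          have h3 : (-(j : ℝ) - 1) * w ≤ -(y - sl μ s * l) := by linarith [hy'.2, hx'.1]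
          nlinarith [mul_le_mul_of_nonneg_left h3 hh0]
    _ ≤ Real.exp (T μ s (sl μ s) τ η (t, x) l) * Real.exp (-(hh * ((|(j : ℝ)| - 1) * w))) := by
        rw [← Finset.sum_mul]
        refine mul_le_mul_of_nonneg_right ?_ (Real.exp_nonneg _)
        rw [exp_T]
        exact Finset.sum_le_sum_of_subset_of_nonneg (Finset.filter_subset _ _)
          (fun y _ _ => mul_nonneg (W_nonneg _ _ _ _) (Real.exp_nonneg _))
    _ ≤ _ := mul_le_mul_of_nonneg_right (Real.exp_le_exp.2 h1) (Real.exp_nonneg _)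

end

end Pool.Agent.W_7d29a1_HX.X72
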