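import Pool.Agent.W_7d29a1_HX.X72_Freq

/-!
STORM X, THEOREM (PA): functionals of the slabs, read at the place of the polymer, have second moments of the order of
the square of the unit, in the mean over the slabs.
-/

namespace Pool.Agent.W_7d29a1_HX.X72

open MeasureTheory ProbabilityTheory Filter Topology
open Pool.Agent.W_7d29a1_F Pool.Agent.W_7d29a1_h4g Pool.Agent.W_7d29a1_H Pool.Agent.W_7d29a1_HS
open Pool.Agent.W_7d29a1_L (Mh T Bx le_Mh mem_Bx Sub_Mh T_sh exp_T)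
open Pool.Agent.W_7d29a1_X50 (Gn Pr Aw)
open scoped ENNReal

noncomputable section

/-- The series of the layers. -/
def SS : ℝ := ∑' j : ℕ, (2 * (j : ℝ) + 1) / ((j : ℝ) + 1) ^ 4

theorem SS_summable : Summable fun j : ℕ => (2 * (j : ℝ) + 1) / ((j : ℝ) + 1) ^ 4 := by
  have h1 : Summable fun j : ℕ => 2 * (1 / (((j + 1 : ℕ) : ℝ)) ^ 2) :=
    (((summable_nat_add_iff 1).2 (Real.summable_one_div_nat_pow.2 one_lt_two))).mul_left 2
  refine Summable.of_nonneg_of_le (fun j => by positivity) (fun j => ?_) h1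
  have hx : (1 : ℝ) ≤ (j : ℝ) + 1 := by
    have := Nat.cast_nonneg (α := ℝ) j
    linarith
  push_cast
  rw [← mul_div_assoc, div_le_div_iff₀ (by positivity) (by positivity)]
  have h2 : (2 * (j : ℝ) + 1) ≤ 2 * ((j : ℝ) + 1) ^ 2 := by nlinarith
  calc (2 * (j : ℝ) + 1) * ((j : ℝ) + 1) ^ 2 ≤ 2 * ((j : ℝ) + 1) ^ 2 * ((j : ℝ) + 1) ^ 2 :=
        mul_le_mul_of_nonneg_right h2 (by positivity)
    _ = 2 * 1 * ((j : ℝ) + 1) ^ 4 := by ring

theorem SS_nonneg : 0 ≤ SS := tsum_nonneg fun j => by positivity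

/-- The layers of a square. -/
theorem layer {E x : ℝ} (hE : 0 < E) (hx : 0 ≤ x) : ENNReal.ofReal (x ^ 2) ≤
    ∑' j : ℕ, ENNReal.ofReal (E ^ 2 * (2 * (j : ℝ) + 1)) * ENNReal.ofReal (if (j : ℝ) * E < x then 1 else 0) := by
  obtain ⟨J, hJ⟩ : ∃ J, J = ⌈x / E⌉₊ := ⟨_, rfl⟩
  have h1 : x / E ≤ J := by rw [hJ]; exact Nat.le_ceil _
  have h2 : ∀ J : ℕ, ∑ j ∈ Finset.range J, (2 * (j : ℝ) + 1) = (J : ℝ) ^ 2 := by
    intro J
    induction J with
    | zero => simp
    | succ J ih =>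
      rw [Finset.sum_range_succ, ih]
      push_cast
      ring
  have h3 : x ^ 2 ≤ E ^ 2 * (J : ℝ) ^ 2 := by
    rw [div_le_iff₀ hE] at h1
    rw [← mul_pow]
    exact pow_le_pow_left₀ hx (by linarith) 2
  calc ENNReal.ofReal (x ^ 2) ≤ ENNReal.ofReal (∑ j ∈ Finset.range J, E ^ 2 * (2 * (j : ℝ) + 1)) := by
        refine ENNReal.ofReal_le_ofReal ?_
        rw [← Finset.mul_sum, h2]
        exact h3
    _ = ∑ j ∈ Finset.range J, ENNReal.ofReal (E ^ 2 * (2 * (j : ℝ) + 1)) :=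
        ENNReal.ofReal_sum_of_nonneg fun j _ => by positivity
    _ = ∑ j ∈ Finset.range J, ENNReal.ofReal (E ^ 2 * (2 * (j : ℝ) + 1)) *
          ENNReal.ofReal (if (j : ℝ) * E < x then 1 else 0) := by
        refine Finset.sum_congr rfl fun j hj => ?_
        rw [Finset.mem_range, hJ, Nat.lt_ceil, lt_div_iff₀ hE] at hj
        rw [if_pos hj, ENNReal.ofReal_one, mul_one]
    _ ≤ _ := ENNReal.sum_le_tsum _

variable {μ : Measure ℝ} {s : ℝ}

theorem Gb_layer (a m k : ℕ) {La : Env → Pt → ℝ} (h0 : ∀ η a, 0 ≤ La η a) {E : ℝ} (hE : 0 < E) (η : Env) :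
    ENNReal.ofReal (Gb μ s a m k (fun η a => La η a ^ 2) η) ≤ ∑' j : ℕ, ENNReal.ofReal (E ^ 2 * (2 * (j : ℝ) + 1)) *
      ENNReal.ofReal (Gb μ s a m k (fun η a => if (j : ℝ) * E < La η a then 1 else 0) η) := by
  have hG : ∀ q, 0 ≤ Gn μ s η a m k q := fun q => Pool.Agent.W_7d29a1_X50.Gn_nonneg η a m k q
  have h01 : ∀ (j : ℕ) (a : Pt), (0 : ℝ) ≤ if (j : ℝ) * E < La η a then 1 else 0 := fun j a => by
    split_ifs
    · exact zero_le_one
    · exact le_rfl
  have h1 : ENNReal.ofReal (Gb μ s a m k (fun η a => La η a ^ 2) η) =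
      ∑ q ∈ Pr a m, ENNReal.ofReal (Gn μ s η a m k q) * ENNReal.ofReal (La η ((a : ℤ), q.1) ^ 2) := by
    unfold Gb
    rw [ENNReal.ofReal_sum_of_nonneg fun q _ => mul_nonneg (hG q) (sq_nonneg _)]
    exact Finset.sum_congr rfl fun q _ => by rw [ENNReal.ofReal_mul (hG q)]
  have h2 : ∀ j : ℕ, ENNReal.ofReal (Gb μ s a m k (fun η a => if (j : ℝ) * E < La η a then 1 else 0) η) =
      ∑ q ∈ Pr a m, ENNReal.ofReal (Gn μ s η a m k q) *
        ENNReal.ofReal (if (j : ℝ) * E < La η ((a : ℤ), q.1) then 1 else 0) := by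
    intro j
    unfold Gb
    rw [ENNReal.ofReal_sum_of_nonneg fun q _ => mul_nonneg (hG q) (h01 j _)]
    exact Finset.sum_congr rfl fun q _ => by rw [ENNReal.ofReal_mul (hG q)]
  rw [h1]
  calc ∑ q ∈ Pr a m, ENNReal.ofReal (Gn μ s η a m k q) * ENNReal.ofReal (La η ((a : ℤ), q.1) ^ 2)
      ≤ ∑ q ∈ Pr a m, ENNReal.ofReal (Gn μ s η a m k q) * ∑' j : ℕ, ENNReal.ofReal (E ^ 2 * (2 * (j : ℝ) + 1)) *
          ENNReal.ofReal (if (j : ℝ) * E < La η ((a : ℤ), q.1) then 1 else 0) :=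
        Finset.sum_le_sum fun q _ => mul_le_mul' le_rfl (layer hE (h0 _ _))
    _ = ∑ q ∈ Pr a m, ∑' j : ℕ, ENNReal.ofReal (Gn μ s η a m k q) * (ENNReal.ofReal (E ^ 2 * (2 * (j : ℝ) + 1)) *
          ENNReal.ofReal (if (j : ℝ) * E < La η ((a : ℤ), q.1) then 1 else 0)) :=
        Finset.sum_congr rfl fun q _ => by rw [ENNReal.tsum_mul_left]
    _ = ∑' j : ℕ, ∑ q ∈ Pr a m, ENNReal.ofReal (Gn μ s η a m k q) * (ENNReal.ofReal (E ^ 2 * (2 * (j : ℝ) + 1)) *
          ENNReal.ofReal (if (j : ℝ) * E < La η ((a : ℤ), q.1) then 1 else 0)) :=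
        (Summable.tsum_finsetSum fun _ _ => ENNReal.summable).symm
    _ = _ := by
        refine tsum_congr fun j => ?_
        rw [h2 j, Finset.mul_sum]
        exact Finset.sum_congr rfl fun q _ => by ring

variable [IsProbabilityMeasure μ] {c C : ℝ} {n₀ : ℕ}

/-- THEOREM (PA). `La` is a functional of the slabs of the duration `m`, read at the sites of the lower row; the tails of
its maxima over the cells of the width `wd m` are exponential in the unit `EE m`. For `K` consecutive slabs (offset `o`,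
rest `l₀`) the sum of the second moments at the place of the polymer is at most `C' K (EE m)²`. -/
theorem PA (h : In μ s c C n₀) {A c₁ : ℝ} (hA : 0 ≤ A) (hc₁ : 0 < c₁) : ∃ C' : ℝ, 0 ≤ C' ∧ ∃ n₁ : ℕ, ∀ m, n₁ ≤ m →
    ∀ La : Env → Pt → ℝ, (∀ a, Measurable fun η => La η a) → (∀ η a, 0 ≤ La η a) →
      (∀ t x, DependsOn (fun η => La η (t, x)) (rows t (t + m))) →
      (∀ (z : ℝ) (t : ℤ) (j : ℕ), (law μ).real {η | ∃ x ∈ Cl μ s (wd μ s m) z t, j * EE μ s m < La η (t, x)} ≤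
        A * Real.exp (-(c₁ * j))) →
      ∀ o K l₀ : ℕ, o ≤ m → l₀ ≤ m →
        (∀ i < K, Integrable (fun η => Gb μ s (o + i * m) m ((K - 1 - i) * m + l₀) (fun η a => La η a ^ 2) η) (law μ)) ∧
        ∑ i ∈ Finset.range K, ∫ η, Gb μ s (o + i * m) m ((K - 1 - i) * m + l₀) (fun η a => La η a ^ 2) η ∂(law μ) ≤
          C' * K * EE μ s m ^ 2 := by
  obtain ⟨C₃, hC₃, n₁, hf⟩ := freq h hA hc₁
  have hS := SS_nonneg
  refine ⟨C₃ * SS, by positivity, n₁, fun m hm La hLm hL0 hLd hLt o K l₀ hs hl => ?_⟩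
  have hE : 1 ≤ EE μ s m := one_le_EE m
  have hE0 : 0 < EE μ s m := by linarith
  rcases Nat.eq_zero_or_pos K with hK | hK
  · subst hK
    refine ⟨fun i hi => absurd hi (Nat.not_lt_zero i), ?_⟩
    simp
  obtain ⟨b, hb⟩ : ∃ b : ℕ → Env → Pt → ℝ, b = fun (j : ℕ) η a => if (j : ℝ) * EE μ s m < La η a then 1 else 0 := ⟨_, rfl⟩
  have hbm : ∀ j a, Measurable fun η => b j η a := fun j a => by
    rw [hb]
    exact Measurable.ite (measurableSet_lt measurable_const (hLm a)) measurable_const measurable_const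
  have hb01 : ∀ j η a, b j η a = 0 ∨ b j η a = 1 := fun j η a => by
    rw [hb]
    dsimp only
    split_ifs
    · exact Or.inr rfl
    · exact Or.inl rfl
  have hb0 : ∀ j η a, 0 ≤ b j η a := fun j η a => by rcases hb01 j η a with h | h <;> rw [h]; norm_num
  have hb1 : ∀ j η a, b j η a ≤ 1 := fun j η a => by rcases hb01 j η a with h | h <;> rw [h]; norm_num
  have hbd : ∀ j t x, DependsOn (fun η => b j η (t, x)) (rows t (t + m)) := fun j t x η η' hη => by
    have e1 := hLd t x hη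
    simp only at e1
    rw [hb]
    dsimp only
    rw [e1]
  have hbp : ∀ (j : ℕ) z t, ∫⁻ η, Sc μ s (wd μ s m) z t (fun a => ENNReal.ofReal (b j η a)) ∂(law μ) ≤
      ENNReal.ofReal (A * Real.exp (-(c₁ * j))) := by
    intro j z t
    obtain ⟨D, hD⟩ : ∃ D : Set Env, D = {η | ∃ x ∈ Cl μ s (wd μ s m) z t, j * EE μ s m < La η (t, x)} := ⟨_, rfl⟩
    have hDm : MeasurableSet D := by
      have e1 : D = ⋃ x ∈ Cl μ s (wd μ s m) z t, {η | j * EE μ s m < La η (t, x)} := by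
        rw [hD]
        ext η
        simp
      rw [e1]
      exact Finset.measurableSet_biUnion _ fun x _ => measurableSet_lt measurable_const (hLm _)
    have e1 : ∀ η, Sc μ s (wd μ s m) z t (fun a => ENNReal.ofReal (b j η a)) ≤ D.indicator 1 η := by
      intro η
      unfold Sc
      refine Finset.sup_le fun x hx => ?_
      by_cases hη : η ∈ D
      · rw [Set.indicator_of_mem hη, Pi.one_apply, ← ENNReal.ofReal_one]
        exact ENNReal.ofReal_le_ofReal (hb1 _ _ _)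
      · have e2 : b j η (t, x) = 0 := by
          rw [hb]
          dsimp only
          rw [if_neg]
          intro e3
          refine hη ?_
          rw [hD]
          exact ⟨x, hx, e3⟩
        show ENNReal.ofReal (b j η (t, x)) ≤ _
        rw [e2, ENNReal.ofReal_zero]
        exact zero_le
    refine (lintegral_mono e1).trans ?_
    rw [lintegral_indicator_one hDm, ← ofReal_measureReal (measure_ne_top _ _)]
    refine ENNReal.ofReal_le_ofReal ?_
    rw [hD]
    exact hLt z t j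
  have hGi : ∀ j a k, Integrable (fun η => Gb μ s a m k (b j) η) (law μ) := fun j a k => by
    refine Integrable.mono' (integrable_const (1 : ℝ)) (measurable_Gb _ _ _ (hbm j)).aestronglyMeasurable
      (Eventually.of_forall fun η => ?_)
    rw [Real.norm_of_nonneg (Gb_nonneg _ _ _ (hb0 j) η)]
    exact Gb_le_one _ _ _ (hb1 j) η
  have hsum : ∀ j, ∑ i ∈ Finset.range K, ∫⁻ η, ENNReal.ofReal (Gb μ s (o + i * m) m ((K - 1 - i) * m + l₀) (b j) η) ∂(law μ) =
      ENNReal.ofReal (∫ η, CN μ s o m l₀ (b j) K η ∂(law μ)) := by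
    intro j
    have e1 : (fun η => CN μ s o m l₀ (b j) K η) = fun η => ∑ i ∈ Finset.range K,
        Gb μ s (o + i * m) m ((K - 1 - i) * m + l₀) (b j) η := funext fun η => CN_eq o m l₀ (hb0 j) _ η
    rw [e1, integral_finsetSum _ fun i _ => hGi _ _ _,
      ENNReal.ofReal_sum_of_nonneg fun i _ => integral_nonneg fun η => Gb_nonneg _ _ _ (hb0 j) η]
    refine Finset.sum_congr rfl fun i _ => ?_
    rw [ofReal_integral_eq_lintegral_ofReal (hGi _ _ _) (Eventually.of_forall fun η => Gb_nonneg _ _ _ (hb0 j) η)]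
  have hmain : ∑ i ∈ Finset.range K, ∫⁻ η, ENNReal.ofReal (Gb μ s (o + i * m) m ((K - 1 - i) * m + l₀)
      (fun η a => La η a ^ 2) η) ∂(law μ) ≤ ENNReal.ofReal (C₃ * SS * K * EE μ s m ^ 2) := by
    have h1 : ∀ a k, ∫⁻ η, ENNReal.ofReal (Gb μ s a m k (fun η a => La η a ^ 2) η) ∂(law μ) ≤
        ∑' j : ℕ, ENNReal.ofReal (EE μ s m ^ 2 * (2 * (j : ℝ) + 1)) *
          ∫⁻ η, ENNReal.ofReal (Gb μ s a m k (b j) η) ∂(law μ) := by
      intro a k
      refine (lintegral_mono fun η => Gb_layer a m k hL0 hE0 η).trans (le_of_eq ?_)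
      rw [lintegral_tsum fun j => ((measurable_Gb a m k (by have := hbm j; rw [hb] at this; exact this)).ennreal_ofReal.const_mul
        _).aemeasurable]
      refine tsum_congr fun j => ?_
      rw [lintegral_const_mul _ (measurable_Gb a m k (by have := hbm j; rw [hb] at this; exact this)).ennreal_ofReal, hb]
    calc ∑ i ∈ Finset.range K, ∫⁻ η, ENNReal.ofReal (Gb μ s (o + i * m) m ((K - 1 - i) * m + l₀)
          (fun η a => La η a ^ 2) η) ∂(law μ)
        ≤ ∑ i ∈ Finset.range K, ∑' j : ℕ, ENNReal.ofReal (EE μ s m ^ 2 * (2 * (j : ℝ) + 1)) *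
          ∫⁻ η, ENNReal.ofReal (Gb μ s (o + i * m) m ((K - 1 - i) * m + l₀) (b j) η) ∂(law μ) :=
          Finset.sum_le_sum fun i _ => h1 _ _
      _ = ∑' j : ℕ, ∑ i ∈ Finset.range K, ENNReal.ofReal (EE μ s m ^ 2 * (2 * (j : ℝ) + 1)) *
          ∫⁻ η, ENNReal.ofReal (Gb μ s (o + i * m) m ((K - 1 - i) * m + l₀) (b j) η) ∂(law μ) :=
          (Summable.tsum_finsetSum fun _ _ => ENNReal.summable).symm
      _ = ∑' j : ℕ, ENNReal.ofReal (EE μ s m ^ 2 * (2 * (j : ℝ) + 1)) *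
          ENNReal.ofReal (∫ η, CN μ s o m l₀ (b j) K η ∂(law μ)) := by
          refine tsum_congr fun j => ?_
          rw [← Finset.mul_sum, hsum j]
      _ ≤ ∑' j : ℕ, ENNReal.ofReal (C₃ * K * EE μ s m ^ 2 * ((2 * (j : ℝ) + 1) / ((j : ℝ) + 1) ^ 4)) := by
          refine ENNReal.tsum_le_tsum fun j => ?_
          rw [← ENNReal.ofReal_mul (by positivity)]
          refine ENNReal.ofReal_le_ofReal ?_
          have e1 := hf m hm j (b j) (hbm j) (hb01 j) (hbd j) (hbp j) o K l₀ hs hl hK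
          calc EE μ s m ^ 2 * (2 * (j : ℝ) + 1) * ∫ η, CN μ s o m l₀ (b j) K η ∂(law μ)
              ≤ EE μ s m ^ 2 * (2 * (j : ℝ) + 1) * (C₃ * K / ((j : ℝ) + 1) ^ 4) :=
                mul_le_mul_of_nonneg_left e1 (by positivity)
            _ = C₃ * K * EE μ s m ^ 2 * ((2 * (j : ℝ) + 1) / ((j : ℝ) + 1) ^ 4) := by ring
      _ = ENNReal.ofReal (∑' j : ℕ, C₃ * K * EE μ s m ^ 2 * ((2 * (j : ℝ) + 1) / ((j : ℝ) + 1) ^ 4)) :=
          (ENNReal.ofReal_tsum_of_nonneg (fun j => by positivity) (SS_summable.mul_left _)).symm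
      _ = ENNReal.ofReal (C₃ * SS * K * EE μ s m ^ 2) := by
          rw [tsum_mul_left]
          congr 1
          unfold SS
          ring
  have hG0 : ∀ a k η, 0 ≤ Gb μ s a m k (fun η a => La η a ^ 2) η := fun a k η =>
    Gb_nonneg _ _ _ (fun η a => sq_nonneg _) η
  have hGm : ∀ a k, Measurable fun η => Gb μ s a m k (fun η a => La η a ^ 2) η := fun a k =>
    measurable_Gb _ _ _ fun a => (hLm a).pow_const 2
  have hint : ∀ i < K, Integrable (fun η => Gb μ s (o + i * m) m ((K - 1 - i) * m + l₀) (fun η a => La η a ^ 2) η)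
      (law μ) := by
    intro i hi
    refine ⟨(hGm _ _).aestronglyMeasurable, ?_⟩
    rw [hasFiniteIntegral_iff_ofReal (Eventually.of_forall fun η => hG0 _ _ η)]
    refine lt_of_le_of_lt ?_ (lt_of_le_of_lt hmain ENNReal.ofReal_lt_top)
    exact Finset.single_le_sum (f := fun i => ∫⁻ η, ENNReal.ofReal (Gb μ s (o + i * m) m ((K - 1 - i) * m + l₀)
      (fun η a => La η a ^ 2) η) ∂(law μ)) (fun _ _ => zero_le) (Finset.mem_range.2 hi)
  refine ⟨hint, ?_⟩
  have h3 : ENNReal.ofReal (∑ i ∈ Finset.range K, ∫ η, Gb μ s (o + i * m) m ((K - 1 - i) * m + l₀)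
      (fun η a => La η a ^ 2) η ∂(law μ)) ≤ ENNReal.ofReal (C₃ * SS * K * EE μ s m ^ 2) := by
    rw [ENNReal.ofReal_sum_of_nonneg fun i _ => integral_nonneg fun η => hG0 _ _ η]
    refine le_trans (le_of_eq ?_) hmain
    refine Finset.sum_congr rfl fun i hi => ?_
    rw [ofReal_integral_eq_lintegral_ofReal (hint i (Finset.mem_range.1 hi)) (Eventually.of_forall fun η => hG0 _ _ η)]
  exact (ENNReal.ofReal_le_ofReal_iff (by positivity)).1 h3

end

end Pool.Agent.W_7d29a1_HX.X72
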