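import Pool.Agent.W_7d29a1_HX.X72_Step

/-!
STORM X, PA: the polymer with rewards `1 + ρ` for the bad slabs, in moments of the order `θ`.
-/

namespace Pool.Agent.W_7d29a1_HX.X72

open MeasureTheory ProbabilityTheory Filter Topology
open Pool.Agent.W_7d29a1_F Pool.Agent.W_7d29a1_h4g Pool.Agent.W_7d29a1_H Pool.Agent.W_7d29a1_HS
open Pool.Agent.W_7d29a1_L (Mh T Bx le_Mh mem_Bx Sub_Mh T_sh exp_T)
open scoped ENNReal

noncomputable section

variable {μ : Measure ℝ} {s : ℝ}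

/-! ### Algebra of the pieces -/

theorem Pe_zero (g : Pt → ℝ≥0∞) (η : Env) (a : Pt) : Pe μ s 0 g η a = g a := by
  unfold Pe
  have h1 : Finset.Icc (0 : ℤ) ((0 : ℕ) : ℤ) = {0} := by simp
  rw [h1, Finset.sum_singleton]
  have h2 : W μ s η a 0 0 = 1 := by
    unfold W WR
    simp [Zr]
  rw [h2]
  simp

private theorem sum_shift {M l : ℕ} {k : ℤ} (hk0 : 0 ≤ k) (hk1 : k + l ≤ M) {F G : ℤ → ℝ≥0∞}
    (hF : ∀ y : ℤ, ¬ (0 ≤ y ∧ y ≤ (l : ℤ)) → F y = 0) :
    ∑ Y ∈ Finset.Icc (0 : ℤ) M, F (Y - k) * G Y = ∑ y ∈ Finset.Icc (0 : ℤ) l, F y * G (k + y) := by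
  have h1 : ∑ y ∈ Finset.Icc (0 : ℤ) l, F y * G (k + y) = ∑ Y ∈ Finset.Icc k (k + l), F (Y - k) * G Y := by
    refine Finset.sum_nbij' (fun y => k + y) (fun Y => Y - k) ?_ ?_ ?_ ?_ ?_
    · intro y hy
      rw [Finset.mem_Icc] at hy ⊢
      omega
    · intro y hy
      rw [Finset.mem_Icc] at hy ⊢
      omega
    · intro y _
      ring
    · intro y _
      ring
    · intro y _
      rw [show k + y - k = y from by ring]
  rw [h1]
  symm
  refine Finset.sum_subset ?_ ?_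
  · intro Y hY
    rw [Finset.mem_Icc] at hY ⊢
    omega
  · intro Y _ hY
    rw [hF, zero_mul]
    rw [Finset.mem_Icc] at hY
    omega

theorem Pe_add (m l : ℕ) (g : Pt → ℝ≥0∞) (η : Env) (a : Pt) :
    Pe μ s (m + l) g η a = Pe μ s m (Pe μ s l g η) η a := by
  unfold Pe
  have h1 : ∀ Y ∈ Finset.Icc (0 : ℤ) ((m + l : ℕ) : ℤ), ENNReal.ofReal (W μ s η a (m + l) Y) *
      g (a.1 + ((m + l : ℕ) : ℤ), a.2 + Y) = ∑ k ∈ Finset.Icc (0 : ℤ) m, ENNReal.ofReal (W μ s η a m k) *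
      (ENNReal.ofReal (W μ s η (a.1 + m, a.2 + k) l (Y - k)) * g (a.1 + ((m + l : ℕ) : ℤ), a.2 + Y)) := by
    intro Y _
    rw [W_add, ENNReal.ofReal_sum_of_nonneg fun k _ => mul_nonneg (W_nonneg _ _ _ _) (W_nonneg _ _ _ _), Finset.sum_mul]
    refine Finset.sum_congr rfl fun k _ => ?_
    rw [ENNReal.ofReal_mul (W_nonneg _ _ _ _), mul_assoc]
  rw [Finset.sum_congr rfl h1, Finset.sum_comm]
  refine Finset.sum_congr rfl fun k hk => ?_
  rw [Finset.mem_Icc] at hk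
  rw [← Finset.mul_sum]
  congr 1
  rw [sum_shift (M := m + l) (l := l) (F := fun y => ENNReal.ofReal (W μ s η (a.1 + m, a.2 + k) l y))
    (G := fun Y => g (a.1 + ((m + l : ℕ) : ℤ), a.2 + Y)) hk.1 (by push_cast; omega)
    (fun y hy => by rw [W_eq_zero _ _ hy, ENNReal.ofReal_zero])]
  refine Finset.sum_congr rfl fun y _ => ?_
  have e1 : ((a.1 + ((m + l : ℕ) : ℤ), a.2 + (k + y)) : Pt) = (a.1 + (m : ℤ) + (l : ℤ), a.2 + k + y) := by
    ext
    · push_cast
      ring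
    · dsimp only
      ring
  rw [e1]

theorem Pe_add_fun (l : ℕ) (g g' : Pt → ℝ≥0∞) (η : Env) (a : Pt) :
    Pe μ s l (fun b => g b + g' b) η a = Pe μ s l g η a + Pe μ s l g' η a := by
  unfold Pe
  rw [← Finset.sum_add_distrib]
  exact Finset.sum_congr rfl fun y _ => by rw [mul_add]

theorem Pe_mul_fun (l : ℕ) (r : ℝ≥0∞) (g : Pt → ℝ≥0∞) (η : Env) (a : Pt) :
    Pe μ s l (fun b => r * g b) η a = r * Pe μ s l g η a := by
  unfold Pe
  rw [Finset.mul_sum]
  exact Finset.sum_congr rfl fun y _ => by ring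

theorem Pe_sum_fun {ι : Type*} (o : Finset ι) (l : ℕ) (g : ι → Pt → ℝ≥0∞) (η : Env) (a : Pt) :
    Pe μ s l (fun b => ∑ i ∈ o, g i b) η a = ∑ i ∈ o, Pe μ s l (g i) η a := by
  unfold Pe
  rw [Finset.sum_comm]
  exact Finset.sum_congr rfl fun y _ => by rw [Finset.mul_sum]

theorem Pe_congr {l : ℕ} {g g' : Pt → ℝ≥0∞} (η : Env) (a : Pt) (h : ∀ x, g (a.1 + l, x) = g' (a.1 + l, x)) :
    Pe μ s l g η a = Pe μ s l g' η a := by
  unfold Pe
  exact Finset.sum_congr rfl fun y _ => by rw [h]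

/-! ### The polymer with rewards -/

/-- The weights with the factor `1 + ρ` for the bad slabs; `f` is the function at the end. -/
def Re (μ : Measure ℝ) (s : ℝ) (m : ℕ) (ρ : ℝ≥0∞) (ib f : Env → Pt → ℝ≥0∞) : ℕ → Env → Pt → ℝ≥0∞
  | 0 => f
  | k + 1 => fun η a => (1 + ρ * ib η a) * Pe μ s m (Re μ s m ρ ib f k η) η a

theorem Re_add (m : ℕ) (ρ : ℝ≥0∞) (ib f : Env → Pt → ℝ≥0∞) (k j : ℕ) :
    Re μ s m ρ ib f (k + j) = Re μ s m ρ ib (Re μ s m ρ ib f k) j := by
  induction j with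
  | zero => rfl
  | succ j ih =>
    show (fun (η : Env) (a : Pt) => (1 + ρ * ib η a) * Pe μ s m (Re μ s m ρ ib f (k + j) η) η a) =
      fun (η : Env) (a : Pt) => (1 + ρ * ib η a) * Pe μ s m (Re μ s m ρ ib (Re μ s m ρ ib f k) j η) η a
    rw [ih]

/-- RENEWAL: the first chosen bad slab. -/
theorem renewal (m : ℕ) (ρ : ℝ≥0∞) (ib f : Env → Pt → ℝ≥0∞) (k : ℕ) (η : Env) (a : Pt) :
    Re μ s m ρ ib f k η a = Pe μ s (k * m) (f η) η a + ∑ i ∈ Finset.range k,
      ρ * Pe μ s (i * m) (fun b => ib η b * Pe μ s m (Re μ s m ρ ib f (k - 1 - i) η) η b) η a := by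
  induction k generalizing a with
  | zero =>
    rw [Finset.range_zero, Finset.sum_empty, add_zero, Nat.zero_mul, Pe_zero]
    rfl
  | succ k ih =>
    have h1 : Re μ s m ρ ib f (k + 1) η a = Pe μ s m (Re μ s m ρ ib f k η) η a +
        ρ * (ib η a * Pe μ s m (Re μ s m ρ ib f k η) η a) := by
      show (1 + ρ * ib η a) * Pe μ s m (Re μ s m ρ ib f k η) η a = _
      ring
    have h2 : Pe μ s m (Re μ s m ρ ib f k η) η a = Pe μ s ((k + 1) * m) (f η) η a + ∑ i ∈ Finset.range k,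
        ρ * Pe μ s ((i + 1) * m) (fun b => ib η b * Pe μ s m (Re μ s m ρ ib f (k - 1 - i) η) η b) η a := by
      have h3 : Re μ s m ρ ib f k η = fun b => Pe μ s (k * m) (f η) η b + ∑ i ∈ Finset.range k,
          ρ * Pe μ s (i * m) (fun b => ib η b * Pe μ s m (Re μ s m ρ ib f (k - 1 - i) η) η b) η b := by
        funext b
        exact ih b
      conv_lhs => rw [h3]
      rw [Pe_add_fun, Pe_sum_fun]
      congr 1
      · rw [← Pe_add]
        congr 1
        ring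
      · refine Finset.sum_congr rfl fun i _ => ?_
        rw [Pe_mul_fun, ← Pe_add]
        congr 2
        ring
    rw [h1, Finset.sum_range_succ']
    simp only [Nat.add_sub_cancel, Nat.zero_mul, Nat.sub_zero]
    rw [Pe_zero, h2]
    have h4 : ∀ i, k - 1 - i = k - (i + 1) := fun i => by omega
    simp only [h4]
    rw [add_assoc]

/-! ### Cell moments -/

variable [IsProbabilityMeasure μ] {c C : ℝ} {n₀ : ℕ}

/-- `g` on the row `t`: measurable, a function of the later rows, cell moments of the order `θ` at most `B`. -/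
structure NB (μ : Measure ℝ) (s : ℝ) (w θ : ℝ) (t : ℤ) (B : ℝ≥0∞) (g : Env → Pt → ℝ≥0∞) : Prop where
  m : ∀ x, Measurable fun η => g η (t, x)
  d : ∀ x, DependsOn (fun η => g η (t, x)) {p : Pt | t < p.1}
  b : ∀ z, ∫⁻ η, Sc μ s w z t (g η) ^ θ ∂(law μ) ≤ B

omit [IsProbabilityMeasure μ] in
theorem NB.congr {w θ : ℝ} {t : ℤ} {B : ℝ≥0∞} {g g' : Env → Pt → ℝ≥0∞} (h : NB μ s w θ t B g)
    (hg : ∀ η x, g' η (t, x) = g η (t, x)) : NB μ s w θ t B g' := by
  have e1 : ∀ x, (fun η => g' η (t, x)) = fun η => g η (t, x) := fun x => funext fun η => hg η x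
  refine ⟨fun x => ?_, fun x => ?_, fun z => ?_⟩
  · rw [e1 x]
    exact h.m x
  · rw [e1 x]
    exact h.d x
  · have e2 : ∀ η, Sc μ s w z t (g' η) = Sc μ s w z t (g η) := fun η => by
      unfold Sc
      exact Finset.sup_congr rfl fun x _ => hg η x
    simp only [e2]
    exact h.b z

omit [IsProbabilityMeasure μ] in
theorem NB.mono {w θ : ℝ} {t : ℤ} {B B' : ℝ≥0∞} {g : Env → Pt → ℝ≥0∞} (h : NB μ s w θ t B g) (hB : B ≤ B') :
    NB μ s w θ t B' g := ⟨h.m, h.d, fun z => (h.b z).trans hB⟩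

theorem NB.one {w θ : ℝ} (hθ : 0 < θ) (t : ℤ) : NB μ s w θ t 1 fun _ _ => 1 := by
  refine ⟨fun x => measurable_const, fun x => fun _ _ _ => rfl, fun z => ?_⟩
  have h1 : ∀ η : Env, Sc μ s w z t (fun _ => (1 : ℝ≥0∞)) ^ θ ≤ 1 := fun η => by
    have h2 : Sc μ s w z t (fun _ => (1 : ℝ≥0∞)) ≤ 1 := by
      unfold Sc
      exact Finset.sup_le fun x _ => le_rfl
    calc Sc μ s w z t (fun _ => (1 : ℝ≥0∞)) ^ θ ≤ 1 ^ θ := ENNReal.rpow_le_rpow h2 hθ.le
      _ = 1 := ENNReal.one_rpow θ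
  refine (lintegral_mono h1).trans (le_of_eq ?_)
  simp

omit [IsProbabilityMeasure μ] in
theorem NB.zero {w θ : ℝ} (hθ : 0 < θ) (t : ℤ) : NB μ s w θ t 0 fun _ _ => 0 := by
  refine ⟨fun x => measurable_const, fun x => fun _ _ _ => rfl, fun z => le_of_eq ?_⟩
  have h1 : ∀ η : Env, Sc μ s w z t (fun _ => (0 : ℝ≥0∞)) ^ θ = 0 := fun η => by
    have h2 : Sc μ s w z t (fun _ => (0 : ℝ≥0∞)) = 0 := by
      unfold Sc
      exact le_antisymm (Finset.sup_le fun x _ => le_rfl) bot_le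
    rw [h2, ENNReal.zero_rpow_of_pos hθ]
  calc ∫⁻ η : Env, Sc μ s w z t (fun _ => (0 : ℝ≥0∞)) ^ θ ∂(law μ) = ∫⁻ _ : Env, 0 ∂(law μ) := lintegral_congr h1
    _ = 0 := lintegral_zero

omit [IsProbabilityMeasure μ] in
theorem NB.add {w θ : ℝ} (hθ : 0 < θ) (hθ1 : θ ≤ 1) {t : ℤ} {B B' : ℝ≥0∞} {g g' : Env → Pt → ℝ≥0∞}
    (h : NB μ s w θ t B g) (h' : NB μ s w θ t B' g') : NB μ s w θ t (B + B') fun η a => g η a + g' η a := by
  refine ⟨fun x => (h.m x).add (h'.m x), fun x => fun η η' hη => ?_, fun z => ?_⟩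
  · have e1 := h.d x hη
    have e2 := h'.d x hη
    simp only at e1 e2
    show g η (t, x) + g' η (t, x) = g η' (t, x) + g' η' (t, x)
    rw [e1, e2]
  · have h1 : ∀ η, Sc μ s w z t (fun a => g η a + g' η a) ^ θ ≤ Sc μ s w z t (g η) ^ θ + Sc μ s w z t (g' η) ^ θ := fun η => by
      refine (ENNReal.rpow_le_rpow ?_ hθ.le).trans (ENNReal.rpow_add_le_add_rpow _ _ hθ.le hθ1)
      unfold Sc
      exact Finset.sup_le fun x hx => add_le_add (Finset.le_sup (f := fun x => g η (t, x)) hx)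
        (Finset.le_sup (f := fun x => g' η (t, x)) hx)
    refine (lintegral_mono h1).trans ?_
    rw [lintegral_add_left ((measurable_Sc h.m).pow_const θ)]
    exact add_le_add (h.b z) (h'.b z)

omit [IsProbabilityMeasure μ] in
theorem NB.mul {w θ : ℝ} (hθ : 0 < θ) {t : ℤ} {B : ℝ≥0∞} {g : Env → Pt → ℝ≥0∞} (r : ℝ≥0∞)
    (h : NB μ s w θ t B g) : NB μ s w θ t (r ^ θ * B) fun η a => r * g η a := by
  refine ⟨fun x => (h.m x).const_mul r, fun x => fun η η' hη => ?_, fun z => ?_⟩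
  · have e1 := h.d x hη
    simp only at e1
    show r * g η (t, x) = r * g η' (t, x)
    rw [e1]
  · have h1 : ∀ η, Sc μ s w z t (fun a => r * g η a) ^ θ ≤ r ^ θ * Sc μ s w z t (g η) ^ θ := fun η => by
      rw [← ENNReal.mul_rpow_of_nonneg _ _ hθ.le]
      refine ENNReal.rpow_le_rpow ?_ hθ.le
      unfold Sc
      exact Finset.sup_le fun x hx => mul_le_mul' le_rfl (Finset.le_sup (f := fun x => g η (t, x)) hx)
    refine (lintegral_mono h1).trans ?_
    rw [lintegral_const_mul _ ((measurable_Sc h.m).pow_const θ)]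
    exact mul_le_mul' le_rfl (h.b z)

omit [IsProbabilityMeasure μ] in
theorem NB.sum {w θ : ℝ} (hθ : 0 < θ) (hθ1 : θ ≤ 1) {t : ℤ} {B : ℕ → ℝ≥0∞} {g : ℕ → Env → Pt → ℝ≥0∞} (k : ℕ)
    (h : ∀ i < k, NB μ s w θ t (B i) (g i)) :
    NB μ s w θ t (∑ i ∈ Finset.range k, B i) fun η a => ∑ i ∈ Finset.range k, g i η a := by
  induction k with
  | zero =>
    simp only [Finset.range_zero, Finset.sum_empty]
    exact NB.zero hθ t
  | succ k ih =>
    simp only [Finset.sum_range_succ]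
    exact (ih fun i hi => h i (Nat.lt_succ_of_lt hi)).add hθ hθ1 (h k (Nat.lt_succ_self k))

omit [IsProbabilityMeasure μ] in
theorem Pe_meas {l : ℕ} {t : ℤ} {g : Env → Pt → ℝ≥0∞} (hg : ∀ x, Measurable fun η => g η (t + l, x)) (x : ℤ) :
    Measurable fun η => Pe μ s l (g η) η (t, x) := by
  unfold Pe
  exact Finset.measurable_sum _ fun y _ => (measurable_W _ _ _).ennreal_ofReal.mul (hg _)

omit [IsProbabilityMeasure μ] in
theorem Pe_dep {l : ℕ} {t : ℤ} {g : Env → Pt → ℝ≥0∞}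
    (hg : ∀ x, DependsOn (fun η => g η (t + l, x)) {p : Pt | t + l < p.1}) (x : ℤ) :
    DependsOn (fun η => Pe μ s l (g η) η (t, x)) {p : Pt | t < p.1} := by
  intro η η' hη
  show Pe μ s l (g η) η (t, x) = Pe μ s l (g η') η' (t, x)
  unfold Pe
  refine Finset.sum_congr rfl fun y _ => ?_
  have h1 := W_dep_rows (μ := μ) (s := s) (t, x) l y (fun p hp => hη p hp.1)
  have h2 := hg (x + y) (fun p hp => hη p (by
    have h3 : t + (l : ℤ) < p.1 := hp
    show t < p.1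
    omega))
  simp only at h1 h2
  rw [h1, h2]

/-- ONE PIECE. -/
theorem NB.pe (h : In μ s c C n₀) {n : ℕ} (hn : n₀ ≤ n) (hw : 1 ≤ wd μ s n) {l : ℕ} (hl : l ≤ 4 * n) {t : ℤ} {B : ℝ≥0∞}
    {g : Env → Pt → ℝ≥0∞} (hg : NB μ s (wd μ s n) (th μ s C n) (t + l) B g) :
    NB μ s (wd μ s n) (th μ s C n) t (ENNReal.ofReal (KK c C) * B) fun η => Pe μ s l (g η) η := by
  refine ⟨fun x => Pe_meas hg.m x, fun x => Pe_dep hg.d x, fun z => ?_⟩
  have h1 := step h hn hw hl z t (φ := fun _ => 1) (p := 1) (B := B) (g := g) measurable_const (fun _ => Or.inr rfl)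
    (fun _ _ _ => rfl) (by simp) hg.m (fun x η η' hη => hg.d x fun p hp => hη p fun hp2 => by
      have h3 : t + (l : ℤ) < p.1 := hp
      have h4 := hp2.2
      omega) hg.b
  simpa using h1

/-- ONE BAD PIECE. -/
theorem NB.bad (h : In μ s c C n₀) {n : ℕ} (hn : n₀ ≤ n) (hw : 1 ≤ wd μ s n) {m : ℕ} (hl : m ≤ 4 * n) {t : ℤ} {p B : ℝ≥0∞}
    {g ib : Env → Pt → ℝ≥0∞} (hg : NB μ s (wd μ s n) (th μ s C n) (t + m) B g) (hbm : ∀ x, Measurable fun η => ib η (t, x))
    (hb01 : ∀ η a, ib η a = 0 ∨ ib η a = 1) (hbd : ∀ x, DependsOn (fun η => ib η (t, x)) (rows t (t + m)))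
    (hp : ∀ z, ∫⁻ η, Sc μ s (wd μ s n) z t (ib η) ∂(law μ) ≤ p) :
    NB μ s (wd μ s n) (th μ s C n) t (p ^ (1 / 2 : ℝ) * (ENNReal.ofReal (KK c C) * B)) fun η a => ib η a * Pe μ s m (g η) η a := by
  have hθ0 := th_pos h n
  refine ⟨fun x => (hbm x).mul (Pe_meas hg.m x), fun x => fun η η' hη => ?_, fun z => ?_⟩
  · have h1 := hbd x (fun p hp => hη p hp.1)
    have h2 := Pe_dep (μ := μ) (s := s) hg.d x hη
    simp only at h1 h2 ⊢
    rw [h1, h2]
  · have h01 : ∀ η, Sc μ s (wd μ s n) z t (ib η) = 0 ∨ Sc μ s (wd μ s n) z t (ib η) = 1 := by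
      intro η
      by_cases hx : ∃ x ∈ Cl μ s (wd μ s n) z t, ib η (t, x) = 1
      · obtain ⟨x, hx1, hx2⟩ := hx
        refine Or.inr (le_antisymm ?_ ?_)
        · unfold Sc
          refine Finset.sup_le fun x _ => ?_
          rcases hb01 η (t, x) with h | h
          · rw [h]
            exact bot_le
          · rw [h]
        · unfold Sc
          rw [← hx2]
          exact Finset.le_sup (f := fun x => ib η (t, x)) hx1
      · refine Or.inl (le_antisymm ?_ bot_le)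
        unfold Sc
        refine Finset.sup_le fun x hx1 => ?_
        rcases hb01 η (t, x) with h | h
        · rw [h]
        · exact absurd ⟨x, hx1, h⟩ hx
    have h2 : ∀ η, Sc μ s (wd μ s n) z t (fun a => ib η a * Pe μ s m (g η) η a) ^ th μ s C n ≤
        Sc μ s (wd μ s n) z t (ib η) * Sc μ s (wd μ s n) z t (Pe μ s m (g η) η) ^ th μ s C n := by
      intro η
      rcases h01 η with h3 | h3
      · have h4 : Sc μ s (wd μ s n) z t (fun a => ib η a * Pe μ s m (g η) η a) = 0 := by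
          refine le_antisymm ?_ bot_le
          unfold Sc
          refine Finset.sup_le fun x hx => ?_
          have h5 : ib η (t, x) ≤ 0 := by
            rw [← h3]
            exact Finset.le_sup (f := fun x => ib η (t, x)) hx
          show ib η (t, x) * Pe μ s m (g η) η (t, x) ≤ 0
          rw [le_antisymm h5 bot_le, zero_mul]
        rw [h4, h3, ENNReal.zero_rpow_of_pos hθ0, zero_mul]
      · rw [h3, one_mul]
        refine ENNReal.rpow_le_rpow ?_ hθ0.le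
        unfold Sc
        refine Finset.sup_le fun x hx => ?_
        have h5 : ib η (t, x) ≤ 1 := by
          rcases hb01 η (t, x) with h | h
          · rw [h]
            exact bot_le
          · rw [h]
        calc ib η (t, x) * Pe μ s m (g η) η (t, x) ≤ 1 * Pe μ s m (g η) η (t, x) := mul_le_mul' h5 le_rfl
          _ = Pe μ s m (g η) η (t, x) := one_mul _
          _ ≤ _ := Finset.le_sup (f := fun x => Pe μ s m (g η) η (t, x)) hx
    refine (lintegral_mono h2).trans ?_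
    refine step h hn hw hl z t (φ := fun η => Sc μ s (wd μ s n) z t (ib η)) (p := p) (B := B) (g := g) (measurable_Sc hbm) h01
      (Sc_dep hbd) (hp z) hg.m (fun x η η' hη => hg.d x fun p hp => hη p fun hp2 => ?_) hg.b
    have h3 : t + (m : ℤ) < p.1 := hp
    have h4 := hp2.2
    omega

omit [IsProbabilityMeasure μ] in
theorem geo_id (ε : ℝ≥0∞) (k : ℕ) : 1 + ∑ i ∈ Finset.range k, ε * (1 + ε) ^ (k - 1 - i) = (1 + ε) ^ k := by
  rw [Finset.sum_range_reflect (fun i => ε * (1 + ε) ^ i) k]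
  induction k with
  | zero => simp
  | succ k ih =>
    rw [Finset.sum_range_succ, ← add_assoc, ih, pow_succ]
    ring

/-- THE WINDOW: `k` slabs with rewards, `k m ≤ 4 n`. -/
theorem NB.win (h : In μ s c C n₀) {n : ℕ} (hn : n₀ ≤ n) (hw : 1 ≤ wd μ s n) {m : ℕ} {p ρ ε : ℝ≥0∞}
    {ib : Env → Pt → ℝ≥0∞} (hbm : ∀ a, Measurable fun η => ib η a) (hb01 : ∀ η a, ib η a = 0 ∨ ib η a = 1)
    (hbd : ∀ t x, DependsOn (fun η => ib η (t, x)) (rows t (t + m)))
    (hp : ∀ z t, ∫⁻ η, Sc μ s (wd μ s n) z t (ib η) ∂(law μ) ≤ p)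
    (hε : ρ ^ th μ s C n * (ENNReal.ofReal (KK c C) * (p ^ (1 / 2 : ℝ) * ENNReal.ofReal (KK c C))) ≤ ε)
    {f : Env → Pt → ℝ≥0∞} {B : ℝ≥0∞} (k : ℕ) (hk : k * m ≤ 4 * n) (hm : m ≤ 4 * n) (t : ℤ)
    (hf : NB μ s (wd μ s n) (th μ s C n) (t + ((k * m : ℕ) : ℤ)) B f) :
    NB μ s (wd μ s n) (th μ s C n) t (ENNReal.ofReal (KK c C) * (1 + ε) ^ k * B) (Re μ s m ρ ib f k) := by
  have hθ0 := th_pos h n
  have hθ1 := th_le_one h n
  induction k using Nat.strong_induction_on generalizing t with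
  | _ k ih =>
    obtain ⟨K, hK⟩ : ∃ K, K = ENNReal.ofReal (KK c C) := ⟨_, rfl⟩
    rw [← hK] at hε ih ⊢
    have h1 : NB μ s (wd μ s n) (th μ s C n) t (K * B) fun η => Pe μ s (k * m) (f η) η := by
      rw [hK]
      exact NB.pe h hn hw hk hf
    have h2 : ∀ i < k, NB μ s (wd μ s n) (th μ s C n) t (ρ ^ th μ s C n * (K * (p ^ (1 / 2 : ℝ) * (K * (K * (1 + ε) ^ (k - 1 - i) * B)))))
        fun η a => ρ * Pe μ s (i * m) (fun b => ib η b * Pe μ s m (Re μ s m ρ ib f (k - 1 - i) η) η b) η a := by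
      intro i hi
      refine NB.mul hθ0 ρ ?_
      rw [hK]
      have hik : i * m ≤ 4 * n := le_trans (Nat.mul_le_mul_right m hi.le) hk
      refine NB.pe h hn hw hik (g := fun η b => ib η b * Pe μ s m (Re μ s m ρ ib f (k - 1 - i) η) η b) ?_
      refine NB.bad h hn hw hm ?_ (fun x => hbm _) hb01 (fun x => hbd _ x) (fun z => hp z _)
      rw [← hK]
      have hki : (k - 1 - i) * m ≤ 4 * n := le_trans (Nat.mul_le_mul_right m (by omega)) hk
      refine ih (k - 1 - i) (by omega) hki _ ?_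
      have e1 : t + ((i * m : ℕ) : ℤ) + (m : ℤ) + (((k - 1 - i) * m : ℕ) : ℤ) = t + ((k * m : ℕ) : ℤ) := by
        have e2 : k = i + 1 + (k - 1 - i) := by omega
        have e3 : k * m = (i + 1 + (k - 1 - i)) * m := by rw [← e2]
        rw [e3]
        push_cast
        ring
      rw [e1]
      exact hf
    have h3 := h1.add hθ0 hθ1 (NB.sum hθ0 hθ1 k h2)
    refine (h3.congr fun η x => renewal m ρ ib f k η (t, x)).mono ?_
    calc K * B + ∑ i ∈ Finset.range k, ρ ^ th μ s C n * (K * (p ^ (1 / 2 : ℝ) * (K * (K * (1 + ε) ^ (k - 1 - i) * B))))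
        = K * B + ∑ i ∈ Finset.range k, (ρ ^ th μ s C n * (K * (p ^ (1 / 2 : ℝ) * K))) * (1 + ε) ^ (k - 1 - i) * (K * B) := by
          congr 1
          exact Finset.sum_congr rfl fun i _ => by ring
      _ ≤ K * B + ∑ i ∈ Finset.range k, ε * (1 + ε) ^ (k - 1 - i) * (K * B) := by
          refine add_le_add le_rfl (Finset.sum_le_sum fun i _ => ?_)
          exact mul_le_mul' (mul_le_mul' hε le_rfl) le_rfl
      _ = (1 + ∑ i ∈ Finset.range k, ε * (1 + ε) ^ (k - 1 - i)) * (K * B) := by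
          rw [add_mul, one_mul, Finset.sum_mul]
      _ = K * (1 + ε) ^ k * B := by
          rw [geo_id]
          ring

/-- `q` windows of `r` slabs and `k ≤ r` slabs at the end. -/
theorem NB.wins (h : In μ s c C n₀) {n : ℕ} (hn : n₀ ≤ n) (hw : 1 ≤ wd μ s n) {m : ℕ} {p ρ ε : ℝ≥0∞}
    {ib : Env → Pt → ℝ≥0∞} (hbm : ∀ a, Measurable fun η => ib η a) (hb01 : ∀ η a, ib η a = 0 ∨ ib η a = 1)
    (hbd : ∀ t x, DependsOn (fun η => ib η (t, x)) (rows t (t + m)))
    (hp : ∀ z t, ∫⁻ η, Sc μ s (wd μ s n) z t (ib η) ∂(law μ) ≤ p)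
    (hε : ρ ^ th μ s C n * (ENNReal.ofReal (KK c C) * (p ^ (1 / 2 : ℝ) * ENNReal.ofReal (KK c C))) ≤ ε)
    {f : Env → Pt → ℝ≥0∞} {B : ℝ≥0∞} {r : ℕ} (hr : r * m ≤ 4 * n) (hm : m ≤ 4 * n) {k : ℕ} (hk : k ≤ r) (q : ℕ) (t : ℤ)
    (hf : NB μ s (wd μ s n) (th μ s C n) (t + (((k + q * r) * m : ℕ) : ℤ)) B f) :
    NB μ s (wd μ s n) (th μ s C n) t ((ENNReal.ofReal (KK c C) * (1 + ε) ^ r) ^ (q + 1) * B) (Re μ s m ρ ib f (k + q * r)) := by
  induction q generalizing t with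
  | zero =>
    have h1 := NB.win h hn hw hbm hb01 hbd hp hε k (le_trans (Nat.mul_le_mul_right m hk) hr) hm t (f := f) (B := B)
      (by simpa using hf)
    have h2 : k + 0 * r = k := by simp
    rw [h2, zero_add, pow_one]
    refine h1.mono (mul_le_mul' (mul_le_mul' le_rfl ?_) le_rfl)
    exact pow_le_pow_right₀ (by simp) hk
  | succ q ih =>
    have e1 : k + (q + 1) * r = (k + q * r) + r := by ring
    have h1 := ih (t + ((r * m : ℕ) : ℤ)) (by
      have e2 : t + ((r * m : ℕ) : ℤ) + (((k + q * r) * m : ℕ) : ℤ) = t + (((k + (q + 1) * r) * m : ℕ) : ℤ) := by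
        push_cast
        ring
      rw [e2]
      exact hf)
    have h2 := NB.win h hn hw hbm hb01 hbd hp hε r hr hm t h1
    rw [e1, Re_add]
    refine h2.mono (le_of_eq ?_)
    rw [pow_succ (ENNReal.ofReal (KK c C) * (1 + ε) ^ r) (q + 1)]
    ring

end

end Pool.Agent.W_7d29a1_HX.X72
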