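import Pool.Agent.W_7d29a1_HX.X72_Lint
import Pool.Agent.W_7d29a1_HS.Scale

/-!
STORM X, PA: one piece of the polymer in `ℝ≥0∞` moments of the order `θ = 1 / (2 C EE n)`, with an indicator of the rows
of the piece.
-/

namespace Pool.Agent.W_7d29a1_HX.X72

open MeasureTheory ProbabilityTheory Filter Topology
open Pool.Agent.W_7d29a1_F Pool.Agent.W_7d29a1_h4g Pool.Agent.W_7d29a1_H Pool.Agent.W_7d29a1_HS
open Pool.Agent.W_7d29a1_L (Mh T Bx le_Mh mem_Bx Sub_Mh T_sh exp_T)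
open scoped ENNReal

noncomputable section

variable {μ : Measure ℝ} [IsProbabilityMeasure μ] {s c C : ℝ} {n₀ : ℕ}

omit [IsProbabilityMeasure μ] in
theorem meas_sup {ι Ω : Type*} [MeasurableSpace Ω] (o : Finset ι) {f : ι → Ω → ℝ≥0∞} (hf : ∀ i, Measurable (f i)) :
    Measurable fun η => o.sup fun i => f i η := by
  classical
  induction o using Finset.induction_on with
  | empty => simp
  | insert a o ha ih =>
    simp only [Finset.sup_insert]
    exact (hf a).sup ih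

omit [IsProbabilityMeasure μ] in
theorem measurable_Uj {w z : ℝ} (t : ℤ) (l : ℕ) (j : ℤ) : Measurable (Uj μ s w z t l j) := by
  unfold Uj
  refine meas_sup _ fun x => ?_
  exact Finset.measurable_sum _ fun y _ => (measurable_W _ _ _).ennreal_ofReal

omit [IsProbabilityMeasure μ] in
theorem Uj_dep {w z : ℝ} (t : ℤ) (l : ℕ) (j : ℤ) : DependsOn (Uj μ s w z t l j) (rows t (t + l)) := by
  intro η η' hη
  unfold Uj
  refine Finset.sup_congr rfl fun x _ => Finset.sum_congr rfl fun y _ => ?_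
  have h1 := W_dep_rows (μ := μ) (s := s) (t, x) l y hη
  simp only at h1
  rw [h1]

omit [IsProbabilityMeasure μ] in
theorem measurable_Sc {w z : ℝ} {t : ℤ} {g : Env → Pt → ℝ≥0∞} (hg : ∀ x, Measurable fun η => g η (t, x)) :
    Measurable fun η => Sc μ s w z t (g η) := by
  unfold Sc
  exact meas_sup _ fun x => hg x

omit [IsProbabilityMeasure μ] in
theorem Sc_dep {w z : ℝ} {t : ℤ} {g : Env → Pt → ℝ≥0∞} {A : Set Pt} (hg : ∀ x, DependsOn (fun η => g η (t, x)) A) :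
    DependsOn (fun η => Sc μ s w z t (g η)) A := by
  intro η η' hη
  show Sc μ s w z t (g η) = Sc μ s w z t (g η')
  unfold Sc
  exact Finset.sup_congr rfl fun x _ => hg x hη

/-- The order of the moments at the scale `n`. -/
def th (μ : Measure ℝ) (s : ℝ) (C : ℝ) (n : ℕ) : ℝ := 1 / (2 * (C * EE μ s n))

theorem th_pos (h : In μ s c C n₀) (n : ℕ) : 0 < th μ s C n := by
  have hE : 0 < EE μ s n := lt_of_lt_of_le one_pos (one_le_EE n)
  have hC : 0 < C := lt_of_lt_of_le one_pos h.C1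
  unfold th
  positivity

theorem th_le_one (h : In μ s c C n₀) (n : ℕ) : th μ s C n ≤ 1 := by
  have hE : 1 ≤ EE μ s n := one_le_EE n
  have hC := h.C1
  unfold th
  rw [div_le_one (by positivity)]
  nlinarith

/-- The moment of the order `2 θ` of the weight to the cell number `j`. -/
theorem lint_Uj (h : In μ s c C n₀) {n : ℕ} (hn : n₀ ≤ n) (hw : 1 ≤ wd μ s n) {l : ℕ} (hl : l ≤ 4 * n) (z : ℝ) (t j : ℤ) :
    ∫⁻ η, Uj μ s (wd μ s n) z t l j η ^ (2 * th μ s C n) ∂(law μ) ≤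
      ENNReal.ofReal (C * Real.exp (-(c / C * (|(j : ℝ)| - 1)))) := by
  have hE : 0 < EE μ s n := lt_of_lt_of_le one_pos (one_le_EE n)
  have hC : 0 < C := lt_of_lt_of_le one_pos h.C1
  have hc := h.c0
  have hw0 : 0 < wd μ s n := by linarith
  have h2th : 2 * th μ s C n = 1 / (C * EE μ s n) := by
    unfold th
    field_simp
  obtain ⟨hh, hhd⟩ : ∃ hh : ℝ, hh = c * EE μ s n / wd μ s n := ⟨_, rfl⟩
  have hh0 : 0 ≤ hh := by rw [hhd]; positivity
  have hhw : hh * wd μ s n = c * EE μ s n := by rw [hhd]; field_simp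
  obtain ⟨τ, hτ⟩ : ∃ τ : ℝ, τ = if 0 ≤ j then hh else -hh := ⟨_, rfl⟩
  have habs : |τ| * wd μ s n ≤ c * EE μ s n := by
    rw [hτ]
    split_ifs
    · rw [abs_of_nonneg hh0, hhw]
    · rw [abs_neg, abs_of_nonneg hh0, hhw]
  have h1 : ∀ η, Uj μ s (wd μ s n) z t l j η ^ (2 * th μ s C n) ≤
      ENNReal.ofReal (Real.exp (-(c / C * (|(j : ℝ)| - 1)))) *
        ENNReal.ofReal (Real.exp (Mh μ s (sl μ s) τ (wd μ s n) (z + sl μ s * t) (4 * n) (sh (t, 0) η) / (C * EE μ s n))) := by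
    intro η
    have h2 := Uj_le (μ := μ) h.sl_pos.le h.sl_lt.le (z := z) hh0 (w := wd μ s n) t hl j η
    rw [← hτ] at h2
    refine (ENNReal.rpow_le_rpow h2 (by rw [h2th]; positivity)).trans (le_of_eq ?_)
    rw [ENNReal.ofReal_rpow_of_pos (Real.exp_pos _), ← Real.exp_mul, ← ENNReal.ofReal_mul (Real.exp_pos _).le,
      ← Real.exp_add]
    congr 2
    rw [h2th]
    have e1 : hh * ((|(j : ℝ)| - 1) * wd μ s n) = c * EE μ s n * (|(j : ℝ)| - 1) := by
      rw [← hhw]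
      ring
    rw [e1]
    field_simp
    ring
  have hm : Measurable fun η : Env => ENNReal.ofReal (Real.exp (Mh μ s (sl μ s) τ (wd μ s n) (z + sl μ s * t) (4 * n) η /
      (C * EE μ s n))) := by
    have := (Sub_Mh (μ := μ) (s := s) (v := sl μ s) (h := τ) (w := wd μ s n) (z := z + sl μ s * t) (n := 4 * n)).1
    exact (Real.measurable_exp.comp (this.div_const _)).ennreal_ofReal
  refine (lintegral_mono h1).trans ?_
  have hm2 : Measurable fun η : Env => ENNReal.ofReal (Real.exp (Mh μ s (sl μ s) τ (wd μ s n) (z + sl μ s * t) (4 * n)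
      (sh (t, 0) η) / (C * EE μ s n))) := hm.comp (mp_sh (μ := μ) (t, 0)).measurable
  rw [lintegral_const_mul _ hm2,
    lint_sh (μ := μ) (t, 0) (f := fun η : Env => ENNReal.ofReal (Real.exp (Mh μ s (sl μ s) τ (wd μ s n) (z + sl μ s * t) (4 * n) η /
      (C * EE μ s n)))) hm]
  have hint : Integrable (fun η : Env => Real.exp (Mh μ s (sl μ s) τ (wd μ s n) (z + sl μ s * t) (4 * n) η / (C * EE μ s n)))
      (law μ) := by
    have h1 := ((Sub_Mh (μ := μ) (s := s) (v := sl μ s) (h := τ) (w := wd μ s n) (z := z + sl μ s * t) (n := 4 * n)).const_mul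
      (C * EE μ s n)⁻¹).exp_int h.em
    refine h1.congr (Eventually.of_forall fun η => ?_)
    show Real.exp ((C * EE μ s n)⁻¹ * Mh μ s (sl μ s) τ (wd μ s n) (z + sl μ s * t) (4 * n) η) =
      Real.exp (Mh μ s (sl μ s) τ (wd μ s n) (z + sl μ s * t) (4 * n) η / (C * EE μ s n))
    congr 1
    ring
  rw [← ofReal_integral_eq_lintegral_ofReal hint (Eventually.of_forall fun η => (Real.exp_pos _).le),
    ← ENNReal.ofReal_mul (Real.exp_pos _).le]
  refine ENNReal.ofReal_le_ofReal ?_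
  rw [mul_comm]
  exact mul_le_mul_of_nonneg_right (h.luck n hn τ (z + sl μ s * t) habs) (Real.exp_pos _).le

/-- The sum over the cells. -/
def KK (c C : ℝ) : ℝ := Real.sqrt C * (Real.exp (c / C / 2) * (2 / (1 - Real.exp (-(c / C / 2))))) + 1

omit [IsProbabilityMeasure μ] in
theorem geo_sum {κ : ℝ} (hκ : 0 < κ) (L : ℕ) :
    ∑ j ∈ Finset.Icc (-(L : ℤ)) L, Real.exp (-(κ * |(j : ℝ)|)) ≤ 2 / (1 - Real.exp (-κ)) := by
  obtain ⟨q, hq⟩ : ∃ q : ℝ, q = Real.exp (-κ) := ⟨_, rfl⟩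
  have hq0 : 0 ≤ q := by rw [hq]; positivity
  have hq1 : q < 1 := by rw [hq]; exact Real.exp_lt_one_iff.2 (by linarith)
  have hgeo : ∑ i ∈ Finset.range (L + 1), q ^ i ≤ 1 / (1 - q) := by
    have h1 := (summable_geometric_of_lt_one hq0 hq1).sum_le_tsum (Finset.range (L + 1)) fun i _ => pow_nonneg hq0 i
    rw [tsum_geometric_of_lt_one hq0 hq1] at h1
    rw [one_div]
    exact h1
  have hpow : ∀ j : ℤ, Real.exp (-(κ * |(j : ℝ)|)) = q ^ j.natAbs := fun j => by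
    rw [hq, ← Real.exp_nat_mul]
    congr 1
    rw [Nat.cast_natAbs, Int.cast_abs]
    ring
  have hsub : Finset.Icc (-(L : ℤ)) L ⊆ (Finset.range (L + 1)).image (fun i : ℕ => (i : ℤ)) ∪
      (Finset.range (L + 1)).image (fun i : ℕ => -(i : ℤ)) := by
    intro j hj
    rw [Finset.mem_Icc] at hj
    rw [Finset.mem_union, Finset.mem_image, Finset.mem_image]
    rcases le_total 0 j with h | h
    · exact Or.inl ⟨j.toNat, Finset.mem_range.2 (by omega), by omega⟩
    · exact Or.inr ⟨(-j).toNat, Finset.mem_range.2 (by omega), by omega⟩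
  calc ∑ j ∈ Finset.Icc (-(L : ℤ)) L, Real.exp (-(κ * |(j : ℝ)|))
      = ∑ j ∈ Finset.Icc (-(L : ℤ)) L, q ^ j.natAbs := Finset.sum_congr rfl fun j _ => hpow j
    _ ≤ ∑ j ∈ (Finset.range (L + 1)).image (fun i : ℕ => (i : ℤ)) ∪
      (Finset.range (L + 1)).image (fun i : ℕ => -(i : ℤ)), q ^ j.natAbs :=
        Finset.sum_le_sum_of_subset_of_nonneg hsub fun _ _ _ => pow_nonneg hq0 _
    _ ≤ ∑ j ∈ (Finset.range (L + 1)).image (fun i : ℕ => (i : ℤ)), q ^ j.natAbs +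
      ∑ j ∈ (Finset.range (L + 1)).image (fun i : ℕ => -(i : ℤ)), q ^ j.natAbs := by
        rw [← Finset.sum_union_inter]
        have : 0 ≤ ∑ j ∈ (Finset.range (L + 1)).image (fun i : ℕ => (i : ℤ)) ∩
          (Finset.range (L + 1)).image (fun i : ℕ => -(i : ℤ)), q ^ j.natAbs :=
          Finset.sum_nonneg fun _ _ => pow_nonneg hq0 _
        linarith
    _ = ∑ i ∈ Finset.range (L + 1), q ^ i + ∑ i ∈ Finset.range (L + 1), q ^ i := by
        rw [Finset.sum_image (by intro a _ b _ hab; simpa using hab),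
          Finset.sum_image (by intro a _ b _ hab; simpa using hab)]
        have e1 : ∀ i ∈ Finset.range (L + 1), q ^ (-(i : ℤ)).natAbs = q ^ i := fun i _ => by
          rw [Int.natAbs_neg, Int.natAbs_natCast]
        rw [Finset.sum_congr rfl e1]
        rfl
    _ ≤ 1 / (1 - q) + 1 / (1 - q) := add_le_add hgeo hgeo
    _ = 2 / (1 - Real.exp (-κ)) := by rw [← hq]; ring

omit [IsProbabilityMeasure μ] in
theorem KK_ge (hc : 0 < c) (hC : 1 ≤ C) : 1 ≤ KK c C := by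
  have hC0 : 0 < C := by linarith
  have h1 : Real.exp (-(c / C / 2)) < 1 := Real.exp_lt_one_iff.2 (by
    have : 0 < c / C / 2 := by positivity
    linarith)
  have h2 : 0 < 1 - Real.exp (-(c / C / 2)) := by linarith
  unfold KK
  have : 0 ≤ Real.sqrt C * (Real.exp (c / C / 2) * (2 / (1 - Real.exp (-(c / C / 2))))) := by positivity
  linarith

omit [IsProbabilityMeasure μ] in
theorem sum_KK (hc : 0 < c) (hC : 1 ≤ C) (l : ℕ) :
    ∑ j ∈ Js l, (ENNReal.ofReal (C * Real.exp (-(c / C * (|(j : ℝ)| - 1))))) ^ (1 / 2 : ℝ) ≤ ENNReal.ofReal (KK c C) := by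
  have hC0 : 0 < C := by linarith
  have hκ : 0 < c / C / 2 := by positivity
  have h1 : ∀ j : ℤ, (ENNReal.ofReal (C * Real.exp (-(c / C * (|(j : ℝ)| - 1))))) ^ (1 / 2 : ℝ) =
      ENNReal.ofReal (Real.sqrt C * Real.exp (c / C / 2) * Real.exp (-(c / C / 2 * |(j : ℝ)|))) := by
    intro j
    rw [ENNReal.ofReal_rpow_of_pos (by positivity), Real.mul_rpow hC0.le (Real.exp_pos _).le, ← Real.exp_mul,
      ← Real.sqrt_eq_rpow, mul_assoc, ← Real.exp_add]
    congr 3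
    ring
  rw [Finset.sum_congr rfl fun j _ => h1 j, ← ENNReal.ofReal_sum_of_nonneg fun j _ => by positivity]
  refine ENNReal.ofReal_le_ofReal ?_
  rw [← Finset.mul_sum]
  have h2 := geo_sum hκ (l + 2)
  have h3 : Js l = Finset.Icc (-((l + 2 : ℕ) : ℤ)) ((l + 2 : ℕ) : ℤ) := by
    unfold Js
    push_cast
    rfl
  rw [h3]
  unfold KK
  have h4 := mul_le_mul_of_nonneg_left h2 (show 0 ≤ Real.sqrt C * Real.exp (c / C / 2) by positivity)
  linarith

/-- ONE PIECE, with an indicator of its rows. -/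
theorem step (h : In μ s c C n₀) {n : ℕ} (hn : n₀ ≤ n) (hw : 1 ≤ wd μ s n) {l : ℕ} (hl : l ≤ 4 * n) (z : ℝ) (t : ℤ)
    {φ : Env → ℝ≥0∞} {p B : ℝ≥0∞} {g : Env → Pt → ℝ≥0∞} (hφ : Measurable φ) (hφ01 : ∀ η, φ η = 0 ∨ φ η = 1)
    (hφd : DependsOn φ (rows t (t + l))) (hp : ∫⁻ η, φ η ∂(law μ) ≤ p)
    (hgm : ∀ x, Measurable fun η => g η (t + l, x)) (hgd : ∀ x, DependsOn (fun η => g η (t + l, x)) (rows t (t + l))ᶜ)
    (hgB : ∀ z', ∫⁻ η, Sc μ s (wd μ s n) z' (t + l) (g η) ^ th μ s C n ∂(law μ) ≤ B) :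
    ∫⁻ η, φ η * Sc μ s (wd μ s n) z t (Pe μ s l (g η) η) ^ th μ s C n ∂(law μ) ≤
      p ^ (1 / 2 : ℝ) * (ENNReal.ofReal (KK c C) * B) := by
  have hθ0 := th_pos h n
  have hθ1 := th_le_one h n
  obtain ⟨θ, hθ⟩ : ∃ θ, θ = th μ s C n := ⟨_, rfl⟩
  rw [← hθ] at hθ0 hθ1 hgB ⊢
  obtain ⟨w, hwd⟩ : ∃ w, w = wd μ s n := ⟨_, rfl⟩
  have h1 : ∀ η, φ η * Sc μ s (wd μ s n) z t (Pe μ s l (g η) η) ^ θ ≤
      ∑ j ∈ Js l, (φ η * Uj μ s (wd μ s n) z t l j η ^ θ) * Sc μ s (wd μ s n) (z + j * wd μ s n) (t + l) (g η) ^ θ := by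
    intro η
    refine (mul_le_mul' le_rfl ((ENNReal.rpow_le_rpow (Sc_Pe_le h.sl_pos.le h.sl_lt.le hw t l (g η) η) hθ0.le).trans
      (rpow_sum_le _ _ hθ0 hθ1))).trans (le_of_eq ?_)
    rw [Finset.mul_sum]
    refine Finset.sum_congr rfl fun j _ => ?_
    rw [ENNReal.mul_rpow_of_nonneg _ _ hθ0.le]
    ring
  have hUm : ∀ j, Measurable fun η => φ η * Uj μ s (wd μ s n) z t l j η ^ θ := fun j =>
    hφ.mul ((measurable_Uj t l j).pow_const θ)
  have hSm : ∀ j : ℤ, Measurable fun η => Sc μ s (wd μ s n) (z + j * wd μ s n) (t + l) (g η) ^ θ := fun j =>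
    (measurable_Sc hgm).pow_const θ
  refine (lintegral_mono h1).trans ?_
  have hUS : ∀ j ∈ Js l, Measurable fun η => (φ η * Uj μ s (wd μ s n) z t l j η ^ θ) *
      Sc μ s (wd μ s n) (z + j * wd μ s n) (t + l) (g η) ^ θ := fun j _ => (hUm j).mul (hSm j)
  rw [lintegral_finsetSum _ hUS]
  calc ∑ j ∈ Js l, ∫⁻ η, (φ η * Uj μ s (wd μ s n) z t l j η ^ θ) * Sc μ s (wd μ s n) (z + j * wd μ s n) (t + l) (g η) ^ θ ∂(law μ)
      ≤ ∑ j ∈ Js l, (p ^ (1 / 2 : ℝ) * (ENNReal.ofReal (C * Real.exp (-(c / C * (|(j : ℝ)| - 1))))) ^ (1 / 2 : ℝ)) * B := by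
        refine Finset.sum_le_sum fun j _ => ?_
        rw [lint_indep (rows t (t + l)) (hUm j) (hSm j) ?_ ?_]
        · refine mul_le_mul' ?_ (hgB _)
          refine lint_ind hφ (measurable_Uj t l j) hφ01 hp ?_
          rw [hθ]
          exact lint_Uj h hn hw hl z t j
        · intro η η' hη
          show φ η * Uj μ s (wd μ s n) z t l j η ^ θ = φ η' * Uj μ s (wd μ s n) z t l j η' ^ θ
          rw [hφd hη, Uj_dep t l j hη]
        · intro η η' hη
          show Sc μ s (wd μ s n) (z + j * wd μ s n) (t + l) (g η) ^ θ = Sc μ s (wd μ s n) (z + j * wd μ s n) (t + l) (g η') ^ θ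
          have := Sc_dep (μ := μ) (s := s) (w := wd μ s n) (z := z + j * wd μ s n) hgd hη
          simp only at this
          rw [this]
    _ = p ^ (1 / 2 : ℝ) * ((∑ j ∈ Js l, (ENNReal.ofReal (C * Real.exp (-(c / C * (|(j : ℝ)| - 1))))) ^ (1 / 2 : ℝ)) * B) := by
        rw [Finset.sum_mul, Finset.mul_sum]
        exact Finset.sum_congr rfl fun j _ => by ring
    _ ≤ _ := mul_le_mul' le_rfl (mul_le_mul' (sum_KK h.c0 h.C1 l) le_rfl)

end

end Pool.Agent.W_7d29a1_HX.X72
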