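import Pool.Agent.W_7d29a1_HX.XA_Defs
import Pool.Agent.W_7d29a1_HS.Mom
import Pool.Agent.W_7d29a1_HS.VarS
import Pool.Agent.W_7d29a1_HS.TransB

/-!
TRACK H, part 4 (MP_7d29a1_pr): STORM X at one tilt `s` (model: `W_7d29a1_XA.Chi`, `Super`): the variance of `log Z_n(h)`, the non random
fluctuation, and the exponent `χ(h)`. (helper4)
-/

set_option autoImplicit false

namespace Pool.Agent.W_7d29a1_HX.XA

open MeasureTheory ProbabilityTheory Filter Topology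
open Pool.Agent.W_7d29a1_F Pool.Agent.W_7d29a1_h4g Pool.Agent.W_7d29a1_H Pool.Agent.W_7d29a1_HS

noncomputable section

variable {μ : Measure ℝ} [IsProbabilityMeasure μ] {s c C : ℝ} {n₀ : ℕ}

/-- The variance is at most the second moment. -/
theorem var_le_sq (n : ℕ) : Var[fun η => V μ s η 0 n; law μ] ≤ ∫ η, |V μ s η 0 n| ^ 2 ∂(law μ) := by
  have h3 := variance_le_expectation_sq (μ := law μ) (X := fun η => V μ s η 0 n)
    (Sub_V (μ := μ) (s := s) 0 n).1.aestronglyMeasurable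
  refine h3.trans (le_of_eq ?_)
  refine integral_congr_ae (Eventually.of_forall fun η => ?_)
  simp [sq_abs]

/-- The variance of the free energy: power superconcentration, from the power bound of the unit. -/
theorem var_power_of (h : In μ s c C n₀) {D e : ℝ} (hD : 0 < D) (he : 0 < e)
    (h1 : ∀ n : ℕ, 1 ≤ n → EE μ s n ^ 2 ≤ D * (n : ℝ) ^ (1 - e)) :
    ∃ B e : ℝ, 0 < B ∧ 0 < e ∧ e ≤ 1 ∧ ∀ n : ℕ, 1 ≤ n →
      Var[fun η => V μ s η 0 n; law μ] ≤ B * (n : ℝ) ^ (1 - e) := by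
  obtain ⟨A, hA⟩ := moments h 2
  refine ⟨max A 1 * D, min e 1, by positivity, lt_min he one_pos, min_le_right _ _, fun n hn => ?_⟩
  have hE : 0 ≤ EE μ s n ^ 2 := sq_nonneg _
  have hn1 : (1 : ℝ) ≤ n := by exact_mod_cast hn
  calc Var[fun η => V μ s η 0 n; law μ] ≤ ∫ η, |V μ s η 0 n| ^ 2 ∂(law μ) := var_le_sq n
    _ ≤ A * EE μ s n ^ 2 := (hA n hn).2
    _ ≤ max A 1 * EE μ s n ^ 2 := mul_le_mul_of_nonneg_right (le_max_left _ _) hE
    _ ≤ max A 1 * (D * (n : ℝ) ^ (1 - e)) := mul_le_mul_of_nonneg_left (h1 n hn) (by positivity)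
    _ ≤ max A 1 * (D * (n : ℝ) ^ (1 - min e 1)) := by
        apply mul_le_mul_of_nonneg_left _ (by positivity)
        apply mul_le_mul_of_nonneg_left _ hD.le
        exact Real.rpow_le_rpow_of_exponent_le hn1 (by have := min_le_left e 1; linarith)
    _ = max A 1 * D * (n : ℝ) ^ (1 - min e 1) := by ring

/-- The variance of the free energy at two scales, from the bound of the unit at two scales. -/
theorem var_power_two_of (h : In μ s c C n₀) {D e : ℝ} {n₁ : ℕ} (hD : 0 < D) (hn1 : 1 ≤ n₁)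
    (h1 : ∀ m n : ℕ, n₁ ≤ m → m ≤ n → EE μ s n ^ 2 ≤ D * ((n : ℝ) / m) ^ (1 - e) * EE μ s m ^ 2) :
    ∃ B : ℝ, 0 < B ∧ ∀ m n : ℕ, n₁ ≤ m → m ≤ n →
      Var[fun η => V μ s η 0 n; law μ] ≤ B * ((n : ℝ) / m) ^ (1 - e) * Var[fun η => V μ s η 0 m; law μ] := by
  obtain ⟨A, hA⟩ := moments h 2
  obtain ⟨a, ha, hva⟩ := var_ge h
  refine ⟨max A 1 * D / a, by positivity, fun m n hm hmn => ?_⟩
  have hm0 : 1 ≤ m := hn1.trans hm
  have hn0 : 1 ≤ n := hm0.trans hmn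
  have hE : 0 ≤ EE μ s n ^ 2 := sq_nonneg _
  have h4 : EE μ s m ^ 2 ≤ Var[fun η => V μ s η 0 m; law μ] / a := by
    rw [le_div_iff₀ ha, mul_comm]
    exact hva m hm0
  have h5 : 0 ≤ ((n : ℝ) / m) ^ (1 - e) := by positivity
  calc Var[fun η => V μ s η 0 n; law μ] ≤ ∫ η, |V μ s η 0 n| ^ 2 ∂(law μ) := var_le_sq n
    _ ≤ A * EE μ s n ^ 2 := (hA n hn0).2
    _ ≤ max A 1 * EE μ s n ^ 2 := mul_le_mul_of_nonneg_right (le_max_left _ _) hE
    _ ≤ max A 1 * (D * ((n : ℝ) / m) ^ (1 - e) * EE μ s m ^ 2) :=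
        mul_le_mul_of_nonneg_left (h1 m n hm hmn) (by positivity)
    _ ≤ max A 1 * (D * ((n : ℝ) / m) ^ (1 - e) * (Var[fun η => V μ s η 0 m; law μ] / a)) :=
        mul_le_mul_of_nonneg_left (mul_le_mul_of_nonneg_left h4 (by positivity)) (by positivity)
    _ = max A 1 * D / a * ((n : ℝ) / m) ^ (1 - e) * Var[fun η => V μ s η 0 m; law μ] := by ring

/-- The non random fluctuation, from the power bound of the unit. -/
theorem gap_power_of (h : In μ s c C n₀) {D e : ℝ} (hD : 0 < D) (he : 0 < e)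
    (h1 : ∀ n : ℕ, 1 ≤ n → EE μ s n ^ 2 ≤ D * (n : ℝ) ^ (1 - e)) :
    ∃ B e : ℝ, 0 < B ∧ 0 < e ∧ e ≤ 1 ∧ ∀ n : ℕ, 1 ≤ n →
      0 ≤ -∫ η, V μ s η 0 n ∂(law μ) ∧ -∫ η, V μ s η 0 n ∂(law μ) ≤ B * (n : ℝ) ^ ((1 - e) / 2) := by
  refine ⟨Real.sqrt D, min e 1, Real.sqrt_pos.2 hD, lt_min he one_pos, min_le_right _ _, fun n hn => ?_⟩
  obtain ⟨m1, m2⟩ := mean_V h n
  refine ⟨by linarith, ?_⟩
  have hn1 : (1 : ℝ) ≤ n := by exact_mod_cast hn
  have hn0 : (0 : ℝ) ≤ n := by linarith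
  have hE : 0 ≤ EE μ s n := (EE_pos (μ := μ) (s := s) n).le
  have h2 : EE μ s n ≤ Real.sqrt (D * (n : ℝ) ^ (1 - e)) := by
    rw [← Real.sqrt_sq hE]
    exact Real.sqrt_le_sqrt (h1 n hn)
  have h3 : Real.sqrt (D * (n : ℝ) ^ (1 - e)) = Real.sqrt D * (n : ℝ) ^ ((1 - e) / 2) := by
    rw [Real.sqrt_mul hD.le, Real.sqrt_eq_rpow ((n : ℝ) ^ (1 - e)), ← Real.rpow_mul hn0]
    ring_nf
  have h4 : (n : ℝ) ^ ((1 - e) / 2) ≤ (n : ℝ) ^ ((1 - min e 1) / 2) :=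
    Real.rpow_le_rpow_of_exponent_le hn1 (by have := min_le_left e 1; linarith)
  have h5 := mul_le_mul_of_nonneg_left h4 (Real.sqrt_nonneg D)
  linarith

/-- The variance of the free energy: power superconcentration. -/
theorem var_power (h : In μ s c C n₀) (hNL : XNL μ s) (hES : XES μ s) :
    ∃ B e : ℝ, 0 < B ∧ 0 < e ∧ e ≤ 1 ∧ ∀ n : ℕ, 1 ≤ n →
      Var[fun η => V μ s η 0 n; law μ] ≤ B * (n : ℝ) ^ (1 - e) := by
  obtain ⟨D, e, hD, he, h1⟩ := EE_power h hNL hES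
  exact var_power_of h hD he h1

/-- The variance of the free energy at all scales. -/
theorem var_power_two (h : In μ s c C n₀) (hNL : XNL μ s) (hES : XES μ s) :
    ∃ (B e : ℝ) (n₁ : ℕ), 0 < B ∧ 0 < e ∧ e ≤ 1 ∧ 1 ≤ n₁ ∧ ∀ m n : ℕ, n₁ ≤ m → m ≤ n →
      Var[fun η => V μ s η 0 n; law μ] ≤ B * ((n : ℝ) / m) ^ (1 - e) * Var[fun η => V μ s η 0 m; law μ] := by
  obtain ⟨D, e, n₁, hD, he, he1, hn1, h1⟩ := EE_power_two h hNL hES
  obtain ⟨B, hB, h2⟩ := var_power_two_of h hD hn1 h1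
  exact ⟨B, e, n₁, hB, he, he1, hn1, h2⟩

/-- The non random fluctuation. -/
theorem gap_power (h : In μ s c C n₀) (hNL : XNL μ s) (hES : XES μ s) :
    ∃ B e : ℝ, 0 < B ∧ 0 < e ∧ e ≤ 1 ∧ ∀ n : ℕ, 1 ≤ n →
      0 ≤ -∫ η, V μ s η 0 n ∂(law μ) ∧ -∫ η, V μ s η 0 n ∂(law μ) ≤ B * (n : ℝ) ^ ((1 - e) / 2) := by
  obtain ⟨D, e, hD, he, h1⟩ := EE_power h hNL hES
  exact gap_power_of h hD he h1

/-- The mean of the free energy: the non random fluctuations. -/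
theorem mean_power (h : In μ s c C n₀) (hNL : XNL μ s) (hES : XES μ s) :
    ∃ B e : ℝ, 0 < B ∧ 0 < e ∧ e ≤ 1 ∧ ∀ n : ℕ, 1 ≤ n →
      -∫ η, V μ s η 0 n ∂(law μ) ≤ B * (n : ℝ) ^ ((1 - e) / 2) := by
  obtain ⟨B, e, hB, he, he1, h1⟩ := gap_power h hNL hES
  exact ⟨B, e, hB, he, he1, fun n hn => (h1 n hn).2⟩

/-- From a power bound of the variance to the exponent `χ(h)`. -/
theorem chiH_le_of_var {Ω : Type*} [MeasurableSpace Ω] {P : Measure Ω} {β h : ℝ} {ω : ℕ × ℤ → Ω → ℝ}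
    {B e : ℝ} (he1 : e ≤ 1)
    (h0 : ∀ n : ℕ, 1 ≤ n → Var[fun x => Real.log (parZ β h (fun p => ω p x) n); P] ≤ B * (n : ℝ) ^ (1 - e)) :
    chiH P β h ω ≤ (1 - e) / 2 := by
  unfold chiH
  refine Real.sSup_le ?_ (by linarith)
  rintro a ⟨_, ha⟩
  by_contra hcon
  rw [not_le] at hcon
  have hd : 0 < 2 * a - (1 - e) := by linarith
  have h1 : Tendsto (fun n : ℕ => (n : ℝ) ^ (2 * a - (1 - e))) atTop atTop :=
    (tendsto_rpow_atTop hd).comp tendsto_natCast_atTop_atTop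
  obtain ⟨n, hn1, hn2, hn3⟩ := (ha.and ((h1.eventually_gt_atTop B).and (eventually_ge_atTop 1))).exists
  have hn0 : (0 : ℝ) < n := by exact_mod_cast hn3
  have h2 := h0 n hn3
  have h3 : (n : ℝ) ^ (2 * a) = (n : ℝ) ^ (2 * a - (1 - e)) * (n : ℝ) ^ (1 - e) := by
    rw [← Real.rpow_add hn0]
    ring_nf
  have h4 : 0 < (n : ℝ) ^ (1 - e) := Real.rpow_pos_of_pos hn0 _
  have h5 : (n : ℝ) ^ (2 * a - (1 - e)) * (n : ℝ) ^ (1 - e) ≤ B * (n : ℝ) ^ (1 - e) := by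
    rw [← h3]
    exact hn1.trans h2
  have h6 := le_of_mul_le_mul_right h5 h4
  linarith

end

end Pool.Agent.W_7d29a1_HX.XA
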