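import Pool.Agent.W_7d29a1_X42.Anova
import Pool.Agent.W_7d29a1_HX.XG_Good
import Pool.Agent.W_7d29a1_X50.Jen
import Pool.Agent.W_7d29a1_XA.Pure

/-!
TRACK H, part 4 (MP_7d29a1_pr): STORM X at one tilt `s` (model: `W_7d29a1_XA.Defs`), the assembly: the slabs of the levels,
the sums of the conditional variances and of the interactions, the interface of (NL) and (ES), and the theorem on the unit.
(helper51)
-/

set_option autoImplicit false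

namespace Pool.Agent.W_7d29a1_HX.XA

open MeasureTheory ProbabilityTheory Filter Topology Finset
open Pool.Agent.W_7d29a1_F Pool.Agent.W_7d29a1_h4g Pool.Agent.W_7d29a1_H Pool.Agent.W_7d29a1_HS
open Pool.Agent.W_7d29a1_X42
open Pool.Agent.W_7d29a1_HX.XG
open Pool.Agent.W_7d29a1_f21 (lw splice)

noncomputable section

/-- The slab `k` of the level `i`: the rows `(k 2^i, (k+1) 2^i]`. -/
def slab (i k : ℕ) : Set Pt := rows ((k * 2 ^ i : ℕ) : ℤ) (((k + 1) * 2 ^ i : ℕ) : ℤ)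

/-- The free energy. -/
def Fn (μ : Measure ℝ) (s : ℝ) (N : ℕ) : Env → ℝ := fun η => V μ s η 0 N

/-- `E_m ^ 2 / m` for `m = 2 ^ i`. -/
def aa (μ : Measure ℝ) (s : ℝ) (i : ℕ) : ℝ := EE μ s (2 ^ i) ^ 2 / 2 ^ i

/-- The sum of the conditional variances over the slabs of the level `i`. -/
def DD (μ : Measure ℝ) (s : ℝ) (N i : ℕ) : ℝ := ∑ k ∈ range (N + 1), ev μ (slab i k) (Fn μ s N)

/-- The sum of the interactions of the pairs of slabs of the level `i`. -/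
def MM (μ : Measure ℝ) (s : ℝ) (N i : ℕ) : ℝ :=
  ∑ k ∈ range (N + 1), mix μ (slab i (2 * k)) (slab i (2 * k + 1)) (Fn μ s N)

/-- The gain of the glued functional, in units of the level `i`. -/
def GG (μ : Measure ℝ) (s : ℝ) (N i : ℕ) : ℝ := max (bb μ s (N - 2 * 2 ^ i) - bb μ s N) 0 / EE μ s (2 ^ i)

variable {μ : Measure ℝ} {s : ℝ}

lemma slab_zero_level (k : ℕ) : slab 0 k = rows (k : ℤ) (k + 1) := by
  unfold slab
  norm_num

lemma slab_union (i k : ℕ) : slab i (2 * k) ∪ slab i (2 * k + 1) = slab (i + 1) k := by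
  unfold slab rows
  ext p
  simp only [Set.mem_union, Set.mem_ofPred_eq]
  have h1 : ((2 * k + 1 + 1) * 2 ^ i : ℕ) = (k + 1) * 2 ^ (i + 1) := by ring
  have h2 : (2 * k * 2 ^ i : ℕ) = k * 2 ^ (i + 1) := by ring
  rw [h1, h2]
  have h3 : ((k * 2 ^ (i + 1) : ℕ) : ℤ) ≤ (((2 * k + 1) * 2 ^ i : ℕ) : ℤ) := by
    have : k * 2 ^ (i + 1) ≤ (2 * k + 1) * 2 ^ i := by
      rw [← h2]
      exact Nat.mul_le_mul_right _ (by omega)
    exact_mod_cast this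
  have h4 : (((2 * k + 1) * 2 ^ i : ℕ) : ℤ) ≤ (((k + 1) * 2 ^ (i + 1) : ℕ) : ℤ) := by
    have : (2 * k + 1) * 2 ^ i ≤ (k + 1) * 2 ^ (i + 1) := by
      rw [← h1]
      exact Nat.mul_le_mul_right _ (by omega)
    exact_mod_cast this
  omega

lemma slab_disj (i k : ℕ) : Disjoint (slab i (2 * k)) (slab i (2 * k + 1)) := by
  unfold slab
  exact rows_disj le_rfl

variable [IsProbabilityMeasure μ] {c C : ℝ} {n₀ : ℕ}

lemma EEp (n : ℕ) : 0 < EE μ s n := lt_of_lt_of_le one_pos (one_le_EE n)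

omit [IsProbabilityMeasure μ] in
lemma measurable_Fn (N : ℕ) : Measurable (Fn μ s N) := (Sub_V 0 N).1

lemma memLp_Fn (hEM : Pool.Agent.W_7d29a1_h47.EM μ) (N : ℕ) : MemLp (Fn μ s N) 2 (lw Pt μ) := by
  rw [memLp_two_iff_integrable_sq (measurable_Fn N).aestronglyMeasurable]
  exact Sub.sq_integrable hEM (Sub_V 0 N)

omit [IsProbabilityMeasure μ] in
lemma Fn_dep (N : ℕ) : DependsOn (Fn μ s N) (rows 0 N) := by
  have h1 := V_dep_rows (μ := μ) (s := s) (0 : Pt) N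
  have h2 : rows (0 : Pt).1 ((0 : Pt).1 + N) = rows 0 N := by simp
  rw [h2] at h1
  exact h1

omit [IsProbabilityMeasure μ] in
lemma DD_nonneg (N i : ℕ) : 0 ≤ DD μ s N i := Finset.sum_nonneg fun _ _ => ev_nonneg _ _

omit [IsProbabilityMeasure μ] in
lemma MM_nonneg (N i : ℕ) : 0 ≤ MM μ s N i := Finset.sum_nonneg fun _ _ => mix_nonneg _ _ _

lemma aa_pos (i : ℕ) : 0 < aa μ s i := by
  unfold aa
  have := EEp (μ := μ) (s := s) (2 ^ i)
  positivity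

lemma GG_nonneg (N i : ℕ) : 0 ≤ GG μ s N i := by
  unfold GG
  have := EEp (μ := μ) (s := s) (2 ^ i)
  have : 0 ≤ max (bb μ s (N - 2 * 2 ^ i) - bb μ s N) 0 := le_max_right _ _
  positivity

lemma aa_two (hEM : Pool.Agent.W_7d29a1_h47.EM μ) (i : ℕ) : aa μ s (i + 1) ≤ 2 * aa μ s i := by
  unfold aa
  have h1 := EE_mul hEM s (2 ^ i) (k := 2) (by norm_num)
  have h2 := EEp (μ := μ) (s := s) (2 ^ i)
  have h3 := EEp (μ := μ) (s := s) (2 ^ (i + 1))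
  rw [show 2 * 2 ^ i = 2 ^ (i + 1) by ring] at h1
  push_cast at h1
  have h4 : EE μ s (2 ^ (i + 1)) ^ 2 ≤ (2 * EE μ s (2 ^ i)) ^ 2 := pow_le_pow_left₀ h3.le h1 2
  rw [mul_div_assoc', div_le_div_iff₀ (by positivity) (by positivity)]
  calc EE μ s (2 ^ (i + 1)) ^ 2 * 2 ^ i ≤ (2 * EE μ s (2 ^ i)) ^ 2 * 2 ^ i :=
        mul_le_mul_of_nonneg_right h4 (by positivity)
    _ = 2 * EE μ s (2 ^ i) ^ 2 * 2 ^ (i + 1) := by ring

omit [IsProbabilityMeasure μ] in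
/-- beyond the end -/
lemma ev_beyond {N i k : ℕ} (h : N ≤ k * 2 ^ i) : ev μ (slab i k) (Fn μ s N) = 0 := by
  refine ev_of_not_dep (Fn_dep N) ?_
  unfold slab
  exact rows_disj (by exact_mod_cast h)

/-- (A1). -/
theorem XMono (hEM : Pool.Agent.W_7d29a1_h47.EM μ) (N i : ℕ) :
    DD μ s N (i + 1) + MM μ s N i ≤ DD μ s N i := by
  unfold DD MM
  rw [← Finset.sum_add_distrib]
  have h1 : ∀ k ∈ range (N + 1), ev μ (slab (i + 1) k) (Fn μ s N) +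
      mix μ (slab i (2 * k)) (slab i (2 * k + 1)) (Fn μ s N) =
      ev μ (slab i (2 * k)) (Fn μ s N) + ev μ (slab i (2 * k + 1)) (Fn μ s N) := by
    intro k _
    rw [← slab_union]
    exact ev_union (memLp_Fn hEM N) (slab_disj i k)
  rw [Finset.sum_congr rfl h1]
  have h2 : ∀ n : ℕ, ∑ k ∈ range n, (ev μ (slab i (2 * k)) (Fn μ s N) + ev μ (slab i (2 * k + 1)) (Fn μ s N)) =
      ∑ k ∈ range (2 * n), ev μ (slab i k) (Fn μ s N) := by
    intro n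
    induction n with
    | zero => simp
    | succ n ih =>
      rw [Finset.sum_range_succ, ih, show 2 * (n + 1) = 2 * n + 1 + 1 by ring, Finset.sum_range_succ,
        Finset.sum_range_succ]
      ring
  rw [h2]
  refine le_of_eq (Finset.sum_subset (by intro k hk; rw [mem_range] at hk ⊢; omega) ?_).symm
  intro k _ hk
  rw [mem_range, not_lt] at hk
  refine ev_beyond ?_
  calc N ≤ k * 1 := by omega
    _ ≤ k * 2 ^ i := Nat.mul_le_mul_left _ Nat.one_le_two_pow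

/-- The interface of (NL). -/
def XNL (μ : Measure ℝ) (s : ℝ) : Prop :=
  ∀ K : ℝ, ∃ c : ℝ, 0 < c ∧ ∃ j0 : ℕ, ∀ J1 : ℕ, ∃ i0 : ℕ, ∀ j i N : ℕ, i0 ≤ j → j ≤ i →
    i + j0 ≤ j + J1 → 2 ^ (j + J1) < N → N ≤ 2 * 2 ^ (j + J1) → GG μ s N i ≤ K →
    c * N * aa μ s i ≤ MM μ s N i

/-- The interface of (ES). -/
def XES (μ : Measure ℝ) (s : ℝ) : Prop :=
  ∀ e : ℝ, 0 < e → ∃ (C : ℝ) (j0 : ℕ), ∀ J1 : ℕ, j0 ≤ J1 → ∃ i0 : ℕ, ∀ j N : ℕ, i0 ≤ j →
    2 ^ (j + J1) < N → N ≤ 2 * 2 ^ (j + J1) →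
    DD μ s N j ≤ C * N * aa μ s j + e * N * ∑ i ∈ Icc j (j + J1), aa μ s i

/-- THE ASSEMBLY: power decay of `E_m ^ 2 / m`. -/
theorem asm (h : In μ s c C n₀) (hNL : XNL μ s) (hES : XES μ s) :
    ∃ C θ : ℝ, 0 < C ∧ 0 < θ ∧ θ < 1 ∧ ∀ J : ℕ, aa μ s J ≤ C * θ ^ J :=
  Pool.Agent.W_7d29a1_XA.asm_pure2 (a := aa μ s) (D := DD μ s) (M := MM μ s) (G := GG μ s) aa_pos
    (aa_two h.em) DD_nonneg MM_nonneg GG_nonneg (XMono h.em) hNL
    ⟨6, by norm_num, fun J al hal => XGood_of h J al fun i _ => hal i⟩ hES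

/-- THE ASSEMBLY: power decay of `E_m ^ 2 / m` from every scale. -/
theorem asm3 (h : In μ s c C n₀) (hNL : XNL μ s) (hES : XES μ s) :
    ∃ (C θ : ℝ) (j0 : ℕ), 0 < C ∧ 0 < θ ∧ θ < 1 ∧ ∀ j i : ℕ, j0 ≤ j → j ≤ i →
      aa μ s i ≤ C * θ ^ (i - j) * aa μ s j :=
  Pool.Agent.W_7d29a1_XA.asm_pure3 (a := aa μ s) (D := DD μ s) (M := MM μ s) (G := GG μ s) aa_pos
    (aa_two h.em) DD_nonneg MM_nonneg GG_nonneg (XMono h.em) hNL
    ⟨6, by norm_num, fun J al hal => XGood_of h J al fun i _ => hal i⟩ hES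

/-- The power bound on the unit, at all scales: `E_n ^ 2 ≤ C (n / m) ^ (1 - e) E_m ^ 2`. -/
theorem EE_power_two (hI : In μ s c C n₀) (hNL : XNL μ s) (hES : XES μ s) :
    ∃ (C e : ℝ) (n₁ : ℕ), 0 < C ∧ 0 < e ∧ e ≤ 1 ∧ 1 ≤ n₁ ∧ ∀ m n : ℕ, n₁ ≤ m → m ≤ n →
      EE μ s n ^ 2 ≤ C * ((n : ℝ) / m) ^ (1 - e) * EE μ s m ^ 2 := by
  obtain ⟨C, θ, j0, hC, hθ0, hθ1, h⟩ := asm3 hI hNL hES
  obtain ⟨e, he⟩ : ∃ e : ℝ, e = min (-Real.logb 2 θ) 1 := ⟨_, rfl⟩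
  have he0 : 0 < e := by
    rw [he]
    have : Real.logb 2 θ < 0 := Real.logb_neg (by norm_num) hθ0 hθ1
    exact lt_min (by linarith) one_pos
  have he1 : e ≤ 1 := by rw [he]; exact min_le_right _ _
  have hθe : θ ≤ (2 : ℝ) ^ (-e) := by
    calc θ = (2 : ℝ) ^ (Real.logb 2 θ) := (Real.rpow_logb (by norm_num) (by norm_num) hθ0).symm
      _ ≤ (2 : ℝ) ^ (-e) := by
        refine Real.rpow_le_rpow_of_exponent_le (by norm_num) ?_
        have : e ≤ -Real.logb 2 θ := by rw [he]; exact min_le_left _ _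
        linarith
  refine ⟨4 * C, e, 2 ^ j0, by positivity, he0, he1, Nat.one_le_two_pow, fun m n hm hmn => ?_⟩
  have hm0 : 0 < m := lt_of_lt_of_le (by positivity) hm
  have hn0 : 0 < n := lt_of_lt_of_le hm0 hmn
  obtain ⟨j, hj⟩ : ∃ j : ℕ, j = Nat.log 2 m := ⟨_, rfl⟩
  obtain ⟨i', hi'⟩ : ∃ i' : ℕ, i' = Nat.log 2 n := ⟨_, rfl⟩
  have h1 : 2 ^ j ≤ m := by
    rw [hj]
    exact Nat.pow_log_le_self 2 (by omega)
  have h2 : m < 2 ^ (j + 1) := by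
    rw [hj]
    exact Nat.lt_pow_succ_log_self (by norm_num) m
  have h3 : 2 ^ i' ≤ n := by
    rw [hi']
    exact Nat.pow_log_le_self 2 (by omega)
  have h4 : n < 2 ^ (i' + 1) := by
    rw [hi']
    exact Nat.lt_pow_succ_log_self (by norm_num) n
  have hj0 : j0 ≤ j := by
    rw [hj]
    exact Nat.le_log_of_pow_le (by norm_num) hm
  have hji : j ≤ i' + 1 := by
    rw [hj, hi']
    exact (Nat.log_mono_right hmn).trans (Nat.le_succ _)
  obtain ⟨t, ht⟩ : ∃ t : ℕ, i' + 1 = j + t := ⟨i' + 1 - j, by omega⟩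
  have h5 := h j (i' + 1) hj0 hji
  rw [ht, show j + t - j = t by omega] at h5
  unfold aa at h5
  have hp : (0 : ℝ) < 2 ^ (j + t) := by positivity
  have hpj : (0 : ℝ) < 2 ^ j := by positivity
  rw [div_le_iff₀ hp] at h5
  have hmR : (0 : ℝ) < m := by exact_mod_cast hm0
  have hnR : (0 : ℝ) < n := by exact_mod_cast hn0
  have e1 : C * θ ^ t * (EE μ s (2 ^ j) ^ 2 / 2 ^ j) * 2 ^ (j + t) = C * (θ ^ t * 2 ^ t) * EE μ s (2 ^ j) ^ 2 := by
    rw [pow_add]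
    field_simp
  rw [e1] at h5
  -- the ratio of the scales
  have h6 : (2 : ℝ) ^ t ≤ 4 * (n / m) := by
    have g1 : (2 : ℝ) ^ (j + t) ≤ 2 * n := by
      rw [← ht, pow_succ]
      have : (2 : ℝ) ^ i' ≤ n := by exact_mod_cast h3
      linarith
    have g2 : (m : ℝ) ≤ 2 * 2 ^ j := by
      have : (m : ℝ) < 2 ^ (j + 1) := by exact_mod_cast h2
      rw [pow_succ] at this
      linarith
    rw [mul_div_assoc', le_div_iff₀ hmR]
    rw [pow_add] at g1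
    have g3 : (2 : ℝ) ^ t * m ≤ (2 : ℝ) ^ t * (2 * 2 ^ j) := mul_le_mul_of_nonneg_left g2 (by positivity)
    nlinarith
  have h7 : θ ^ t * 2 ^ t ≤ 4 * ((n : ℝ) / m) ^ (1 - e) := by
    have g1 : θ ^ t ≤ ((2 : ℝ) ^ t) ^ (-e) := by
      calc θ ^ t ≤ ((2 : ℝ) ^ (-e)) ^ t := pow_le_pow_left₀ hθ0.le hθe t
        _ = ((2 : ℝ) ^ t) ^ (-e) := by
          rw [← Real.rpow_natCast, ← Real.rpow_natCast, ← Real.rpow_mul (by norm_num),
            ← Real.rpow_mul (by norm_num)]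
          ring_nf
    have g2 : (0 : ℝ) < 2 ^ t := by positivity
    calc θ ^ t * 2 ^ t ≤ ((2 : ℝ) ^ t) ^ (-e) * 2 ^ t := mul_le_mul_of_nonneg_right g1 g2.le
      _ = ((2 : ℝ) ^ t) ^ (1 - e) := by
          rw [sub_eq_add_neg, add_comm (1 : ℝ), Real.rpow_add g2, Real.rpow_one]
      _ ≤ (4 * ((n : ℝ) / m)) ^ (1 - e) := Real.rpow_le_rpow g2.le h6 (by linarith)
      _ = (4 : ℝ) ^ (1 - e) * ((n : ℝ) / m) ^ (1 - e) :=
          Real.mul_rpow (by norm_num) (by positivity)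
      _ ≤ 4 * ((n : ℝ) / m) ^ (1 - e) := by
          apply mul_le_mul_of_nonneg_right _ (by positivity)
          calc (4 : ℝ) ^ (1 - e) ≤ 4 ^ (1 : ℝ) :=
                Real.rpow_le_rpow_of_exponent_le (by norm_num) (by linarith)
            _ = 4 := Real.rpow_one _
  have h8 : EE μ s n ≤ EE μ s (2 ^ (j + t)) := EU_mono (by rw [← ht]; exact h4.le)
  have h9 : EE μ s (2 ^ j) ≤ EE μ s m := EU_mono h1
  have h10 : EE μ s n ^ 2 ≤ EE μ s (2 ^ (j + t)) ^ 2 := pow_le_pow_left₀ (EEp (s := s) n).le h8 2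
  have h11 : EE μ s (2 ^ j) ^ 2 ≤ EE μ s m ^ 2 := pow_le_pow_left₀ (EEp (s := s) _).le h9 2
  have h12 : 0 ≤ EE μ s (2 ^ j) ^ 2 := sq_nonneg _
  have h13 : 0 ≤ ((n : ℝ) / m) ^ (1 - e) := by positivity
  calc EE μ s n ^ 2 ≤ EE μ s (2 ^ (j + t)) ^ 2 := h10
    _ ≤ C * (θ ^ t * 2 ^ t) * EE μ s (2 ^ j) ^ 2 := h5
    _ ≤ C * (4 * ((n : ℝ) / m) ^ (1 - e)) * EE μ s m ^ 2 :=
        mul_le_mul (mul_le_mul_of_nonneg_left h7 hC.le) h11 h12 (by positivity)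
    _ = 4 * C * ((n : ℝ) / m) ^ (1 - e) * EE μ s m ^ 2 := by ring

/-- The power bound on the unit. -/
theorem EE_power (hI : In μ s c C n₀) (hNL : XNL μ s) (hES : XES μ s) :
    ∃ C e : ℝ, 0 < C ∧ 0 < e ∧ ∀ n : ℕ, 1 ≤ n → EE μ s n ^ 2 ≤ C * (n : ℝ) ^ (1 - e) := by
  obtain ⟨C, θ, hC, hθ0, hθ1, h⟩ := asm hI hNL hES
  obtain ⟨e, he⟩ : ∃ e : ℝ, e = -Real.logb 2 θ := ⟨_, rfl⟩
  have he0 : 0 < e := by
    rw [he]
    have : Real.logb 2 θ < 0 := Real.logb_neg (by norm_num) hθ0 hθ1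
    linarith
  have hθe : ∀ J : ℕ, θ ^ J = (2 : ℝ) ^ (-(e * J)) := by
    intro J
    have h1 : θ = (2 : ℝ) ^ (-e) := by
      rw [he, neg_neg, Real.rpow_logb (by norm_num) (by norm_num) hθ0]
    rw [h1, ← Real.rpow_natCast, ← Real.rpow_mul (by norm_num)]
    ring_nf
  refine ⟨4 * C * (2 : ℝ) ^ e, e, by positivity, he0, fun n hn => ?_⟩
  obtain ⟨J, hJ⟩ : ∃ J : ℕ, J = Nat.log 2 n := ⟨_, rfl⟩
  have h1 : 2 ^ J ≤ n := by
    rw [hJ]
    exact Nat.pow_log_le_self 2 (by omega)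
  have h2 : n ≤ 2 ^ (J + 1) := by
    rw [hJ]
    exact (Nat.lt_pow_succ_log_self (by norm_num) n).le
  have h3 : EE μ s n ≤ EE μ s (2 ^ (J + 1)) := EU_mono h2
  have h4 := h (J + 1)
  unfold aa at h4
  rw [div_le_iff₀ (by positivity), hθe] at h4
  have h5 : EE μ s n ^ 2 ≤ EE μ s (2 ^ (J + 1)) ^ 2 := pow_le_pow_left₀ (EEp (s := s) n).le h3 2
  have hn0 : (0 : ℝ) < n := by exact_mod_cast hn
  have h6 : (2 : ℝ) ^ J ≤ n := by exact_mod_cast h1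
  have h6' : (n : ℝ) ≤ (2 : ℝ) ^ (J + 1) := by exact_mod_cast h2
  have h7 : (2 : ℝ) ^ (-(e * ((J + 1 : ℕ) : ℝ))) ≤ (n : ℝ) ^ (-e) := by
    have h8 : (2 : ℝ) ^ (-(e * ((J + 1 : ℕ) : ℝ))) = ((2 : ℝ) ^ (J + 1)) ^ (-e) := by
      rw [← Real.rpow_natCast, ← Real.rpow_mul (by norm_num)]
      ring_nf
    rw [h8]
    exact Real.rpow_le_rpow_of_nonpos hn0 h6' (by linarith)
  have h9 : (2 : ℝ) ^ (J + 1) ≤ 2 * n := by
    rw [pow_succ]
    linarith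
  calc EE μ s n ^ 2 ≤ EE μ s (2 ^ (J + 1)) ^ 2 := h5
    _ ≤ C * (2 : ℝ) ^ (-(e * ((J + 1 : ℕ) : ℝ))) * 2 ^ (J + 1) := h4
    _ ≤ C * (n : ℝ) ^ (-e) * (2 * n) := by
        apply mul_le_mul (mul_le_mul_of_nonneg_left h7 hC.le) h9 (by positivity) (by positivity)
    _ = 2 * C * (n : ℝ) ^ (1 - e) := by
        rw [sub_eq_add_neg, Real.rpow_add hn0, Real.rpow_one]
        ring
    _ ≤ 4 * C * (2 : ℝ) ^ e * (n : ℝ) ^ (1 - e) := by
        apply mul_le_mul_of_nonneg_right _ (by positivity)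
        have : (1 : ℝ) ≤ 2 ^ e := Real.one_le_rpow (by norm_num) he0.le
        nlinarith

end

end Pool.Agent.W_7d29a1_HX.XA
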