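import Pool.Agent.W_7d29a1_HX.XA_Full
import Pool.Agent.W_7d29a1_HL.Cor

/-!
TRACK H, part 4 (MP_7d29a1_pr): STORM X at one tilt `s` (model: `W_7d29a1_XA.Small`), the assembly: the smallness of `log N`
against the unit of the small scale. (helper51)
-/

set_option autoImplicit false

namespace Pool.Agent.W_7d29a1_HX.XA

open MeasureTheory ProbabilityTheory Filter Topology Finset
open Pool.Agent.W_7d29a1_F Pool.Agent.W_7d29a1_h4g Pool.Agent.W_7d29a1_H Pool.Agent.W_7d29a1_HS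
open Pool.Agent.W_7d29a1_X42
open Pool.Agent.W_7d29a1_HX.XG
open Pool.Agent.W_7d29a1_X50 hiding St

noncomputable section

variable {μ : Measure ℝ} {s : ℝ} [IsProbabilityMeasure μ] {c C : ℝ} {n₀ : ℕ}

/-- The unit is larger than any multiple of the logarithm. -/
theorem EE_log51 (h : In μ s c C n₀) (K : ℝ) : ∃ n₁ : ℕ, ∀ n : ℕ, n₁ ≤ n → K * Real.log n ≤ EE μ s n := by
  obtain ⟨a, n₁, ha, -, hn₁, h1⟩ := Pool.Agent.W_7d29a1_HL.EE_pow h
  have hn0 : (0 : ℝ) < n₁ := by exact_mod_cast hn₁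
  obtain ⟨B, hB⟩ : ∃ B : ℝ, B = 2 * (n₁ : ℝ) ^ a * (|K| + 1) := ⟨_, rfl⟩
  have hB0 : 0 < B := by
    rw [hB]
    have : 0 < (n₁ : ℝ) ^ a := Real.rpow_pos_of_pos hn0 a
    positivity
  have h2 := (isLittleO_log_rpow_atTop ha).bound (show (0 : ℝ) < 1 / B by positivity)
  obtain ⟨n₂, h3⟩ := eventually_atTop.1 (tendsto_natCast_atTop_atTop.eventually h2)
  refine ⟨max n₁ n₂, fun n hn => ?_⟩
  have hn1 : n₁ ≤ n := (le_max_left _ _).trans hn
  have h4 := h3 n ((le_max_right _ _).trans hn)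
  have hnR : (0 : ℝ) < n := by exact_mod_cast (lt_of_lt_of_le hn₁ hn1)
  have hl : 0 ≤ Real.log n := Real.log_natCast_nonneg n
  rw [Real.norm_of_nonneg hl, Real.norm_of_nonneg (Real.rpow_nonneg hnR.le a)] at h4
  have h5 := h1 n₁ n le_rfl hn1
  have h6 : 1 ≤ EE μ s n₁ := one_le_EE n₁
  have h7 : ((n : ℝ) / n₁) ^ a = (n : ℝ) ^ a / (n₁ : ℝ) ^ a := Real.div_rpow hnR.le hn0.le a
  have h8 : 0 < (n₁ : ℝ) ^ a := Real.rpow_pos_of_pos hn0 a
  have h9 : (n : ℝ) ^ a / (n₁ : ℝ) ^ a ≤ 2 * EE μ s n := by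
    rw [← h7]
    have h10 : 0 ≤ ((n : ℝ) / n₁) ^ a := by positivity
    nlinarith
  have h11 : K * Real.log n ≤ |K| * Real.log n := mul_le_mul_of_nonneg_right (le_abs_self K) hl
  have h12 : (|K| + 1) * Real.log n ≤ (|K| + 1) * (1 / B * (n : ℝ) ^ a) :=
    mul_le_mul_of_nonneg_left h4 (by positivity)
  have h13 : (|K| + 1) * (1 / B * (n : ℝ) ^ a) = (n : ℝ) ^ a / (n₁ : ℝ) ^ a / 2 := by
    rw [hB]
    have : |K| + 1 ≠ 0 := by positivity
    field_simp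
  rw [h13] at h12
  linarith

/-- In the ranges of the assembly `K log N` is at most the unit of the lowest level. -/
theorem log_small (h : In μ s c C n₀) {K : ℝ} (hK : 0 ≤ K) (J1 : ℕ) : ∃ i0 : ℕ, ∀ j N : ℕ, i0 ≤ j →
    N ≤ 2 * 2 ^ (j + J1) → K * Real.log N ≤ EE μ s (2 ^ j) := by
  obtain ⟨n₃, h3⟩ := EE_log51 h (2 * K)
  refine ⟨max n₃ (J1 + 1), fun j N hj hN => ?_⟩
  have hj1 : n₃ ≤ j := (le_max_left _ _).trans hj
  have hj2 : J1 + 1 ≤ j := (le_max_right _ _).trans hj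
  have h4 := h3 (2 ^ j) (hj1.trans Nat.lt_two_pow_self.le)
  rcases Nat.eq_zero_or_pos N with h0 | h0
  · rw [h0]
    simpa using (EEp (μ := μ) (s := s) (2 ^ j)).le
  have h5 : Real.log N ≤ 2 * Real.log ((2 ^ j : ℕ) : ℝ) := by
    have h6 : (N : ℝ) ≤ (((2 ^ j : ℕ) : ℝ)) ^ 2 := by
      have h7 : N ≤ (2 ^ j) ^ 2 := by
        refine hN.trans ?_
        rw [← pow_succ', ← pow_mul]
        exact Nat.pow_le_pow_right (by norm_num) (by omega)
      exact_mod_cast h7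
    have h8 := Real.log_le_log (by exact_mod_cast h0) h6
    rw [Real.log_pow] at h8
    exact_mod_cast h8
  calc K * Real.log N ≤ K * (2 * Real.log ((2 ^ j : ℕ) : ℝ)) := mul_le_mul_of_nonneg_left h5 hK
    _ = 2 * K * Real.log ((2 ^ j : ℕ) : ℝ) := by ring
    _ ≤ EE μ s (2 ^ j) := h4

/-- The strong form of the bound on the complete slabs gives `ESF`. -/
theorem ESF_of_strong (h : In μ s c C n₀) (hF : ∃ (B K : ℝ) (j₀ : ℕ), ∀ j N : ℕ, j₀ ≤ j → 2 ^ j ≤ N →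
    K * Real.log N ≤ EE μ s (2 ^ j) →
    ∑ k ∈ range (N / 2 ^ j), (Pool.Agent.W_7d29a1_X50.St μ s (k * 2 ^ j) (2 ^ j) (N - (k + 1) * 2 ^ j) +
      Lk μ s (k * 2 ^ j) (2 ^ j) (N - (k + 1) * 2 ^ j)) ≤ B * N * aa μ s j) : ESF μ s := by
  obtain ⟨B, K, j₀, hF⟩ := hF
  refine ⟨B, fun J1 => ?_⟩
  obtain ⟨i0, hi0⟩ := log_small h (le_max_right K 0) J1
  refine ⟨max i0 j₀, fun j N hj hN1 hN2 => ?_⟩
  have h1 := hi0 j N ((le_max_left _ _).trans hj) hN2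
  have h2 : 2 ^ j ≤ N := (Nat.pow_le_pow_right (by norm_num) (Nat.le_add_right _ _)).trans hN1.le
  have h3 : 0 ≤ Real.log N := Real.log_natCast_nonneg N
  refine hF j N ((le_max_right _ _).trans hj) h2 (le_trans ?_ h1)
  exact mul_le_mul_of_nonneg_right (le_max_left _ _) h3

end

end Pool.Agent.W_7d29a1_HX.XA
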