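import Pool.Agent.W_7d29a1_HX.XA_Chi
import Pool.Agent.W_7d29a1_HS.MainS

/-!
TRACK H, part 4 (MP_7d29a1_pr): STORM X at every force `h`, on the probability space of the problem: power superconcentration of
`log Z_n(h)`, the non random fluctuation and the exponent `χ(h)` (model: `W_7d29a1_XA.Chi`, `Super`). (helper4)
-/

set_option autoImplicit false

namespace Pool.Agent.W_7d29a1_HX.XA

open MeasureTheory ProbabilityTheory Filter Topology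
open Pool.Agent.W_7d29a1_F Pool.Agent.W_7d29a1_h4g Pool.Agent.W_7d29a1_H Pool.Agent.W_7d29a1_HS
open Pool.Agent.W_7d29a1_h47 (EM_of Nondeg_of map_toEnv)
open Pool.Agent.W_7d29a1_SR (toF mp_toF)

noncomputable section

/-- **Power superconcentration at the force `h`**, from the input structure and the bounds of the unit at one tilt. -/
theorem super_of
    (hIn : ∀ (μ : Measure ℝ) [IsProbabilityMeasure μ], Pool.Agent.W_7d29a1_h47.EM μ → Pool.Agent.W_7d29a1_h47.Nondeg μ →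
      ∀ s : ℝ, ∃ (c C : ℝ) (n₀ : ℕ), In μ s c C n₀)
    (hS : ∀ (μ : Measure ℝ) [IsProbabilityMeasure μ] (s c C : ℝ) (n₀ : ℕ), In μ s c C n₀ →
      (∃ D e : ℝ, 0 < D ∧ 0 < e ∧ ∀ n : ℕ, 1 ≤ n → EE μ s n ^ 2 ≤ D * (n : ℝ) ^ (1 - e)) ∧
      (∃ (D e : ℝ) (n₁ : ℕ), 0 < D ∧ 0 < e ∧ e ≤ 1 ∧ 1 ≤ n₁ ∧ ∀ m n : ℕ, n₁ ≤ m → m ≤ n →
        EE μ s n ^ 2 ≤ D * ((n : ℝ) / m) ^ (1 - e) * EE μ s m ^ 2))
    {Ω : Type*} [MeasurableSpace Ω] (P : Measure Ω) [IsProbabilityMeasure P]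
    (ω : ℕ × ℤ → Ω → ℝ) (hmeas : ∀ p, Measurable (ω p)) (hindep : iIndepFun ω P)
    (hident : ∀ p q, IdentDistrib (ω p) (ω q) P P) (hnc : ¬ ∃ c : ℝ, ∀ᵐ x ∂P, ω (0, 0) x = c)
    (hexp : ∀ b : ℝ, Integrable (fun x => Real.exp (b * ω (0, 0) x)) P) {β : ℝ} (hβ : 0 < β) (h : ℝ) :
    ∃ (F B e : ℝ) (n₁ : ℕ), 0 < B ∧ 0 < e ∧ e ≤ 1 ∧ 1 ≤ n₁ ∧
      (∀ᵐ x ∂P, Tendsto (fun n : ℕ => Real.log (parZ β h (fun p => ω p x) n) / n) atTop (𝓝 F)) ∧
      (∀ n : ℕ, 1 ≤ n → Var[fun x => Real.log (parZ β h (fun p => ω p x) n); P] ≤ B * (n : ℝ) ^ (1 - e)) ∧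
      (∀ m n : ℕ, n₁ ≤ m → m ≤ n → Var[fun x => Real.log (parZ β h (fun p => ω p x) n); P] ≤
        B * ((n : ℝ) / m) ^ (1 - e) * Var[fun x => Real.log (parZ β h (fun p => ω p x) m); P]) ∧
      (∀ n : ℕ, 1 ≤ n → 0 ≤ n * F - ∫ x, Real.log (parZ β h (fun p => ω p x) n) ∂P ∧
        n * F - ∫ x, Real.log (parZ β h (fun p => ω p x) n) ∂P ≤ B * (n : ℝ) ^ ((1 - e) / 2)) ∧
      chiH P β h ω ≤ (1 - e) / 2 := by
  obtain ⟨μ, hμdef⟩ : ∃ μ : Measure ℝ, μ = P.map fun x => β * ω (0, 0) x := ⟨_, rfl⟩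
  have hm0 : Measurable fun x => β * ω (0, 0) x := (hmeas _).const_mul β
  have hprob : IsProbabilityMeasure μ := by
    rw [hμdef]
    exact Measure.isProbabilityMeasure_map hm0.aemeasurable
  have hμ : Pool.Agent.W_7d29a1_h47.EM μ := by
    rw [hμdef]
    exact EM_of (hmeas _) hexp β
  have hnd : Pool.Agent.W_7d29a1_h47.Nondeg μ := by
    rw [hμdef]
    exact Nondeg_of (hmeas _) hnc hβ
  have hmpE := map_toEnv hmeas hindep hident β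
  rw [← hμdef] at hmpE
  have hmp := mp_toF hmeas hindep hident β
  rw [← hμdef] at hmp
  obtain ⟨c₀, C₀, n₀, hI⟩ := hIn μ hμ hnd (2 * h)
  obtain ⟨⟨D₁, e₁, hD₁, he₁, hE₁⟩, ⟨D₂, e₂, n₁, hD₂, he₂, he₂', hn1, hE₂⟩⟩ := hS μ (2 * h) c₀ C₀ n₀ hI
  obtain ⟨B, e, hB, he, he1, h1⟩ := var_power_of hI hD₁ he₁ hE₁
  obtain ⟨B', hB', h1'⟩ := var_power_two_of hI hD₂ hn1 hE₂
  obtain ⟨B'', e'', hB'', he'', he1'', h1''⟩ := gap_power_of hI hD₁ he₁ hE₁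
  obtain ⟨D, hD⟩ : ∃ D : ℝ, D = max B (max B' B'') := ⟨_, rfl⟩
  obtain ⟨d, hd⟩ : ∃ d : ℝ, d = min e (min e₂ e'') := ⟨_, rfl⟩
  have hD0 : 0 < D := by rw [hD]; exact lt_max_of_lt_left hB
  have hDB : B ≤ D := by rw [hD]; exact le_max_left _ _
  have hDB' : B' ≤ D := by rw [hD]; exact (le_max_left _ _).trans (le_max_right _ _)
  have hDB'' : B'' ≤ D := by rw [hD]; exact (le_max_right _ _).trans (le_max_right _ _)
  have hd0 : 0 < d := by rw [hd]; exact lt_min he (lt_min he₂ he'')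
  have hde : d ≤ e := by rw [hd]; exact min_le_left _ _
  have hde' : d ≤ e₂ := by rw [hd]; exact (min_le_right _ _).trans (min_le_left _ _)
  have hde'' : d ≤ e'' := by rw [hd]; exact (min_le_right _ _).trans (min_le_right _ _)
  have h2 : ∀ n : ℕ, 1 ≤ n → Var[fun x => Real.log (parZ β h (fun p => ω p x) n); P] ≤
      D * (n : ℝ) ^ (1 - d) := by
    intro n hn
    rw [var_parZ hmp]
    have hn1 : (1 : ℝ) ≤ n := by exact_mod_cast hn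
    refine (h1 n hn).trans (mul_le_mul hDB ?_ (by positivity) hD0.le)
    exact Real.rpow_le_rpow_of_exponent_le hn1 (by linarith)
  refine ⟨Pool.Agent.W_7d29a1_h47.Lam μ h - Real.log 2, D, d, n₁, hD0, hd0, hde.trans he1, hn1, lim_parZ hμ hmpE h, h2,
    ?_, ?_, chiH_le_of_var (hde.trans he1) h2⟩
  · intro m n hm hmn
    rw [var_parZ hmp, var_parZ hmp]
    have hm0 : (0 : ℝ) < m := by
      have : 0 < m := lt_of_lt_of_le hn1 hm
      exact_mod_cast this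
    have hr : (1 : ℝ) ≤ n / m := by
      rw [le_div_iff₀ hm0, one_mul]
      exact_mod_cast hmn
    refine (h1' m n hm hmn).trans (mul_le_mul_of_nonneg_right ?_ (variance_nonneg _ _))
    refine mul_le_mul hDB' ?_ (by positivity) hD0.le
    exact Real.rpow_le_rpow_of_exponent_le hr (by linarith)
  · intro n hn
    have hn1 : (1 : ℝ) ≤ n := by exact_mod_cast hn
    rw [mean_parZ hμ hmp]
    have h5 := h1'' n hn
    have h6 : B'' * (n : ℝ) ^ ((1 - e'') / 2) ≤ D * (n : ℝ) ^ ((1 - d) / 2) := by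
      refine mul_le_mul hDB'' ?_ (by positivity) hD0.le
      exact Real.rpow_le_rpow_of_exponent_le hn1 (by linarith)
    constructor <;> linarith [h5.1, h5.2]

/-- **Power superconcentration at the force `h`**, from the input structure, (NL) and (ES) at one tilt. -/
theorem main_superH
    (hIn : ∀ (μ : Measure ℝ) [IsProbabilityMeasure μ], Pool.Agent.W_7d29a1_h47.EM μ → Pool.Agent.W_7d29a1_h47.Nondeg μ →
      ∀ s : ℝ, ∃ (c C : ℝ) (n₀ : ℕ), In μ s c C n₀)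
    (hNL : ∀ (μ : Measure ℝ) [IsProbabilityMeasure μ] (s c C : ℝ) (n₀ : ℕ), In μ s c C n₀ → XNL μ s)
    (hES : ∀ (μ : Measure ℝ) [IsProbabilityMeasure μ] (s c C : ℝ) (n₀ : ℕ), In μ s c C n₀ → XES μ s)
    {Ω : Type*} [MeasurableSpace Ω] (P : Measure Ω) [IsProbabilityMeasure P]
    (ω : ℕ × ℤ → Ω → ℝ) (hmeas : ∀ p, Measurable (ω p)) (hindep : iIndepFun ω P)
    (hident : ∀ p q, IdentDistrib (ω p) (ω q) P P) (hnc : ¬ ∃ c : ℝ, ∀ᵐ x ∂P, ω (0, 0) x = c)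
    (hexp : ∀ b : ℝ, Integrable (fun x => Real.exp (b * ω (0, 0) x)) P) {β : ℝ} (hβ : 0 < β) (h : ℝ) :
    ∃ (F B e : ℝ) (n₁ : ℕ), 0 < B ∧ 0 < e ∧ e ≤ 1 ∧ 1 ≤ n₁ ∧
      (∀ᵐ x ∂P, Tendsto (fun n : ℕ => Real.log (parZ β h (fun p => ω p x) n) / n) atTop (𝓝 F)) ∧
      (∀ n : ℕ, 1 ≤ n → Var[fun x => Real.log (parZ β h (fun p => ω p x) n); P] ≤ B * (n : ℝ) ^ (1 - e)) ∧
      (∀ m n : ℕ, n₁ ≤ m → m ≤ n → Var[fun x => Real.log (parZ β h (fun p => ω p x) n); P] ≤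
        B * ((n : ℝ) / m) ^ (1 - e) * Var[fun x => Real.log (parZ β h (fun p => ω p x) m); P]) ∧
      (∀ n : ℕ, 1 ≤ n → 0 ≤ n * F - ∫ x, Real.log (parZ β h (fun p => ω p x) n) ∂P ∧
        n * F - ∫ x, Real.log (parZ β h (fun p => ω p x) n) ∂P ≤ B * (n : ℝ) ^ ((1 - e) / 2)) ∧
      chiH P β h ω ≤ (1 - e) / 2 :=
  super_of hIn (fun _ _ s c C n₀ hI => ⟨EE_power hI (hNL _ s c C n₀ hI) (hES _ s c C n₀ hI),
    EE_power_two hI (hNL _ s c C n₀ hI) (hES _ s c C n₀ hI)⟩) P ω hmeas hindep hident hnc hexp hβ h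

end

end Pool.Agent.W_7d29a1_HX.XA
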