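import Pool.Agent.W_7d29a1_HX.XG_Good
import Pool.Agent.W_7d29a1_HL.LuckSide

/-!
TRACK H, part 4 (MP_7d29a1_pr): STORM X at one tilt `s` (model: `W_7d29a1_XG.NLb`), (NL), probabilistic part (2): the first
maximiser of the weights of the glued functional, and the probability of the union over its values of the good events of the
slab and of the lucky tubes of the second copy. (helper5)
-/

set_option autoImplicit false

namespace Pool.Agent.W_7d29a1_HX.XG

open MeasureTheory ProbabilityTheory Filter Topology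
open Pool.Agent.W_7d29a1_F Pool.Agent.W_7d29a1_h4g Pool.Agent.W_7d29a1_H Pool.Agent.W_7d29a1_HS Pool.Agent.W_7d29a1_HL
open Pool.Agent.W_7d29a1_L78 Pool.Agent.W_7d29a1_f21 Pool.Agent.W_7d29a1_h60

noncomputable section

variable {μ : Measure ℝ} {s : ℝ}

/-- The site `x` is the first maximiser of the weights of the glued functional. -/
def Ox (μ : Measure ℝ) (s : ℝ) (a l r : ℕ) (x : ℤ) : Set Env :=
  {η | ∀ y ∈ Finset.Icc (0 : ℤ) a, gw μ s η a l r y ≤ gw μ s η a l r x ∧ (y < x → gw μ s η a l r y < gw μ s η a l r x)}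

theorem Ox_meas (a l r : ℕ) (x : ℤ) : MeasurableSet (Ox μ s a l r x) := by
  have h1 : Ox μ s a l r x = ⋂ y ∈ Finset.Icc (0 : ℤ) a, {η : Env | gw μ s η a l r y ≤ gw μ s η a l r x ∧
      (y < x → gw μ s η a l r y < gw μ s η a l r x)} := by
    ext η
    simp only [Ox, Set.mem_ofPred_eq, Set.mem_iInter]
  rw [h1]
  refine Finset.measurableSet_biInter _ fun y _ => ?_
  have h2 : {η : Env | gw μ s η a l r y ≤ gw μ s η a l r x ∧ (y < x → gw μ s η a l r y < gw μ s η a l r x)} =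
      {η : Env | gw μ s η a l r y ≤ gw μ s η a l r x} ∩ {η : Env | y < x → gw μ s η a l r y < gw μ s η a l r x} := by
    ext η
    simp only [Set.mem_ofPred_eq, Set.mem_inter_iff]
  rw [h2]
  refine (measurableSet_le (measurable_gw a l r y) (measurable_gw a l r x)).inter ?_
  by_cases hy : y < x
  · simp only [hy, true_imp_iff]
    exact measurableSet_lt (measurable_gw a l r y) (measurable_gw a l r x)
  · simp only [hy, false_imp_iff]
    simp

theorem Ox_disj {a l r : ℕ} {x y : ℤ} (hx : x ∈ Finset.Icc (0 : ℤ) a) (hy : y ∈ Finset.Icc (0 : ℤ) a) (h : x ≠ y) :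
    Disjoint (Ox μ s a l r x) (Ox μ s a l r y) := by
  rw [Set.disjoint_left]
  intro η h1 h2
  rcases lt_or_gt_of_ne h with h3 | h3
  · have h4 := (h2 x hx).2 h3
    have h5 := (h1 y hy).1
    linarith
  · have h4 := (h1 y hy).2 h3
    have h5 := (h2 x hx).1
    linarith

theorem Ox_cover (a l r : ℕ) (η : Env) : ∃ x ∈ Finset.Icc (0 : ℤ) a, η ∈ Ox μ s a l r x := by
  classical
  obtain ⟨x₀, hx₀, hmax⟩ := Finset.exists_max_image (Finset.Icc (0 : ℤ) a) (fun x => gw μ s η a l r x)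
    ⟨0, Finset.mem_Icc.2 ⟨le_rfl, Int.natCast_nonneg a⟩⟩
  obtain ⟨x, hx, hmin⟩ := Finset.exists_min_image ((Finset.Icc (0 : ℤ) a).filter fun x => gw μ s η a l r x = gw μ s η a l r x₀)
    (fun x => x) ⟨x₀, Finset.mem_filter.2 ⟨hx₀, rfl⟩⟩
  rw [Finset.mem_filter] at hx
  refine ⟨x, hx.1, fun y hy => ⟨?_, fun hyx => ?_⟩⟩
  · rw [hx.2]
    exact hmax y hy
  · rw [hx.2]
    refine lt_of_le_of_ne (hmax y hy) fun h => ?_
    have := hmin y (Finset.mem_filter.2 ⟨hy, h⟩)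
    omega

theorem gw_dep {a l r : ℕ} {η η' : Env} (h : ∀ p, p ∉ rows (a : ℤ) ((a : ℤ) + l) → η p = η' p) (y : ℤ) :
    gw μ s η a l r y = gw μ s η' a l r y := by
  unfold gw
  have h2 : W μ s η 0 a y = W μ s η' 0 a y := W_dep_rows (μ := μ) (s := s) 0 a y fun p hp => h p fun h3 => by
    have h4 : (a : ℤ) < p.1 := h3.1
    have h5 := hp.2
    simp only [Prod.fst_zero, zero_add] at h5
    omega
  have h3 : V μ s η ((a : ℤ) + l, y + md μ s l) r = V μ s η' ((a : ℤ) + l, y + md μ s l) r :=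
    V_dep_rows (μ := μ) (s := s) _ r fun p hp => h p fun h3 => by
      have h4 : p.1 ≤ (a : ℤ) + l := h3.2
      have h5 : (a : ℤ) + l < p.1 := hp.1
      omega
  rw [h2, h3]

theorem Ox_dep {a l r : ℕ} (x : ℤ) {η η' : Env} (h : ∀ p, p ∉ rows (a : ℤ) ((a : ℤ) + l) → η p = η' p) :
    η ∈ Ox μ s a l r x ↔ η' ∈ Ox μ s a l r x := by
  unfold Ox
  simp only [Set.mem_ofPred_eq, gw_dep h]

theorem Ox_log {a l r : ℕ} {x : ℤ} (hx : x ∈ Finset.Icc (0 : ℤ) a) {η : Env} (hη : η ∈ Ox μ s a l r x) :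
    Real.log (glue μ s η a l r) - Real.log (a + 1) ≤ -X μ s η 0 a x + V μ s η ((a : ℤ) + l, x + md μ s l) r := by
  have h1 : glue μ s η a l r ≤ (a + 1) * gw μ s η a l r x := by
    rw [glue_eq]
    refine (Finset.sum_le_card_nsmul _ _ _ fun y hy => (hη y hy).1).trans (le_of_eq ?_)
    rw [Int.card_Icc, nsmul_eq_mul]
    congr 1
    rw [sub_zero]
    have : ((a : ℤ) + 1).toNat = a + 1 := by omega
    rw [this]
    push_cast
    ring
  have ha : (0 : ℝ) < a + 1 := by positivity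
  rw [Finset.mem_Icc] at hx
  have h2 : 0 < W μ s η 0 a x := W_pos η 0 hx.1 hx.2
  have h3 := Real.log_le_log (glue_pos η a l r) h1
  unfold gw at h3
  rw [Real.log_mul ha.ne' (mul_pos h2 (Real.exp_pos _)).ne', Real.log_mul h2.ne' (Real.exp_pos _).ne', Real.log_exp] at h3
  unfold X
  linarith

variable [IsProbabilityMeasure μ]

theorem Ox_sum (a l r : ℕ) : ∑ x ∈ Finset.Icc (0 : ℤ) a, (law μ).real (Ox μ s a l r x) = 1 := by
  rw [← measureReal_biUnion_finset (fun x hx y hy h => Ox_disj hx hy h) fun x _ => Ox_meas a l r x]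
  have h1 : ⋃ x ∈ Finset.Icc (0 : ℤ) a, Ox μ s a l r x = Set.univ := by
    ext η
    simp only [Set.mem_iUnion, Set.mem_univ, iff_true]
    obtain ⟨x, hx, h2⟩ := Ox_cover (μ := μ) a l r η
    exact ⟨x, hx, h2⟩
  rw [h1]
  simp

theorem Ox_sum_inter (a l r : ℕ) {E : Set Env} (hE : MeasurableSet E) :
    ∑ x ∈ Finset.Icc (0 : ℤ) a, (law μ).real (Ox μ s a l r x ∩ E) ≤ (law μ).real E := by
  rw [← measureReal_biUnion_finset (fun x hx y hy h => (Ox_disj hx hy h).mono Set.inter_subset_left Set.inter_subset_left)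
    fun x _ => (Ox_meas a l r x).inter hE]
  refine measureReal_mono (fun η hη => ?_) (measure_ne_top _ _)
  simp only [Set.mem_iUnion] at hη
  obtain ⟨x, _, h2⟩ := hη
  exact h2.2

/-- The probability of the union over the values of the first maximiser. -/
theorem sum_prob (a l r : ℕ) {Gs A₀ E₁ : Set Env} (hGm : MeasurableSet Gs)
    (hGd : ∀ η η' : Env, (∀ p ∈ rows (0 : ℤ) l, η p = η' p) → (η ∈ Gs ↔ η' ∈ Gs)) (hA : MeasurableSet A₀)
    (hE : MeasurableSet E₁) {Bad : ℤ → Set (Env × Env)} (hB : ∀ x, MeasurableSet (Bad x)) {ε₁ ε₂ b : ℝ}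
    (h1 : (law μ).real Gsᶜ ≤ ε₁) (h2 : (law μ).real E₁ᶜ ≤ ε₂)
    (hb : ∀ x ∈ Finset.Icc (0 : ℤ) a, ((law μ).prod (law μ)).real
      ((Ox μ s a l r x ×ˢ {η | sh ((a : ℤ), x) η ∈ A₀}) ∩ Bad x) ≤ b * ((law μ).real (Ox μ s a l r x) * (law μ).real A₀)) :
    (law μ).real A₀ * (1 - ε₂ - ε₁ - b) ≤ ((law μ).prod (law μ)).real (⋃ x ∈ Finset.Icc (0 : ℤ) a,
      ((Ox μ s a l r x ∩ E₁ ∩ {η | sh ((a : ℤ), x) η ∈ Gs}) ×ˢ {η | sh ((a : ℤ), x) η ∈ A₀}) \ Bad x) := by
  obtain ⟨q, hq⟩ : ∃ q : ℝ, q = (law μ).real A₀ := ⟨_, rfl⟩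
  have hq0 : 0 ≤ q := by rw [hq]; exact measureReal_nonneg
  have hsm : ∀ x : ℤ, Measurable fun η : Env => sh ((a : ℤ), x) η := fun x =>
    (mp_sh (μ := μ) ((a : ℤ), x)).measurable
  have hGx : ∀ x : ℤ, MeasurableSet {η : Env | sh ((a : ℤ), x) η ∈ Gs} := fun x => hsm x hGm
  have hAx : ∀ x : ℤ, MeasurableSet {η : Env | sh ((a : ℤ), x) η ∈ A₀} := fun x => hsm x hA
  have hpA : ∀ x : ℤ, (law μ).real {η : Env | sh ((a : ℤ), x) η ∈ A₀} = q := fun x => by rw [real_sh _ hA, hq]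
  have hpG : ∀ x : ℤ, (law μ).real {η : Env | sh ((a : ℤ), x) η ∈ Gs}ᶜ ≤ ε₁ := fun x => by
    refine le_trans (le_of_eq ?_) h1
    rw [← real_sh (μ := μ) ((a : ℤ), x) hGm.compl]
    rfl
  -- one site
  have hone : ∀ x ∈ Finset.Icc (0 : ℤ) a, q * ((law μ).real (Ox μ s a l r x) * (1 - ε₁ - b) -
      (law μ).real (Ox μ s a l r x ∩ E₁ᶜ)) ≤ ((law μ).prod (law μ)).real
      (((Ox μ s a l r x ∩ E₁ ∩ {η | sh ((a : ℤ), x) η ∈ Gs}) ×ˢ {η | sh ((a : ℤ), x) η ∈ A₀}) \ Bad x) := by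
    intro x hx
    obtain ⟨O, hO⟩ : ∃ O : Set Env, O = Ox μ s a l r x := ⟨_, rfl⟩
    have hOm : MeasurableSet O := by rw [hO]; exact Ox_meas a l r x
    have hbx := hb x hx
    rw [← hO, ← hq] at hbx
    rw [← hO]
    obtain ⟨G, hG⟩ : ∃ G : Set Env, G = {η | sh ((a : ℤ), x) η ∈ Gs} := ⟨_, rfl⟩
    have hGm' : MeasurableSet G := by rw [hG]; exact hGx x
    have hGp : (law μ).real Gᶜ ≤ ε₁ := by rw [hG]; exact hpG x
    rw [← hG]
    obtain ⟨A, hA'⟩ : ∃ A : Set Env, A = {η | sh ((a : ℤ), x) η ∈ A₀} := ⟨_, rfl⟩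
    have hAm' : MeasurableSet A := by rw [hA']; exact hAx x
    have hAp : (law μ).real A = q := by rw [hA']; exact hpA x
    rw [← hA'] at hbx ⊢
    have i1 : (law μ).real (O ∩ Gᶜ) = (law μ).real O * (law μ).real Gᶜ := by
      refine real_inter_indep (μ := μ) hOm hGm'.compl (S := (rows (a : ℤ) ((a : ℤ) + l))ᶜ)
        (S' := rows (a : ℤ) ((a : ℤ) + l)) ?_ ?_ disjoint_compl_left
      · intro η η' hh
        rw [hO]
        exact Ox_dep x fun p hp => hh p hp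
      · intro η η' hh
        rw [hG, Set.mem_compl_iff, Set.mem_compl_iff, not_iff_not]
        refine hGd _ _ fun p hp => ?_
        show η (p + ((a : ℤ), x)) = η' (p + ((a : ℤ), x))
        refine hh _ ⟨?_, ?_⟩
        · have := hp.1
          show (a : ℤ) < p.1 + a
          omega
        · have := hp.2
          show p.1 + (a : ℤ) ≤ a + l
          omega
    have i2 : (law μ).real O * (1 - ε₁) - (law μ).real (O ∩ E₁ᶜ) ≤ (law μ).real (O ∩ E₁ ∩ G) := by
      have j1 : O ⊆ (O ∩ E₁ ∩ G) ∪ ((O ∩ E₁ᶜ) ∪ (O ∩ Gᶜ)) := by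
        intro η hη
        by_cases h3 : η ∈ E₁
        · by_cases h4 : η ∈ G
          · exact Or.inl ⟨⟨hη, h3⟩, h4⟩
          · exact Or.inr (Or.inr ⟨hη, h4⟩)
        · exact Or.inr (Or.inl ⟨hη, h3⟩)
      have j2 := measureReal_mono (μ := law μ) j1 (measure_ne_top _ _)
      have j3 := measureReal_union_le (μ := law μ) (O ∩ E₁ ∩ G) ((O ∩ E₁ᶜ) ∪ (O ∩ Gᶜ))
      have j4 := measureReal_union_le (μ := law μ) (O ∩ E₁ᶜ) (O ∩ Gᶜ)
      have j5 : (law μ).real O * (law μ).real Gᶜ ≤ (law μ).real O * ε₁ :=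
        mul_le_mul_of_nonneg_left hGp measureReal_nonneg
      rw [i1] at j4
      linarith
    have i3 : ((law μ).prod (law μ)).real ((O ∩ E₁ ∩ G) ×ˢ A) = (law μ).real (O ∩ E₁ ∩ G) * q := by
      rw [measureReal_prod_prod, hAp]
    have i4 : ((law μ).prod (law μ)).real ((O ∩ E₁ ∩ G) ×ˢ A) ≤
        ((law μ).prod (law μ)).real (((O ∩ E₁ ∩ G) ×ˢ A) \ Bad x) +
          ((law μ).prod (law μ)).real ((O ×ˢ A) ∩ Bad x) := by
      refine le_trans (measureReal_mono (fun w hw => ?_) (measure_ne_top _ _)) (measureReal_union_le _ _)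
      by_cases h3 : w ∈ Bad x
      · exact Or.inr ⟨⟨hw.1.1.1, hw.2⟩, h3⟩
      · exact Or.inl ⟨hw, h3⟩
    have i5 := mul_le_mul_of_nonneg_left i2 hq0
    rw [i3] at i4
    linarith
  rw [← hq, measureReal_biUnion_finset]
  · refine le_trans ?_ (Finset.sum_le_sum hone)
    rw [← Finset.mul_sum, Finset.sum_sub_distrib, ← Finset.sum_mul, Ox_sum]
    have h3 := Ox_sum_inter (μ := μ) (s := s) a l r hE.compl
    exact mul_le_mul_of_nonneg_left (by linarith) hq0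
  · intro x hx y hy h
    refine Set.disjoint_left.2 fun w hw hw2 => ?_
    exact Set.disjoint_left.1 (Ox_disj (μ := μ) (l := l) (r := r) hx hy h) hw.1.1.1.1 hw2.1.1.1.1
  · intro x _
    exact ((((Ox_meas a l r x).inter hE).inter (hGx x)).prod (hAx x)).diff (hB x)

end

end Pool.Agent.W_7d29a1_HX.XG
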