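import Pool.Agent.W_7d29a1_HL.Defs
import Pool.Agent.W_7d29a1_L78.RowA
import Pool.Agent.W_7d29a1_f21.Ind

/-!
TRACK H, part 4 (model XG/NLc, author helper5), one tilt. STORM X, (NL), probabilistic part (3): the event of the slab: the prices
of six fixed pairs, of four strips and of two crossings. The slab has the durations `e, f, f, e` and the displacements
`xe, xf, xf, ye`. (helper52)
-/

set_option autoImplicit false

namespace Pool.Agent.W_7d29a1_HX.XG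

open MeasureTheory ProbabilityTheory Filter Topology
open Pool.Agent.W_7d29a1_F Pool.Agent.W_7d29a1_h4g Pool.Agent.W_7d29a1_L78
open Pool.Agent.W_7d29a1_H Pool.Agent.W_7d29a1_HS Pool.Agent.W_7d29a1_HL Pool.Agent.W_7d29a1_f21 Pool.Agent.W_7d29a1_h60

noncomputable section

variable {μ : Measure ℝ} {s : ℝ}

theorem mWR52 (R : Set Pt) (a : Pt) (l : ℕ) (y : ℤ) : Measurable fun η : Env => WR μ s R η a l y :=
  (poly_WR (μ := μ) (s := s) R a l y).measurable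

/-- The price of a pair. -/
def PX (μ : Measure ℝ) (s b : ℝ) (p : Pt) (n : ℕ) (y : ℤ) : Set Env := {η | X μ s η p n y ≤ b}

/-- The price of a strip. -/
def PS (μ : Measure ℝ) (s ρ b : ℝ) (p : Pt) (n : ℕ) (y : ℤ) : Set Env :=
  {η | -Real.log (WR μ s (St μ s ρ p) η p n y) ≤ b}

/-- A crossing is expensive. -/
def PC (μ : Measure ℝ) (s q : ℝ) (p : Pt) (n : ℕ) (y : ℤ) : Set Env := {η | W μ s η p n y ≤ q}

theorem PX_meas (b : ℝ) (p : Pt) (n : ℕ) (y : ℤ) : MeasurableSet (PX μ s b p n y) :=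
  measurableSet_le (measurable_X p n y) measurable_const

theorem PS_meas (ρ b : ℝ) (p : Pt) (n : ℕ) (y : ℤ) : MeasurableSet (PS μ s ρ b p n y) :=
  measurableSet_le (mWR52 _ p n y).log.neg measurable_const

theorem PC_meas (q : ℝ) (p : Pt) (n : ℕ) (y : ℤ) : MeasurableSet (PC μ s q p n y) :=
  measurableSet_le (measurable_W p n y) measurable_const

/-- The event does not depend on the sites outside of the rows. -/
def On (A : Set Env) (u v : ℤ) : Prop := ∀ η η' : Env, (∀ p ∈ rows u v, η p = η' p) → (η ∈ A ↔ η' ∈ A)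

theorem On.inter {A B : Set Env} {u v : ℤ} (hA : On A u v) (hB : On B u v) : On (A ∩ B) u v := fun η η' h =>
  and_congr (hA η η' h) (hB η η' h)

theorem PX_on (b : ℝ) {p : Pt} {n : ℕ} (y : ℤ) {u v : ℤ} (h1 : u ≤ p.1) (h2 : p.1 + n ≤ v) : On (PX μ s b p n y) u v := by
  intro η η' h
  have h3 : X μ s η p n y = X μ s η' p n y := X_dep_rows (μ := μ) (s := s) p n y fun q hq => h q
    ⟨lt_of_le_of_lt h1 hq.1, le_trans hq.2 h2⟩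
  show X μ s η p n y ≤ b ↔ X μ s η' p n y ≤ b
  rw [h3]

theorem PS_on (ρ b : ℝ) {p : Pt} {n : ℕ} (y : ℤ) {u v : ℤ} (h1 : u ≤ p.1) (h2 : p.1 + n ≤ v) :
    On (PS μ s ρ b p n y) u v := by
  intro η η' h
  have h3 : WR μ s (St μ s ρ p) η p n y = WR μ s (St μ s ρ p) η' p n y := WR_dep (μ := μ) (s := s) _ p n y fun q hq => h q
    ⟨lt_of_le_of_lt h1 hq.1.1, le_trans hq.1.2.1 h2⟩
  show -Real.log (WR μ s (St μ s ρ p) η p n y) ≤ b ↔ -Real.log (WR μ s (St μ s ρ p) η' p n y) ≤ b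
  rw [h3]

theorem PC_on (q : ℝ) {p : Pt} {n : ℕ} (y : ℤ) {u v : ℤ} (h1 : u ≤ p.1) (h2 : p.1 + n ≤ v) : On (PC μ s q p n y) u v := by
  intro η η' h
  have h3 : W μ s η p n y = W μ s η' p n y := W_dep_rows (μ := μ) (s := s) p n y fun q hq => h q
    ⟨lt_of_le_of_lt h1 hq.1, le_trans hq.2 h2⟩
  show W μ s η p n y ≤ q ↔ W μ s η' p n y ≤ q
  rw [h3]

theorem PX_sh {b : ℝ} {z p : Pt} {n : ℕ} {y : ℤ} {η : Env} (h : sh z η ∈ PX μ s b p n y) : X μ s η (p + z) n y ≤ b := by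
  have h1 : X μ s (sh z η) p n y ≤ b := h
  rwa [X_sh] at h1

theorem WR_St_sh (ρ : ℝ) (z p : Pt) (n : ℕ) (y : ℤ) (η : Env) :
    WR μ s (St μ s ρ p) (sh z η) p n y = WR μ s (St μ s ρ (p + z)) η (p + z) n y := by
  rw [← WR_sh]
  congr 1
  ext q
  show |((q.2 - p.2 : ℤ) : ℝ) - sl μ s * ((q.1 - p.1 : ℤ) : ℝ)| ≤ ρ ↔
    |((q.2 + z.2 - (p.2 + z.2) : ℤ) : ℝ) - sl μ s * ((q.1 + z.1 - (p.1 + z.1) : ℤ) : ℝ)| ≤ ρ
  rw [add_sub_add_right_eq_sub, add_sub_add_right_eq_sub]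

theorem PS_sh {ρ b : ℝ} {z p : Pt} {n : ℕ} {y : ℤ} {η : Env} (h : sh z η ∈ PS μ s ρ b p n y) :
    -Real.log (WR μ s (St μ s ρ (p + z)) η (p + z) n y) ≤ b := by
  have h1 : -Real.log (WR μ s (St μ s ρ p) (sh z η) p n y) ≤ b := h
  rwa [WR_St_sh] at h1

theorem PC_sh {q : ℝ} {z p : Pt} {n : ℕ} {y : ℤ} {η : Env} (h : sh z η ∈ PC μ s q p n y) : W μ s η (p + z) n y ≤ q := by
  have h1 : W μ s (sh z η) p n y ≤ q := h
  rwa [W_sh] at h1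

/-- The event of the slab. -/
def GS (μ : Measure ℝ) (s : ℝ) (e f : ℕ) (xe xf ye L : ℤ) (ρ b₁ b₂ q : ℝ) : Set Env :=
  (((PX μ s b₁ 0 e (xe - 2 * L) ∩ PX μ s b₁ 0 (e + f) (xe + xf + 2 * L)) ∩
    (PX μ s b₁ 0 (e + f) (xe + xf + L) ∩ PX μ s b₁ ((e : ℤ) + 2 * f, xe + 2 * xf) e ye)) ∩
    (PX μ s b₁ 0 e xe ∩ PX μ s b₁ ((e : ℤ) + f, xe + xf - L) (e + f) (ye + xf + L))) ∩
  (((PS μ s ρ b₂ ((e : ℤ) + f, xe + xf + L) f xf ∩ PS μ s ρ b₂ ((e : ℤ) + f, xe + xf) f xf) ∩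
    (PS μ s ρ b₂ ((e : ℤ), xe - L) f xf ∩ PS μ s ρ b₂ ((e : ℤ), xe) f xf)) ∩
  (PC μ s q ((e : ℤ) + f, xe + xf) f (xf + L) ∩ PC μ s q ((e : ℤ), xe - L) f (xf + L)))

theorem GS_meas (e f : ℕ) (xe xf ye L : ℤ) (ρ b₁ b₂ q : ℝ) : MeasurableSet (GS μ s e f xe xf ye L ρ b₁ b₂ q) :=
  ((((PX_meas _ _ _ _).inter (PX_meas _ _ _ _)).inter ((PX_meas _ _ _ _).inter (PX_meas _ _ _ _))).inter
    ((PX_meas _ _ _ _).inter (PX_meas _ _ _ _))).inter ((((PS_meas _ _ _ _ _).inter (PS_meas _ _ _ _ _)).inter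
    ((PS_meas _ _ _ _ _).inter (PS_meas _ _ _ _ _))).inter ((PC_meas _ _ _ _).inter (PC_meas _ _ _ _)))

theorem GS_on (e f : ℕ) (xe xf ye L : ℤ) (ρ b₁ b₂ q : ℝ) :
    On (GS μ s e f xe xf ye L ρ b₁ b₂ q) 0 (2 * e + 2 * f : ℕ) := by
  have z1 : (0 : Pt).1 = 0 := rfl
  refine (((PX_on _ _ ?_ ?_).inter (PX_on _ _ ?_ ?_)).inter ((PX_on _ _ ?_ ?_).inter (PX_on _ _ ?_ ?_))).inter
    ((PX_on _ _ ?_ ?_).inter (PX_on _ _ ?_ ?_)) |>.inter ((((PS_on _ _ _ ?_ ?_).inter (PS_on _ _ _ ?_ ?_)).inter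
    ((PS_on _ _ _ ?_ ?_).inter (PS_on _ _ _ ?_ ?_))).inter ((PC_on _ _ ?_ ?_).inter (PC_on _ _ ?_ ?_)))
  all_goals first
    | exact le_rfl
    | (simp only [z1]; push_cast; omega)

variable [IsProbabilityMeasure μ]

omit [IsProbabilityMeasure μ] in
theorem real_compl_inter (A B : Set Env) : (law μ).real (A ∩ B)ᶜ ≤ (law μ).real Aᶜ + (law μ).real Bᶜ := by
  rw [Set.compl_inter]
  exact measureReal_union_le _ _

theorem mark (hEM : Pool.Agent.W_7d29a1_h47.EM μ) {g : Env → ℝ} (hg : Sub g) {b B : ℝ} (hb : 0 < b)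
    (hB : ∫ η, max (g η) 0 ∂(law μ) ≤ B) : (law μ).real {η | g η ≤ b}ᶜ ≤ B / b := by
  have h1 := mul_meas_ge_le_integral_of_nonneg (μ := law μ) (f := fun η => max (g η) 0)
    (ae_of_all _ fun η => le_max_right _ _) ((hg.max (Sub.const 0)).integrable hEM) b
  have h2 : (law μ).real {η | g η ≤ b}ᶜ ≤ (law μ).real {η | b ≤ max (g η) 0} := by
    refine measureReal_mono (fun η hη => ?_) (measure_ne_top _ _)
    rw [Set.mem_compl_iff, Set.mem_ofPred_eq, not_le] at hη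
    exact le_max_of_le_left hη.le
  rw [le_div_iff₀ hb, mul_comm]
  exact (mul_le_mul_of_nonneg_left h2 hb.le).trans (h1.trans hB)

theorem PX_prob (hEM : Pool.Agent.W_7d29a1_h47.EM μ) {b B : ℝ} (hb : 0 < b) (p : Pt) {n : ℕ} {y : ℤ} (h0 : 0 ≤ y)
    (h1 : y ≤ n) (hB : ep μ s n y ≤ B) : (law μ).real (PX μ s b p n y)ᶜ ≤ B / b := by
  refine mark hEM (Sub_X p h0 h1) hb ?_
  rw [integral_Xp]
  exact hB

theorem PS_prob (hEM : Pool.Agent.W_7d29a1_h47.EM μ) {ρ b B : ℝ} (hb : 0 < b) (p : Pt) {n : ℕ} {y : ℤ}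
    (hpos : ∀ η, 0 < WR μ s (St μ s ρ 0) η 0 n y)
    (hB : ∫ η, max (-Real.log (WR μ s (St μ s ρ 0) η 0 n y)) 0 ∂(law μ) ≤ B) :
    (law μ).real (PS μ s ρ b p n y)ᶜ ≤ B / b := by
  have h1 : Sub fun η => Real.log (WR μ s (St μ s ρ 0) η 0 n y) := (poly_WR (St μ s ρ 0) 0 n y).sub_log hpos
  have h2 := mark hEM h1.neg hb hB
  have h3 : {η : Env | -Real.log (WR μ s (St μ s ρ 0) η 0 n y) ≤ b} = PS μ s ρ b 0 n y := rfl
  rw [h3] at h2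
  refine le_trans (le_of_eq ?_) h2
  rw [← real_sh (μ := μ) p (PS_meas ρ b 0 n y).compl]
  congr 1
  ext η
  show ¬(-Real.log (WR μ s (St μ s ρ p) η p n y) ≤ b) ↔ ¬(-Real.log (WR μ s (St μ s ρ 0) (sh p η) 0 n y) ≤ b)
  rw [WR_St_sh, zero_add]

/-- The probability of the event of the slab. -/
theorem GS_prob (hEM : Pool.Agent.W_7d29a1_h47.EM μ) {e f : ℕ} {xe xf ye L : ℤ} {ρ b₁ b₂ q B₁ B₂ ε : ℝ} (hb₁ : 0 < b₁)
    (hb₂ : 0 < b₂)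
    (e1 : 0 ≤ xe - 2 * L ∧ xe - 2 * L ≤ e ∧ ep μ s e (xe - 2 * L) ≤ B₁)
    (e2 : 0 ≤ xe + xf + 2 * L ∧ xe + xf + 2 * L ≤ (e + f : ℕ) ∧ ep μ s (e + f) (xe + xf + 2 * L) ≤ B₁)
    (e3 : 0 ≤ xe + xf + L ∧ xe + xf + L ≤ (e + f : ℕ) ∧ ep μ s (e + f) (xe + xf + L) ≤ B₁)
    (e4 : 0 ≤ ye ∧ ye ≤ e ∧ ep μ s e ye ≤ B₁) (e5 : 0 ≤ xe ∧ xe ≤ e ∧ ep μ s e xe ≤ B₁)
    (e6 : 0 ≤ ye + xf + L ∧ ye + xf + L ≤ (e + f : ℕ) ∧ ep μ s (e + f) (ye + xf + L) ≤ B₁)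
    (hpos : ∀ η, 0 < WR μ s (St μ s ρ 0) η 0 f xf)
    (hS : ∫ η, max (-Real.log (WR μ s (St μ s ρ 0) η 0 f xf)) 0 ∂(law μ) ≤ B₂)
    (hC : ∀ p : Pt, (law μ).real (PC μ s q p f (xf + L))ᶜ ≤ ε) :
    (law μ).real (GS μ s e f xe xf ye L ρ b₁ b₂ q)ᶜ ≤ 6 * (B₁ / b₁) + 4 * (B₂ / b₂) + 2 * ε := by
  have x1 := PX_prob hEM (B := B₁) hb₁ 0 e1.1 e1.2.1 e1.2.2
  have x2 := PX_prob hEM (B := B₁) hb₁ 0 e2.1 e2.2.1 e2.2.2
  have x3 := PX_prob hEM (B := B₁) hb₁ 0 e3.1 e3.2.1 e3.2.2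
  have x4 := PX_prob hEM (B := B₁) hb₁ ((e : ℤ) + 2 * f, xe + 2 * xf) e4.1 e4.2.1 e4.2.2
  have x5 := PX_prob hEM (B := B₁) hb₁ 0 e5.1 e5.2.1 e5.2.2
  have x6 := PX_prob hEM (B := B₁) hb₁ ((e : ℤ) + f, xe + xf - L) e6.1 e6.2.1 e6.2.2
  have s1 := PS_prob hEM hb₂ ((e : ℤ) + f, xe + xf + L) hpos hS
  have s2 := PS_prob hEM hb₂ ((e : ℤ) + f, xe + xf) hpos hS
  have s3 := PS_prob hEM hb₂ ((e : ℤ), xe - L) hpos hS
  have s4 := PS_prob hEM hb₂ ((e : ℤ), xe) hpos hS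
  have c1 := hC ((e : ℤ) + f, xe + xf)
  have c2 := hC ((e : ℤ), xe - L)
  unfold GS
  have u2 : ∀ A B : Set Env, (law μ).real (A ∩ B)ᶜ ≤ (law μ).real Aᶜ + (law μ).real Bᶜ := real_compl_inter
  refine (u2 _ _).trans (le_trans (add_le_add ((u2 _ _).trans (add_le_add ((u2 _ _).trans (add_le_add (u2 _ _) (u2 _ _)))
    (u2 _ _))) ((u2 _ _).trans (add_le_add ((u2 _ _).trans (add_le_add (u2 _ _) (u2 _ _))) (u2 _ _)))) ?_)
  linarith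

end

end Pool.Agent.W_7d29a1_HX.XG
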