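import Pool.Agent.W_7d29a1_HX.XG_NLa
import Pool.Agent.W_7d29a1_HX.XG_NLb
import Pool.Agent.W_7d29a1_HX.XG_NLc

/-!
TRACK H, part 4 (model XG/NLd, author helper5), one tilt. STORM X, (NL), deterministic part on the good event: the free energies of
the four environments against the value of the first maximiser. (helper52)
-/

set_option autoImplicit false

namespace Pool.Agent.W_7d29a1_HX.XG

open MeasureTheory ProbabilityTheory Filter Topology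
open Pool.Agent.W_7d29a1_F Pool.Agent.W_7d29a1_h4g Pool.Agent.W_7d29a1_L78
open Pool.Agent.W_7d29a1_H Pool.Agent.W_7d29a1_HS Pool.Agent.W_7d29a1_HL Pool.Agent.W_7d29a1_f21 Pool.Agent.W_7d29a1_h60

noncomputable section

variable {μ : Measure ℝ} {s : ℝ}

/-- The lower bound of the free energy with one tube of the second copy. -/
theorem low {ρ : ℝ} (hρ : 0 ≤ ρ) (g g' : Env) {a : ℕ} {x : ℤ} (hx0 : 0 ≤ x) (hx1 : x ≤ a) {t₀ : ℕ} {y₀ : ℤ}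
    (hy0 : 0 ≤ y₀) (hy1 : y₀ ≤ t₀) (l t r : ℕ) (zz : ℤ)
    (hend : ∀ y : ℤ, 0 ≤ y → y ≤ l → |(y : ℝ) - sl μ s * l| ≤ ρ → 0 ≤ zz - y ∧ zz - y ≤ t)
    {o : Pt} (hs : o = ((a : ℤ) + t₀, x + y₀)) {T : Set Pt} (hT : St μ s ρ o ∩ rows o.1 (o.1 + l) ⊆ T)
    (hT1 : ∀ p ∈ T, o.1 < p.1 ∧ p.1 ≤ o.1 + l) (hcf : 0 < cS μ s (St μ s ρ o) g' o l) :
    -X μ s g 0 a x - X μ s g ((a : ℤ), x) t₀ y₀ + Real.log (cS μ s (St μ s ρ o) g' o l) - Cq μ s (St μ s ρ o) g' g o l t zz +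
      V μ s g ((a : ℤ) + t₀ + l + t, x + y₀ + zz) r ≤ V μ s (splice T g' g) 0 (a + t₀ + (l + (t + r))) := by
  obtain ⟨η, hη⟩ : ∃ η : Env, η = splice T g' g := ⟨_, rfl⟩
  have e1 : (((0 : Pt).1 + ((a + t₀ : ℕ) : ℤ), (0 : Pt).2 + (x + y₀)) : Pt) = o := by
    rw [hs]
    refine Prod.ext ?_ ?_
    · show (0 : ℤ) + ((a + t₀ : ℕ) : ℤ) = (a : ℤ) + t₀
      push_cast
      ring
    · show (0 : ℤ) + (x + y₀) = x + y₀
      ring
  have hc1 : cS μ s (St μ s ρ o) η o l = cS μ s (St μ s ρ o) g' o l := by rw [hη]; exact cS_splice g' g o l hT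
  have hc2 : CQ μ s (St μ s ρ o) η o l t zz = Cq μ s (St μ s ρ o) g' g o l t zz := by
    rw [hη]
    exact CQ_splice g' g o l t zz hT fun p hp => (hT1 p hp).2
  have h1 := luck_det (μ := μ) (s := s) (S := St μ s ρ o) hρ η 0 (t₁ := a + t₀) (y₁ := x + y₀) (by omega) (by push_cast; omega)
    (by rw [e1]) l t r zz hend (by rw [e1, hc1]; exact hcf)
  rw [e1, hc1, hc2] at h1
  have h2 : X μ s η 0 (a + t₀) (x + y₀) = X μ s g 0 (a + t₀) (x + y₀) := by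
    refine X_dep_rows (μ := μ) (s := s) 0 (a + t₀) (x + y₀) fun p hp => ?_
    rw [hη]
    refine splice_not_mem g' g fun hp2 => ?_
    have h3 := (hT1 p hp2).1
    have h4 := hp.2
    rw [hs] at h3
    simp only [Prod.fst_zero, zero_add] at h4
    push_cast at h4
    simp only at h3
    omega
  have h3 := X_add_le (μ := μ) (s := s) g 0 hx0 hx1 hy0 hy1
  have e2 : (((0 : Pt).1 + (a : ℤ), (0 : Pt).2 + x) : Pt) = ((a : ℤ), x) := by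
    refine Prod.ext ?_ ?_
    · show (0 : ℤ) + (a : ℤ) = a
      ring
    · show (0 : ℤ) + x = x
      ring
  rw [e2] at h3
  have h4 : V μ s η ((0 : Pt).1 + ((a + t₀ : ℕ) : ℤ) + l + t, (0 : Pt).2 + (x + y₀) + zz) r =
      V μ s g ((a : ℤ) + t₀ + l + t, x + y₀ + zz) r := by
    have e3 : (((0 : Pt).1 + ((a + t₀ : ℕ) : ℤ) + l + t, (0 : Pt).2 + (x + y₀) + zz) : Pt) =
        ((a : ℤ) + t₀ + l + t, x + y₀ + zz) := by
      refine Prod.ext ?_ ?_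
      · show (0 : ℤ) + ((a + t₀ : ℕ) : ℤ) + l + t = (a : ℤ) + t₀ + l + t
        push_cast
        ring
      · show (0 : ℤ) + (x + y₀) + zz = x + y₀ + zz
        ring
    rw [e3]
    refine V_dep_rows (μ := μ) (s := s) _ r fun p hp => ?_
    rw [hη]
    refine splice_not_mem g' g fun hp2 => ?_
    have h5 := (hT1 p hp2).2
    have h6 := hp.1
    rw [hs] at h5
    simp only at h5 h6
    omega
  rw [h2, h4, hη] at h1
  linarith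

/-- The first way of a crossing: the weight from the origin to a site, by the free energy. -/
theorem logW_le {g h : Env} {n₁ n₂ r : ℕ} {y₁ y₂ : ℤ} (h0 : 0 ≤ y₁) (h1 : y₁ ≤ n₁) (h2 : 0 ≤ y₂) (h3 : y₂ ≤ n₂)
    (hg : ∀ p : Pt, (n₁ : ℤ) < p.1 → h p = g p) :
    Real.log (W μ s h 0 n₁ y₁) ≤ V μ s h 0 (n₁ + (n₂ + r)) + X μ s g ((n₁ : ℤ), y₁) n₂ y₂ -
      V μ s g ((n₁ : ℤ) + n₂, y₁ + y₂) r := by
  have e1 := V_add_ge (μ := μ) (s := s) h 0 n₁ (n₂ + r) h0 h1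
  have e2 : (((0 : Pt).1 + (n₁ : ℤ), (0 : Pt).2 + y₁) : Pt) = ((n₁ : ℤ), y₁) := by
    refine Prod.ext ?_ ?_
    · show (0 : ℤ) + (n₁ : ℤ) = n₁
      ring
    · show (0 : ℤ) + y₁ = y₁
      ring
  rw [e2] at e1
  have e3 : V μ s h ((n₁ : ℤ), y₁) (n₂ + r) = V μ s g ((n₁ : ℤ), y₁) (n₂ + r) :=
    V_dep_rows (μ := μ) (s := s) _ (n₂ + r) fun p hp => hg p hp.1
  have e4 := V_add_ge (μ := μ) (s := s) g ((n₁ : ℤ), y₁) n₂ r h2 h3
  have e5 : X μ s h 0 n₁ y₁ = -Real.log (W μ s h 0 n₁ y₁) := rfl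
  rw [e3] at e1
  rw [e5] at e1
  simp only at e4
  linarith

/-- The last way of a crossing. -/
theorem Vend_le {g h : Env} {a n₁ n₂ : ℕ} {x y₁ : ℤ} (h0 : 0 ≤ x) (h1 : x ≤ a) (h2 : 0 ≤ y₁) (h3 : y₁ ≤ n₁)
    (hg : ∀ p : Pt, p.1 ≤ (a : ℤ) + n₁ → h p = g p) :
    V μ s h ((a : ℤ) + n₁, x + y₁) n₂ ≤ V μ s h 0 (a + n₁ + n₂) + X μ s g 0 a x + X μ s g ((a : ℤ), x) n₁ y₁ := by
  have e1 := V_add_ge (μ := μ) (s := s) h 0 (a + n₁) n₂ (k := x + y₁) (by omega) (by push_cast; omega)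
  have e2 : (((0 : Pt).1 + ((a + n₁ : ℕ) : ℤ), (0 : Pt).2 + (x + y₁)) : Pt) = ((a : ℤ) + n₁, x + y₁) := by
    refine Prod.ext ?_ ?_
    · show (0 : ℤ) + ((a + n₁ : ℕ) : ℤ) = (a : ℤ) + n₁
      push_cast
      ring
    · show (0 : ℤ) + (x + y₁) = x + y₁
      ring
  rw [e2] at e1
  have e3 : X μ s h 0 (a + n₁) (x + y₁) = X μ s g 0 (a + n₁) (x + y₁) :=
    X_dep_rows (μ := μ) (s := s) 0 (a + n₁) (x + y₁) fun p hp => hg p (by
      have h5 := hp.2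
      simp only [Prod.fst_zero, zero_add] at h5
      push_cast at h5
      omega)
  have e4 := X_add_le (μ := μ) (s := s) g 0 h0 h1 h2 h3
  have e5 : (((0 : Pt).1 + (a : ℤ), (0 : Pt).2 + x) : Pt) = ((a : ℤ), x) := by
    refine Prod.ext ?_ ?_
    · show (0 : ℤ) + (a : ℤ) = a
      ring
    · show (0 : ℤ) + x = x
      ring
  rw [e5] at e4
  rw [e3] at e1
  linarith

/-- One term of the crossings. -/
private lemma nl_term {k w v c s₁ s₂ E R : ℝ} (hk0 : 0 ≤ k) (hk : k ≤ Real.exp E) (hw : 0 < w) (hc0 : 0 ≤ c)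
    (hs₁ : 0 < s₁) (hs₂ : 0 < s₂) (h₁ : -Real.log s₁ ≤ E) (h₂ : -Real.log s₂ ≤ E)
    (hc : c ≤ Real.exp (-R)) : k * w * Real.exp v * c / (s₁ * s₂) ≤ Real.exp (Real.log w + v + 3 * E - R) := by
  have e1 : s₁⁻¹ ≤ Real.exp E := by
    rw [← Real.exp_log (inv_pos.2 hs₁), Real.exp_le_exp, Real.log_inv]
    exact h₁
  have e2 : s₂⁻¹ ≤ Real.exp E := by
    rw [← Real.exp_log (inv_pos.2 hs₂), Real.exp_le_exp, Real.log_inv]
    exact h₂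
  have e3 : k * w * Real.exp v * c / (s₁ * s₂) = (k * (Real.exp (Real.log w) * Real.exp v)) * c * (s₁⁻¹ * s₂⁻¹) := by
    rw [Real.exp_log hw]
    field_simp
  have e4 : Real.exp (Real.log w + v + 3 * E - R) = (Real.exp E * (Real.exp (Real.log w) * Real.exp v)) * Real.exp (-R) *
      (Real.exp E * Real.exp E) := by
    rw [← Real.exp_add, ← Real.exp_add, ← Real.exp_add, ← Real.exp_add, ← Real.exp_add]
    congr 1
    ring
  rw [e3, e4]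
  have e5 : (0 : ℝ) ≤ Real.exp (Real.log w) * Real.exp v := by positivity
  have e6 := inv_pos.2 hs₁
  have e7 := inv_pos.2 hs₂
  refine mul_le_mul (mul_le_mul (mul_le_mul_of_nonneg_right hk e5) hc hc0 (by positivity))
    (mul_le_mul e1 e2 e7.le (Real.exp_pos _).le) (by positivity) (by positivity)

/-- The real inequality. -/
theorem pure_nl {V00 V10 V01 V11 M E G u K₁ R k₁ k₀ w₁ v₁ c₁ s₁ s₂ w₀ v₀ c₀ s₃ s₄ : ℝ}
    (hE : Real.log 4 ≤ E) (hk₁0 : 0 ≤ k₁) (hk₁ : k₁ ≤ Real.exp E) (hk₀0 : 0 ≤ k₀) (hk₀ : k₀ ≤ Real.exp E)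
    (hmain : Real.exp V11 ≤ Real.exp V10 + Real.exp V01 + k₁ * w₁ * Real.exp v₁ * c₁ / (s₁ * s₂) +
      k₀ * w₀ * Real.exp v₀ * c₀ / (s₃ * s₄))
    (hw₁ : 0 < w₁) (hw₀ : 0 < w₀) (hc₁0 : 0 ≤ c₁) (hc₀0 : 0 ≤ c₀)
    (hs₁ : 0 < s₁) (hs₂ : 0 < s₂) (hs₃ : 0 < s₃) (hs₄ : 0 < s₄)
    (h₁ : -Real.log s₁ ≤ E) (h₂ : -Real.log s₂ ≤ E) (h₃ : -Real.log s₃ ≤ E) (h₄ : -Real.log s₄ ≤ E)
    (hc₁ : c₁ ≤ Real.exp (-R)) (hc₀ : c₀ ≤ Real.exp (-R))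
    (hp₁ : Real.log w₁ + v₁ ≤ V10 + V01 - M + 2 * u) (hp₀ : Real.log w₀ + v₀ ≤ V10 + V01 - M + 2 * u)
    (h00 : V00 ≤ M + (K₁ + 1) * E) (h10 : M + G - 2 * u ≤ V10) (h01 : M + G - 2 * u ≤ V01)
    (hG : 2 * u + (K₁ + 3) * E ≤ G) (hR : 2 * u + (K₁ + 6) * E ≤ R) :
    V11 - V10 - V01 + V00 ≤ -E := by
  obtain ⟨D, hD⟩ : ∃ D : ℝ, D = V10 + V01 - V00 - 2 * E := ⟨_, rfl⟩
  have a1 : Real.exp V10 ≤ Real.exp D := Real.exp_le_exp.2 (by rw [hD]; linarith)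
  have a2 : Real.exp V01 ≤ Real.exp D := Real.exp_le_exp.2 (by rw [hD]; linarith)
  have a3 : k₁ * w₁ * Real.exp v₁ * c₁ / (s₁ * s₂) ≤ Real.exp D :=
    (nl_term hk₁0 hk₁ hw₁ hc₁0 hs₁ hs₂ h₁ h₂ hc₁).trans (Real.exp_le_exp.2 (by rw [hD]; linarith))
  have a4 : k₀ * w₀ * Real.exp v₀ * c₀ / (s₃ * s₄) ≤ Real.exp D :=
    (nl_term hk₀0 hk₀ hw₀ hc₀0 hs₃ hs₄ h₃ h₄ hc₀).trans (Real.exp_le_exp.2 (by rw [hD]; linarith))
  have a5 : Real.exp V11 ≤ Real.exp (Real.log 4 + D) := by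
    rw [Real.exp_add, Real.exp_log (by norm_num)]
    linarith
  have a6 := Real.exp_le_exp.1 a5
  rw [hD] at a6
  linarith

end

end Pool.Agent.W_7d29a1_HX.XG
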