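import Pool.Agent.W_7d29a1_HX.XG_NLd
import Pool.Agent.W_7d29a1_X42.AnovaB
import Pool.Agent.W_7d29a1_HX.X20_Both

/-!
TRACK H, part 4 (model XG/NLe, author helper5), one tilt. STORM X, (NL): the second difference of the free energy over the two
tubes is at most minus the unit, on the good event. (helper52)
-/

set_option autoImplicit false

namespace Pool.Agent.W_7d29a1_HX.XG

open MeasureTheory ProbabilityTheory Filter Topology
open Pool.Agent.W_7d29a1_F Pool.Agent.W_7d29a1_h4g Pool.Agent.W_7d29a1_L78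
open Pool.Agent.W_7d29a1_H Pool.Agent.W_7d29a1_HS Pool.Agent.W_7d29a1_HL Pool.Agent.W_7d29a1_f21 Pool.Agent.W_7d29a1_h60
open Pool.Agent.W_7d29a1_X42 (dd)

noncomputable section

variable {μ : Measure ℝ} {s : ℝ}

/-- The deterministic input (helper20). -/
def BothT (μ : Measure ℝ) (s : ℝ) : Prop :=
  ∀ (g g' : Env) (T T' : Set Pt) (l l' : ℤ → ℤ), (∀ t, l t ≤ l (t + 1)) → (∀ t, l' t ≤ l' (t + 1)) →
  ∀ (r₀ k₀ k₁ n : ℕ), (∀ p ∈ T, (r₀ : ℤ) < p.1 ∧ p.1 ≤ (r₀ : ℤ) + k₀ ∧ p.2 < l' p.1) →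
    (∀ p ∈ T', (r₀ : ℤ) + k₀ < p.1 ∧ p.1 ≤ (r₀ : ℤ) + k₀ + k₁ ∧ l p.1 < p.2) →
  ∀ (x₀ y₀ xm y₁' y₁ x₁ y₂ : ℤ), 0 ≤ x₀ → x₀ ≤ r₀ → y₀ ≤ x₀ → y₁' ≤ xm → xm < y₁ → l' ((r₀ : ℤ) + k₀) ≤ xm →
    y₁ ≤ l ((r₀ : ℤ) + k₀) → x₁ ≤ y₂ →
    0 < WR μ s {p | p.2 ≤ l p.1} g ((r₀ : ℤ) + k₀, y₁) k₁ (y₂ - y₁) →
    0 < WR μ s {p | p.2 ≤ l p.1} g ((r₀ : ℤ) + k₀, xm) k₁ (x₁ - xm) →
    0 < WR μ s {p | l' p.1 ≤ p.2} g ((r₀ : ℤ), y₀) k₀ (y₁' - y₀) →
    0 < WR μ s {p | l' p.1 ≤ p.2} g ((r₀ : ℤ), x₀) k₀ (xm - x₀) →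
    Real.exp (V μ s (splice (T ∪ T') g' g) 0 (r₀ + k₀ + k₁ + n)) ≤
      Real.exp (V μ s (splice T g' g) 0 (r₀ + k₀ + k₁ + n)) + Real.exp (V μ s (splice T' g' g) 0 (r₀ + k₀ + k₁ + n)) +
      k₁ * W μ s (splice T g' g) 0 (r₀ + k₀ + k₁) x₁ *
        Real.exp (V μ s (splice T' g' g) ((r₀ : ℤ) + k₀, y₁) (k₁ + n)) *
        WR μ s {p | p.2 ≤ l p.1} g ((r₀ : ℤ) + k₀, xm) k₁ (y₂ - xm) /
        (WR μ s {p | p.2 ≤ l p.1} g ((r₀ : ℤ) + k₀, y₁) k₁ (y₂ - y₁) *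
          WR μ s {p | p.2 ≤ l p.1} g ((r₀ : ℤ) + k₀, xm) k₁ (x₁ - xm)) +
      k₀ * W μ s (splice T g' g) 0 (r₀ + k₀) y₁' *
        Real.exp (V μ s (splice T' g' g) ((r₀ : ℤ), x₀) (k₀ + k₁ + n)) *
        WR μ s {p | l' p.1 ≤ p.2} g ((r₀ : ℤ), y₀) k₀ (xm - y₀) /
        (WR μ s {p | l' p.1 ≤ p.2} g ((r₀ : ℤ), y₀) k₀ (y₁' - y₀) *
          WR μ s {p | l' p.1 ≤ p.2} g ((r₀ : ℤ), x₀) k₀ (xm - x₀))

open Pool.Agent.W_7d29a1_HX.X20 in
theorem bothT [IsProbabilityMeasure μ] : BothT μ s := by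
  intro g g' T T' l l' hl hl' r₀ k₀ k₁ n hT hT' x₀ y₀ xm y₁' y₁ x₁ y₂ a1 a2 a3 a4 a5 a6 a7 a8 b1 b2 b3 b4
  have hc : ((r₀ + k₀ : ℕ) : ℤ) = (r₀ : ℤ) + k₀ := by push_cast; ring
  have h0 : ((0 : ℤ), (0 : ℤ)) = (0 : Pt) := rfl
  have key := both_det (μ := μ) (s := s) hl hl' T T' (splice (T ∪ T') g' g) (splice T g' g) (splice T' g' g) g
    (fun p hp => by
      by_cases h : p ∈ T
      · rw [splice_mem g' g h, splice_mem g' g (Or.inl h)]
      · rw [splice_not_mem g' g h, splice_not_mem g' g fun h2 => h2.elim h hp])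
    (fun p hp => by
      by_cases h : p ∈ T'
      · rw [splice_mem g' g h, splice_mem g' g (Or.inr h)]
      · rw [splice_not_mem g' g h, splice_not_mem g' g fun h2 => h2.elim hp h])
    (fun p hp => by rw [splice_not_mem g' g hp]) r₀ k₀ k₁ (k₁ + n) (by omega)
    (by rw [hc]; exact hT) (by rw [hc]; exact hT') ⟨a1, a2⟩ a3 a4 (by rw [hc]; exact a6) (by rw [hc]; exact a7) a5 a8
    (by rw [hc]; exact b1) (by rw [hc]; exact b2) b3 b4
  rw [hc, h0] at key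
  have e1 : r₀ + k₀ + (k₁ + n) = r₀ + k₀ + k₁ + n := by ring
  have e2 : k₀ + (k₁ + n) = k₀ + k₁ + n := by ring
  rw [e1, e2] at key
  refine key.trans (le_of_eq ?_)
  show _ = _
  unfold Lw Rw
  ring

/-- The start of the first tube. -/
def sT (a e : ℕ) (xe L x : ℤ) : Pt := ((a : ℤ) + e, x + (xe - 2 * L))

/-- The start of the second tube. -/
def sT' (a e f : ℕ) (xe xf L x : ℤ) : Pt := ((a : ℤ) + (e + f : ℕ), x + (xe + xf + 2 * L))

/-- The first tube. -/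
def TT (μ : Measure ℝ) (s : ℝ) (a e f : ℕ) (xe L : ℤ) (ρ : ℝ) (x : ℤ) : Set Pt :=
  St μ s ρ (sT a e xe L x) ∩ rows (sT a e xe L x).1 ((sT a e xe L x).1 + f)

/-- The second tube. -/
def TT' (μ : Measure ℝ) (s : ℝ) (a e f : ℕ) (xe xf L : ℤ) (ρ : ℝ) (x : ℤ) : Set Pt :=
  St μ s ρ (sT' a e f xe xf L x) ∩ rows (sT' a e f xe xf L x).1 ((sT' a e f xe xf L x).1 + f)

/-- The first price which depends on both copies. -/
def C1 (μ : Measure ℝ) (s : ℝ) (a e f : ℕ) (xe xf ye L : ℤ) (ρ : ℝ) (x : ℤ) (w : Env × Env) : ℝ :=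
  Cq μ s (St μ s ρ (sT a e xe L x)) w.2 w.1 (sT a e xe L x) f (e + f) (2 * xf + ye + 2 * L)

/-- The second price which depends on both copies. -/
def C2 (μ : Measure ℝ) (s : ℝ) (a e f : ℕ) (xe xf ye L : ℤ) (ρ : ℝ) (x : ℤ) (w : Env × Env) : ℝ :=
  Cq μ s (St μ s ρ (sT' a e f xe xf L x)) w.2 w.1 (sT' a e f xe xf L x) f e (xf + ye - 2 * L)

/-- The line of the slope of the tilt. -/
def fl (μ : Measure ℝ) (s : ℝ) (t : ℤ) : ℤ := ⌊sl μ s * (t : ℝ)⌋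

theorem fl_succ (hsl : 0 ≤ sl μ s) (t : ℤ) : fl μ s t ≤ fl μ s (t + 1) := by
  unfold fl
  refine Int.floor_le_floor ?_
  push_cast
  nlinarith

theorem fl_zero : fl μ s 0 = 0 := by
  unfold fl
  simp

theorem fl_nat (n : ℕ) : fl μ s (n : ℤ) = md μ s n := by
  unfold fl md
  simp

theorem St_up52 {ρ : ℝ} {o p : Pt} (h : p ∈ St μ s ρ o) {A : ℤ} (hA : o.1 = A) :
    p.2 - o.2 ≤ fl μ s (p.1 - A) + ⌈ρ⌉ ∧ fl μ s (p.1 - A) - ⌈ρ⌉ ≤ p.2 - o.2 := by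
  subst hA
  have h1 : |((p.2 - o.2 : ℤ) : ℝ) - sl μ s * ((p.1 - o.1 : ℤ) : ℝ)| ≤ ρ := h
  have h2 := abs_le.1 h1
  have h3 := Int.le_ceil ρ
  have h4 := Int.lt_floor_add_one (sl μ s * ((p.1 - o.1 : ℤ) : ℝ))
  have h5 := Int.floor_le (sl μ s * ((p.1 - o.1 : ℤ) : ℝ))
  unfold fl
  constructor
  · have h6 : ((p.2 - o.2 : ℤ) : ℝ) < ((⌊sl μ s * ((p.1 - o.1 : ℤ) : ℝ)⌋ + ⌈ρ⌉ + 1 : ℤ) : ℝ) := by
      rw [Int.cast_add, Int.cast_add, Int.cast_one]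
      linarith
    have h7 := Int.cast_lt.1 h6
    omega
  · have h6 : ((⌊sl μ s * ((p.1 - o.1 : ℤ) : ℝ)⌋ - ⌈ρ⌉ : ℤ) : ℝ) ≤ ((p.2 - o.2 : ℤ) : ℝ) := by
      rw [Int.cast_sub]
      linarith
    exact Int.cast_le.1 h6

private lemma neg_log_mono {S S' : Set Pt} (hS : S ⊆ S') {η : Env} {p : Pt} {n : ℕ} {y : ℤ} {b : ℝ}
    (hpos : 0 < WR μ s S η p n y) (h : -Real.log (WR μ s S η p n y) ≤ b) :
    0 < WR μ s S' η p n y ∧ -Real.log (WR μ s S' η p n y) ≤ b := by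
  have h1 : WR μ s S η p n y ≤ WR μ s S' η p n y := by
    unfold WR
    exact mul_le_mul_of_nonneg_left (Zr_mono hS η p n y) (Real.exp_pos _).le
  have h2 := Real.log_le_log hpos h1
  exact ⟨lt_of_lt_of_le hpos h1, by linarith⟩

/-- The second difference on the good event. -/
theorem det_x (hB : BothT μ s) (hsl : 0 ≤ sl μ s) {a e f r : ℕ} {xe xf ye L x : ℤ} {ρ R : ℝ} (hρ : 0 ≤ ρ) (hR : 0 ≤ R)
    (hx : x ∈ Finset.Icc (0 : ℤ) a) (hxf : md μ s f = xf) (hye : md μ s (2 * e + 2 * f) = xe + 2 * xf + ye)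
    (hL0 : 0 ≤ L) (hf0 : 0 ≤ xf) (hf1 : xf ≤ f) (hr1 : (f : ℤ) + 2 * L ≤ xe) (hr2 : (f : ℤ) + 2 * L ≤ ye)
    (hr3 : xe + f + 2 * L ≤ e) (hr4 : ye + f + 2 * L ≤ e) (hsep : ⌈ρ⌉ + ⌈R⌉ + 3 ≤ L) {g g' : Env}
    {E G u K₁ Q : ℝ} (hE : Real.log 4 ≤ E) (ha : Real.log (a + 1) ≤ E) (hf : 1 ≤ f) (hfE : Real.log (f : ℕ) ≤ E)
    (hO : g ∈ Ox μ s a (2 * e + 2 * f) r x)
    (hE1 : V μ s g 0 (a + ((2 * e + 2 * f) + r)) ≤ Real.log (glue μ s g a (2 * e + 2 * f) r) + K₁ * E)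
    (hGS : sh ((a : ℤ), x) g ∈ GS μ s e f xe xf ye L R u E (Real.exp (-Q)))
    (hpos : ∀ p : Pt, 0 < WR μ s (St μ s R p) g p f xf)
    (hcf : 0 < cS μ s (St μ s ρ (sT a e xe L x)) g' (sT a e xe L x) f)
    (hcf' : 0 < cS μ s (St μ s ρ (sT' a e f xe xf L x)) g' (sT' a e f xe xf L x) f)
    (hA : G ≤ Real.log (cS μ s (St μ s ρ (sT a e xe L x)) g' (sT a e xe L x) f))
    (hA' : G ≤ Real.log (cS μ s (St μ s ρ (sT' a e f xe xf L x)) g' (sT' a e f xe xf L x) f))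
    (hC1 : C1 μ s a e f xe xf ye L ρ x (g, g') ≤ u) (hC2 : C2 μ s a e f xe xf ye L ρ x (g, g') ≤ u)
    (hG : 2 * u + (K₁ + 3) * E ≤ G) (hQ : 2 * u + (K₁ + 6) * E ≤ Q) :
    dd (TT μ s a e f xe L ρ x) (TT' μ s a e f xe xf L ρ x) (fun η => V μ s η 0 (a + ((2 * e + 2 * f) + r))) (g, g') ≤ -E := by
  obtain ⟨⟨⟨⟨p1, p2⟩, ⟨p3, p4⟩⟩, ⟨p5, p6⟩⟩, ⟨⟨⟨s1, s2⟩, ⟨s3, s4⟩⟩, ⟨c1, c2⟩⟩⟩ := hGS
  have hx' := Finset.mem_Icc.1 hx
  have hlog := Ox_log hx hO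
  have hR' : 0 ≤ ⌈R⌉ := Int.ceil_nonneg hR
  have hρ' : 0 ≤ ⌈ρ⌉ := Int.ceil_nonneg hρ
  obtain ⟨ze, hze⟩ : ∃ ze : Pt, ze = ((a : ℤ) + (2 * e + 2 * f : ℕ), x + md μ s (2 * e + 2 * f)) := ⟨_, rfl⟩
  rw [← hze] at hlog
  obtain ⟨X₀, hX₀⟩ : ∃ X₀ : ℝ, X₀ = X μ s g 0 a x := ⟨_, rfl⟩
  obtain ⟨Ve, hVe⟩ : ∃ Ve : ℝ, Ve = V μ s g ze r := ⟨_, rfl⟩
  rw [← hX₀, ← hVe] at hlog
  have q1 := PX_sh p1
  have q2 := PX_sh p2
  have q3 := PX_sh p3
  have q4 := PX_sh p4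
  have q5 := PX_sh p5
  have q6 := PX_sh p6
  rw [zero_add] at q1 q2 q3 q5
  -- the tubes
  have hT1 : ∀ p ∈ TT μ s a e f xe L ρ x, (sT a e xe L x).1 < p.1 ∧ p.1 ≤ (sT a e xe L x).1 + (f : ℕ) := fun p hp => hp.2
  have hT1' : ∀ p ∈ TT' μ s a e f xe xf L ρ x, (sT' a e f xe xf L x).1 < p.1 ∧ p.1 ≤ (sT' a e f xe xf L x).1 + (f : ℕ) :=
    fun p hp => hp.2
  -- the lower bounds
  have v10 := low (μ := μ) (s := s) hρ g g' hx'.1 hx'.2 (t₀ := e) (y₀ := xe - 2 * L) (by omega) (by omega)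
    f (e + f) r (2 * xf + ye + 2 * L) (fun y h0 h1 _ => by push_cast at h1 ⊢; omega)
    (o := sT a e xe L x) rfl (T := TT μ s a e f xe L ρ x) (fun p hp => hp) hT1 hcf
  have v01 := low (μ := μ) (s := s) hρ g g' hx'.1 hx'.2 (t₀ := e + f) (y₀ := xe + xf + 2 * L) (by omega)
    (by push_cast; omega) f e r (xf + ye - 2 * L) (fun y h0 h1 _ => by omega)
    (o := sT' a e f xe xf L x) rfl (T := TT' μ s a e f xe xf L ρ x) (fun p hp => hp) hT1' hcf'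
  have e1 : (((a : ℤ) + (e : ℕ) + (f : ℕ) + (e + f : ℕ), x + (xe - 2 * L) + (2 * xf + ye + 2 * L)) : Pt)
      = ze := by
    rw [hze, hye, Prod.mk.injEq]
    constructor
    · push_cast
      ring
    · ring
  have e2 : (((a : ℤ) + (e + f : ℕ) + (f : ℕ) + (e : ℕ), x + (xe + xf + 2 * L) + (xf + ye - 2 * L)) : Pt)
      = ze := by
    rw [hze, hye, Prod.mk.injEq]
    constructor
    · push_cast
      ring
    · ring
  have e3 : a + e + (f + (e + f + r)) = a + ((2 * e + 2 * f) + r) := by ring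
  have e4 : a + (e + f) + (f + (e + r)) = a + ((2 * e + 2 * f) + r) := by ring
  rw [e1, e3, ← hX₀, ← hVe] at v10
  rw [e2, e4, ← hX₀, ← hVe] at v01
  have hC1' : Cq μ s (St μ s ρ (sT a e xe L x)) g' g (sT a e xe L x) f (e + f) (2 * xf + ye + 2 * L) ≤ u := hC1
  have hC2' : Cq μ s (St μ s ρ (sT' a e f xe xf L x)) g' g (sT' a e f xe xf L x) f e (xf + ye - 2 * L) ≤ u := hC2
  -- the lines
  obtain ⟨A1, hA1⟩ : ∃ A1 : ℤ, A1 = ((a + e : ℕ) : ℤ) := ⟨_, rfl⟩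
  obtain ⟨A2, hA2⟩ : ∃ A2 : ℤ, A2 = ((a + e : ℕ) : ℤ) + (f : ℕ) := ⟨_, rfl⟩
  obtain ⟨l, hl⟩ : ∃ l : ℤ → ℤ, l = fun t => x + xe + xf + L + fl μ s (t - A2) + ⌈R⌉ + 1 := ⟨_, rfl⟩
  obtain ⟨l', hl'⟩ : ∃ l' : ℤ → ℤ, l' = fun t => x + xe - L + fl μ s (t - A1) - ⌈R⌉ - 1 := ⟨_, rfl⟩
  have i1 : ∀ t, l t ≤ l (t + 1) := fun t => by
    have h1 := fl_succ (μ := μ) (s := s) hsl (t - A2)
    rw [show t - A2 + 1 = t + 1 - A2 by ring] at h1
    rw [hl]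
    simp only
    omega
  have i2 : ∀ t, l' t ≤ l' (t + 1) := fun t => by
    have h1 := fl_succ (μ := μ) (s := s) hsl (t - A1)
    rw [show t - A1 + 1 = t + 1 - A1 by ring] at h1
    rw [hl']
    simp only
    omega
  have i3 : ∀ p ∈ TT μ s a e f xe L ρ x, ((a + e : ℕ) : ℤ) < p.1 ∧ p.1 ≤ ((a + e : ℕ) : ℤ) + (f : ℕ) ∧ p.2 < l' p.1 := by
    intro p hp
    have h1 := hT1 p hp
    have h2 := St_up52 hp.1 (A := A1) (by rw [hA1]; unfold sT; push_cast; ring)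
    unfold sT at h1 h2
    simp only at h1 h2
    rw [hl']
    simp only
    push_cast at h1 ⊢
    omega
  have i4 : ∀ p ∈ TT' μ s a e f xe xf L ρ x, ((a + e : ℕ) : ℤ) + (f : ℕ) < p.1 ∧
      p.1 ≤ ((a + e : ℕ) : ℤ) + (f : ℕ) + (f : ℕ) ∧ l p.1 < p.2 := by
    intro p hp
    have h1 := hT1' p hp
    have h2 := St_up52 hp.1 (A := A2) (by rw [hA2]; unfold sT'; push_cast; ring)
    unfold sT' at h1 h2
    simp only at h1 h2
    rw [hl]
    simp only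
    push_cast at h1 ⊢
    omega
  -- the strips
  have hLw : ∀ y : ℤ, y ≤ x + xe + xf + L → St μ s R ((((a + e : ℕ) : ℤ) + (f : ℕ), y) : Pt) ⊆ {p | p.2 ≤ l p.1} := by
    intro y hy p hp
    have h2 := St_up52 hp (A := A2) (by rw [hA2])
    show p.2 ≤ l p.1
    rw [hl]
    simp only at h2 ⊢
    omega
  have hRw : ∀ y : ℤ, x + xe - L ≤ y → St μ s R (((a + e : ℕ) : ℤ), y) ⊆ {p | l' p.1 ≤ p.2} := by
    intro y hy p hp
    have h2 := St_up52 hp (A := A1) (by rw [hA1])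
    show l' p.1 ≤ p.2
    rw [hl']
    simp only at h2 ⊢
    omega
  have t1 : -Real.log (WR μ s (St μ s R ((((a + e : ℕ) : ℤ) + (f : ℕ), x + xe + xf + L) : Pt)) g
      (((a + e : ℕ) : ℤ) + (f : ℕ), x + xe + xf + L) f xf) ≤ E := by
    have := PS_sh s1
    rwa [show ((((e : ℤ) + f, xe + xf + L) : Pt) + ((a : ℤ), x)) =
      ((((a + e : ℕ) : ℤ) + (f : ℕ), x + xe + xf + L) : Pt) by
        rw [Prod.mk_add_mk, Prod.mk.injEq]
        constructor <;> (push_cast; ring)] at this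
  have t2 : -Real.log (WR μ s (St μ s R ((((a + e : ℕ) : ℤ) + (f : ℕ), x + xe + xf) : Pt)) g
      (((a + e : ℕ) : ℤ) + (f : ℕ), x + xe + xf) f xf) ≤ E := by
    have := PS_sh s2
    rwa [show ((((e : ℤ) + f, xe + xf) : Pt) + ((a : ℤ), x)) =
      ((((a + e : ℕ) : ℤ) + (f : ℕ), x + xe + xf) : Pt) by
        rw [Prod.mk_add_mk, Prod.mk.injEq]
        constructor <;> (push_cast; ring)] at this
  have t3 : -Real.log (WR μ s (St μ s R ((((a + e : ℕ) : ℤ), x + xe - L) : Pt)) g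
      (((a + e : ℕ) : ℤ), x + xe - L) f xf) ≤ E := by
    have := PS_sh s3
    rwa [show ((((e : ℤ), xe - L) : Pt) + ((a : ℤ), x)) = ((((a + e : ℕ) : ℤ), x + xe - L) : Pt) by
        rw [Prod.mk_add_mk, Prod.mk.injEq]
        constructor <;> (push_cast; ring)] at this
  have t4 : -Real.log (WR μ s (St μ s R ((((a + e : ℕ) : ℤ), x + xe) : Pt)) g
      (((a + e : ℕ) : ℤ), x + xe) f xf) ≤ E := by
    have := PS_sh s4
    rwa [show ((((e : ℤ), xe) : Pt) + ((a : ℤ), x)) = ((((a + e : ℕ) : ℤ), x + xe) : Pt) by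
        rw [Prod.mk_add_mk, Prod.mk.injEq]
        constructor <;> (push_cast; ring)] at this
  have u1 := neg_log_mono (hLw (x + xe + xf + L) le_rfl) (hpos _) t1
  have u2 := neg_log_mono (hLw (x + xe + xf) (by omega)) (hpos _) t2
  have u3 := neg_log_mono (hRw (x + xe - L) le_rfl) (hpos _) t3
  have u4 := neg_log_mono (hRw (x + xe) (by omega)) (hpos _) t4
  -- the crossings
  have w1 : WR μ s {p | p.2 ≤ l p.1} g (((a + e : ℕ) : ℤ) + (f : ℕ), x + xe + xf) f (xf + L) ≤ Real.exp (-Q) := by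
    have := PC_sh c1
    rw [show ((((e : ℤ) + f, xe + xf) : Pt) + ((a : ℤ), x)) =
      ((((a + e : ℕ) : ℤ) + (f : ℕ), x + xe + xf) : Pt) by
        rw [Prod.mk_add_mk, Prod.mk.injEq]
        constructor <;> (push_cast; ring)] at this
    exact (WR_le_W _ _ _ _ _).trans this
  have w2 : WR μ s {p | l' p.1 ≤ p.2} g (((a + e : ℕ) : ℤ), x + xe - L) f (xf + L) ≤ Real.exp (-Q) := by
    have := PC_sh c2
    rw [show ((((e : ℤ), xe - L) : Pt) + ((a : ℤ), x)) = ((((a + e : ℕ) : ℤ), x + xe - L) : Pt) by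
        rw [Prod.mk_add_mk, Prod.mk.injEq]
        constructor <;> (push_cast; ring)] at this
    exact (WR_le_W _ _ _ _ _).trans this
  -- the main inequality
  have d1 : x + xe + 2 * xf + L - (x + xe + xf + L) = xf := by ring
  have d2 : x + xe + 2 * xf - (x + xe + xf) = xf := by ring
  have d3 : x + xe + xf - L - (x + xe - L) = xf := by ring
  have d4 : x + xe + xf - (x + xe) = xf := by ring
  have d5 : x + xe + 2 * xf + L - (x + xe + xf) = xf + L := by ring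
  have d6 : x + xe + xf - (x + xe - L) = xf + L := by ring
  have hmain := hB g g' (TT μ s a e f xe L ρ x) (TT' μ s a e f xe xf L ρ x) l l' i1 i2 (a + e) f f (e + r) i3 i4
    (x + xe) (x + xe - L) (x + xe + xf) (x + xe + xf - L) (x + xe + xf + L) (x + xe + 2 * xf) (x + xe + 2 * xf + L)
    (by omega) (by push_cast; omega) (by omega) (by omega) (by omega) (by
      rw [hl', hA1]
      simp only
      rw [show ((a + e : ℕ) : ℤ) + (f : ℤ) - ((a + e : ℕ) : ℤ) = (f : ℤ) by ring, fl_nat, hxf]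
      omega)
    (by
      rw [hl, hA2]
      simp only
      rw [sub_self, fl_zero]
      omega) (by omega)
    (by rw [d1]; exact u1.1) (by rw [d2]; exact u2.1) (by rw [d3]; exact u3.1) (by rw [d4]; exact u4.1)
  rw [d1, d2, d3, d4, d5, d6] at hmain
  have e5 : a + e + f + f + (e + r) = a + ((2 * e + 2 * f) + r) := by ring
  rw [e5] at hmain
  -- the ways
  have m1 := logW_le (μ := μ) (s := s) (g := g) (h := splice (TT μ s a e f xe L ρ x) g' g) (n₁ := a + e + f + f) (n₂ := e)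
    (r := r) (y₁ := x + xe + 2 * xf) (y₂ := ye) (by omega) (by push_cast; omega) (by omega) (by omega)
    (fun p hp => splice_not_mem g' g fun h2 => by
      have h3 := (hT1 p h2).2
      unfold sT at h3
      push_cast at h3 hp
      omega)
  have m2 := Vend_le (μ := μ) (s := s) (g := g) (h := splice (TT' μ s a e f xe xf L ρ x) g' g) (a := a) (n₁ := e + f)
    (n₂ := f + (e + r)) (x := x) (y₁ := xe + xf + L) hx'.1 hx'.2 (by omega) (by push_cast; omega)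
    (fun p hp => splice_not_mem g' g fun h2 => by
      have h3 := (hT1' p h2).1
      unfold sT' at h3
      push_cast at h3 hp
      omega)
  have m3 := logW_le (μ := μ) (s := s) (g := g) (h := splice (TT μ s a e f xe L ρ x) g' g) (n₁ := a + e + f)
    (n₂ := e + f) (r := r) (y₁ := x + xe + xf - L) (y₂ := ye + xf + L) (by omega) (by push_cast; omega) (by omega)
    (by push_cast; omega)
    (fun p hp => splice_not_mem g' g fun h2 => by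
      have h3 := (hT1 p h2).2
      unfold sT at h3
      push_cast at h3 hp
      omega)
  have m4 := Vend_le (μ := μ) (s := s) (g := g) (h := splice (TT' μ s a e f xe xf L ρ x) g' g) (a := a) (n₁ := e)
    (n₂ := f + f + (e + r)) (x := x) (y₁ := xe) hx'.1 hx'.2 (by omega) (by omega)
    (fun p hp => splice_not_mem g' g fun h2 => by
      have h3 := (hT1' p h2).1
      unfold sT' at h3
      push_cast at h3 hp
      omega)
  have n1 : (((a + e + f + f : ℕ) : ℤ) + (e : ℕ), x + xe + 2 * xf + ye) = ze := by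
    rw [hze, hye, Prod.mk.injEq]
    constructor <;> (push_cast; ring)
  have n2 : ((((e : ℤ) + 2 * f, xe + 2 * xf) : Pt) + ((a : ℤ), x)) =
      (((a + e + f + f : ℕ) : ℤ), x + xe + 2 * xf) := by
    rw [Prod.mk_add_mk, Prod.mk.injEq]
    constructor <;> (push_cast; ring)
  have n3 : (((a + e + f : ℕ) : ℤ) + (e + f : ℕ), x + xe + xf - L + (ye + xf + L)) = ze := by
    rw [hze, hye, Prod.mk.injEq]
    constructor <;> (push_cast; ring)
  have n4 : ((((e : ℤ) + f, xe + xf - L) : Pt) + ((a : ℤ), x)) =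
      (((a + e + f : ℕ) : ℤ), x + xe + xf - L) := by
    rw [Prod.mk_add_mk, Prod.mk.injEq]
    constructor <;> (push_cast; ring)
  have n5 : (((a : ℤ) + (e + f : ℕ), x + (xe + xf + L)) : Pt) =
      (((a + e : ℕ) : ℤ) + (f : ℕ), x + xe + xf + L) := by
    rw [Prod.mk.injEq]
    constructor <;> (push_cast; ring)
  have n6 : (((a : ℤ) + (e : ℕ), x + xe) : Pt) = (((a + e : ℕ) : ℤ), x + xe) := by
    rw [Prod.mk.injEq]
    constructor <;> (push_cast; ring)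
  have n7 : a + e + f + f + (e + r) = a + ((2 * e + 2 * f) + r) := by ring
  have n8 : a + (e + f) + (f + (e + r)) = a + ((2 * e + 2 * f) + r) := by ring
  have n9 : a + e + f + (e + f + r) = a + ((2 * e + 2 * f) + r) := by ring
  have n10 : a + e + (f + f + (e + r)) = a + ((2 * e + 2 * f) + r) := by ring
  rw [n2] at q4
  rw [n4] at q6
  rw [n1, n7, ← hVe] at m1
  rw [n5, n8, ← hX₀] at m2
  rw [n3, n9, ← hVe] at m3
  rw [n6, n10, ← hX₀] at m4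
  have hk : ((f : ℕ) : ℝ) ≤ Real.exp E := by
    have h1 : (0 : ℝ) < ((f : ℕ) : ℝ) := by
      have : 0 < f := by omega
      exact_mod_cast this
    rw [← Real.log_le_iff_le_exp h1]
    exact hfE
  show V μ s g 0 (a + ((2 * e + 2 * f) + r)) - V μ s (splice (TT μ s a e f xe L ρ x) g' g) 0 (a + ((2 * e + 2 * f) + r)) -
    V μ s (splice (TT' μ s a e f xe xf L ρ x) g' g) 0 (a + ((2 * e + 2 * f) + r)) +
    V μ s (splice (TT μ s a e f xe L ρ x ∪ TT' μ s a e f xe xf L ρ x) g' g) 0 (a + ((2 * e + 2 * f) + r)) ≤ -E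
  have key := pure_nl (V00 := V μ s g 0 (a + ((2 * e + 2 * f) + r)))
    (M := -X₀ + Ve) (E := E) (G := G) (u := u) (K₁ := K₁) (R := Q) hE (Nat.cast_nonneg _) hk (Nat.cast_nonneg _) hk hmain
    (W_pos _ _ (by omega) (by push_cast; omega)) (W_pos _ _ (by omega) (by push_cast; omega)) (WR_nonneg _ _ _ _ _)
    (WR_nonneg _ _ _ _ _) u1.1 u2.1 u3.1 u4.1 u1.2 u2.2 u3.2 u4.2 w1 w2 (by linarith) (by linarith) (by linarith)
    (by linarith) (by linarith) hG hQ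
  linarith

end

end Pool.Agent.W_7d29a1_HX.XG
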