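import Pool.Agent.W_7d29a1_HX.XG_NLe
import Pool.Agent.W_7d29a1_HS.TubeS
import Pool.Agent.W_7d29a1_HL.Hsl
import Pool.Agent.W_7d29a1_HL.Cor

/-!
TRACK H, part 4 (MP_7d29a1_pr): STORM X at one tilt `s` (model: `W_7d29a1_XG.NLf`), (NL): the lucky tubes, the level and the bad
event of the slab. (helper61)
-/

set_option autoImplicit false

namespace Pool.Agent.W_7d29a1_HX.XG

open MeasureTheory ProbabilityTheory Filter Topology
open Pool.Agent.W_7d29a1_F Pool.Agent.W_7d29a1_h4g Pool.Agent.W_7d29a1_H Pool.Agent.W_7d29a1_HS Pool.Agent.W_7d29a1_HL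
open Pool.Agent.W_7d29a1_L78 Pool.Agent.W_7d29a1_h60
open Pool.Agent.W_7d29a1_f21 (splice)

noncomputable section

variable {μ : Measure ℝ} {s c C : ℝ} {n₀ : ℕ}

/-- Both tubes are lucky. -/
def AL (μ : Measure ℝ) (s : ℝ) (e f : ℕ) (xe xf L : ℤ) (ρ G : ℝ) : Set Env :=
  {η | G ≤ Real.log (cf μ s ρ η ((e : ℤ), xe - 2 * L) f)} ∩
  {η | G ≤ Real.log (cf μ s ρ η (((e + f : ℕ) : ℤ), xe + xf + 2 * L) f)}

theorem cf_sh' (ρ : ℝ) (η : Env) (z p : Pt) (n : ℕ) :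
    cf μ s ρ (sh z η) p n = cS μ s (St μ s ρ (p + z)) η (p + z) n :=
  Finset.sum_congr rfl fun y _ => WR_St_sh ρ z p n y η

theorem AL_sh {a e f : ℕ} {xe xf L x : ℤ} {ρ G : ℝ} {η : Env} (h : sh ((a : ℤ), x) η ∈ AL μ s e f xe xf L ρ G) :
    G ≤ Real.log (cS μ s (St μ s ρ (sT a e xe L x)) η (sT a e xe L x) f) ∧
    G ≤ Real.log (cS μ s (St μ s ρ (sT' a e f xe xf L x)) η (sT' a e f xe xf L x) f) := by
  obtain ⟨h1, h2⟩ := h
  rw [Set.mem_ofPred_eq, cf_sh'] at h1 h2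
  have e1 : (((e : ℤ), xe - 2 * L) : Pt) + ((a : ℤ), x) = sT a e xe L x := by
    unfold sT
    rw [Prod.mk_add_mk, Prod.mk.injEq]
    constructor <;> ring
  have e2 : ((((e + f : ℕ) : ℤ), xe + xf + 2 * L) : Pt) + ((a : ℤ), x) = sT' a e f xe xf L x := by
    unfold sT'
    rw [Prod.mk_add_mk, Prod.mk.injEq]
    constructor <;> (push_cast; ring)
  rw [e1] at h1
  rw [e2] at h2
  exact ⟨h1, h2⟩

theorem AL_meas (e f : ℕ) (xe xf L : ℤ) (ρ G : ℝ) : MeasurableSet (AL μ s e f xe xf L ρ G) :=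
  (measurableSet_le measurable_const (poly_cf (μ := μ) (s := s) _ _ _).measurable.log).inter
    (measurableSet_le measurable_const (poly_cf (μ := μ) (s := s) _ _ _).measurable.log)

variable [IsProbabilityMeasure μ]

theorem AL_prob {e f : ℕ} {xe xf L : ℤ} {ρ G p₀ : ℝ} (hp₀ : 0 ≤ p₀)
    (hp : ∀ a : Pt, p₀ ≤ (law μ).real {η | G ≤ Real.log (cf μ s ρ η a f)}) :
    p₀ ^ 2 ≤ (law μ).real (AL μ s e f xe xf L ρ G) := by
  have hdep : ∀ a : Pt, ∀ η η' : Env, (∀ p ∈ rows a.1 (a.1 + f), η p = η' p) →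
      (η ∈ {η | G ≤ Real.log (cf μ s ρ η a f)} ↔ η' ∈ {η | G ≤ Real.log (cf μ s ρ η a f)}) := by
    intro a η η' hh
    have h1 : cf μ s ρ η a f = cf μ s ρ η' a f :=
      cS_dep (μ := μ) (s := s) (St μ s ρ a) a f fun p hp => hh p hp.2
    rw [Set.mem_ofPred_eq, Set.mem_ofPred_eq, h1]
  unfold AL
  rw [real_inter_indep (μ := μ) (measurableSet_le measurable_const (poly_cf (μ := μ) (s := s) _ _ _).measurable.log)
    (measurableSet_le measurable_const (poly_cf (μ := μ) (s := s) _ _ _).measurable.log) (hdep _) (hdep _)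
    (rows_disj (by push_cast; omega)), sq]
  exact mul_le_mul (hp _) (hp _) hp₀ measureReal_nonneg

theorem lev (h : In μ s c C n₀) (J : ℕ) : ∃ i₁ : ℕ, ∀ i : ℕ, i₁ ≤ i → (i : ℝ) + J + 1 ≤ EE μ s (2 ^ i) := by
  obtain ⟨b, n₁, hb, -, hn1, hp⟩ := EE_pow h
  obtain ⟨q, hq⟩ : ∃ q : ℝ, q = (2 : ℝ) ^ b := ⟨_, rfl⟩
  have hq1 : 1 < q := by
    rw [hq]
    exact Real.one_lt_rpow (by norm_num) hb
  have hn0 : (0 : ℝ) < (n₁ : ℝ) := by exact_mod_cast (show 0 < n₁ by omega)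
  obtain ⟨K, hKd⟩ : ∃ K : ℝ, K = EE μ s n₁ / (2 * (n₁ : ℝ) ^ b) := ⟨_, rfl⟩
  have hnb : (0 : ℝ) < (n₁ : ℝ) ^ b := Real.rpow_pos_of_pos hn0 b
  have hK : 0 < K := by
    rw [hKd]
    exact div_pos (EE_pos (μ := μ) n₁) (by positivity)
  have h1 := tendsto_pow_const_div_const_pow_of_one_lt 1 hq1
  have h2 := tendsto_pow_const_div_const_pow_of_one_lt 0 hq1
  have h3 : Tendsto (fun i : ℕ => (i : ℝ) ^ 1 / q ^ i + ((J : ℝ) + 1) * ((i : ℝ) ^ 0 / q ^ i)) atTop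
      (𝓝 (0 + ((J : ℝ) + 1) * 0)) := h1.add (h2.const_mul _)
  rw [mul_zero, add_zero] at h3
  obtain ⟨i₁, hi₁⟩ := eventually_atTop.1 (h3.eventually_le_const hK)
  refine ⟨max i₁ n₁, fun i hi => ?_⟩
  have h4 := hi₁ i (le_of_max_le_left hi)
  have hq0 : 0 < q ^ i := by positivity
  rw [pow_one, pow_zero, mul_one_div, ← add_div, div_le_iff₀ hq0] at h4
  have hle : n₁ ≤ 2 ^ i := (le_of_max_le_right hi).trans Nat.lt_two_pow_self.le
  have h5 := hp n₁ (2 ^ i) le_rfl hle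
  have h6 : ((2 ^ i : ℕ) : ℝ) ^ b = q ^ i := by
    rw [hq]
    push_cast
    rw [← Real.rpow_natCast, ← Real.rpow_natCast, ← Real.rpow_mul (by norm_num), ← Real.rpow_mul (by norm_num), mul_comm]
  rw [Real.div_rpow (Nat.cast_nonneg _) (Nat.cast_nonneg _), h6] at h5
  have h7 : K * q ^ i = q ^ i / (n₁ : ℝ) ^ b * EE μ s n₁ / 2 := by
    rw [hKd]
    field_simp
  linarith

/-- The event of the second copy and of the first copy. -/
def BD (μ : Measure ℝ) (s : ℝ) (a e f : ℕ) (xe xf ye L : ℤ) (ρ u : ℝ) (x : ℤ) : Set (Env × Env) :=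
  {w | u < C1 μ s a e f xe xf ye L ρ x w} ∪ {w | u < C2 μ s a e f xe xf ye L ρ x w}

omit [IsProbabilityMeasure μ] in
theorem BD_meas (a e f : ℕ) (xe xf ye L : ℤ) (ρ u : ℝ) (x : ℤ) : MeasurableSet (BD μ s a e f xe xf ye L ρ u x) :=
  (measurableSet_lt measurable_const (measurable_Cq _ _ _ _ _)).union
    (measurableSet_lt measurable_const (measurable_Cq _ _ _ _ _))

theorem BD_prob (hEM : Pool.Agent.W_7d29a1_h47.EM μ) {a e f r : ℕ} {xe xf ye L x : ℤ} {ρ u B : ℝ} (hρ : 0 ≤ ρ) (hB : 0 ≤ B)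
    (hu : 0 < u)
    (h1 : ∀ y : ℤ, 0 ≤ y → y ≤ f → |(y : ℝ) - sl μ s * f| ≤ ρ →
      0 ≤ 2 * xf + ye + 2 * L - y ∧ 2 * xf + ye + 2 * L - y ≤ (e + f : ℕ) ∧
        ep μ s (e + f) (2 * xf + ye + 2 * L - y) ≤ B)
    (h2 : ∀ y : ℤ, 0 ≤ y → y ≤ f → |(y : ℝ) - sl μ s * f| ≤ ρ →
      0 ≤ xf + ye - 2 * L - y ∧ xf + ye - 2 * L - y ≤ e ∧ ep μ s e (xf + ye - 2 * L - y) ≤ B)
    {A : Set Env} (hA : MeasurableSet A) :
    ((law μ).prod (law μ)).real ((Ox μ s a (2 * e + 2 * f) r x ×ˢ A) ∩ BD μ s a e f xe xf ye L ρ u x) ≤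
      2 * (B / u) * ((law μ).real (Ox μ s a (2 * e + 2 * f) r x) * (law μ).real A) := by
  have g1 := Cq_markov (μ := μ) (s := s) hEM hρ (o := sT a e xe L x) (le_refl (St μ s ρ (sT a e xe L x))) f (e + f)
    (2 * xf + ye + 2 * L) hB h1 (Ox_meas (μ := μ) (s := s) a (2 * e + 2 * f) r x) hA
    (fun η η' hh => Ox_dep (μ := μ) (s := s) x fun p hp => hh p fun hp2 => hp
      ⟨by
        have := hp2.1
        unfold sT at this
        push_cast at this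
        omega, by
        have := hp2.2
        unfold sT at this
        push_cast at this ⊢
        omega⟩) hu
  have g2 := Cq_markov (μ := μ) (s := s) hEM hρ (o := sT' a e f xe xf L x) (le_refl (St μ s ρ (sT' a e f xe xf L x))) f e
    (xf + ye - 2 * L) hB h2 (Ox_meas (μ := μ) (s := s) a (2 * e + 2 * f) r x) hA
    (fun η η' hh => Ox_dep (μ := μ) (s := s) x fun p hp => hh p fun hp2 => hp
      ⟨by
        have := hp2.1
        unfold sT' at this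
        push_cast at this
        omega, by
        have := hp2.2
        unfold sT' at this
        push_cast at this ⊢
        omega⟩) hu
  have g3 : (Ox μ s a (2 * e + 2 * f) r x ×ˢ A) ∩ BD μ s a e f xe xf ye L ρ u x ⊆
      ((Ox μ s a (2 * e + 2 * f) r x ×ˢ A) ∩ {w : Env × Env | u < Cq μ s (St μ s ρ (sT a e xe L x)) w.2 w.1
        (sT a e xe L x) f (e + f) (2 * xf + ye + 2 * L)}) ∪
      ((Ox μ s a (2 * e + 2 * f) r x ×ˢ A) ∩ {w : Env × Env | u < Cq μ s (St μ s ρ (sT' a e f xe xf L x)) w.2 w.1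
        (sT' a e f xe xf L x) f e (xf + ye - 2 * L)}) := by
    intro w hw
    rcases hw.2 with h3 | h3
    · exact Or.inl ⟨hw.1, h3⟩
    · exact Or.inr ⟨hw.1, h3⟩
  have g4 := measureReal_mono (μ := (law μ).prod (law μ)) g3 (measure_ne_top _ _)
  have g5 := measureReal_union_le (μ := (law μ).prod (law μ))
    ((Ox μ s a (2 * e + 2 * f) r x ×ˢ A) ∩ {w : Env × Env | u < Cq μ s (St μ s ρ (sT a e xe L x)) w.2 w.1
        (sT a e xe L x) f (e + f) (2 * xf + ye + 2 * L)})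
    ((Ox μ s a (2 * e + 2 * f) r x ×ˢ A) ∩ {w : Env × Env | u < Cq μ s (St μ s ρ (sT' a e f xe xf L x)) w.2 w.1
        (sT' a e f xe xf L x) f e (xf + ye - 2 * L)})
  linarith

end

end Pool.Agent.W_7d29a1_HX.XG
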