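import Pool.Agent.W_7d29a1_HS.Lucky
import Pool.Agent.W_7d29a1_HS.Scale
import Pool.Agent.W_7d29a1_G.SecA3
import Pool.Agent.W_7d29a1_L.LsA2

/-!
MP_7d29a1_pr, TRACK H, part 4 (row 663), block X5a: exponential moments of a long block at the tilt `s`. (Model: the first part of
`W_7d29a1_X.Sub`; the second part, (SUB), is `HX/X_Sub`.) `block_exp`: exponential moments of `log Z_(M n) - M n lam` in the unit of
the scale `n`. (helper76)
-/

set_option autoImplicit false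

namespace Pool.Agent.W_7d29a1_HX.X

open MeasureTheory ProbabilityTheory Filter Topology
open Pool.Agent.W_7d29a1_F Pool.Agent.W_7d29a1_h4g Pool.Agent.W_7d29a1_H Pool.Agent.W_7d29a1_L
open Pool.Agent.W_7d29a1_HS Pool.Agent.W_7d29a1_G20

variable {μ : Measure ℝ} [IsProbabilityMeasure μ] {s c C : ℝ} {n₀ : ℕ}

omit [IsProbabilityMeasure μ] in
/-- A sum over distinct displacements is at most the sum over all displacements. -/
private lemma sum_inj_le' (f : ℤ → ℝ) {n : ℕ} (h0 : ∀ y, 0 ≤ f y) (hz : ∀ y, ¬ (0 ≤ y ∧ y ≤ (n : ℤ)) → f y = 0) (m : ℕ)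
    (a : ℤ) : ∑ l ∈ Finset.range m, f (a + l) ≤ ∑ y ∈ Finset.Icc (0 : ℤ) n, f y := by
  classical
  have h1 : ∑ l ∈ Finset.range m, f (a + l) = ∑ y ∈ (Finset.range m).image (fun l : ℕ => a + (l : ℤ)), f y := by
    rw [Finset.sum_image]
    intro x _ y _ hxy
    simpa using hxy
  rw [h1, ← Finset.sum_filter_add_sum_filter_not _ (fun y => 0 ≤ y ∧ y ≤ (n : ℤ))]
  have h2 : ∑ y ∈ ((Finset.range m).image (fun l : ℕ => a + (l : ℤ))).filter (fun y => ¬ (0 ≤ y ∧ y ≤ (n : ℤ))), f y = 0 :=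
    Finset.sum_eq_zero fun y hy => hz y (Finset.mem_filter.1 hy).2
  rw [h2, add_zero]
  refine Finset.sum_le_sum_of_subset_of_nonneg (fun y hy => ?_) fun y _ _ => h0 y
  rw [Finset.mem_Icc]
  exact (Finset.mem_filter.1 hy).2

/-- The kernel between two cells, by the tilted lucks of the box. -/
theorem Bk_le_Mh (hs0 : 0 < sl μ s) (hs1 : sl μ s < 1) {w n : ℕ} {h1 κ r : ℝ} (hw : 0 < w) (hr : (w : ℝ) ≤ r) (h10 : 0 ≤ h1) (h11 : h1 ≤ 1)
    (hκ0 : 0 ≤ κ) (hκ : κ ≤ h1 * w) (k : ℤ) (η : Env) :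
    Bk μ s w n (md μ s n) k η ≤ (Real.exp (Mh μ s (sl μ s) (-h1) r (-(1 / 2)) (4 * n) η) +
      Real.exp (Mh μ s (sl μ s) h1 r (-(1 / 2)) (4 * n) η)) * Real.exp (-far κ k) := by
  haveI : Nonempty (Fin w) := ⟨⟨0, hw⟩⟩
  have hw1 : (1 : ℝ) ≤ w := by exact_mod_cast hw
  have N : Nm (sl μ s) w (-h1) 0 h1 κ := by
    refine ⟨hs0.le, hs1.le, hw1, ?_, ?_, by linarith, h10, hκ0, ?_, ?_⟩
    · rw [abs_neg, abs_of_nonneg h10]
      exact h11
    · rw [abs_of_nonneg h10]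
      exact h11
    · linarith
    · linarith
  refine ciSup_le fun i => ?_
  obtain ⟨i, hi⟩ := i
  show ∑ l ∈ Finset.range w, W μ s η (0, (i : ℤ)) n (md μ s n + k * w + l - (i : ℕ)) ≤ _
  have hbx : (((0, (i : ℤ)), n) : (ℕ × ℤ) × ℕ) ∈ Bx (sl μ s) r (-(1 / 2)) (4 * n) := by
    rw [mem_Bx hs0.le hs1.le]
    refine ⟨?_, ?_, ?_⟩
    · show 0 + n ≤ 4 * n
      omega
    · show -(1 / 2 : ℝ) < ((i : ℤ) : ℝ) - sl μ s * ((0 : ℕ) : ℝ)
      push_cast
      have : (0 : ℝ) ≤ i := Nat.cast_nonneg i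
      linarith
    · show ((i : ℤ) : ℝ) - sl μ s * ((0 : ℕ) : ℝ) ≤ -(1 / 2) + r
      push_cast
      have : (i : ℝ) + 1 ≤ w := by exact_mod_cast hi
      linarith
  have hT : ∀ h' : ℝ, ∑ l ∈ Finset.range w, W μ s η (0, (i : ℤ)) n (md μ s n + k * w + l - (i : ℕ)) *
      Real.exp (h' * (((md μ s n + k * w + l - (i : ℕ) : ℤ) : ℝ) - sl μ s * n)) ≤
      Real.exp (Mh μ s (sl μ s) h' r (-(1 / 2)) (4 * n) η) := by
    intro h'
    have h1 := le_Mh (μ := μ) (s := s) (h := h') η hbx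
    refine le_trans ?_ (Real.exp_le_exp.2 h1)
    have h2 : Real.exp (T μ s (sl μ s) h' η (((0 : ℕ) : ℤ), (i : ℤ)) n) =
      ∑ y ∈ Finset.Icc (0 : ℤ) n, W μ s η (((0 : ℕ) : ℤ), (i : ℤ)) n y * Real.exp (h' * ((y : ℝ) - sl μ s * n)) :=
      exp_T η _ n
    show _ ≤ Real.exp (T μ s (sl μ s) h' η (((0 : ℕ) : ℤ), (i : ℤ)) n)
    rw [h2]
    have h3 := sum_inj_le' (fun y : ℤ => W μ s η (((0 : ℕ) : ℤ), (i : ℤ)) n y * Real.exp (h' * ((y : ℝ) - sl μ s * n)))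
      (n := n) (fun y => mul_nonneg (W_nonneg _ _ _ _) (Real.exp_pos _).le)
      (fun y hy => by rw [W_eq_zero η _ hy, zero_mul]) w (md μ s n + k * w - (i : ℕ))
    refine le_trans (le_of_eq ?_) h3
    refine Finset.sum_congr rfl fun l _ => ?_
    have e : md μ s n + k * w + l - (i : ℕ) = md μ s n + k * w - (i : ℕ) + (l : ℤ) := by ring
    rw [e]
    rfl
  have h3 : ∀ l ∈ Finset.range w, W μ s η (0, (i : ℤ)) n (md μ s n + k * w + l - (i : ℕ)) ≤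
      (W μ s η (0, (i : ℤ)) n (md μ s n + k * w + l - (i : ℕ)) *
        Real.exp (-h1 * (((md μ s n + k * w + l - (i : ℕ) : ℤ) : ℝ) - sl μ s * n)) +
      W μ s η (0, (i : ℤ)) n (md μ s n + k * w + l - (i : ℕ)) *
        Real.exp (h1 * (((md μ s n + k * w + l - (i : ℕ) : ℤ) : ℝ) - sl μ s * n))) * Real.exp (-far κ k) := by
    intro l hl
    rw [Finset.mem_range] at hl
    have hl' : (l : ℝ) + 1 ≤ w := by exact_mod_cast hl
    have hi' : (i : ℝ) + 1 ≤ w := by exact_mod_cast hi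
    have hl0 : (0 : ℝ) ≤ l := Nat.cast_nonneg l
    have hi0 : (0 : ℝ) ≤ i := Nat.cast_nonneg i
    have hd1 := md_le (μ := μ) (s := s) n
    have hd2 := lt_md (μ := μ) (s := s) n
    obtain ⟨u, hu⟩ : ∃ u : ℝ, u = ((md μ s n + k * w + l - (i : ℕ) : ℤ) : ℝ) - sl μ s * n := ⟨_, rfl⟩
    have hu' : u = ((md μ s n : ℤ) : ℝ) + k * w + l - i - sl μ s * n := by
      rw [hu]
      push_cast
      ring
    have h4 := tilt_le N (u := u) (j := k) (by rw [hu']; linarith) (by rw [hu']; linarith)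
    rw [zero_mul, Real.exp_zero] at h4
    rw [← hu, ← mul_add, mul_assoc]
    exact le_mul_of_one_le_right (W_nonneg _ _ _ _) h4
  refine (Finset.sum_le_sum h3).trans ?_
  rw [← Finset.sum_mul, Finset.sum_add_distrib]
  exact mul_le_mul_of_nonneg_right (add_le_add (hT _) (hT _)) (Real.exp_pos _).le

/-- The moment of one block, for the cells of the width of the cone. -/
theorem Mom_of (h : In μ s c C n₀) : ∃ ρ A : ℝ, 0 ≤ ρ ∧ ρ < 1 ∧ 1 ≤ A ∧ ∃ n₁ : ℕ, ∀ n, n₁ ≤ n →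
    0 < ⌊wd μ s n⌋₊ ∧ Mom μ s (1 / (C * EE μ s n)) ⌊wd μ s n⌋₊ n (md μ s n) A ρ := by
  obtain ⟨c', hc', n1, hn1⟩ := wd_ge h
  obtain ⟨n2, hn2⟩ := Filter.eventually_atTop.1 ((wd_tendsto h).eventually_ge_atTop 2)
  have hc := h.c0
  have hC1 := h.C1
  have hC0 : 0 < C := lt_of_lt_of_le one_pos hC1
  obtain ⟨b, hb⟩ : ∃ b, b = min c c' := ⟨_, rfl⟩
  have hb0 : 0 < b := by rw [hb]; exact lt_min hc hc'
  have hbc : b ≤ c := by rw [hb]; exact min_le_left _ _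
  have hbc' : b ≤ c' := by rw [hb]; exact min_le_right _ _
  have hbC : 0 < b / (6 * C) := by positivity
  refine ⟨Real.exp (-(b / (6 * C))), 2 * C * Real.exp (b / (2 * C)), (Real.exp_pos _).le,
    Real.exp_lt_one_iff.2 (by linarith), ?_, max n₀ (max n1 n2), fun n hn => ?_⟩
  · have h1 : 1 ≤ Real.exp (b / (2 * C)) := Real.one_le_exp (by positivity)
    nlinarith
  have hw2 := hn2 n ((le_max_right _ _).trans ((le_max_right _ _).trans hn))
  have hwE := hn1 n ((le_max_left _ _).trans ((le_max_right _ _).trans hn))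
  have hE := EE_pos (μ := μ) (s := s) n
  have hE1 := one_le_EE (μ := μ) (s := s) n
  have hwd : 0 < wd μ s n := by linarith
  have hfl1 : (⌊wd μ s n⌋₊ : ℝ) ≤ wd μ s n := Nat.floor_le hwd.le
  have hfl2 : wd μ s n < ⌊wd μ s n⌋₊ + 1 := Nat.lt_floor_add_one _
  have hw0 : 0 < ⌊wd μ s n⌋₊ := Nat.floor_pos.2 (by linarith)
  refine ⟨hw0, fun k => ?_⟩
  obtain ⟨h1, hh1⟩ : ∃ h1 : ℝ, h1 = b * EE μ s n / wd μ s n := ⟨_, rfl⟩
  have h10 : 0 ≤ h1 := by rw [hh1]; positivity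
  have h11 : h1 ≤ 1 := by
    rw [hh1, div_le_one hwd]
    exact (mul_le_mul_of_nonneg_right hbc' hE.le).trans hwE
  have h1w : h1 * wd μ s n = b * EE μ s n := by rw [hh1]; field_simp
  have hκ : b * EE μ s n / 2 ≤ h1 * (⌊wd μ s n⌋₊ : ℝ) := by
    have e1 : wd μ s n / 2 ≤ (⌊wd μ s n⌋₊ : ℝ) := by linarith
    have e2 := mul_le_mul_of_nonneg_left e1 h10
    have e3 : h1 * (wd μ s n / 2) = b * EE μ s n / 2 := by rw [← h1w]; ring
    linarith
  have hlk : ∀ h' : ℝ, |h'| ≤ h1 →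
      ∫ η, Real.exp (Mh μ s (sl μ s) h' (wd μ s n) (-(1 / 2)) (4 * n) η / (C * EE μ s n)) ∂(law μ) ≤ C := by
    intro h' hh'
    refine h.luck n ((le_max_left _ _).trans hn) h' _ ?_
    have e1 := mul_le_mul_of_nonneg_right hh' hwd.le
    have e2 := mul_le_mul_of_nonneg_right hbc hE.le
    linarith
  obtain ⟨θ, hθ⟩ : ∃ θ : ℝ, θ = 1 / (C * EE μ s n) := ⟨_, rfl⟩
  have hCE : 1 ≤ C * EE μ s n := by nlinarith
  have hCE0 : 0 < C * EE μ s n := by linarith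
  have hθ0 : 0 < θ := by rw [hθ]; positivity
  have hθ1 : θ ≤ 1 := by rw [hθ, div_le_one hCE0]; exact hCE
  rw [← hθ]
  obtain ⟨M1, hM1⟩ : ∃ M1 : Env → ℝ, M1 = fun η => Mh μ s (sl μ s) (-h1) (wd μ s n) (-(1 / 2)) (4 * n) η := ⟨_, rfl⟩
  obtain ⟨M2, hM2⟩ : ∃ M2 : Env → ℝ, M2 = fun η => Mh μ s (sl μ s) h1 (wd μ s n) (-(1 / 2)) (4 * n) η := ⟨_, rfl⟩
  have hM1S : Sub M1 := by rw [hM1]; exact Sub_Mh
  have hM2S : Sub M2 := by rw [hM2]; exact Sub_Mh
  have hpt : ∀ η, Bk μ s ⌊wd μ s n⌋₊ n (md μ s n) k η ^ θ ≤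
      (Real.exp (θ * M1 η) + Real.exp (θ * M2 η)) * Real.exp (-(θ * far (b * EE μ s n / 2) k)) := by
    intro η
    have e1 := Bk_le_Mh (μ := μ) (s := s) h.sl_pos h.sl_lt (n := n) hw0 hfl1 h10 h11 (κ := b * EE μ s n / 2) (by positivity) hκ k η
    have e2 := Real.rpow_le_rpow ((Bk_dom (μ := μ) hw0 _ _ _).nonneg η) e1 hθ0.le
    refine e2.trans ?_
    rw [Real.mul_rpow (by positivity) (Real.exp_pos _).le, ← Real.exp_mul]
    have e3 := Real.rpow_add_le_add_rpow (Real.exp_pos (Mh μ s (sl μ s) (-h1) (wd μ s n) (-(1 / 2)) (4 * n) η)).le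
      (Real.exp_pos (Mh μ s (sl μ s) h1 (wd μ s n) (-(1 / 2)) (4 * n) η)).le hθ0.le hθ1
    rw [← Real.exp_mul, ← Real.exp_mul] at e3
    have e4 : Real.exp (-far (b * EE μ s n / 2) k * θ) = Real.exp (-(θ * far (b * EE μ s n / 2) k)) := by
      congr 1
      ring
    rw [e4]
    refine mul_le_mul_of_nonneg_right (e3.trans (le_of_eq ?_)) (Real.exp_pos _).le
    rw [hM1, hM2, mul_comm θ, mul_comm θ]
  have hI1 := (hM1S.const_mul θ).exp_int h.em
  have hI2 := (hM2S.const_mul θ).exp_int h.em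
  have h5 := integral_mono ((Bk_dom (μ := μ) (s := s) hw0 n (md μ s n) k).rpow_int h.em hθ0.le)
    ((hI1.add hI2).mul_const (Real.exp (-(θ * far (b * EE μ s n / 2) k)))) hpt
  refine h5.trans ?_
  have h6 : ∫ η, (Real.exp (θ * M1 η) + Real.exp (θ * M2 η)) * Real.exp (-(θ * far (b * EE μ s n / 2) k)) ∂(law μ) =
      ((∫ η, Real.exp (θ * M1 η) ∂(law μ)) + ∫ η, Real.exp (θ * M2 η) ∂(law μ)) *
      Real.exp (-(θ * far (b * EE μ s n / 2) k)) := by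
    rw [integral_mul_const, integral_add hI1 hI2]
  have h7 : ∀ x : ℝ, θ * x = x / (C * EE μ s n) := fun x => by rw [hθ]; ring
  have h8 : ∫ η, Real.exp (θ * M1 η) ∂(law μ) ≤ C := by
    have := hlk (-h1) (by rw [abs_neg, abs_of_nonneg h10])
    rw [hM1]
    simp only [h7]
    exact this
  have h9 : ∫ η, Real.exp (θ * M2 η) ∂(law μ) ≤ C := by
    have := hlk h1 (by rw [abs_of_nonneg h10])
    rw [hM2]
    simp only [h7]
    exact this
  have h10' : Real.exp (-(θ * far (b * EE μ s n / 2) k)) ≤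
      Real.exp (b / (2 * C)) * Real.exp (-(b / (6 * C))) ^ (3 * k.natAbs) := by
    rw [← Real.exp_nat_mul, ← Real.exp_add]
    refine Real.exp_le_exp.2 ?_
    have e1 : θ * far (b * EE μ s n / 2) k = b / (2 * C) * max (|(k : ℝ)| - 1) 0 := by
      unfold Pool.Agent.W_7d29a1_L.far
      rw [hθ]
      field_simp
    have e2 : ((3 * k.natAbs : ℕ) : ℝ) = 3 * |(k : ℝ)| := by
      push_cast
      rw [Nat.cast_natAbs, Int.cast_abs]
    have e3 : |(k : ℝ)| - 1 ≤ max (|(k : ℝ)| - 1) 0 := le_max_left _ _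
    have e4 := mul_le_mul_of_nonneg_left e3 (show 0 ≤ b / (2 * C) by positivity)
    rw [e1, e2]
    have e5 : 3 * |(k : ℝ)| * -(b / (6 * C)) = -(b / (2 * C) * |(k : ℝ)|) := by
      field_simp
      ring
    rw [e5]
    linarith
  calc ∫ η, (Real.exp (θ * M1 η) + Real.exp (θ * M2 η)) * Real.exp (-(θ * far (b * EE μ s n / 2) k)) ∂(law μ)
      = _ := h6
    _ ≤ (C + C) * (Real.exp (b / (2 * C)) * Real.exp (-(b / (6 * C))) ^ (3 * k.natAbs)) :=
        mul_le_mul (add_le_add h8 h9) h10' (Real.exp_pos _).le (by linarith)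
    _ = _ := by ring

/-- EXPONENTIAL MOMENTS OF A LONG BLOCK in the unit of the scale `n`. -/
theorem block_exp (h : In μ s c C n₀) : ∃ A : ℝ, 1 ≤ A ∧ ∃ n₁ : ℕ, ∀ n, n₁ ≤ n → ∀ M : ℕ,
    ∫ η, Real.exp (V μ s η 0 (M * n) / (C * EE μ s n)) ∂(law μ) ≤ A ^ M := by
  obtain ⟨ρ, A, hρ0, hρ1, hA, n1, hn1⟩ := Mom_of h
  have hg := one_le_two_div hρ0 hρ1
  have hC1 := h.C1
  refine ⟨A * (2 / (1 - ρ)), by nlinarith, n1, fun n hn M => ?_⟩
  obtain ⟨hw0, hM⟩ := hn1 n hn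
  have hE1 := one_le_EE (μ := μ) (s := s) n
  have hCE : 1 ≤ C * EE μ s n := by nlinarith
  have hCE0 : 0 < C * EE μ s n := by linarith
  obtain ⟨θ, hθ⟩ : ∃ θ : ℝ, θ = 1 / (C * EE μ s n) := ⟨_, rfl⟩
  have hθ0 : 0 < θ := by rw [hθ]; positivity
  have hθ1 : θ ≤ 1 := by rw [hθ, div_le_one hCE0]; exact hCE
  rw [← hθ] at hM
  have h1 := Gk_iter h.em hθ0 hθ1 hw0 (d := md μ s n) (h.md_nonneg n) (h.md_le_nat n) hA hρ0 hρ1 hM M
  refine le_trans ?_ h1
  have h2 : ∀ η, Real.exp (V μ s η 0 (M * n) / (C * EE μ s n)) ≤ Gk μ s ⌊wd μ s n⌋₊ (M * n) η ^ θ := by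
    intro η
    have e1 := le_Gk (μ := μ) (s := s) (M * n) η 0 hw0
    have e2 : Real.exp (V μ s η 0 (M * n) / (C * EE μ s n)) = Real.exp (V μ s η 0 (M * n)) ^ θ := by
      rw [← Real.exp_mul, hθ]
      congr 1
      ring
    rw [e2]
    exact Real.rpow_le_rpow (Real.exp_pos _).le e1 hθ0.le
  refine integral_mono ?_ ((Gk_dom (μ := μ) (s := s) hw0 (M * n)).rpow_int h.em hθ0.le) h2
  have e3 := ((Sub_V (μ := μ) (s := s) 0 (M * n)).const_mul θ).exp_int h.em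
  refine (congrArg (fun f => Integrable f (law μ)) (funext fun η => ?_)).mp e3
  show Real.exp (θ * V μ s η 0 (M * n)) = _
  rw [hθ]
  congr 1
  ring

/-- The upper tail of a long block. -/
theorem block_tail (h : In μ s c C n₀) : ∃ A : ℝ, 1 ≤ A ∧ ∃ n₁ : ℕ, ∀ n, n₁ ≤ n → ∀ (M : ℕ) (Y : ℝ),
    (law μ).real {η | Y ≤ V μ s η 0 (M * n)} ≤ A ^ M * Real.exp (-(Y / (C * EE μ s n))) := by
  obtain ⟨A, hA, n1, hn1⟩ := block_exp h
  refine ⟨A, hA, n1, fun n hn M Y => ?_⟩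
  have hE := EE_pos (μ := μ) (s := s) n
  have hC0 : 0 < C := lt_of_lt_of_le one_pos h.C1
  have hCE : 0 < C * EE μ s n := by positivity
  have hI : Integrable (fun η => Real.exp (V μ s η 0 (M * n) / (C * EE μ s n))) (law μ) := by
    have e3 := ((Sub_V (μ := μ) (s := s) 0 (M * n)).const_mul (1 / (C * EE μ s n))).exp_int h.em
    refine (congrArg (fun f => Integrable f (law μ)) (funext fun η => ?_)).mp e3
    show Real.exp (1 / (C * EE μ s n) * V μ s η 0 (M * n)) = _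
    congr 1
    ring
  have h1 := mul_meas_ge_le_integral_of_nonneg (μ := law μ)
    (f := fun η => Real.exp (V μ s η 0 (M * n) / (C * EE μ s n)))
    (Filter.Eventually.of_forall fun η => (Real.exp_pos _).le) hI (Real.exp (Y / (C * EE μ s n)))
  have h2 : {η | Y ≤ V μ s η 0 (M * n)} ⊆
      {η | Real.exp (Y / (C * EE μ s n)) ≤ Real.exp (V μ s η 0 (M * n) / (C * EE μ s n))} := by
    intro η hη
    exact Real.exp_le_exp.2 (div_le_div_of_nonneg_right hη hCE.le)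
  have h3 := (mul_le_mul_of_nonneg_left (measureReal_mono (μ := law μ) h2 (measure_ne_top _ _))
    (Real.exp_pos (Y / (C * EE μ s n))).le).trans (h1.trans (hn1 n hn M))
  rw [Real.exp_neg, ← div_eq_mul_inv, le_div_iff₀ (Real.exp_pos _), mul_comm]
  exact h3

end Pool.Agent.W_7d29a1_HX.X
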